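import Pool.Agent.RieszTr.Phi1

set_option autoImplicit false

open Real Finset

namespace Pool.Agent.RieszTr

open Pool.Agent.RieszSmall Pool.Agent.RieszLin

section

variable {ι : Type*} [Fintype ι] [DecidableEq ι] {V : Type*} [NormedAddCommGroup V]
  [InnerProductSpace ℝ V]

namespace DualAux

omit [DecidableEq ι] in
lemma bil (x : ι → V) (f g : ι → ℝ) :
    ∑ i, ∑ j, (f i * g j) * (inner ℝ (x i) (x j) : ℝ)
      = inner ℝ (∑ i, f i • x i) (∑ j, g j • x j) := by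
  rw [sum_inner]
  refine Finset.sum_congr rfl (fun i _ => ?_)
  rw [inner_sum]
  refine Finset.sum_congr rfl (fun j _ => ?_)
  rw [real_inner_smul_left, real_inner_smul_right]
  ring

omit [DecidableEq ι] in
lemma sumK {x : ι → V} {a : ι → ℝ} (hax : ∑ i, a i • x i = 0) (v w : ι → ℝ) :
    ∑ i, ∑ j, (v i * v j + a i * w j + a j * w i) * (inner ℝ (x i) (x j) : ℝ)
      = ‖∑ i, v i • x i‖ ^ 2 := by
  have h1 := bil x v v
  have h2 := bil x a w
  have h3 := bil x w a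
  rw [hax, inner_zero_left] at h2
  rw [hax, inner_zero_right] at h3
  rw [real_inner_self_eq_norm_sq] at h1
  have h4 : ∀ i, ∑ j, (v i * v j + a i * w j + a j * w i) * (inner ℝ (x i) (x j) : ℝ)
      = ∑ j, (v i * v j) * (inner ℝ (x i) (x j) : ℝ)
        + ∑ j, (a i * w j) * (inner ℝ (x i) (x j) : ℝ)
        + ∑ j, (w i * a j) * (inner ℝ (x i) (x j) : ℝ) := by
    intro i
    rw [← Finset.sum_add_distrib, ← Finset.sum_add_distrib]
    refine Finset.sum_congr rfl (fun j _ => ?_)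
    ring
  simp only [h4]
  rw [Finset.sum_add_distrib, Finset.sum_add_distrib, h1, h2, h3]
  ring

/-- the sum of the lower bounds -/
lemma sumG {x : ι → V} (hx : ∀ i, ‖x i‖ = 1) {a : ι → ℝ}
    (hax : ∑ i, a i • x i = 0) {q : ℝ} (v w : ι → ℝ) :
    offsum (fun i j => Phi q (v i * v j + a i * w j + a j * w i)
      + q * (v i * v j + a i * w j + a j * w i) * (1 - (1 - (inner ℝ (x i) (x j) : ℝ))))
      = BB q a v w + q * ‖∑ i, v i • x i‖ ^ 2 := by
  rw [offsum_add]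
  have h1 : offsum (fun i j => q * (v i * v j + a i * w j + a j * w i)
      * (1 - (1 - (inner ℝ (x i) (x j) : ℝ))))
      = q * offsum (fun i j => (v i * v j + a i * w j + a j * w i)
        * (inner ℝ (x i) (x j) : ℝ)) := by
    rw [← offsum_mul]
    refine offsum_congr (fun i j _ => ?_)
    ring
  have h2 : offsum (fun i j => (v i * v j + a i * w j + a j * w i)
        * (inner ℝ (x i) (x j) : ℝ)) = ‖∑ i, v i • x i‖ ^ 2
        - ∑ i, (v i ^ 2 + 2 * a i * w i) := by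
    rw [offsum_eq, sumK hax]
    congr 1
    refine Finset.sum_congr rfl (fun i _ => ?_)
    rw [real_inner_self_eq_norm_sq, hx i]
    ring
  rw [h1, h2]
  unfold BB
  ring

omit [Fintype ι] [DecidableEq ι] in
lemma inner_ge {x : ι → V} (hx : ∀ i, ‖x i‖ = 1) (i j : ι) :
    1 - (inner ℝ (x i) (x j) : ℝ) ≤ 2 := by
  have h := abs_real_inner_le_norm (x i) (x j)
  rw [hx, hx, one_mul] at h
  have h2 := neg_le_of_abs_le h
  linarith

omit [Fintype ι] [DecidableEq ι] in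
lemma le_pt {x : ι → V} (hx : ∀ i, ‖x i‖ = 1)
    (hlt : ∀ i j, i ≠ j → (inner ℝ (x i) (x j) : ℝ) < 1) {a : ι → ℝ}
    {q : ℝ} (hq : 0 < q) (v w : ι → ℝ) (i j : ι) (hij : i ≠ j) :
    Phi q (v i * v j + a i * w j + a j * w i)
      + q * (v i * v j + a i * w j + a j * w i) * (1 - (1 - (inner ℝ (x i) (x j) : ℝ)))
      ≤ (1 - (inner ℝ (x i) (x j) : ℝ)) ^ (-q) :=
  Phi_tangent hq (by linarith [hlt i j hij]) (inner_ge hx i j)

lemma En_eq (q : ℝ) (x : ι → V) :
    En q x = offsum (fun i j => (1 - (inner ℝ (x i) (x j) : ℝ)) ^ (-q)) := rfl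

end DualAux

/-- MODULE RT4. The dual bound. Write `D i j = 1 - ⟪x i, x j⟫ ∈ (0, 2]` for `i ≠ j` (upper bound:
`real_inner_le_norm`/`abs_real_inner_le_norm`), `K i j = v i v j + a i w j + a j w i`.
`Phi_tangent`: `Φ(K i j) + q K i j ⟪x i, x j⟫ ≤ D i j ^ (-q)`. Sum over `i ≠ j`:
`En q x ≥ offsum (Φ ∘ K) + q * offsum (K i j ⟪x i, x j⟫)`, and
`offsum (K i j ⟪x i, x j⟫) = ∑∑ K i j ⟪x i, x j⟫ - ∑ K i i` (`‖x i‖ = 1`), where
`∑∑ K i j ⟪x i, x j⟫ = ‖∑ v i • x i‖² + 2 ⟪∑ a i • x i, ∑ w j • x j⟫ = ‖∑ v i • x i‖² ≥ 0`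
and `K i i = v i ^ 2 + 2 a i w i`. -/
theorem dual {x : ι → V} (hx : ∀ i, ‖x i‖ = 1)
    (hlt : ∀ i j, i ≠ j → (inner ℝ (x i) (x j) : ℝ) < 1) {a : ι → ℝ}
    (hax : ∑ i, a i • x i = 0) {q : ℝ} (hq : 0 < q) (v w : ι → ℝ) :
    BB q a v w ≤ En q x := by
  have h1 := DualAux.sumG hx hax (q := q) v w
  have h2 := offsum_le (fun i j hij => DualAux.le_pt hx hlt (a := a) hq v w i j hij)
  rw [h1, ← DualAux.En_eq] at h2
  have h3 : 0 ≤ q * ‖∑ i, v i • x i‖ ^ 2 := by positivity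
  linarith

/-- Equality case: all the inequalities `Phi_tangent` are equalities, use `Phi_tangent_eq`. -/
theorem dual_eq {x : ι → V} (hx : ∀ i, ‖x i‖ = 1)
    (hlt : ∀ i j, i ≠ j → (inner ℝ (x i) (x j) : ℝ) < 1) {a : ι → ℝ}
    (hax : ∑ i, a i • x i = 0) {q : ℝ} (hq : 0 < q) (v w : ι → ℝ)
    (hK : ∀ i j, i ≠ j → (2 : ℝ) ^ (-(q + 1)) ≤ v i * v j + a i * w j + a j * w i)
    (h : En q x ≤ BB q a v w) :
    ∀ i j, i ≠ j → (1 - (inner ℝ (x i) (x j) : ℝ)) ^ (-(q + 1))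
      = v i * v j + a i * w j + a j * w i := by
  intro i j hij
  have h1 := DualAux.sumG hx hax (q := q) v w
  have h3 : 0 ≤ q * ‖∑ i, v i • x i‖ ^ 2 := by positivity
  have hpt := DualAux.le_pt hx hlt (a := a) hq v w
  have h2 := offsum_le hpt
  have heq : offsum (fun i j => Phi q (v i * v j + a i * w j + a j * w i)
      + q * (v i * v j + a i * w j + a j * w i) * (1 - (1 - (inner ℝ (x i) (x j) : ℝ))))
      = offsum (fun i j => (1 - (inner ℝ (x i) (x j) : ℝ)) ^ (-q)) := by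
    refine le_antisymm h2 ?_
    rw [← DualAux.En_eq, h1]
    linarith
  have hle : ∀ i j, (if i = j then 0 else Phi q (v i * v j + a i * w j + a j * w i)
      + q * (v i * v j + a i * w j + a j * w i) * (1 - (1 - (inner ℝ (x i) (x j) : ℝ))))
      ≤ (if i = j then 0 else (1 - (inner ℝ (x i) (x j) : ℝ)) ^ (-q)) := by
    intro i j
    split_ifs with h
    · exact le_rfl
    · exact hpt i j h
  unfold offsum at heq
  have h4 := (Finset.sum_eq_sum_iff_of_le
    (fun i _ => Finset.sum_le_sum (fun j _ => hle i j))).1 heq i (Finset.mem_univ i)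
  have h5 := (Finset.sum_eq_sum_iff_of_le (fun j _ => hle i j)).1 h4 j (Finset.mem_univ j)
  simp only [if_neg hij] at h5
  exact Phi_tangent_eq hq (by linarith [hlt i j hij]) (hK i j hij) h5

end

end Pool.Agent.RieszTr
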