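import Pool.Agent.RieszTr.PartL
import Pool.Agent.RieszTr.Dual

set_option autoImplicit false

open Real Finset

namespace Pool.Agent.RieszTr

open Pool.Agent.RieszSmall Pool.Agent.RieszLin

namespace BlkEqAux

lemma Phi_one {q : ℝ} (hq : 0 < q) : Phi q 1 = 1 := by
  have h1 : (2 : ℝ) ^ (-(q + 1)) ≤ 1 := by
    rw [← Real.rpow_zero 2]
    exact Real.rpow_le_rpow_of_exponent_le (by norm_num) (by linarith)
  rw [Phi_of_le h1, Real.one_rpow]
  ring

section

variable {ι : Type*} [Fintype ι] [DecidableEq ι]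

lemma sum_split2 {i1 i2 : ι} (hne : i1 ≠ i2) (g : ι → ℝ) {c : ℝ}
    (hg : ∀ z, z ≠ i1 → z ≠ i2 → g z = c) :
    ∑ i, g i = g i1 + g i2 + ((Fintype.card ι : ℝ) - 2) * c := by
  have h1 : (univ : Finset ι) = insert i1 (insert i2 ((univ.erase i1).erase i2)) := by
    ext z
    simp only [mem_univ, mem_insert, mem_erase, ne_eq, and_true, true_iff]
    tauto
  have h2 : i2 ∉ (univ.erase i1).erase i2 := by simp
  have h3 : i1 ∉ insert i2 ((univ.erase i1).erase i2) := by simp [hne]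
  have h4 : (((univ.erase i1).erase i2 : Finset ι).card : ℝ) = (Fintype.card ι : ℝ) - 2 := by
    have h5 : i2 ∈ univ.erase i1 := by simp [hne.symm]
    rw [card_erase_of_mem h5, card_erase_of_mem (mem_univ i1), card_univ]
    have h6 : 2 ≤ Fintype.card ι := by
      have : ({i1, i2} : Finset ι).card ≤ Fintype.card ι := card_le_univ _
      rwa [card_pair hne] at this
    rw [Nat.cast_sub (by omega), Nat.cast_sub (by omega)]
    push_cast
    ring
  rw [h1, sum_insert h3, sum_insert h2, add_assoc]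
  congr 2
  rw [sum_congr rfl (fun z hz => hg z (ne_of_mem_erase (mem_of_mem_erase hz))
    (ne_of_mem_erase hz)), sum_const, nsmul_eq_mul, h4]

/-- a sum over ordered pairs of a function that depends on the classes only -/
lemma offsum_blk {i1 i2 : ι} (hne : i1 ≠ i2) (f : ι → ι → ℝ) {A B C : ℝ}
    (hA : f i1 i2 = A) (hA' : f i2 i1 = A)
    (hB : ∀ z, z ≠ i1 → z ≠ i2 → f i1 z = B ∧ f i2 z = B ∧ f z i1 = B ∧ f z i2 = B)
    (hC : ∀ y z, y ≠ i1 → y ≠ i2 → z ≠ i1 → z ≠ i2 → y ≠ z → f y z = C) :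
    offsum f = 2 * A + 4 * ((Fintype.card ι : ℝ) - 2) * B
      + ((Fintype.card ι : ℝ) - 2) * (((Fintype.card ι : ℝ) - 2) - 1) * C := by
  unfold offsum
  set n := (Fintype.card ι : ℝ) - 2 with hn
  have r1 : ∑ j, (if i1 = j then 0 else f i1 j) = A + n * B := by
    rw [sum_split2 hne _ (c := B) (fun z h1 h2 => by rw [if_neg (Ne.symm h1)]; exact (hB z h1 h2).1)]
    rw [if_pos rfl, if_neg hne, hA]
    ring
  have r2 : ∑ j, (if i2 = j then 0 else f i2 j) = A + n * B := by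
    rw [sum_split2 hne _ (c := B) (fun z h1 h2 => by rw [if_neg (Ne.symm h2)]; exact (hB z h1 h2).2.1)]
    rw [if_pos rfl, if_neg hne.symm, hA']
    ring
  have r3 : ∀ z, z ≠ i1 → z ≠ i2 → ∑ j, (if z = j then 0 else f z j) = 2 * B + (n - 1) * C := by
    intro z h1 h2
    have h3 : ∀ j, (if z = j then 0 else f z j)
        = (if z = j then C else f z j) - (if z = j then C else 0) := by
      intro j; split_ifs <;> ring
    have h4 : ∑ j, (if z = j then 0 else f z j)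
        = ∑ j, (if z = j then C else f z j) - C := by
      rw [sum_congr rfl (fun j _ => h3 j), sum_sub_distrib, sum_ite_eq]
      simp
    rw [h4, sum_split2 hne _ (c := C)]
    · rw [if_neg h1, if_neg h2, (hB z h1 h2).2.2.1, (hB z h1 h2).2.2.2]
      ring
    · intro y h5 h6
      split_ifs with h7
      · rfl
      · exact hC z y h1 h2 h5 h6 h7
  rw [sum_split2 hne (fun i => ∑ j, if i = j then 0 else f i j) (c := 2 * B + (n - 1) * C) r3,
    r1, r2]
  ring

end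

end BlkEqAux

section

variable {ι : Type*} [Fintype ι] [DecidableEq ι]

/-- MODULE RT29. For the block dependency (`t = 1`): `v = √κ`, `w i1 = w i2 = ζ`,
`w z = -Ω` otherwise. Then `K i1 i2 = κ - ζ = 2^(-p)`, `K i1 z = κ + ζ/m + Ω/2 = 1`,
`K z z' = κ - 2Ω/m = K₀` and `BB = TT` (`TT_eq1`; the diagonal entries are `2^(-p)` twice and
`K₀` `m` times). For general `t` replace `w` by `w/t`. -/
theorem blk_cert {q m : ℝ} (h : Reg q m) (hc : (Fintype.card ι : ℝ) = m + 2) {a : ι → ℝ}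
    {i1 i2 : ι} (hne : i1 ≠ i2) {t : ℝ} (ht : t ≠ 0) (h1 : a i1 = -t / 2) (h2 : a i2 = -t / 2)
    (h3 : ∀ z, z ≠ i1 → z ≠ i2 → a z = t / m) :
    ∃ v w : ι → ℝ, BB q a v w = TT q m ∧
      v i1 * v i2 + a i1 * w i2 + a i2 * w i1 = (2 : ℝ) ^ (-(q + 1)) ∧
      (∀ j, j ≠ i1 → j ≠ i2 → v i1 * v j + a i1 * w j + a j * w i1 = 1 ∧
        v i2 * v j + a i2 * w j + a j * w i2 = 1) ∧
      (∀ i j, i ≠ i1 → i ≠ i2 → j ≠ i1 → j ≠ i2 → i ≠ j →
        v i * v j + a i * w j + a j * w i = (1 - 1 / m) ^ (q + 1)) := by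
  have hm2 := h.hm
  have hm : 0 < m := by linarith
  have hq : 0 < q := lt_of_lt_of_le (by positivity) h.big.2.2.2.1
  have hk := kp_pos (q := q) hm2
  have hsq : √(kp q m) * √(kp q m) = kp q m := Real.mul_self_sqrt hk.le
  have e0 := id_K0 (q := q) hm2
  have e1 := id_one (q := q) (m := m)
  have e2 := id_ze (q := q) (m := m)
  set w : ι → ℝ := fun i => if i = i1 ∨ i = i2 then ze q m / t else -Om q m / t with hw
  have w1 : w i1 = ze q m / t := by simp [hw]
  have w2 : w i2 = ze q m / t := by simp [hw]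
  have w3 : ∀ z, z ≠ i1 → z ≠ i2 → w z = -Om q m / t := fun z g1 g2 => by simp [hw, g1, g2]
  have k12 : √(kp q m) * √(kp q m) + a i1 * w i2 + a i2 * w i1 = (2 : ℝ) ^ (-(q + 1)) := by
    rw [hsq, h1, h2, w1, w2, ← e2]
    field_simp
    ring
  have k21 : √(kp q m) * √(kp q m) + a i2 * w i1 + a i1 * w i2 = (2 : ℝ) ^ (-(q + 1)) := by
    rw [← k12]; ring
  have k1z : ∀ z, z ≠ i1 → z ≠ i2 → √(kp q m) * √(kp q m) + a i1 * w z + a z * w i1 = 1 := by
    intro z g1 g2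
    rw [hsq, h1, w1, w3 z g1 g2, h3 z g1 g2, ← e1]
    field_simp
    ring
  have k2z : ∀ z, z ≠ i1 → z ≠ i2 → √(kp q m) * √(kp q m) + a i2 * w z + a z * w i2 = 1 := by
    intro z g1 g2
    rw [hsq, h2, w2, w3 z g1 g2, h3 z g1 g2, ← e1]
    field_simp
    ring
  have kzz : ∀ y z, y ≠ i1 → y ≠ i2 → z ≠ i1 → z ≠ i2 →
      √(kp q m) * √(kp q m) + a y * w z + a z * w y = K0 q m := by
    intro y z g1 g2 g3 g4
    rw [hsq, w3 z g3 g4, h3 z g3 g4, w3 y g1 g2, h3 y g1 g2, ← e0]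
    field_simp
    ring
  refine ⟨fun _ => √(kp q m), w, ?_, k12, fun j g1 g2 => ⟨k1z j g1 g2, k2z j g1 g2⟩,
    fun i j g1 g2 g3 g4 _ => kzz i j g1 g2 g3 g4⟩
  unfold BB
  rw [BlkEqAux.offsum_blk hne _ (A := Phi q ((2 : ℝ) ^ (-(q + 1)))) (B := 1) (C := Phi q (K0 q m))
    (by simp only; rw [k12]) (by simp only; rw [k21])
    (fun z g1 g2 => by
      have e3 := k1z z g1 g2
      have e4 := k2z z g1 g2
      have e5 : √(kp q m) * √(kp q m) + a z * w i1 + a i1 * w z = 1 := by rw [← e3]; ring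
      have e6 : √(kp q m) * √(kp q m) + a z * w i2 + a i2 * w z = 1 := by rw [← e4]; ring
      simp only
      rw [e3, e4, e5, e6]
      exact ⟨BlkEqAux.Phi_one hq, BlkEqAux.Phi_one hq, BlkEqAux.Phi_one hq, BlkEqAux.Phi_one hq⟩)
    (fun y z g1 g2 g3 g4 _ => by simp only; rw [kzz y z g1 g2 g3 g4])]
  rw [BlkEqAux.sum_split2 hne (fun i => √(kp q m) ^ 2 + 2 * a i * w i) (c := K0 q m)
    (fun z g1 g2 => by
      rw [← kzz z z g1 g2 g1 g2]
      ring)]
  have d1 : √(kp q m) ^ 2 + 2 * a i1 * w i1 = (2 : ℝ) ^ (-(q + 1)) := by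
    rw [← k12, h1, h2, w1, w2]; ring
  have d2 : √(kp q m) ^ 2 + 2 * a i2 * w i2 = (2 : ℝ) ^ (-(q + 1)) := by
    rw [← k12, h1, h2, w1, w2]; ring
  rw [TT_eq1 hq hm2]
  rw [d1, d2, hc]
  ring

end

end Pool.Agent.RieszTr
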