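import Pool.Agent.RieszTr.Cert
import Pool.Agent.RieszTr.BlkEq
import Pool.Agent.RieszLin.Aff

set_option autoImplicit false

open Real Finset

namespace Pool.Agent.RieszTr

open Pool.Agent.RieszSmall Pool.Agent.RieszLin

section

variable {ι : Type*} [Fintype ι] [DecidableEq ι] {V : Type*} [NormedAddCommGroup V]
  [InnerProductSpace ℝ V] [FiniteDimensional ℝ V]

/-- MODULE RT30. The lower bound in the regime, with equality only for the block
(`exists_aff`, `cert`, `dual`, `blk_cert`, `dual_eq`, `orth_of_K`; compare RieszLin/Lower.lean). -/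
theorem lower_tr {q m : ℝ} (h : Reg q m) {x : ι → V} (hc : (Fintype.card ι : ℝ) = m + 2)
    (hfr : Module.finrank ℝ V + 2 ≤ Fintype.card ι) (hx : ∀ i, ‖x i‖ = 1)
    (hlt : ∀ i j, i ≠ j → (inner ℝ (x i) (x j) : ℝ) < 1) :
    TT q m ≤ En q x ∧ (En q x = TT q m → ∃ P : Finset ι, P.card = 2 ∧ OrthSimplices P x) := by
  obtain ⟨a, h0, h2, hax⟩ := exists_aff x hfr
  have hq97 := h.big.2.2.2.1
  have hq1 : (1 : ℝ) ≤ q := le_trans (by norm_num) hq97
  have hq0 : (0 : ℝ) < q := by linarith
  have hne : ∃ i, a i ≠ 0 := by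
    by_contra hcon
    push Not at hcon
    simp [hcon] at h2
  rcases cert h hc h0 hne with ⟨v, w, hvw⟩ | hB
  · have hd := dual hx hlt hax hq0 v w
    exact ⟨by linarith, fun heq => by linarith⟩
  · obtain ⟨i1, i2, hi, t, ht, h1, h2', h3⟩ := hB
    obtain ⟨v, w, hBB, k12, kc, kr⟩ := blk_cert h hc hi ht h1 h2' h3
    have hd := dual hx hlt hax hq0 v w
    refine ⟨by linarith, fun heq => ?_⟩
    have hle1 : (2 : ℝ) ^ (-(q + 1)) ≤ 1 :=
      Real.rpow_le_one_of_one_le_of_nonpos (by norm_num) (by linarith)
    have hK0 : (2 : ℝ) ^ (-(q + 1)) ≤ (1 - 1 / m) ^ (q + 1) := h.K0_bounds.2.2.2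
    have hsym : ∀ i j, v i * v j + a i * w j + a j * w i =
        v j * v i + a j * w i + a i * w j := fun i j => by ring
    have hK : ∀ i j, i ≠ j → (2 : ℝ) ^ (-(q + 1)) ≤ v i * v j + a i * w j + a j * w i := by
      intro i j hij
      by_cases hi1 : i = i1
      · subst hi1
        by_cases hj2 : j = i2
        · subst hj2
          exact k12.ge
        · rw [(kc j (Ne.symm hij) hj2).1]
          exact hle1
      · by_cases hi2 : i = i2
        · subst hi2
          by_cases hj1 : j = i1
          · subst hj1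
            rw [hsym]
            exact k12.ge
          · rw [(kc j hj1 (Ne.symm hij)).2]
            exact hle1
        · by_cases hj1 : j = i1
          · subst hj1
            rw [hsym, (kc i hi1 hi2).1]
            exact hle1
          · by_cases hj2 : j = i2
            · subst hj2
              rw [hsym, (kc i hi1 hi2).2]
              exact hle1
            · rw [kr i j hi1 hi2 hj1 hj2 hij]
              exact hK0
    have e := dual_eq hx hlt hax hq0 v w hK (by linarith)
    exact orth_of_K (K := fun i j => v i * v j + a i * w j + a j * w i) hq1 hc h.hm hlt hi e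
      k12 kc kr

end

end Pool.Agent.RieszTr
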