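import Pool.Agent.RieszTr.Const

set_option autoImplicit false

open Real Finset

namespace Pool.Agent.RieszTr

open Pool.Agent.RieszSmall Pool.Agent.RieszLin

namespace Const2Aux

lemma K0_rpow {q m : ℝ} (hq : 0 < q) (hm : 2 ≤ m) :
    (K0 q m) ^ (-(1 / (q + 1))) = m / (m - 1) := by
  have hm0 : 0 < m := by linarith
  have hp : q + 1 ≠ 0 := by linarith
  have h1 : 0 < 1 - 1 / m := by
    have h2 : 1 / m ≤ 1 / 2 := one_div_le_one_div_of_le (by norm_num) hm
    linarith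
  unfold K0
  rw [← Real.rpow_mul h1.le]
  have h3 : (q + 1) * -(1 / (q + 1)) = -1 := by
    field_simp
  rw [h3, Real.rpow_neg_one]
  have h4 : 1 - 1 / m = (m - 1) / m := by
    field_simp
  rw [h4, inv_div]

lemma sl_one (q : ℝ) : sl q 1 = 0 := by
  unfold sl
  rw [Real.one_rpow, sub_self, mul_zero]

lemma K0_pos {q m : ℝ} (hm : 2 ≤ m) : 0 < K0 q m := by
  unfold K0
  apply Real.rpow_pos_of_pos
  have h2 : 1 / m ≤ 1 / 2 := one_div_le_one_div_of_le (by norm_num) hm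
  linarith

/-- `K^(-1/p) = exp (-(log K)/p)` -/
lemma rpow_eq {q K : ℝ} (hK : 0 < K) :
    K ^ (-(1 / (q + 1))) = Real.exp (-(Real.log K) / (q + 1)) := by
  rw [Real.rpow_def_of_pos hK]
  congr 1
  ring

end Const2Aux

open Const2Aux

/-- MODULE RT6. `K₀^(-1/p) = m/(m-1)`, so `sl q K₀ = q/(m-1)`. -/
theorem sl_K0 {q m : ℝ} (hq : 0 < q) (hm : 2 ≤ m) : sl q (K0 q m) = q / (m - 1) := by
  unfold sl
  rw [K0_rpow hq hm]
  have h1 : m - 1 ≠ 0 := by linarith
  field_simp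
  ring

/-- `sl q` is antitone on `(0, ∞)`. -/
theorem sl_anti {q K K' : ℝ} (hq : 0 < q) (hK : 0 < K) (h : K ≤ K') : sl q K' ≤ sl q K := by
  unfold sl
  have hp : 0 < q + 1 := by linarith
  have h1 : K' ^ (-(1 / (q + 1))) ≤ K ^ (-(1 / (q + 1))) :=
    Real.rpow_le_rpow_of_nonpos hK h (by
      have : 0 < 1 / (q + 1) := by positivity
      linarith)
  exact mul_le_mul_of_nonneg_left (by linarith) hq.le

/-- For `κ ≤ K ≤ 1`: `0 ≤ sl q K ≤ 2 Λ`. `sl` antitone, `sl q 1 = 0`;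
`sl q κ = q (exp (c/p) - 1)` with `c = log (1/κ) ≤ Λ`, `exp t - 1 ≤ 2 t` for `0 ≤ t ≤ 1`,
here `t = c/p ≤ 1` as `q ≥ 10^97 Λ`. -/
theorem Reg.sl_le {q m K : ℝ} (h : Reg q m) (hK : kp q m ≤ K) (hK1 : K ≤ 1) :
    0 ≤ sl q K ∧ sl q K ≤ 2 * La q m := by
  obtain ⟨hL, hkm, hm100, hq97, hqL⟩ := h.big
  have hq : 0 < q := lt_of_lt_of_le (by positivity) hq97
  have hk0 : 0 < kp q m := kp_pos h.hm
  have hK0 : 0 < K := lt_of_lt_of_le hk0 hK
  refine ⟨?_, ?_⟩
  · have h1 := sl_anti hq hK0 hK1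
    rwa [sl_one] at h1
  · have h1 := sl_anti hq hk0 hK
    refine h1.trans ?_
    have hp : 0 < q + 1 := by linarith
    have hc : La q m = 1 + -(Real.log (kp q m)) := by
      unfold La
      rw [one_div, Real.log_inv]
    set c := -(Real.log (kp q m)) with hcdef
    have hc0 : 0 ≤ c := by
      have h2 := Real.log_nonpos hk0.le (kp_lt_one hq h.hm).le
      linarith
    have hcp : c ≤ q + 1 := by
      have h3 : La q m ≤ 10 ^ 97 * La q m := by
        have : (1 : ℝ) ≤ 10 ^ 97 := by norm_num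
        nlinarith
      linarith
    have ht0 : 0 ≤ c / (q + 1) := by positivity
    have ht1 : c / (q + 1) ≤ 1 := by
      rw [div_le_one hp]
      exact hcp
    have h4 := Real.abs_exp_sub_one_le (x := c / (q + 1)) (by rw [abs_of_nonneg ht0]; exact ht1)
    rw [abs_of_nonneg ht0] at h4
    have h5 := le_trans (le_abs_self _) h4
    unfold sl
    rw [rpow_eq hk0]
    have h6 : q * (Real.exp (c / (q + 1)) - 1) ≤ q * (2 * (c / (q + 1))) :=
      mul_le_mul_of_nonneg_left h5 hq.le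
    refine h6.trans ?_
    have h7 : q * (2 * (c / (q + 1))) = 2 * c * (q / (q + 1)) := by ring
    rw [h7]
    have h8 : q / (q + 1) ≤ 1 := by
      rw [div_le_one hp]
      linarith
    have h9 : 2 * c * (q / (q + 1)) ≤ 2 * c * 1 := mul_le_mul_of_nonneg_left h8 (by linarith)
    linarith

/-- For `K ≥ 1`: `-(log K) ≤ sl q K ≤ 0` (`K^(-1/p) = exp (-(log K)/p) ≥ 1 - (log K)/p`). -/
theorem sl_ge {q K : ℝ} (hq : 0 < q) (hK : 1 ≤ K) : -(Real.log K) ≤ sl q K ∧ sl q K ≤ 0 := by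
  have hp : 0 < q + 1 := by linarith
  have hK0 : 0 < K := by linarith
  refine ⟨?_, ?_⟩
  · have h1 := Real.add_one_le_exp (-(Real.log K) / (q + 1))
    unfold sl
    rw [rpow_eq hK0]
    have h2 : q * (-(Real.log K) / (q + 1)) ≤ q * (Real.exp (-(Real.log K) / (q + 1)) - 1) :=
      mul_le_mul_of_nonneg_left (by linarith) hq.le
    refine le_trans ?_ h2
    have h3 : q * (-(Real.log K) / (q + 1)) = -(Real.log K * (q / (q + 1))) := by ring
    rw [h3]
    have h8 : q / (q + 1) ≤ 1 := by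
      rw [div_le_one hp]
      linarith
    have h9 : Real.log K * (q / (q + 1)) ≤ Real.log K * 1 :=
      mul_le_mul_of_nonneg_left h8 (Real.log_nonneg hK)
    linarith
  · have h1 := sl_anti hq zero_lt_one hK
    rwa [sl_one] at h1

/-- For `κ ≤ K ≤ 4`: `|sl q K| ≤ 2 Λ` (`log 4 < 2`). -/
theorem Reg.sl_abs {q m K : ℝ} (h : Reg q m) (hK : kp q m ≤ K) (hK1 : K ≤ 4) :
    |sl q K| ≤ 2 * La q m := by
  obtain ⟨hL, hkm, hm100, hq97, hqL⟩ := h.big
  have hq : 0 < q := lt_of_lt_of_le (by positivity) hq97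
  rcases le_total K 1 with h1 | h1
  · obtain ⟨h2, h3⟩ := h.sl_le hK h1
    rw [abs_of_nonneg h2]
    exact h3
  · obtain ⟨h2, h3⟩ := sl_ge hq h1
    rw [abs_of_nonpos h3]
    have h4 : Real.log K ≤ Real.log 4 := Real.log_le_log (by linarith) hK1
    have h5 : Real.log 4 = 2 * Real.log 2 := by
      rw [show (4 : ℝ) = 2 ^ 2 by norm_num, Real.log_pow]
      norm_num
    have h6 := Real.log_two_lt_d9
    linarith

/-- `(m-1) sl q κ ≤ q` because `κ ≥ K₀`. -/
theorem Reg.sl_kp_le {q m : ℝ} (h : Reg q m) : (m - 1) * sl q (kp q m) ≤ q := by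
  obtain ⟨hL, hkm, hm100, hq97, hqL⟩ := h.big
  have hq : 0 < q := lt_of_lt_of_le (by positivity) hq97
  have hm := h.hm
  obtain ⟨h1, -, -, -⟩ := h.K0_bounds
  have h2 := sl_anti hq (K0_pos (q := q) hm) h1
  rw [sl_K0 hq hm] at h2
  have h3 : (m - 1) * sl q (kp q m) ≤ (m - 1) * (q / (m - 1)) :=
    mul_le_mul_of_nonneg_left h2 (by linarith)
  have h4 : (m - 1) * (q / (m - 1)) = q := by
    have : m - 1 ≠ 0 := by linarith
    field_simp
  linarith

/-- `q - 7/κ ≤ (m-1) sl q κ`. Proof. With `u = κ/K₀ ≥ 1`,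
`K₀^(-1/p) - κ^(-1/p) = K₀^(-1/p) (1 - u^(-1/p)) ≤ K₀^(-1/p) (log u)/p ≤ (m/(m-1)) (u-1)/p`, so
`sl q K₀ - sl q κ ≤ (m/(m-1)) (κ - K₀)/K₀`, `κ - K₀ ≤ 5/m`, `K₀ ≥ κ - 5/m ≥ 0.99 κ`. -/
theorem Reg.le_sl_kp {q m : ℝ} (h : Reg q m) : q - 7 / kp q m ≤ (m - 1) * sl q (kp q m) := by
  obtain ⟨hL, hkm, hm100, hq97, hqL⟩ := h.big
  have hq : 0 < q := lt_of_lt_of_le (by positivity) hq97
  have hp : 0 < q + 1 := by linarith
  have hm := h.hm
  have hm0 : 0 < m := by linarith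
  have hk0 : 0 < kp q m := kp_pos h.hm
  obtain ⟨h1, h2, -, -⟩ := h.K0_bounds
  have hK0 : 0 < K0 q m := K0_pos hm
  set u := kp q m / K0 q m with hu
  have hu1 : 1 ≤ u := by
    rw [hu, le_div_iff₀ hK0]
    linarith
  have hu0 : 0 < u := by linarith
  have hku : kp q m = K0 q m * u := by
    rw [hu]
    field_simp
  have hm1 : 0 < m - 1 := by linarith
  have h3 : (kp q m) ^ (-(1 / (q + 1))) = m / (m - 1) * u ^ (-(1 / (q + 1))) := by
    rw [hku, Real.mul_rpow hK0.le hu0.le, K0_rpow hq hm]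
  have h4 : 1 - (u - 1) / (q + 1) ≤ u ^ (-(1 / (q + 1))) := by
    rw [rpow_eq hu0]
    have h5 := Real.add_one_le_exp (-(Real.log u) / (q + 1))
    have h6 : Real.log u ≤ u - 1 := Real.log_le_sub_one_of_pos hu0
    have h7 : Real.log u / (q + 1) ≤ (u - 1) / (q + 1) := div_le_div_of_nonneg_right h6 hp.le
    have h8 : -(Real.log u) / (q + 1) = -(Real.log u / (q + 1)) := by ring
    rw [h8] at h5 ⊢
    linarith
  have h9 : (m - 1) * sl q (kp q m) = q * m * u ^ (-(1 / (q + 1))) - q * (m - 1) := by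
    unfold sl
    rw [h3]
    field_simp
  have h10 : q * m * (1 - (u - 1) / (q + 1)) ≤ q * m * u ^ (-(1 / (q + 1))) :=
    mul_le_mul_of_nonneg_left h4 (by positivity)
  have h11 : q * m * ((u - 1) / (q + 1)) ≤ m * (u - 1) := by
    have h12 : q * m * ((u - 1) / (q + 1)) = m * (u - 1) * (q / (q + 1)) := by ring
    rw [h12]
    have h8 : q / (q + 1) ≤ 1 := by
      rw [div_le_one hp]
      linarith
    have h13 : m * (u - 1) * (q / (q + 1)) ≤ m * (u - 1) * 1 :=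
      mul_le_mul_of_nonneg_left h8 (mul_nonneg hm0.le (by linarith))
    linarith
  have h14 : m * (u - 1) ≤ 5 / K0 q m := by
    have h15 : u - 1 = (kp q m - K0 q m) / K0 q m := by
      rw [hu]
      field_simp
    rw [h15, ← mul_div_assoc]
    apply div_le_div_of_nonneg_right _ hK0.le
    have h16 : kp q m - K0 q m ≤ 5 / m := by linarith
    have h17 : m * (kp q m - K0 q m) ≤ m * (5 / m) := mul_le_mul_of_nonneg_left h16 hm0.le
    have h18 : m * (5 / m) = 5 := by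
      field_simp
    linarith
  have h19 : 5 / K0 q m ≤ 7 / kp q m := by
    rw [div_le_div_iff₀ hK0 hk0]
    have h20 : 5 / m ≤ kp q m * (5 / 10 ^ 100) := by
      rw [div_le_iff₀ hm0]
      have h21 : kp q m * (5 / 10 ^ 100) * m = (kp q m * m) * (5 / 10 ^ 100) := by ring
      rw [h21]
      have h22 : (10 : ℝ) ^ 100 * (5 / 10 ^ 100) ≤ (kp q m * m) * (5 / 10 ^ 100) :=
        mul_le_mul_of_nonneg_right hkm (by positivity)
      have h23 : (10 : ℝ) ^ 100 * (5 / 10 ^ 100) = 5 := by norm_num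
      linarith
    have h24 : kp q m * (5 / 10 ^ 100) ≤ kp q m * (1 / 10) :=
      mul_le_mul_of_nonneg_left (by norm_num) hk0.le
    linarith
  rw [h9]
  have h25 : q * m * (1 - (u - 1) / (q + 1)) = q * m - q * m * ((u - 1) / (q + 1)) := by ring
  linarith

/-- `cv q K₀ ≤ 3/κ`: `K₀^(-1/p) = m/(m-1) ≤ 1.01` and `K₀ ≥ κ/2`. -/
theorem Reg.cv_K0 {q m : ℝ} (h : Reg q m) : 0 ≤ cv q (K0 q m) ∧ cv q (K0 q m) ≤ 3 / kp q m := by
  obtain ⟨hL, hkm, hm100, hq97, hqL⟩ := h.big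
  have hq : 0 < q := lt_of_lt_of_le (by positivity) hq97
  have hm := h.hm
  have hk0 : 0 < kp q m := kp_pos h.hm
  obtain ⟨-, -, h2, -⟩ := h.K0_bounds
  have hK0 : 0 < K0 q m := K0_pos hm
  unfold cv
  rw [K0_rpow hq hm]
  have hm1 : 0 < m - 1 := by linarith
  have h3 : m / (m - 1) ≤ 3 / 2 := by
    rw [div_le_div_iff₀ hm1 (by norm_num)]
    have : (10 : ℝ) ^ 100 ≥ 3 := by norm_num
    linarith
  have h4 : 0 < m / (m - 1) := div_pos (by linarith) hm1
  refine ⟨by positivity, ?_⟩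
  rw [div_le_div_iff₀ hK0 hk0]
  have h5 : m / (m - 1) * kp q m ≤ 3 / 2 * kp q m := mul_le_mul_of_nonneg_right h3 hk0.le
  linarith

/-- For `K ≥ κ`: `cv q K ≤ 2/K` (`K^(-1/p) ≤ κ^(-1/p) ≤ K₀^(-1/p) = m/(m-1) ≤ 2`). -/
theorem Reg.cv_le {q m K : ℝ} (h : Reg q m) (hK : kp q m ≤ K) : 0 ≤ cv q K ∧ cv q K ≤ 2 / K := by
  obtain ⟨hL, hkm, hm100, hq97, hqL⟩ := h.big
  have hq : 0 < q := lt_of_lt_of_le (by positivity) hq97
  have hm := h.hm
  have hk0 : 0 < kp q m := kp_pos h.hm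
  obtain ⟨h1, -, -, -⟩ := h.K0_bounds
  have hK0 : 0 < K0 q m := K0_pos hm
  have hKp : 0 < K := lt_of_lt_of_le hk0 hK
  unfold cv
  refine ⟨by positivity, ?_⟩
  apply div_le_div_of_nonneg_right _ hKp.le
  have h2 : K ^ (-(1 / (q + 1))) ≤ (K0 q m) ^ (-(1 / (q + 1))) :=
    Real.rpow_le_rpow_of_nonpos hK0 (h1.trans hK) (by
      have : 0 < 1 / (q + 1) := by positivity
      linarith)
  refine h2.trans ?_
  rw [K0_rpow hq hm]
  have hm1 : 0 < m - 1 := by linarith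
  rw [div_le_iff₀ hm1]
  linarith

/-- `q ≤ 3 Λ m`: `q ≤ (m-1) sl q κ + 7/κ ≤ 2 Λ m + m`. -/
theorem Reg.q_le {q m : ℝ} (h : Reg q m) : q ≤ 3 * La q m * m := by
  obtain ⟨hL, hkm, hm100, hq97, hqL⟩ := h.big
  have hm := h.hm
  have h1 := h.le_sl_kp
  obtain ⟨-, h2⟩ := h.sl_le le_rfl (by
    have := h.kp_le
    linarith)
  obtain ⟨-, h3, -⟩ := h.use
  have h4 : (m - 1) * sl q (kp q m) ≤ (m - 1) * (2 * La q m) :=
    mul_le_mul_of_nonneg_left h2 (by linarith)
  have h5 : 7 / kp q m = 7 * (1 / kp q m) := by ring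
  have h6 : 7 * (1 / kp q m) ≤ 7 * (m / 10 ^ 100) := mul_le_mul_of_nonneg_left h3 (by norm_num)
  have h7 : 7 * (m / 10 ^ 100) ≤ m := by
    have h8 : 7 * (m / 10 ^ 100) = m * (7 / 10 ^ 100) := by ring
    rw [h8]
    have h9 : m * (7 / 10 ^ 100) ≤ m * 1 := mul_le_mul_of_nonneg_left (by norm_num) (by linarith)
    linarith
  have h10 : m ≤ La q m * m := by nlinarith
  nlinarith

/-- `q κ ≤ 1.01 m`: `q K₀ ≤ m` since `K₀ ≤ exp (-(q+1)/m) ≤ 1/(1+(q+1)/m) ≤ m/q`;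
`κ ≤ K₀ + 5/m`; `5 q/m ≤ 15 Λ ≤ m/100`. -/
theorem Reg.q_kp {q m : ℝ} (h : Reg q m) : q * kp q m ≤ 101 / 100 * m := by
  obtain ⟨hL, hkm, hm100, hq97, hqL⟩ := h.big
  have hq : 0 < q := lt_of_lt_of_le (by positivity) hq97
  have hm := h.hm
  have hm0 : 0 < m := by linarith
  obtain ⟨-, h2, -, -⟩ := h.K0_bounds
  obtain ⟨-, -, h3⟩ := h.use
  have h4 : q * K0 q m ≤ m := by
    have h5 : K0 q m ≤ m / q := by
      have h6 : 0 < 1 - 1 / m := by
        have h2 : 1 / m ≤ 1 / 2 := one_div_le_one_div_of_le (by norm_num) hm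
        linarith
      have h7 : 1 - 1 / m ≤ Real.exp (-(1 / m)) := by
        have := Real.add_one_le_exp (-(1 / m))
        linarith
      have h8 : K0 q m ≤ Real.exp (-(1 / m)) ^ (q + 1) :=
        Real.rpow_le_rpow h6.le h7 (by linarith)
      have h9 : Real.exp (-(1 / m)) ^ (q + 1) = Real.exp (-((q + 1) / m)) := by
        rw [← Real.exp_mul]
        congr 1
        ring
      rw [h9, Real.exp_neg] at h8
      have h10 : q / m ≤ Real.exp ((q + 1) / m) := by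
        have h11 := Real.add_one_le_exp ((q + 1) / m)
        have h12 : (q + 1) / m = q / m + 1 / m := by ring
        have h13 : 0 < 1 / m := by positivity
        linarith
      have h14 : (Real.exp ((q + 1) / m))⁻¹ ≤ (q / m)⁻¹ := inv_anti₀ (by positivity) h10
      rw [inv_div] at h14
      exact h8.trans h14
    have h15 : q * K0 q m ≤ q * (m / q) := mul_le_mul_of_nonneg_left h5 hq.le
    have h16 : q * (m / q) = m := by
      field_simp
    linarith
  have h17 : q * kp q m ≤ q * (K0 q m + 5 / m) := mul_le_mul_of_nonneg_left h2 hq.le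
  have h18 : q * (5 / m) ≤ 15 * La q m := by
    have h19 : q * (5 / m) = 5 * q / m := by ring
    rw [h19, div_le_iff₀ hm0]
    have h20 := h.q_le
    linarith
  have h21 : 15 * La q m ≤ m / 100 := by
    have h22 : m / 10 ^ 100 * 15 ≤ m / 100 := by
      have h23 : m / 10 ^ 100 * 15 = m * (15 / 10 ^ 100) := by ring
      rw [h23]
      have h24 : m * (15 / 10 ^ 100) ≤ m * (1 / 100) :=
        mul_le_mul_of_nonneg_left (by norm_num) hm0.le
      linarith
    linarith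
  have h25 : q * (K0 q m + 5 / m) = q * K0 q m + q * (5 / m) := by ring
  linarith

end Pool.Agent.RieszTr
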