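import Pool.Agent.RieszTr.Phi3
import Pool.Agent.RieszTr.Const2
import Pool.Agent.RieszLin.Block

set_option autoImplicit false

open Real Finset

namespace Pool.Agent.RieszTr

open Pool.Agent.RieszSmall Pool.Agent.RieszLin

/-- `Φ₁ = Φ(K₀) + (q/(m-1)) (κ - K₀)`, the value at `κ` of the tangent line at `K₀`. -/
noncomputable def P1 (q m : ℝ) : ℝ := Phi q (K0 q m) + q / (m - 1) * (kp q m - K0 q m)

namespace TTAux

theorem Phi_K0 {q m : ℝ} (hq : 0 < q) (hm : 2 ≤ m) :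
    Phi q (K0 q m) = (q + 1) * (1 - 1 / m) ^ q - q * ((1 - 1 / m) ^ q * (1 - 1 / m)) := by
  have hm1 : 1 / m ≤ 1 / 2 := one_div_le_one_div_of_le (by norm_num) hm
  have hb : 0 < 1 - 1 / m := by linarith
  have h1 : (2 : ℝ) ^ (-(q + 1)) ≤ K0 q m := by
    have h2 : (2 : ℝ) ^ (-(q + 1)) = (1 / 2 : ℝ) ^ (q + 1) := by
      rw [Real.rpow_neg (by norm_num), one_div, Real.inv_rpow (by norm_num)]
    rw [h2, K0]
    exact Real.rpow_le_rpow (by norm_num) (by linarith) (by linarith)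
  rw [Phi, if_pos h1, K0, ← Real.rpow_mul hb.le, Real.rpow_add hb, Real.rpow_one]
  have h3 : (q + 1) * (q / (q + 1)) = q := by
    have : q + 1 ≠ 0 := by linarith
    field_simp
  rw [h3]

theorem Phi_two {q : ℝ} (hq : 0 < q) :
    Phi q ((2 : ℝ) ^ (-(q + 1))) =
      (q + 1) * (2 * (2 : ℝ) ^ (-(q + 1))) - q * (2 : ℝ) ^ (-(q + 1)) := by
  rw [Phi, if_pos le_rfl, ← Real.rpow_mul (by norm_num)]
  have h3 : -(q + 1) * (q / (q + 1)) = -(q + 1) + 1 := by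
    have : q + 1 ≠ 0 := by linarith
    field_simp
    ring
  rw [h3, Real.rpow_add (by norm_num), Real.rpow_one]
  ring

end TTAux

open TTAux

/-- MODULE RT7. `TT = 2·2^(-q) + 4m + m(m-1)(1-1/m)^q` (`TT_eq`, RieszLin/Block.lean).
`Φ(K₀) = p (1-1/m)^q - q (1-1/m)^p`, `Φ(2^(-p)) = p 2^(-q) - q 2^(-p)`; `2^(-q) = 2·2^(-p)`,
`(1-1/m)^p = (1-1/m)^q (1-1/m)`. -/
theorem TT_eq1 {q m : ℝ} (hq : 0 < q) (hm : 2 ≤ m) :
    TT q m = m * (m - 1) * Phi q (K0 q m) - q * m * K0 q m + 4 * m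
      + 2 * Phi q ((2 : ℝ) ^ (-(q + 1))) - 2 * q * (2 : ℝ) ^ (-(q + 1)) := by
  have hm1 : 1 / m ≤ 1 / 2 := one_div_le_one_div_of_le (by norm_num) hm
  have hb : 0 < 1 - 1 / m := by linarith
  have hm0 : m ≠ 0 := by linarith
  have hK : K0 q m = (1 - 1 / m) ^ q * (1 - 1 / m) := by
    rw [K0, Real.rpow_add hb, Real.rpow_one]
  have h2 : (2 : ℝ) ^ (-q) = 2 * (2 : ℝ) ^ (-(q + 1)) := by
    have : -q = -(q + 1) + 1 := by ring
    rw [this, Real.rpow_add (by norm_num), Real.rpow_one]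
    ring
  rw [TT_eq hm, Phi_K0 hq hm, Phi_two hq, hK, h2]
  generalize (1 - 1 / m) ^ q = A
  generalize (2 : ℝ) ^ (-(q + 1)) = P
  field_simp
  ring

theorem TT_eq2 {q m : ℝ} (hq : 0 < q) (hm : 2 ≤ m) :
    TT q m = (m ^ 2 - m) * P1 q m - q * m * kp q m + 4 * m
      + 2 * Phi q ((2 : ℝ) ^ (-(q + 1))) - 2 * q * (2 : ℝ) ^ (-(q + 1)) := by
  rw [TT_eq1 hq hm, P1]
  have hm1 : m - 1 ≠ 0 := by
    intro h
    linarith
  field_simp
  ring

/-- `Φ(κ) ≤ Φ₁ ≤ Φ(κ) + 75/(κ m²)`: tangent line above; `Phi_quad` at `K1 = K₀`, `K = κ`,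
`cv q K₀ ≤ 3/κ`, `κ - K₀ ≤ 5/m`. -/
theorem Reg.P1_bounds {q m : ℝ} (h : Reg q m) :
    Phi q (kp q m) ≤ P1 q m ∧ P1 q m ≤ Phi q (kp q m) + 75 / (kp q m * m ^ 2) := by
  obtain ⟨hL, hkm, hmb, hqb, hqL⟩ := h.big
  obtain ⟨h1, h2, h3, h4⟩ := h.K0_bounds
  have hq : 0 < q := lt_of_lt_of_le (by norm_num) hqb
  have hm : 0 < m := lt_of_lt_of_le (by norm_num) hmb
  have hk : 0 < kp q m := kp_pos h.hm
  constructor
  · have h5 := Phi_le_tangent (K := kp q m) hq h4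
    rw [sl_K0 hq h.hm] at h5
    exact h5
  · have h5 := Phi_quad (K := kp q m) hq h4 hk
    rw [sl_K0 hq h.hm] at h5
    obtain ⟨h6, h7⟩ := h.cv_K0
    have h8 : cv q (K0 q m) * (kp q m - K0 q m) ^ 2 ≤ 3 / kp q m * (5 / m) ^ 2 := by
      refine mul_le_mul h7 ?_ (sq_nonneg _) (h6.trans h7)
      exact pow_le_pow_left₀ (by linarith) (by linarith) 2
    have h9 : 3 / kp q m * (5 / m) ^ 2 = 75 / (kp q m * m ^ 2) := by
      field_simp
      norm_num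
    rw [P1]
    linarith

/-- `0 ≤ Φ(κ)` and `Φ₁ ≤ 5 Λ κ`: `Φ(κ) = p κ^(q/p) - q κ = κ (1 + (p/q) sl q κ) ≤ κ (1 + 2.1 Λ)`,
`75/(κ m²) ≤ κ`. -/
theorem Reg.P1_small {q m : ℝ} (h : Reg q m) :
    0 ≤ Phi q (kp q m) ∧ P1 q m ≤ 5 * La q m * kp q m ∧ P1 q m ≤ 2 := by
  obtain ⟨hL, hkm, hmb, hqb, hqL⟩ := h.big
  obtain ⟨h1, h2, h3, h4⟩ := h.K0_bounds
  have hq : 0 < q := lt_of_lt_of_le (by norm_num) hqb
  have hm : 0 < m := lt_of_lt_of_le (by norm_num) hmb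
  have hk : 0 < kp q m := kp_pos h.hm
  have hk1 : kp q m < 1 := kp_lt_one hq h.hm
  obtain ⟨hP1, hP2⟩ := h.P1_bounds
  have hsm : 75 / (kp q m * m ^ 2) ≤ kp q m := by
    rw [div_le_iff₀ (by positivity)]
    have h5 : (10 : ℝ) ≤ kp q m * m := le_trans (by norm_num) hkm
    nlinarith
  refine ⟨(Phi_pos hq hk hk1.le).le, ?_, ?_⟩
  · have h5 : Phi q (kp q m) = kp q m * (1 + (q + 1) / q * sl q (kp q m)) := by
      rw [Phi, if_pos (h4.trans h1)]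
      have h6 : kp q m ^ (q / (q + 1)) = kp q m * kp q m ^ (-(1 / (q + 1))) := by
        have h7 : q / (q + 1) = 1 + -(1 / (q + 1)) := by
          have : q + 1 ≠ 0 := by linarith
          field_simp
          ring
        rw [h7, Real.rpow_add hk, Real.rpow_one]
      rw [h6, sl]
      field_simp
      ring
    obtain ⟨hs0, hs1⟩ := h.sl_le le_rfl hk1.le
    have h6 : (q + 1) / q ≤ 101 / 100 := by
      rw [div_le_iff₀ hq]
      have : (100 : ℝ) ≤ q := le_trans (by norm_num) hqb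
      linarith
    have h7 : (q + 1) / q * sl q (kp q m) ≤ 101 / 100 * (2 * La q m) :=
      mul_le_mul h6 hs1 hs0 (by norm_num)
    have h8 : P1 q m ≤ kp q m * (1 + (q + 1) / q * sl q (kp q m)) + kp q m := by
      rw [← h5]
      linarith
    nlinarith
  · have h5 := Phi_le_one (K := kp q m) hq
    linarith

/-- `TT ≤ ((m+2)² - (m+2)) Φ(κ) - q (m+2) κ + 7m`. Proof. `Phi_le_tangent` at `κ`:
`Φ(K₀) ≤ Φ(κ) - sl q κ (κ - K₀)`, and `(m-1) sl q κ ≥ q - 7/κ`, so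
`m (m-1) Φ(K₀) - q m K₀ ≤ m(m-1) Φ(κ) - q m κ + 7 m (κ - K₀)/κ`, `m (κ - K₀) ≤ 5`;
`Φ(2^(-p)) ≤ 1`, `(4m+2) Φ(κ) ≥ 0`, `q κ ≤ 1.01 m`, `35/κ ≤ m/100`. -/
theorem Reg.TT_le {q m : ℝ} (h : Reg q m) :
    TT q m ≤ ((m + 2) ^ 2 - (m + 2)) * Phi q (kp q m) - q * (m + 2) * kp q m + 7 * m := by
  obtain ⟨hL, hkm, hmb, hqb, hqL⟩ := h.big
  obtain ⟨h1, h2, h3, h4⟩ := h.K0_bounds
  have hq : 0 < q := lt_of_lt_of_le (by norm_num) hqb
  have hm : 0 < m := lt_of_lt_of_le (by norm_num) hmb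
  have hk : 0 < kp q m := kp_pos h.hm
  have hk1 : kp q m < 1 := kp_lt_one hq h.hm
  rw [TT_eq1 hq h.hm]
  have h5 := Phi_le_tangent (K := K0 q m) hq (h4.trans h1)
  have h6 := h.le_sl_kp
  have h7 := (h.P1_small).1
  have h8 := Phi_le_one (K := (2 : ℝ) ^ (-(q + 1))) hq
  have h9 := h.q_kp
  obtain ⟨_, h10, _⟩ := h.use
  have h11 : 0 < (2 : ℝ) ^ (-(q + 1)) := by positivity
  have h12 : 0 < q * (2 : ℝ) ^ (-(q + 1)) := mul_pos hq h11
  -- `κ - K₀`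
  have h13 : 0 ≤ m * (kp q m - K0 q m) := mul_nonneg hm.le (by linarith)
  have h14 : m * (kp q m - K0 q m) ≤ 5 := by
    have : kp q m - K0 q m ≤ 5 / m := by linarith
    calc m * (kp q m - K0 q m) ≤ m * (5 / m) := mul_le_mul_of_nonneg_left this hm.le
      _ = 5 := by field_simp
  have h15 : (q - 7 / kp q m) * (m * (kp q m - K0 q m)) ≤
      (m - 1) * sl q (kp q m) * (m * (kp q m - K0 q m)) := mul_le_mul_of_nonneg_right h6 h13
  have hmm : 0 < m * (m - 1) := by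
    have : 2 ≤ m := h.hm
    apply mul_pos hm
    linarith
  have h16 : m * (m - 1) * Phi q (K0 q m) ≤
      m * (m - 1) * (Phi q (kp q m) + sl q (kp q m) * (K0 q m - kp q m)) :=
    mul_le_mul_of_nonneg_left h5 hmm.le
  have h17 : 7 / kp q m * (m * (kp q m - K0 q m)) ≤ 35 * (1 / kp q m) := by
    have h18 : 0 ≤ 7 / kp q m := by positivity
    have h19 := mul_le_mul_of_nonneg_left h14 h18
    have h20 : 7 / kp q m * 5 = 35 * (1 / kp q m) := by ring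
    linarith
  have h21 : 35 * (1 / kp q m) ≤ m / 100 := by
    have h22 : m / 10 ^ 100 ≤ m / 3500 := by
      apply div_le_div_of_nonneg_left hm.le (by norm_num) (by norm_num)
    linarith
  have h23 : (1000 : ℝ) ≤ m := le_trans (by norm_num) hmb
  have h24 : 0 ≤ (4 * m + 2) * Phi q (kp q m) := mul_nonneg (by linarith) h7
  nlinarith

end Pool.Agent.RieszTr
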