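import Pool.Agent.RieszTr.Const

set_option autoImplicit false

open Real Finset

namespace Pool.Agent.RieszTr

/-- `log (1 - u) = -log (1 + u/(1-u)) ≥ -u/(1-u) ≥ -u - 2u²` for `u = 1/m ≤ 1/2`. -/
lemma log_ge {m : ℝ} (hm : 2 ≤ m) : -(1 / m) - 2 / m ^ 2 ≤ Real.log (1 - 1 / m) := by
  have hm0 : 0 < m := by linarith
  have hm1 : 0 < m - 1 := by linarith
  have hx : 0 < 1 - 1 / m := by
    rw [sub_pos, div_lt_one hm0]
    linarith
  have h1 := Real.one_sub_inv_le_log_of_pos hx
  have h2 : 1 - (1 - 1 / m)⁻¹ = -(1 / (m - 1)) := by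
    have : 1 - 1 / m = (m - 1) / m := by field_simp
    rw [this, inv_div]
    field_simp
    ring
  rw [h2] at h1
  refine le_trans ?_ h1
  have h3 : 1 / (m - 1) ≤ 1 / m + 2 / m ^ 2 := by
    have h4 : 1 / m + 2 / m ^ 2 = (m + 2) / m ^ 2 := by
      field_simp
    rw [h4, div_le_div_iff₀ hm1 (by positivity)]
    nlinarith
  linarith

namespace RangeAux

lemma log_hundred_lt : Real.log 100 ≤ 5 := by
  rw [Real.log_le_iff_le_exp (by norm_num)]
  have h1 : (2.7182818283 : ℝ) ^ 5 ≤ Real.exp 1 ^ 5 :=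
    pow_le_pow_left₀ (by norm_num) Real.exp_one_gt_d9.le 5
  rw [← Real.exp_nat_mul] at h1
  norm_num at h1 ⊢
  linarith

lemma log_le_quarter {m : ℝ} (hm : 100 ≤ m) : Real.log m ≤ m / 4 := by
  have h1 : Real.log m = Real.log (m / 100) + Real.log 100 := by
    rw [← Real.log_mul (by positivity) (by norm_num)]
    congr 1
    ring
  have h2 := Real.log_le_sub_one_of_pos (show 0 < m / 100 by positivity)
  have h3 := log_hundred_lt
  rw [h1]
  linarith

lemma one_le_log {m : ℝ} (hm : 100 ≤ m) : 1 ≤ Real.log m := by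
  rw [Real.le_log_iff_exp_le (by linarith)]
  have := Real.exp_one_lt_d9
  norm_num at this ⊢
  linarith

lemma exp_big : (2 : ℝ) * 10 ^ 100 ≤ Real.exp 238 := by
  have h1 : (2.718 : ℝ) ^ 238 ≤ Real.exp 1 ^ 238 := by
    refine pow_le_pow_left₀ (by norm_num) ?_ 238
    have := Real.exp_one_gt_d9
    norm_num at this ⊢
    linarith
  rw [← Real.exp_nat_mul] at h1
  have h2 : (2 : ℝ) * 10 ^ 100 ≤ (2.718 : ℝ) ^ 238 := by norm_num
  have h3 : ((238 : ℕ) : ℝ) * 1 = 238 := by norm_num
  rw [h3] at h1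
  exact h2.trans h1

end RangeAux

open RangeAux

/-- MODULE RT31. If `100 ≤ m` and `q ≤ m (log m - log log m - 240)`, `m ≤ 250 q`, then `Reg q m`.
Proof. `(q+1)/m ≤ log m - log log m - 240 + 1/m`, `(q+1)·2/m² ≤ 1`, so
`K₀ ≥ exp (-(log m - log log m - 240) - 2) = e^238 log m/m`; `κ ≥ K₀` (as `K₀ (1+1/m) ≤ 1`, compare
`Reg.K0_bounds`, but that lemma assumes `Reg`), so `κ m ≥ e^238 log m`, `1/κ ≤ m`,
`Λ ≤ 1 + log m ≤ 2 log m`, and `e^238 ≥ 2·10^100` (`e^238 = e^(238)`, `exp 1 > 2.7182818283`,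
`2.7182818283^238 > 10^103`; norm_num). -/
theorem reg_of_le {q m : ℝ} (hm : 100 ≤ m) (hq : m ≤ 250 * q)
    (h : q ≤ m * (Real.log m - Real.log (Real.log m) - 240)) : Reg q m := by
  have hm0 : 0 < m := by linarith
  have hq0 : 0 < q := by linarith
  have hl1 := one_le_log hm
  have hl0 : 0 < Real.log m := by linarith
  have hll : 0 ≤ Real.log (Real.log m) := Real.log_nonneg hl1
  have hlq := log_le_quarter hm
  set Y := Real.log m - Real.log (Real.log m) - 240 with hY
  -- the exponent
  have hx : 0 < 1 - 1 / m := by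
    rw [sub_pos, div_lt_one hm0]
    linarith
  have e1 : (q + 1) / m ≤ Y + 1 / m := by
    rw [add_div]
    have : q / m ≤ Y := by
      rw [div_le_iff₀ hm0]
      linarith
    linarith
  have e2 : (q + 1) * (2 / m ^ 2) ≤ 1 := by
    have h1 : q ≤ m * (m / 4) := by
      refine h.trans ?_
      refine mul_le_mul_of_nonneg_left ?_ hm0.le
      linarith
    rw [mul_div_assoc', div_le_one (by positivity)]
    nlinarith
  have e3 : 1 / m ≤ 1 := by
    rw [div_le_one hm0]
    linarith
  have hK : Real.exp (-Y - 2) ≤ K0 q m := by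
    unfold K0
    rw [Real.rpow_def_of_pos hx, Real.exp_le_exp]
    have h1 := log_ge (show (2 : ℝ) ≤ m by linarith)
    have h2 : (-(1 / m) - 2 / m ^ 2) * (q + 1) ≤ Real.log (1 - 1 / m) * (q + 1) :=
      mul_le_mul_of_nonneg_right h1 (by linarith)
    have h3 : (-(1 / m) - 2 / m ^ 2) * (q + 1) = -((q + 1) / m) - (q + 1) * (2 / m ^ 2) := by
      ring
    linarith
  have hexp : Real.exp (-Y - 2) = Real.exp 238 * Real.log m / m := by
    have h1 : -Y - 2 = 238 + Real.log (Real.log m) - Real.log m := by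
      rw [hY]
      ring
    rw [h1, Real.exp_sub, Real.exp_add, Real.exp_log hl0, Real.exp_log hm0]
  -- `K₀ ≤ 1 - 1/m`
  have hK1 : K0 q m ≤ 1 - 1 / m := by
    unfold K0
    have h1 : (1 - 1 / m) ^ (q + 1) ≤ (1 - 1 / m) ^ (1 : ℝ) := by
      apply Real.rpow_le_rpow_of_exponent_ge hx
      · have : 0 < 1 / m := by positivity
        linarith
      · linarith
    rwa [Real.rpow_one] at h1
  have hK0 : 0 < K0 q m := lt_of_lt_of_le (Real.exp_pos _) hK
  have hkp : K0 q m ≤ kp q m := by
    unfold kp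
    rw [le_div_iff₀ (by positivity)]
    have h1 : 0 ≤ 4 * (2 : ℝ) ^ (-(q + 1)) / m ^ 2 := by positivity
    have h2 : K0 q m * (1 + 2 / m) ^ 2 = K0 q m + K0 q m * (1 + 1 / m) * (4 / m) := by ring
    have h3 : K0 q m * (1 + 1 / m) ≤ 1 := by
      have h4 : K0 q m * (1 + 1 / m) ≤ (1 - 1 / m) * (1 + 1 / m) :=
        mul_le_mul_of_nonneg_right hK1 (by positivity)
      have h5 : (1 - 1 / m) * (1 + 1 / m) = 1 - (1 / m) ^ 2 := by ring
      have h6 : 0 ≤ (1 / m) ^ 2 := by positivity
      linarith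
    have h4 : K0 q m * (1 + 1 / m) * (4 / m) ≤ 1 * (4 / m) :=
      mul_le_mul_of_nonneg_right h3 (by positivity)
    rw [h2]
    linarith
  have hkpos : 0 < kp q m := lt_of_lt_of_le hK0 hkp
  have hkm : Real.exp 238 * Real.log m ≤ kp q m * m := by
    rw [hexp, div_le_iff₀ hm0] at hK
    refine hK.trans ?_
    exact mul_le_mul_of_nonneg_right hkp hm0.le
  have hbig := exp_big
  have hk1 : 1 / kp q m ≤ m := by
    rw [div_le_iff₀ hkpos]
    have h1 : (1 : ℝ) ≤ Real.exp 238 * Real.log m := by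
      have h2 : (1 : ℝ) ≤ Real.exp 238 := by
        refine le_trans ?_ hbig
        norm_num
      nlinarith
    linarith
  have hLa : La q m ≤ 2 * Real.log m := by
    unfold La
    have h1 : Real.log (1 / kp q m) ≤ Real.log m := Real.log_le_log (by positivity) hk1
    linarith
  refine ⟨by linarith, hq, ?_⟩
  calc 10 ^ 100 * La q m ≤ 10 ^ 100 * (2 * Real.log m) :=
        mul_le_mul_of_nonneg_left hLa (by positivity)
    _ = (2 * 10 ^ 100) * Real.log m := by ring
    _ ≤ Real.exp 238 * Real.log m := mul_le_mul_of_nonneg_right hbig hl0.le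
    _ ≤ kp q m * m := hkm

/-- The range in terms of `d` and `s`. Put `X d = log d - log log d - 240`. For `d = 1`:
`log (log 1) = log 0 = 0`, `X = -240`, contradiction with `0 < s`. For `2 ≤ d < 100`:
`-log (log d) ≤ 1/log d - 1 ≤ 1` (`Real.one_sub_inv_le_log_of_pos`), `log d ≤ 5`, so `X d < 0`.
For `d ≥ 100`: `log log (d+1) - log log d = log (log (d+1)/log d) ≤ (log (d+1) - log d)/log d ≤
log (d+1) - log d`, so `X d ≤ X (d+1)`, and `d X d ≤ (d+1) X (d+1)` (`X d ≥ 0` because `0 < s`);
`reg_of_le` with `q = s/2`, `m = d+1`; `d + 1 ≤ 250 (s/2)`. -/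
theorem reg_of_range {d : ℕ} {s : ℝ} (hd : 1 ≤ d) (h1 : (d : ℝ) / 100 ≤ s)
    (h2 : s ≤ 2 * d * (Real.log d - Real.log (Real.log d) - 240)) :
    Reg (s / 2) ((d : ℝ) + 1) := by
  have hd0 : (1 : ℝ) ≤ d := by exact_mod_cast hd
  have hs : 0 < s := by
    have : 0 < (d : ℝ) / 100 := by positivity
    linarith
  -- the bracket is positive
  have hX : 0 < Real.log d - Real.log (Real.log d) - 240 := by
    by_contra hcon
    have h3 : 2 * (d : ℝ) * (Real.log d - Real.log (Real.log d) - 240) ≤ 0 :=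
      mul_nonpos_of_nonneg_of_nonpos (by positivity) (not_lt.1 hcon)
    linarith
  rcases lt_or_ge d 100 with hlt | hge
  · exfalso
    have hlog : Real.log d ≤ 5 := by
      refine le_trans (Real.log_le_log (by linarith) ?_) log_hundred_lt
      exact_mod_cast hlt.le
    rcases Nat.lt_or_ge 1 d with h3 | h3
    · have h4 : (2 : ℝ) ≤ d := by exact_mod_cast h3
      have h5 : (1 / 2 : ℝ) ≤ Real.log d := by
        have h6 := Real.log_two_gt_d9
        have h7 : Real.log 2 ≤ Real.log d := Real.log_le_log (by norm_num) h4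
        norm_num at h6
        linarith
      have h6 := Real.one_sub_inv_le_log_of_pos (show 0 < Real.log d by linarith)
      have h7 : (Real.log d)⁻¹ ≤ 2 := by
        rw [inv_le_comm₀ (by linarith) (by norm_num)]
        linarith
      linarith
    · have h4 : d = 1 := by omega
      rw [h4] at hX
      norm_num at hX
  · have hge' : (100 : ℝ) ≤ d := by exact_mod_cast hge
    have hl1 := one_le_log hge'
    have hmono : Real.log d ≤ Real.log ((d : ℝ) + 1) :=
      Real.log_le_log (by linarith) (by linarith)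
    have hXX : Real.log d - Real.log (Real.log d) - 240 ≤
        Real.log ((d : ℝ) + 1) - Real.log (Real.log ((d : ℝ) + 1)) - 240 := by
      have hl1' : 1 ≤ Real.log ((d : ℝ) + 1) := hl1.trans hmono
      have h3 : Real.log (Real.log ((d : ℝ) + 1)) - Real.log (Real.log d) =
          Real.log (Real.log ((d : ℝ) + 1) / Real.log d) := by
        rw [Real.log_div (by linarith) (by linarith)]
      have h4 := Real.log_le_sub_one_of_pos
        (show 0 < Real.log ((d : ℝ) + 1) / Real.log d by positivity)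
      have h5 : Real.log ((d : ℝ) + 1) / Real.log d - 1 =
          (Real.log ((d : ℝ) + 1) - Real.log d) / Real.log d := by
        field_simp
      have h6 : (Real.log ((d : ℝ) + 1) - Real.log d) / Real.log d ≤
          Real.log ((d : ℝ) + 1) - Real.log d :=
        div_le_self (by linarith) hl1
      linarith
    refine reg_of_le (by linarith) (by linarith) ?_
    have h3 : s / 2 ≤ d * (Real.log d - Real.log (Real.log d) - 240) := by linarith
    refine h3.trans ?_
    refine mul_le_mul (by linarith) hXX hX.le (by linarith)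

end Pool.Agent.RieszTr
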