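import Pool.Agent.RieszTr.Split

set_option autoImplicit false

open Real Finset

namespace Pool.Agent.RieszTr

open Pool.Agent.RieszSmall Pool.Agent.RieszLin

section

variable {ι : Type*} [Fintype ι] [DecidableEq ι]

/-- `B = Ω_P + Ω_P² p/(2κ)` -/
noncomputable def Bq (k OP p : ℝ) : ℝ := OP + OP ^ 2 * p / (2 * k)

/-- MODULE RT10. The value of the dual functional for the multipliers used in all cases.
Take `v i = √κ (1 + a i Ω_P/κ)` for `i ∈ H`, `v i = √κ` otherwise;
`w z = - Of z` for `z ∈ L`, `w j = zf j` for `j ∈ J`, `w i = - Bq κ Ω_P (a i)` for `i ∈ H`.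
For `i, i' ∈ H`: `v i v i' + a i w i' + a i' w i = κ` (also for `i = i'`); then `offsum_three`. -/
theorem asm {q k OP : ℝ} (hk : 0 < k) {L J H : Finset ι} {a : ι → ℝ} (Of zf : ι → ℝ)
    (hu : L ∪ J ∪ H = Finset.univ) (h1 : Disjoint L J) (h2 : Disjoint L H) (h3 : Disjoint J H) :
    ∃ v w : ι → ℝ, BB q a v w =
      (offd L (fun z z' => Phi q (k - a z * Of z' - a z' * Of z))
        - q * ∑ z ∈ L, (k - 2 * a z * Of z))
      + 2 * ∑ z ∈ L, ∑ j ∈ J, Phi q (k - a j * Of z + a z * zf j)
      + 2 * ∑ i ∈ H, ∑ z ∈ L, Phi q (k + a i * (OP - Of z) - a z * Bq k OP (a i))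
      + (offd J (fun j j' => Phi q (k + a j * zf j' + a j' * zf j))
        - q * ∑ j ∈ J, (k + 2 * a j * zf j))
      + 2 * ∑ i ∈ H, ∑ j ∈ J, Phi q (k + a i * OP + a i * zf j - a j * Bq k OP (a i))
      + (((H.card : ℝ) ^ 2 - H.card) * Phi q k - q * H.card * k) := by
  set v : ι → ℝ := fun i => if i ∈ H then √k * (1 + a i * OP / k) else √k with hv
  set w : ι → ℝ := fun i => if i ∈ L then - Of i else if i ∈ J then zf i else - Bq k OP (a i)
    with hw
  have hkk : √k * √k = k := Real.mul_self_sqrt hk.le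
  have hk0 : k ≠ 0 := hk.ne'
  have vL : ∀ z ∈ L, v z = √k := fun z hz => if_neg (Finset.disjoint_left.1 h2 hz)
  have vJ : ∀ z ∈ J, v z = √k := fun z hz => if_neg (Finset.disjoint_left.1 h3 hz)
  have vH : ∀ z ∈ H, v z = √k * (1 + a z * OP / k) := fun z hz => if_pos hz
  have wL : ∀ z ∈ L, w z = - Of z := fun z hz => if_pos hz
  have wJ : ∀ z ∈ J, w z = zf z := fun z hz => by
    rw [hw]
    simp only [if_neg (Finset.disjoint_right.1 h1 hz), if_pos hz]
  have wH : ∀ z ∈ H, w z = - Bq k OP (a z) := fun z hz => by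
    rw [hw]
    simp only [if_neg (Finset.disjoint_right.1 h2 hz), if_neg (Finset.disjoint_right.1 h3 hz)]
  have kHH : ∀ i ∈ H, ∀ i' ∈ H, v i * v i' + a i * w i' + a i' * w i = k := by
    intro i hi i' hi'
    rw [vH i hi, vH i' hi', wH i hi, wH i' hi']
    have e : √k * (1 + a i * OP / k) * (√k * (1 + a i' * OP / k)) =
        k * ((1 + a i * OP / k) * (1 + a i' * OP / k)) := by
      rw [← hkk]
      simp only [hkk]
      linear_combination ((1 + a i * OP / k) * (1 + a i' * OP / k)) * hkk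
    rw [e]
    unfold Bq
    field_simp
    ring
  refine ⟨v, w, ?_⟩
  unfold BB
  rw [offsum_three (f := fun i j => Phi q (v i * v j + a i * w j + a j * w i))
      (fun i j => by rw [show v i * v j + a i * w j + a j * w i =
        v j * v i + a j * w i + a i * w j by ring]) hu h1 h2 h3,
    sum_three (f := fun i => v i ^ 2 + 2 * a i * w i) hu h1 h2 h3]
  have eLL : offd L (fun i j => Phi q (v i * v j + a i * w j + a j * w i)) =
      offd L (fun z z' => Phi q (k - a z * Of z' - a z' * Of z)) := by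
    refine offd_congr fun i hi j hj _ => ?_
    rw [vL i hi, vL j hj, wL i hi, wL j hj, hkk]
    congr 1
    ring
  have eJJ : offd J (fun i j => Phi q (v i * v j + a i * w j + a j * w i)) =
      offd J (fun j j' => Phi q (k + a j * zf j' + a j' * zf j)) := by
    refine offd_congr fun i hi j hj _ => ?_
    rw [vJ i hi, vJ j hj, wJ i hi, wJ j hj, hkk]
  have eHH : offd H (fun i j => Phi q (v i * v j + a i * w j + a j * w i)) =
      ((H.card : ℝ) ^ 2 - H.card) * Phi q k := by
    rw [← offd_const]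
    refine offd_congr fun i hi j hj _ => ?_
    rw [kHH i hi j hj]
  have eLJ : ∑ z ∈ L, ∑ j ∈ J, Phi q (v z * v j + a z * w j + a j * w z) =
      ∑ z ∈ L, ∑ j ∈ J, Phi q (k - a j * Of z + a z * zf j) := by
    refine Finset.sum_congr rfl fun z hz => Finset.sum_congr rfl fun j hj => ?_
    rw [vL z hz, vJ j hj, wL z hz, wJ j hj, hkk]
    congr 1
    ring
  have eHL : ∑ i ∈ H, ∑ z ∈ L, Phi q (v i * v z + a i * w z + a z * w i) =
      ∑ i ∈ H, ∑ z ∈ L, Phi q (k + a i * (OP - Of z) - a z * Bq k OP (a i)) := by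
    refine Finset.sum_congr rfl fun i hi => Finset.sum_congr rfl fun z hz => ?_
    rw [vH i hi, vL z hz, wH i hi, wL z hz]
    congr 1
    have e : √k * (1 + a i * OP / k) * √k = k + a i * OP := by
      have e1 : √k * (1 + a i * OP / k) * √k = k * (1 + a i * OP / k) := by
        linear_combination (1 + a i * OP / k) * hkk
      rw [e1]
      field_simp
    rw [e]
    ring
  have eHJ : ∑ i ∈ H, ∑ j ∈ J, Phi q (v i * v j + a i * w j + a j * w i) =
      ∑ i ∈ H, ∑ j ∈ J, Phi q (k + a i * OP + a i * zf j - a j * Bq k OP (a i)) := by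
    refine Finset.sum_congr rfl fun i hi => Finset.sum_congr rfl fun j hj => ?_
    rw [vH i hi, vJ j hj, wH i hi, wJ j hj]
    congr 1
    have e : √k * (1 + a i * OP / k) * √k = k + a i * OP := by
      have e1 : √k * (1 + a i * OP / k) * √k = k * (1 + a i * OP / k) := by
        linear_combination (1 + a i * OP / k) * hkk
      rw [e1]
      field_simp
    rw [e]
    ring
  have sL : ∑ i ∈ L, (v i ^ 2 + 2 * a i * w i) = ∑ z ∈ L, (k - 2 * a z * Of z) := by
    refine Finset.sum_congr rfl fun z hz => ?_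
    rw [vL z hz, wL z hz, Real.sq_sqrt hk.le]
    ring
  have sJ : ∑ i ∈ J, (v i ^ 2 + 2 * a i * w i) = ∑ j ∈ J, (k + 2 * a j * zf j) := by
    refine Finset.sum_congr rfl fun z hz => ?_
    rw [vJ z hz, wJ z hz, Real.sq_sqrt hk.le]
  have sH : ∑ i ∈ H, (v i ^ 2 + 2 * a i * w i) = H.card * k := by
    have e : ∀ i ∈ H, v i ^ 2 + 2 * a i * w i = k := fun i hi => by
      have := kHH i hi i hi
      linarith
    rw [Finset.sum_congr rfl e, Finset.sum_const, nsmul_eq_mul]
  rw [eLL, eJJ, eHH, eLJ, eHL, eHJ, sL, sJ, sH]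
  ring

end

end Pool.Agent.RieszTr
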