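import Pool.Agent.RieszTr.HL

set_option autoImplicit false

open Real Finset

namespace Pool.Agent.RieszTr

open Pool.Agent.RieszSmall Pool.Agent.RieszLin

section

variable {ι : Type*} [DecidableEq ι]

/-- MODULE RT19. Heavy against `J`: `K j = κ + p Ω_P + p zf j - a j B > 0`, `r = -a j ≥ 0`,
`∑ r = 1`, `0 ≤ zf j`, `∑ zf ≤ 10^15`, `|J| ≤ 10^29/κ`. `Φ(K) ≥ K - K log K` (`Phi_lower`), so
`Φ(K) ≥ -K log Kmax` with `Kmax = 10^50/κ ≥ K j` (if `K ≤ 1` then `Φ(K) ≥ 0`; `log Kmax ≥ 0`);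
`log Kmax ≤ 116 + log (1/κ) ≤ 116 Λ`. `∑ K ≤ |J| (κ + 3 p) + 10^15 p + B ≤ 10^59 p/κ`, using
`1 ≤ 10^29 p/κ`, `|J| κ ≤ 10^29 ≤ 10^58 p/κ`. -/
theorem hj {q m : ℝ} (h : Reg q m) {J : Finset ι} {a zf : ι → ℝ} (ha : ∀ j ∈ J, a j ≤ 0)
    (hs : ∑ j ∈ J, a j = -1) (hJ : (J.card : ℝ) ≤ 10 ^ 29 / kp q m) (hz : ∀ j ∈ J, 0 ≤ zf j)
    (hzs : ∑ j ∈ J, zf j ≤ 10 ^ 15) {p : ℝ} (hp : kp q m / 10 ^ 29 ≤ p) (hp1 : p ≤ 1) :
    -(10 ^ 62 * (La q m * (p / kp q m)))
      ≤ ∑ j ∈ J, Phi q (kp q m + p * (11 / 10 * Om q m) + p * zf j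
          - a j * Bq (kp q m) (11 / 10 * Om q m) p) := by
  have hk0 : 0 < kp q m := kp_pos h.hm
  have hk1 : kp q m ≤ 1 := by linarith [h.kp_le]
  obtain ⟨hLa, -, -, hq97, -⟩ := h.big
  have hq0 : 0 < q := lt_of_lt_of_le (by positivity) hq97
  obtain ⟨hO1, hO2⟩ := h.Om_bounds
  have hkp := h.kp_le
  have hOP0 : 0 ≤ 11 / 10 * Om q m := by nlinarith
  have hOP3 : 11 / 10 * Om q m ≤ 3 := by nlinarith
  obtain ⟨hB0, hB1⟩ := Bq_le3 h hOP0 hOP3 hp
  generalize hBdef : Bq (kp q m) (11 / 10 * Om q m) p = B at *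
  generalize hOPdef : 11 / 10 * Om q m = OP at *
  have hLadef : La q m = 1 + Real.log (1 / kp q m) := rfl
  generalize hLadef' : La q m = Λ at *
  generalize hkdef : kp q m = κ at *
  have hp0 : 0 < p := lt_of_lt_of_le (by positivity) hp
  -- `u = p / κ`
  have hu0 : 0 < p / κ := by positivity
  have hu1 : 1 ≤ 10 ^ 29 * (p / κ) := by
    have h1 : κ ≤ 10 ^ 29 * p := by
      have h2 := (div_le_iff₀ (by positivity : (0 : ℝ) < 10 ^ 29)).1 hp
      linarith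
    have h3 : 10 ^ 29 * (p / κ) = (10 ^ 29 * p) / κ := by ring
    rw [h3, le_div_iff₀ hk0]
    linarith
  have hpu : p ≤ p / κ := by
    rw [le_div_iff₀ hk0]
    nlinarith
  have haj : ∀ j ∈ J, -a j ≤ 1 := by
    intro j hj
    have h1 : -a j ≤ ∑ j ∈ J, -a j :=
      Finset.single_le_sum (f := fun j => -a j) (fun i hi => neg_nonneg.2 (ha i hi)) hj
    rw [Finset.sum_neg_distrib, hs, neg_neg] at h1
    exact h1
  have hzj : ∀ j ∈ J, zf j ≤ 10 ^ 15 := fun j hj =>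
    (Finset.single_le_sum (f := fun j => zf j) hz hj).trans hzs
  have hK0 : ∀ j ∈ J, 0 < κ + p * OP + p * zf j - a j * B := by
    intro j hj
    have h1 : 0 ≤ p * OP := by positivity
    have h2 : 0 ≤ p * zf j := mul_nonneg hp0.le (hz j hj)
    have h3 : 0 ≤ -a j * B := mul_nonneg (neg_nonneg.2 (ha j hj)) hB0
    nlinarith
  have hk1' : 1 ≤ 1 / κ := by
    rw [le_div_iff₀ hk0]
    linarith
  have hKmax : ∀ j ∈ J, κ + p * OP + p * zf j - a j * B ≤ 10 ^ 50 * (1 / κ) := by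
    intro j hj
    have h1 : p * OP ≤ 3 := by nlinarith
    have h2 : p * zf j ≤ 10 ^ 15 := by
      have := hzj j hj
      have := hz j hj
      nlinarith
    have h3 : -a j * B ≤ B := by
      have := haj j hj
      nlinarith
    have h4 : B ≤ 10 ^ 30 * (1 / κ) := by
      refine hB1.trans ?_
      have : p / κ ≤ 1 / κ := div_le_div_of_nonneg_right hp1 hk0.le
      linarith
    have h5 : κ + p * OP + p * zf j - a j * B ≤ 1 + 3 + 10 ^ 15 + 10 ^ 30 * (1 / κ) := by linarith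
    refine h5.trans ?_
    have h6 : (1 : ℝ) + 3 + 10 ^ 15 ≤ 10 ^ 49 * (1 / κ) := by
      have : (10 : ℝ) ^ 49 * 1 ≤ 10 ^ 49 * (1 / κ) :=
        mul_le_mul_of_nonneg_left hk1' (by positivity)
      norm_num at this ⊢
      linarith
    have h7 : (10 : ℝ) ^ 49 * (1 / κ) + 10 ^ 30 * (1 / κ) ≤ 10 ^ 50 * (1 / κ) := by
      have h8 : (0 : ℝ) < 1 / κ := by positivity
      have h9 : (10 : ℝ) ^ 49 + 10 ^ 30 ≤ 10 ^ 50 := by norm_num
      nlinarith
    linarith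
  have hlog : Real.log (10 ^ 50 * (1 / κ)) ≤ 451 * Λ := by
    rw [Real.log_mul (by positivity) (by positivity), Real.log_pow]
    have h1 : Real.log 10 ≤ 10 - 1 := Real.log_le_sub_one_of_pos (by norm_num)
    have h2 : Real.log (1 / κ) = Λ - 1 := by rw [hLadef]; ring
    rw [h2]
    push_cast
    linarith
  have hterm : ∀ j ∈ J, -(451 * Λ * (κ + p * OP + p * zf j - a j * B)) ≤
      Phi q (κ + p * OP + p * zf j - a j * B) := by
    intro j hj
    have hKj := hK0 j hj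
    have h1 := Phi_lower hq0 hKj
    have h2 : Real.log (κ + p * OP + p * zf j - a j * B) ≤ 451 * Λ :=
      (Real.log_le_log hKj (hKmax j hj)).trans hlog
    have h3 := mul_le_mul_of_nonneg_left h2 hKj.le
    linarith
  have hsumK : ∑ j ∈ J, (κ + p * OP + p * zf j - a j * B) ≤ 10 ^ 59 * (p / κ) := by
    have h1 : ∑ j ∈ J, (κ + p * OP + p * zf j - a j * B) =
        J.card * (κ + p * OP) + p * ∑ j ∈ J, zf j + B := by
      rw [Finset.sum_sub_distrib, Finset.sum_add_distrib, Finset.sum_const, nsmul_eq_mul,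
        ← Finset.mul_sum, ← Finset.sum_mul, hs]
      ring
    rw [h1]
    have h2 : (J.card : ℝ) * κ ≤ 10 ^ 29 := by
      have := mul_le_mul_of_nonneg_right hJ hk0.le
      rwa [div_mul_cancel₀ _ hk0.ne'] at this
    have h3 : (J.card : ℝ) * κ ≤ 10 ^ 58 * (p / κ) := by
      refine h2.trans ?_
      have h4 : (10 : ℝ) ^ 29 * 1 ≤ 10 ^ 29 * (10 ^ 29 * (p / κ)) :=
        mul_le_mul_of_nonneg_left hu1 (by positivity)
      calc (10 : ℝ) ^ 29 = 10 ^ 29 * 1 := by ring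
        _ ≤ _ := h4
        _ = 10 ^ 58 * (p / κ) := by ring
    have h5 : (J.card : ℝ) * (p * OP) ≤ 3 * 10 ^ 29 * (p / κ) := by
      have h6 : p * OP ≤ 3 * p := by nlinarith
      have h7 : (J.card : ℝ) * (p * OP) ≤ (10 ^ 29 / κ) * (3 * p) :=
        mul_le_mul hJ h6 (by positivity) (by positivity)
      refine h7.trans (le_of_eq ?_)
      ring
    have h8 : p * ∑ j ∈ J, zf j ≤ 10 ^ 15 * (p / κ) := by
      have h9 : p * ∑ j ∈ J, zf j ≤ p * 10 ^ 15 := mul_le_mul_of_nonneg_left hzs hp0.le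
      nlinarith
    have h10 : (10 : ℝ) ^ 58 * (p / κ) + 3 * 10 ^ 29 * (p / κ) + 10 ^ 15 * (p / κ) +
        10 ^ 30 * (p / κ) ≤ 10 ^ 59 * (p / κ) := by
      have h11 : (10 : ℝ) ^ 58 + 3 * 10 ^ 29 + 10 ^ 15 + 10 ^ 30 ≤ 10 ^ 59 := by norm_num
      have h12 := mul_le_mul_of_nonneg_right h11 hu0.le
      linarith
    rw [mul_add]
    linarith
  calc -(10 ^ 62 * (Λ * (p / κ))) ≤ -(451 * Λ * (10 ^ 59 * (p / κ))) := by
        have h1 : 0 ≤ Λ * (p / κ) := by positivity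
        have h2 : (451 : ℝ) * 10 ^ 59 ≤ 10 ^ 62 := by norm_num
        have h3 := mul_le_mul_of_nonneg_right h2 h1
        have h4 : 451 * Λ * (10 ^ 59 * (p / κ)) = 451 * 10 ^ 59 * (Λ * (p / κ)) := by ring
        rw [h4]
        linarith
    _ ≤ -(451 * Λ * ∑ j ∈ J, (κ + p * OP + p * zf j - a j * B)) := by
        have h1 : 0 ≤ 451 * Λ := by positivity
        have h2 := mul_le_mul_of_nonneg_left hsumK h1
        linarith
    _ = ∑ j ∈ J, -(451 * Λ * (κ + p * OP + p * zf j - a j * B)) := by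
        rw [Finset.mul_sum, Finset.sum_neg_distrib]
    _ ≤ _ := Finset.sum_le_sum hterm

end

end Pool.Agent.RieszTr
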