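import Pool.Agent.RieszTr.Defs

set_option autoImplicit false

open Real Finset

namespace Pool.Agent.RieszTr

open Pool.Agent.RieszSmall Pool.Agent.RieszLin

namespace SplitAux

lemma sum3 {ι : Type*} [DecidableEq ι] [Fintype ι] {L J H : Finset ι}
    (hu : L ∪ J ∪ H = Finset.univ) (h1 : Disjoint L J) (h2 : Disjoint L H) (h3 : Disjoint J H)
    (f : ι → ℝ) : ∑ i, f i = ∑ i ∈ L, f i + ∑ i ∈ J, f i + ∑ i ∈ H, f i := by
  rw [← hu, Finset.sum_union (Finset.disjoint_union_left.mpr ⟨h2, h3⟩), Finset.sum_union h1]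

lemma swap {ι : Type*} {f : ι → ι → ℝ} (hf : ∀ i j, f i j = f j i) (A B : Finset ι) :
    ∑ i ∈ A, ∑ j ∈ B, f i j = ∑ i ∈ B, ∑ j ∈ A, f i j := by
  rw [Finset.sum_comm]
  exact Finset.sum_congr rfl fun i _ => Finset.sum_congr rfl fun j _ => hf j i

end SplitAux

section

variable {ι : Type*} [DecidableEq ι]

/-- MODULE RT9. Basic rules for `offd`. -/
lemma offd_eq (S : Finset ι) (f : ι → ι → ℝ) :
    offd S f = ∑ i ∈ S, ∑ j ∈ S, f i j - ∑ i ∈ S, f i i := by
  unfold offd
  rw [← Finset.sum_sub_distrib]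
  refine Finset.sum_congr rfl fun i hi => ?_
  have h : ∀ j ∈ S, (if i = j then (0 : ℝ) else f i j) = f i j - if i = j then f i j else 0 := by
    intro j _
    split_ifs <;> simp
  rw [Finset.sum_congr rfl h, Finset.sum_sub_distrib, Finset.sum_ite_eq, if_pos hi]

lemma offd_le {S : Finset ι} {f g : ι → ι → ℝ}
    (h : ∀ i ∈ S, ∀ j ∈ S, i ≠ j → f i j ≤ g i j) : offd S f ≤ offd S g := by
  refine Finset.sum_le_sum fun i hi => Finset.sum_le_sum fun j hj => ?_
  split_ifs with hij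
  · exact le_refl _
  · exact h i hi j hj hij

lemma offd_congr {S : Finset ι} {f g : ι → ι → ℝ}
    (h : ∀ i ∈ S, ∀ j ∈ S, i ≠ j → f i j = g i j) : offd S f = offd S g :=
  le_antisymm (offd_le fun i hi j hj hij => (h i hi j hj hij).le)
    (offd_le fun i hi j hj hij => (h i hi j hj hij).ge)

lemma offd_add (S : Finset ι) (f g : ι → ι → ℝ) :
    offd S (fun i j => f i j + g i j) = offd S f + offd S g := by
  simp only [offd_eq, Finset.sum_add_distrib]
  ring

lemma offd_mul (S : Finset ι) (c : ℝ) (f : ι → ι → ℝ) :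
    offd S (fun i j => c * f i j) = c * offd S f := by
  simp only [offd_eq, ← Finset.mul_sum]
  ring

lemma offd_const (S : Finset ι) (c : ℝ) :
    offd S (fun _ _ => c) = ((S.card : ℝ) ^ 2 - S.card) * c := by
  simp only [offd_eq, Finset.sum_const, nsmul_eq_mul]
  ring

lemma offd_nonneg {S : Finset ι} {f : ι → ι → ℝ}
    (h : ∀ i ∈ S, ∀ j ∈ S, i ≠ j → 0 ≤ f i j) : 0 ≤ offd S f := by
  refine Finset.sum_nonneg fun i hi => Finset.sum_nonneg fun j hj => ?_
  split_ifs with hij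
  · exact le_refl _
  · exact h i hi j hj hij

/-- a double sum of a nonnegative function bounds `offd` -/
lemma offd_le_double {S : Finset ι} {f : ι → ι → ℝ} (h : ∀ i ∈ S, 0 ≤ f i i) :
    offd S f ≤ ∑ i ∈ S, ∑ j ∈ S, f i j := by
  rw [offd_eq]
  have := Finset.sum_nonneg h
  linarith

variable [Fintype ι]

/-- Split the sum over all ordered pairs along a partition into three classes. -/
theorem offsum_three {f : ι → ι → ℝ} (hf : ∀ i j, f i j = f j i) {L J H : Finset ι}
    (hu : L ∪ J ∪ H = Finset.univ) (h1 : Disjoint L J) (h2 : Disjoint L H) (h3 : Disjoint J H) :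
    offsum f = offd L f + offd J f + offd H f + 2 * ∑ z ∈ L, ∑ j ∈ J, f z j
      + 2 * ∑ i ∈ H, ∑ z ∈ L, f i z + 2 * ∑ i ∈ H, ∑ j ∈ J, f i j := by
  have h0 : offsum f = ∑ i, ∑ j, f i j - ∑ i, f i i := offd_eq Finset.univ f
  have hd := SplitAux.sum3 hu h1 h2 h3 (fun i => f i i)
  have hs : ∀ i, ∑ j, f i j = ∑ j ∈ L, f i j + ∑ j ∈ J, f i j + ∑ j ∈ H, f i j :=
    fun i => SplitAux.sum3 hu h1 h2 h3 (f i)
  have ht := SplitAux.sum3 hu h1 h2 h3 (fun i => ∑ j, f i j)
  simp only [hs, Finset.sum_add_distrib] at ht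
  have e1 := SplitAux.swap hf L J
  have e2 := SplitAux.swap hf H L
  have e3 := SplitAux.swap hf H J
  simp only [h0, hs, Finset.sum_add_distrib, offd_eq]
  linarith

/-- same for single sums and for the cardinality. -/
theorem sum_three {f : ι → ℝ} {L J H : Finset ι}
    (hu : L ∪ J ∪ H = Finset.univ) (h1 : Disjoint L J) (h2 : Disjoint L H) (h3 : Disjoint J H) :
    ∑ i, f i = ∑ i ∈ L, f i + ∑ i ∈ J, f i + ∑ i ∈ H, f i :=
  SplitAux.sum3 hu h1 h2 h3 f

theorem card_three {L J H : Finset ι}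
    (hu : L ∪ J ∪ H = Finset.univ) (h1 : Disjoint L J) (h2 : Disjoint L H) (h3 : Disjoint J H) :
    (Fintype.card ι : ℝ) = L.card + J.card + H.card := by
  have := sum_three (f := fun _ : ι => (1 : ℝ)) hu h1 h2 h3
  simpa using this

end

end Pool.Agent.RieszTr
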