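import Pool.Agent.RieszTr.TT
import Pool.Agent.RieszTr.Split

set_option autoImplicit false

open Real Finset

namespace Pool.Agent.RieszTr

open Pool.Agent.RieszSmall Pool.Agent.RieszLin

section

variable {ι : Type*} [DecidableEq ι]

theorem LLAux.sq3 (x y w : ℝ) : (x + y + w) ^ 2 ≤ 3 * (x ^ 2 + y ^ 2 + w ^ 2) := by
  nlinarith [sq_nonneg (x - y), sq_nonneg (x - w), sq_nonneg (y - w)]

theorem LLAux.sq2 (x y : ℝ) : (x + y) ^ 2 ≤ 2 * (x ^ 2 + y ^ 2) := by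
  nlinarith [sq_nonneg (x - y)]

/-- the linear sum, off the diagonal -/
theorem LLAux.offd_lin (L : Finset ι) (a w : ι → ℝ) (d : ℝ) :
    offd L (fun z z' => d - a z * w z' - a z' * w z)
      = ((L.card : ℝ) ^ 2 - L.card) * d
        - 2 * ((∑ z ∈ L, a z) * ∑ z ∈ L, w z - ∑ z ∈ L, a z * w z) := by
  rw [offd_eq]
  have h1 : ∑ i ∈ L, ∑ j ∈ L, (d - a i * w j - a j * w i)
      = (L.card : ℝ) ^ 2 * d - 2 * ((∑ z ∈ L, a z) * ∑ z ∈ L, w z) := by
    have h2 : ∀ i ∈ L, ∑ j ∈ L, (d - a i * w j - a j * w i)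
        = (L.card : ℝ) * d - a i * (∑ z ∈ L, w z) - (∑ z ∈ L, a z) * w i := by
      intro i _
      rw [Finset.sum_sub_distrib, Finset.sum_sub_distrib, Finset.sum_const, nsmul_eq_mul,
        ← Finset.mul_sum, ← Finset.sum_mul]
    rw [Finset.sum_congr rfl h2, Finset.sum_sub_distrib, Finset.sum_sub_distrib,
      Finset.sum_const, nsmul_eq_mul, ← Finset.sum_mul, ← Finset.mul_sum]
    ring
  have h3 : ∑ i ∈ L, (d - a i * w i - a i * w i)
      = (L.card : ℝ) * d - 2 * ∑ z ∈ L, a z * w z := by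
    rw [Finset.sum_sub_distrib, Finset.sum_sub_distrib, Finset.sum_const, nsmul_eq_mul]
    ring
  rw [h1, h3]
  ring

/-- MODULE RT16. The light-light part. `Phi_quad` at `K1 = K₀` (`sl q K₀ = q/(m-1)`):
`offd Φ(K) ≥ (n²-n) Φ(K₀) + (q/(m-1)) offd (K - K₀) - cv q K₀ offd ((K-K₀)²)` and
`offd (K - K₀) = (n²-n)(κ-K₀) + offd (K-κ)`, `offd (K-κ) = -2 (A ∑Ω - ∑ a Ω)`, diagonal part
`-q n κ + 2 q ∑ a Ω`; with `Ω z = O + om z`, `A = ∑ a`, linear part
`(2q/(m-1)) (m ∑ a Ω - A ∑ Ω) = (2 q m/(m-1)) ∑ (a z - A/m) Ω z`, and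
`∑ (a z - A/m) O = O A (1 - n/m)`. -/
theorem ll_main {q m O : ℝ} (h : Reg q m) {L : Finset ι} {a om : ι → ℝ}
    (hK : ∀ z ∈ L, ∀ z' ∈ L, z ≠ z' → 0 < kp q m - a z * (O + om z') - a z' * (O + om z)) :
    ((L.card : ℝ) ^ 2 - L.card) * P1 q m - q * L.card * kp q m
        + 2 * q * m / (m - 1) * (O * (∑ z ∈ L, a z) * (1 - L.card / m))
        + 2 * q * m / (m - 1) * ∑ z ∈ L, (a z - (∑ z ∈ L, a z) / m) * om z
        - cv q (K0 q m) * offd L (fun z z' =>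
            (kp q m - a z * (O + om z') - a z' * (O + om z) - K0 q m) ^ 2)
      ≤ offd L (fun z z' => Phi q (kp q m - a z * (O + om z') - a z' * (O + om z)))
        - q * ∑ z ∈ L, (kp q m - 2 * a z * (O + om z)) := by
  have hm := h.hm
  have hq : 0 < q := by
    have := h.hq
    linarith
  have hm1 : (m - 1 : ℝ) ≠ 0 := by
    have : 0 < m - 1 := by linarith
    exact this.ne'
  have hm0 : (m : ℝ) ≠ 0 := by
    have : 0 < m := by linarith
    exact this.ne'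
  have h1 : (2 : ℝ) ^ (-(q + 1)) ≤ K0 q m := h.K0_bounds.2.2.2
  have hle : offd L (fun z z' => Phi q (K0 q m)
        + sl q (K0 q m) * (kp q m - a z * (O + om z') - a z' * (O + om z) - K0 q m)
        - cv q (K0 q m) * (kp q m - a z * (O + om z') - a z' * (O + om z) - K0 q m) ^ 2)
      ≤ offd L (fun z z' => Phi q (kp q m - a z * (O + om z') - a z' * (O + om z))) :=
    offd_le fun z hz z' hz' hne => Phi_quad hq h1 (hK z hz z' hz' hne)
  have heq : offd L (fun z z' => Phi q (K0 q m)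
        + sl q (K0 q m) * (kp q m - a z * (O + om z') - a z' * (O + om z) - K0 q m)
        - cv q (K0 q m) * (kp q m - a z * (O + om z') - a z' * (O + om z) - K0 q m) ^ 2)
      = ((L.card : ℝ) ^ 2 - L.card) * Phi q (K0 q m)
        + sl q (K0 q m) * offd L (fun z z' => (kp q m - K0 q m) - a z * (O + om z')
          - a z' * (O + om z))
        + (-cv q (K0 q m)) * offd L (fun z z' =>
            (kp q m - a z * (O + om z') - a z' * (O + om z) - K0 q m) ^ 2) := by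
    rw [← offd_const, ← offd_mul, ← offd_mul, ← offd_add, ← offd_add]
    refine offd_congr fun z _ z' _ _ => ?_
    ring
  have hlin := LLAux.offd_lin L a (fun z => O + om z) (kp q m - K0 q m)
  have hdiag : ∑ z ∈ L, (kp q m - 2 * a z * (O + om z))
      = (L.card : ℝ) * kp q m - 2 * ∑ z ∈ L, a z * (O + om z) := by
    rw [Finset.sum_sub_distrib, Finset.sum_const, nsmul_eq_mul, Finset.mul_sum]
    congr 1
    exact Finset.sum_congr rfl fun z _ => by ring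
  have hW : ∑ z ∈ L, (O + om z) = (L.card : ℝ) * O + ∑ z ∈ L, om z := by
    rw [Finset.sum_add_distrib, Finset.sum_const, nsmul_eq_mul]
  have hS : ∑ z ∈ L, a z * (O + om z) = O * (∑ z ∈ L, a z) + ∑ z ∈ L, a z * om z := by
    rw [Finset.mul_sum, ← Finset.sum_add_distrib]
    exact Finset.sum_congr rfl fun z _ => by ring
  have hT : ∑ z ∈ L, (a z - (∑ z ∈ L, a z) / m) * om z
      = ∑ z ∈ L, a z * om z - (∑ z ∈ L, a z) / m * ∑ z ∈ L, om z := by
    rw [Finset.mul_sum, ← Finset.sum_sub_distrib]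
    exact Finset.sum_congr rfl fun z _ => by ring
  rw [heq, hlin, hW, hS, sl_K0 hq hm] at hle
  rw [hdiag, hT, hS]
  generalize offd L (fun z z' => (kp q m - a z * (O + om z') - a z' * (O + om z) - K0 q m) ^ 2)
    = X at hle ⊢
  generalize offd L (fun z z' => Phi q (kp q m - a z * (O + om z') - a z' * (O + om z)))
    = Y at hle ⊢
  unfold P1
  generalize ∑ z ∈ L, a z * om z = S at hle ⊢
  generalize ∑ z ∈ L, a z = A at hle ⊢
  generalize ∑ z ∈ L, om z = W at hle ⊢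
  generalize (L.card : ℝ) = n at hle ⊢
  generalize Phi q (K0 q m) = F at hle ⊢
  generalize cv q (K0 q m) = c at hle ⊢
  generalize K0 q m = k0 at hle ⊢
  generalize kp q m = k at hle ⊢
  have key : (n ^ 2 - n) * (F + q / (m - 1) * (k - k0)) - q * n * k
        + 2 * q * m / (m - 1) * (O * A * (1 - n / m))
        + 2 * q * m / (m - 1) * (S - A / m * W) - c * X
      = ((n ^ 2 - n) * F + q / (m - 1) * ((n ^ 2 - n) * (k - k0)
          - 2 * (A * (n * O + W) - (O * A + S))) + -c * X)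
        - q * (n * k - 2 * (O * A + S)) := by
    field_simp
    ring
  rw [key]
  linarith

/-- MODULE RT17. `κ - K₀ = 2 O/m` and `ρ = a z - 1/m`:
`K - K₀ = -((ρ+ρ')O + ρ om' + ρ' om + (om+om')/m)`, square `≤ 3 (…)`, sum over all pairs:
`∑∑ ((ρ+ρ')O)² ≤ 4 n O² ∑ρ² ≤ 16 n ∑ρ²`, `∑∑ (ρ om' + ρ' om)² ≤ 4 ∑ρ² ∑om²`,
`∑∑ ((om+om')/m)² ≤ 4 n ∑ om²/m²`; `∑ om² ≤ n/100`, `n ≤ m + 1`, `m ≥ 1000`:
`3·16 n + 3·4·n/100 ≤ 50 m`, `12 n/m² ≤ 13/m`. -/
theorem ll_quad {k k0 m O : ℝ} (hm : 1000 ≤ m) (hO : 0 ≤ O) (hO2 : O ≤ 2)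
    (hk : k - k0 = 2 * O / m) {L : Finset ι} {a om : ι → ℝ} (hn : (L.card : ℝ) ≤ m + 1)
    (ho : ∀ z ∈ L, |om z| ≤ 1 / 10) :
    offd L (fun z z' => (k - a z * (O + om z') - a z' * (O + om z) - k0) ^ 2)
      ≤ 50 * m * ∑ z ∈ L, (a z - 1 / m) ^ 2 + 13 / m * ∑ z ∈ L, om z ^ 2 := by
  have hm0 : 0 < m := by linarith
  have hmn : (m : ℝ) ≠ 0 := hm0.ne'
  -- the pointwise bound
  have hpt : ∀ z ∈ L, ∀ z' ∈ L, z ≠ z' →
      (k - a z * (O + om z') - a z' * (O + om z) - k0) ^ 2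
        ≤ (2406 / 100 * (a z - 1 / m) ^ 2 + 6 / m ^ 2 * om z ^ 2)
          + (2406 / 100 * (a z' - 1 / m) ^ 2 + 6 / m ^ 2 * om z' ^ 2) := by
    intro z hz z' hz' _
    have e1 : om z ^ 2 ≤ 1 / 100 := by
      have := abs_le.mp (ho z hz)
      nlinarith [this.1, this.2]
    have e2 : om z' ^ 2 ≤ 1 / 100 := by
      have := abs_le.mp (ho z' hz')
      nlinarith [this.1, this.2]
    obtain ⟨r, hr⟩ : ∃ r, r = a z - 1 / m := ⟨_, rfl⟩
    obtain ⟨r', hr'⟩ : ∃ r', r' = a z' - 1 / m := ⟨_, rfl⟩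
    obtain ⟨u, hu⟩ : ∃ u, u = om z / m := ⟨_, rfl⟩
    obtain ⟨u', hu'⟩ : ∃ u', u' = om z' / m := ⟨_, rfl⟩
    have hform : k - a z * (O + om z') - a z' * (O + om z) - k0
        = -((r + r') * O + (r * om z' + r' * om z) + (u + u')) := by
      have hk' : k = k0 + 2 * O / m := by linarith
      rw [hk', hr, hr', hu, hu']
      field_simp
      ring
    have hu2 : 6 / m ^ 2 * om z ^ 2 = 6 * u ^ 2 := by
      rw [hu]
      field_simp
    have hu2' : 6 / m ^ 2 * om z' ^ 2 = 6 * u' ^ 2 := by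
      rw [hu']
      field_simp
    rw [hform, ← hr, ← hr', hu2, hu2', neg_sq]
    have s1 : ((r + r') * O + (r * om z' + r' * om z) + (u + u')) ^ 2
        ≤ 3 * (((r + r') * O) ^ 2 + (r * om z' + r' * om z) ^ 2 + (u + u') ^ 2) :=
      LLAux.sq3 _ _ _
    have s2 : ((r + r') * O) ^ 2 ≤ 8 * (r ^ 2 + r' ^ 2) := by
      have hO4 : O ^ 2 ≤ 4 := by nlinarith
      have h2 : (r + r') ^ 2 ≤ 2 * (r ^ 2 + r' ^ 2) := LLAux.sq2 r r'
      rw [mul_pow]
      calc (r + r') ^ 2 * O ^ 2 ≤ (2 * (r ^ 2 + r' ^ 2)) * 4 :=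
            mul_le_mul h2 hO4 (sq_nonneg _) (by positivity)
        _ = 8 * (r ^ 2 + r' ^ 2) := by ring
    have s3 : (r * om z' + r' * om z) ^ 2 ≤ 2 / 100 * (r ^ 2 + r' ^ 2) := by
      have t1 : r ^ 2 * om z' ^ 2 ≤ r ^ 2 * (1 / 100) :=
        mul_le_mul_of_nonneg_left e2 (sq_nonneg _)
      have t2 : r' ^ 2 * om z ^ 2 ≤ r' ^ 2 * (1 / 100) :=
        mul_le_mul_of_nonneg_left e1 (sq_nonneg _)
      have t3 := LLAux.sq2 (r * om z') (r' * om z)
      rw [mul_pow, mul_pow] at t3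
      linarith
    have s4 : (u + u') ^ 2 ≤ 2 * (u ^ 2 + u' ^ 2) := LLAux.sq2 u u'
    linarith
  refine (offd_le hpt).trans ?_
  set g : ι → ℝ := fun z => 2406 / 100 * (a z - 1 / m) ^ 2 + 6 / m ^ 2 * om z ^ 2 with hg
  have hg0 : ∀ z, 0 ≤ g z := fun z => by
    rw [hg]
    positivity
  have h1 : offd L (fun z z' => g z + g z') ≤ ∑ i ∈ L, ∑ j ∈ L, (g i + g j) :=
    offd_le_double fun i _ => by
      have := hg0 i
      linarith
  have h2 : ∑ i ∈ L, ∑ j ∈ L, (g i + g j) = 2 * (L.card : ℝ) * ∑ z ∈ L, g z := by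
    have h3 : ∀ i ∈ L, ∑ j ∈ L, (g i + g j) = (L.card : ℝ) * g i + ∑ z ∈ L, g z := by
      intro i _
      rw [Finset.sum_add_distrib, Finset.sum_const, nsmul_eq_mul]
    rw [Finset.sum_congr rfl h3, Finset.sum_add_distrib, ← Finset.mul_sum, Finset.sum_const,
      nsmul_eq_mul]
    ring
  have h4 : ∑ z ∈ L, g z = 2406 / 100 * ∑ z ∈ L, (a z - 1 / m) ^ 2
      + 6 / m ^ 2 * ∑ z ∈ L, om z ^ 2 := by
    rw [hg, Finset.sum_add_distrib, ← Finset.mul_sum, ← Finset.mul_sum]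
  have hR : 0 ≤ ∑ z ∈ L, (a z - 1 / m) ^ 2 := Finset.sum_nonneg fun _ _ => sq_nonneg _
  have hW : 0 ≤ ∑ z ∈ L, om z ^ 2 := Finset.sum_nonneg fun _ _ => sq_nonneg _
  refine h1.trans ?_
  rw [h2, h4]
  have hn' : (L.card : ℝ) ≤ 1001 / 1000 * m := by linarith
  have c1 : 2 * (L.card : ℝ) * (2406 / 100 * ∑ z ∈ L, (a z - 1 / m) ^ 2)
      ≤ 50 * m * ∑ z ∈ L, (a z - 1 / m) ^ 2 := by
    have : 2 * (L.card : ℝ) * (2406 / 100) ≤ 50 * m := by linarith
    calc 2 * (L.card : ℝ) * (2406 / 100 * ∑ z ∈ L, (a z - 1 / m) ^ 2)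
        = (2 * (L.card : ℝ) * (2406 / 100)) * ∑ z ∈ L, (a z - 1 / m) ^ 2 := by ring
      _ ≤ 50 * m * ∑ z ∈ L, (a z - 1 / m) ^ 2 := mul_le_mul_of_nonneg_right this hR
  have c2 : 2 * (L.card : ℝ) * (6 / m ^ 2 * ∑ z ∈ L, om z ^ 2)
      ≤ 13 / m * ∑ z ∈ L, om z ^ 2 := by
    have h5 : 2 * (L.card : ℝ) * (6 / m ^ 2) ≤ 13 / m := by
      calc 2 * (L.card : ℝ) * (6 / m ^ 2) ≤ 2 * (1001 / 1000 * m) * (6 / m ^ 2) := by
            gcongr
        _ = 12012 / 1000 / m := by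
            field_simp
            ring
        _ ≤ 13 / m := by
            gcongr
            norm_num
    calc 2 * (L.card : ℝ) * (6 / m ^ 2 * ∑ z ∈ L, om z ^ 2)
        = (2 * (L.card : ℝ) * (6 / m ^ 2)) * ∑ z ∈ L, om z ^ 2 := by ring
      _ ≤ 13 / m * ∑ z ∈ L, om z ^ 2 := mul_le_mul_of_nonneg_right h5 hW
  linarith

end

end Pool.Agent.RieszTr
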