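import Pool.Agent.RieszTr.Clip
import Pool.Agent.RieszTr.LL

set_option autoImplicit false

open Real Finset

namespace Pool.Agent.RieszTr

open Pool.Agent.RieszSmall Pool.Agent.RieszLin

section

variable {ι : Type*} [DecidableEq ι]


namespace LightAux

theorem final {q m k : ℝ} (hm : 10 ^ 100 ≤ m) (hk : 0 < k) (hk1 : k < 1) (hkm : 10 ^ 100 ≤ k * m)
    (hq : 0 < q) {L : Finset ι} {a om x : ι → ℝ} (hn : (L.card : ℝ) ≤ m + 1) {A : ℝ}
    (hx : ∀ z ∈ L, x z = q * (a z - A / m))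
    (h1 : ∀ z ∈ L, 16 * om z ^ 2 ≤ x z * om z)
    (h2 : ∀ z ∈ L, 10 ^ 4 * m * x z ^ 2 ≤ k * q ^ 2 * (x z * om z)) :
    8 * ∑ z ∈ L, om z ^ 2 + 16 * ∑ z ∈ L, (a z - 1 / m) ^ 2
      + 3 / k * (50 * m * ∑ z ∈ L, (a z - 1 / m) ^ 2 + 13 / m * ∑ z ∈ L, om z ^ 2)
      ≤ ∑ z ∈ L, x z * om z + 400 * (1 - A) ^ 2 / k := by
  have hm0 : 0 < m := by linarith
  set S := ∑ z ∈ L, x z * om z with hS
  set V := ∑ z ∈ L, om z ^ 2 with hV
  set R := ∑ z ∈ L, (a z - 1 / m) ^ 2 with hR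
  have hV0 : 0 ≤ V := Finset.sum_nonneg fun z _ => sq_nonneg _
  have hR0 : 0 ≤ R := Finset.sum_nonneg fun z _ => sq_nonneg _
  have hVS : 16 * V ≤ S := by
    rw [hV, hS, Finset.mul_sum]
    exact Finset.sum_le_sum h1
  have hS0 : 0 ≤ S := by linarith
  -- pointwise bound for `ρ ^ 2`
  have hR1 : m / k * R ≤ 2 / 10 ^ 4 * S + 2 * (L.card / m) * ((1 - A) ^ 2 / k) := by
    have hp : ∀ z ∈ L, m / k * (a z - 1 / m) ^ 2 ≤
        2 / 10 ^ 4 * (x z * om z) + 2 / m * ((1 - A) ^ 2 / k) := by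
      intro z hz
      have e1 : a z - 1 / m = x z / q - (1 - A) / m := by
        rw [hx z hz]
        field_simp
        ring
      have e2 : (a z - 1 / m) ^ 2 ≤ 2 * (x z ^ 2 / q ^ 2) + 2 * ((1 - A) ^ 2 / m ^ 2) := by
        rw [e1, ← div_pow, ← div_pow]
        nlinarith [sq_nonneg (x z / q + (1 - A) / m)]
      have e3 : m / k * (x z ^ 2 / q ^ 2) ≤ 1 / 10 ^ 4 * (x z * om z) := by
        rw [div_mul_div_comm, div_le_iff₀ (by positivity)]
        have := h2 z hz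
        linarith
      have e4 : m / k * ((1 - A) ^ 2 / m ^ 2) = 1 / m * ((1 - A) ^ 2 / k) := by
        field_simp
      calc m / k * (a z - 1 / m) ^ 2
          ≤ m / k * (2 * (x z ^ 2 / q ^ 2) + 2 * ((1 - A) ^ 2 / m ^ 2)) :=
            mul_le_mul_of_nonneg_left e2 (by positivity)
        _ = 2 * (m / k * (x z ^ 2 / q ^ 2)) + 2 * (m / k * ((1 - A) ^ 2 / m ^ 2)) := by ring
        _ ≤ 2 * (1 / 10 ^ 4 * (x z * om z)) + 2 * (1 / m * ((1 - A) ^ 2 / k)) := by
            rw [e4]; linarith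
        _ = _ := by ring
    calc m / k * R = ∑ z ∈ L, m / k * (a z - 1 / m) ^ 2 := by rw [hR, Finset.mul_sum]
      _ ≤ ∑ z ∈ L, (2 / 10 ^ 4 * (x z * om z) + 2 / m * ((1 - A) ^ 2 / k)) :=
          Finset.sum_le_sum hp
      _ = _ := by
          rw [Finset.sum_add_distrib, ← Finset.mul_sum, Finset.sum_const, nsmul_eq_mul]
          ring
  have hP0 : 0 ≤ (1 - A) ^ 2 / k := by positivity
  set P := (1 - A) ^ 2 / k with hP
  have hnm : (L.card : ℝ) / m ≤ 101 / 100 := by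
    rw [div_le_iff₀ hm0]
    linarith
  have hR2 : m / k * R ≤ 2 / 10 ^ 4 * S + 202 / 100 * P := by
    have : 2 * (L.card / m) * P ≤ 2 * (101 / 100) * P := by
      have := mul_le_mul_of_nonneg_right hnm hP0
      linarith
    linarith
  have hmk : 16 ≤ m / k := by
    rw [le_div_iff₀ hk]
    nlinarith
  have hR3 : 16 * R ≤ m / k * R := mul_le_mul_of_nonneg_right hmk hR0
  have hV1 : 3 / k * (13 / m * V) ≤ V := by
    have : 3 / k * (13 / m) ≤ 1 := by
      rw [div_mul_div_comm, div_le_one (by positivity)]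
      linarith
    calc 3 / k * (13 / m * V) = 3 / k * (13 / m) * V := by ring
      _ ≤ 1 * V := mul_le_mul_of_nonneg_right this hV0
      _ = V := one_mul V
  have e5 : 3 / k * (50 * m * R + 13 / m * V) = 150 * (m / k * R) + 3 / k * (13 / m * V) := by
    ring
  have e6 : 400 * (1 - A) ^ 2 / k = 400 * P := by rw [hP]; ring
  rw [e5, e6]
  linarith

end LightAux

/-- MODULE RT21. The light part after all quadratic costs. `A = ∑_L a ∈ [0,1]`, `π = 1 - A`,
`x z = q (a z - A/m)`, `om z = clip (Ω/20) (x z)`, `ρ z = a z - 1/m = x z/q - π/m`.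
From `ll_main` (with `O = Ω`) and `ll_quad` (`cv q K₀ ≤ 3/κ`): the costs are
`(3/κ)(50 m ∑ρ² + (13/m) ∑om²)`; the extra `8∑om² + 16 ∑ρ²` is the cost which appears in the
light-`J` part. `ρ² ≤ 2 x²/q² + 2π²/m²`; `|x z| ≤ q (κ/10^20 + 1/m) ≤ 2 q κ/10^20`, so `clip_big`
gives `m x²/(κ q²) ≤ 10^(-4) x om`; `(150 m/κ + 16) ∑ρ² ≤ (151 m/κ)(2∑x²/q² + 2 n π²/m²)
≤ 0.0302 ∑ x om + 310 π²/κ`; `(39/(κ m) + 8) ∑ om² ≤ 9 ∑ x om/16`; the linear gain is
`(2 q m/(m-1)) ∑ (a - A/m) om = (2m/(m-1)) ∑ x om ≥ 2 ∑ x om`. Positivity of `K` in `ll_main`: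
`|a z| (O + |om|) ≤ (κ/10^20)·3`. -/
theorem light {q m : ℝ} (h : Reg q m) {L : Finset ι} {a om : ι → ℝ}
    (hn : (L.card : ℝ) ≤ m + 1)
    (ha : ∀ z ∈ L, |a z| ≤ kp q m / 10 ^ 20)
    (hA : 0 ≤ ∑ z ∈ L, a z) (hA1 : ∑ z ∈ L, a z ≤ 1)
    (hom : ∀ z ∈ L, om z = clip (Om q m / 20) (q * (a z - (∑ z ∈ L, a z) / m))) :
    ((L.card : ℝ) ^ 2 - L.card) * P1 q m - q * L.card * kp q m
        + 2 * q * m / (m - 1) * (Om q m * (∑ z ∈ L, a z) * (1 - L.card / m))
        + ∑ z ∈ L, (q * (a z - (∑ z ∈ L, a z) / m)) * om z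
        - 400 * (1 - ∑ z ∈ L, a z) ^ 2 / kp q m
        + 8 * ∑ z ∈ L, om z ^ 2 + 16 * ∑ z ∈ L, (a z - 1 / m) ^ 2
      ≤ offd L (fun z z' => Phi q (kp q m - a z * (Om q m + om z') - a z' * (Om q m + om z)))
        - q * ∑ z ∈ L, (kp q m - 2 * a z * (Om q m + om z)) := by
  obtain ⟨hLa, hkm, hm, hq97, _⟩ := h.big
  have hk0 : 0 < kp q m := kp_pos h.hm
  have hm0 : 0 < m := by linarith
  have hq0 : 0 < q := by linarith
  have hk1 : kp q m < 1 := kp_lt_one hq0 h.hm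
  obtain ⟨hO1, hO2⟩ := h.Om_bounds
  have hO0 : 0 ≤ Om q m := by linarith
  have hOle : Om q m ≤ 2 := by linarith
  have hc0 : 0 ≤ Om q m / 20 := by linarith
  set A := ∑ z ∈ L, a z with hAdef
  have hom' : ∀ z ∈ L, |om z| ≤ 1 / 10 := by
    intro z hz
    rw [hom z hz]
    exact (clip_abs hc0).trans (by linarith)
  have hmain := ll_main h (O := Om q m) (L := L) (a := a) (om := om) (by
    intro z hz z' hz' _
    have a1 := ha z hz
    have a2 := ha z' hz'
    have o1 := hom' z hz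
    have o2 := hom' z' hz'
    have b1 : |Om q m + om z'| ≤ 3 := by
      rw [abs_le] at o2 ⊢
      constructor <;> linarith
    have b2 : |Om q m + om z| ≤ 3 := by
      rw [abs_le] at o1 ⊢
      constructor <;> linarith
    have c1 : a z * (Om q m + om z') ≤ kp q m / 10 ^ 20 * 3 := by
      calc a z * (Om q m + om z') ≤ |a z * (Om q m + om z')| := le_abs_self _
        _ = |a z| * |Om q m + om z'| := abs_mul _ _
        _ ≤ _ := mul_le_mul a1 b1 (abs_nonneg _) (by positivity)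
    have c2 : a z' * (Om q m + om z) ≤ kp q m / 10 ^ 20 * 3 := by
      calc a z' * (Om q m + om z) ≤ |a z' * (Om q m + om z)| := le_abs_self _
        _ = |a z'| * |Om q m + om z| := abs_mul _ _
        _ ≤ _ := mul_le_mul a2 b2 (abs_nonneg _) (by positivity)
    linarith)
  rw [← hAdef] at hmain
  have hquad := ll_quad (k := kp q m) (k0 := K0 q m) (m := m) (O := Om q m) (by linarith) hO0 hOle
    (by have := id_K0 (q := q) h.hm; linarith) (a := a) hn hom'
  obtain ⟨hcv0, hcv1⟩ := h.cv_K0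
  set R := ∑ z ∈ L, (a z - 1 / m) ^ 2 with hR
  set V := ∑ z ∈ L, om z ^ 2 with hV
  have hV0 : 0 ≤ V := Finset.sum_nonneg fun z _ => sq_nonneg _
  have hR0 : 0 ≤ R := Finset.sum_nonneg fun z _ => sq_nonneg _
  have hcost : cv q (K0 q m) * offd L (fun z z' =>
            (kp q m - a z * (Om q m + om z') - a z' * (Om q m + om z) - K0 q m) ^ 2) ≤
      3 / kp q m * (50 * m * R + 13 / m * V) := by
    refine (mul_le_mul_of_nonneg_left hquad hcv0).trans ?_
    exact mul_le_mul_of_nonneg_right hcv1 (by positivity)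
  have hm1 : 1 / m ≤ kp q m / 10 ^ 20 := by
    rw [div_le_div_iff₀ hm0 (by positivity)]
    linarith
  have hxz : ∀ z ∈ L, |q * (a z - A / m)| ≤ 2 * q * kp q m / 10 ^ 20 := by
    intro z hz
    rw [abs_mul, abs_of_pos hq0]
    have h1 : |a z - A / m| ≤ kp q m / 10 ^ 20 + kp q m / 10 ^ 20 := by
      refine (abs_sub _ _).trans (add_le_add (ha z hz) ?_)
      rw [abs_of_nonneg (by positivity)]
      refine le_trans ?_ hm1
      exact div_le_div_of_nonneg_right hA1 hm0.le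
    calc q * |a z - A / m| ≤ q * (kp q m / 10 ^ 20 + kp q m / 10 ^ 20) :=
          mul_le_mul_of_nonneg_left h1 hq0.le
      _ = _ := by ring
  have hfin := LightAux.final (q := q) (m := m) (k := kp q m) hm hk0 hk1 hkm hq0 (L := L) (a := a)
    (om := om) (x := fun z => q * (a z - A / m)) hn (A := A) (fun z _ => rfl)
    (fun z hz => by
      show 16 * om z ^ 2 ≤ (q * (a z - A / m)) * om z
      rw [hom z hz]
      exact clip_sq hc0)
    (fun z hz => by
      show 10 ^ 4 * m * (q * (a z - A / m)) ^ 2 ≤ kp q m * q ^ 2 * ((q * (a z - A / m)) * om z)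
      have := h.clip_big (hxz z hz)
      rwa [← hom z hz] at this)
  rw [← hR, ← hV] at hfin
  -- the linear gain
  have hgain : 2 * ∑ z ∈ L, (q * (a z - A / m)) * om z ≤
      2 * q * m / (m - 1) * ∑ z ∈ L, (a z - A / m) * om z := by
    have hS0 : 0 ≤ ∑ z ∈ L, (q * (a z - A / m)) * om z := by
      refine Finset.sum_nonneg fun z hz => ?_
      have := clip_sq (c := Om q m / 20) (x := q * (a z - A / m)) hc0
      rw [← hom z hz] at this
      nlinarith [sq_nonneg (om z)]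
    have e : 2 * q * m / (m - 1) * ∑ z ∈ L, (a z - A / m) * om z =
        2 * (m / (m - 1)) * ∑ z ∈ L, (q * (a z - A / m)) * om z := by
      have : ∑ z ∈ L, (q * (a z - A / m)) * om z = q * ∑ z ∈ L, (a z - A / m) * om z := by
        rw [Finset.mul_sum]
        exact Finset.sum_congr rfl fun z _ => by ring
      rw [this]
      ring
    rw [e]
    have : 1 ≤ m / (m - 1) := by
      rw [le_div_iff₀ (by linarith)]
      linarith
    nlinarith
  have e7 : 2 * q * m / (m - 1) * (Om q m * A * (1 - (L.card : ℝ) / m)) =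
      2 * q * m / (m - 1) * (Om q m * A * (1 - (L.card : ℝ) / m)) := rfl
  linarith

end

end Pool.Agent.RieszTr
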