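import Pool.Agent.RieszTr.Pure

set_option autoImplicit false

open Real Finset

namespace Pool.Agent.RieszTr

open Pool.Agent.RieszSmall Pool.Agent.RieszLin

section

variable {ι : Type*} [Fintype ι] [DecidableEq ι]

/-- The dependency is the one of the block `[2, m]`, up to a factor. -/
def Blk (m : ℝ) (a : ι → ℝ) : Prop :=
  ∃ i1 i2 : ι, i1 ≠ i2 ∧ ∃ t : ℝ, t ≠ 0 ∧ a i1 = -t / 2 ∧ a i2 = -t / 2 ∧
    ∀ z, z ≠ i1 → z ≠ i2 → a z = t / m

/-- MODULE RT26a. Heavy points are few: `|H| ≤ 10^29 π/κ`, `|J| ≤ 10^29/κ`. -/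
lemma Part.card_H {q m : ℝ} (h : Reg q m) {L J H : Finset ι} {a : ι → ℝ}
    (hP : Part q m L J H a) : (H.card : ℝ) ≤ 10 ^ 29 * ((∑ i ∈ H, a i) / kp q m) := by
  have hk := kp_pos (q := q) h.hm
  have h1 : (H.card : ℝ) * (kp q m / 10 ^ 29) ≤ ∑ i ∈ H, a i := by
    have := Finset.card_nsmul_le_sum H a (kp q m / 10 ^ 29) hP.hge
    rwa [nsmul_eq_mul] at this
  have h2 : (10 : ℝ) ^ 29 * ((∑ i ∈ H, a i) / kp q m) = (∑ i ∈ H, a i) / (kp q m / 10 ^ 29) := by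
    field_simp
  rw [h2, le_div_iff₀ (by positivity)]
  exact h1

lemma Part.card_J {q m : ℝ} (h : Reg q m) {L J H : Finset ι} {a : ι → ℝ}
    (hP : Part q m L J H a) (hJ : ∀ j ∈ J, kp q m / 10 ^ 29 ≤ -(a j)) :
    (J.card : ℝ) ≤ 10 ^ 29 / kp q m := by
  have hk := kp_pos (q := q) h.hm
  have h1 : (J.card : ℝ) * (kp q m / 10 ^ 29) ≤ ∑ j ∈ J, -(a j) := by
    have := Finset.card_nsmul_le_sum J (fun j => -(a j)) (kp q m / 10 ^ 29) hJ
    rwa [nsmul_eq_mul] at this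
  rw [Finset.sum_neg_distrib, hP.jsum, neg_neg] at h1
  have h2 : (10 : ℝ) ^ 29 / kp q m = 1 / (kp q m / 10 ^ 29) := by
    field_simp
  rw [h2, le_div_iff₀ (by positivity)]
  exact h1

/-- `n ≥ 0.9 m` -/
lemma Part.card_L {q m : ℝ} (h : Reg q m) {L J H : Finset ι} {a : ι → ℝ}
    (hP : Part q m L J H a) (hJ : ∀ j ∈ J, kp q m / 10 ^ 29 ≤ -(a j)) :
    9 / 10 * m ≤ L.card := by
  have hk := kp_pos (q := q) h.hm
  have hH := hP.card_H h
  have hJ' := hP.card_J h hJ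
  have hu := h.use.2.1
  have hm := h.hm
  have h1 : (∑ i ∈ H, a i) / kp q m ≤ 1 / kp q m := by
    exact div_le_div_of_nonneg_right hP.hsum hk.le
  have h2 : (10 : ℝ) ^ 29 / kp q m = 10 ^ 29 * (1 / kp q m) := by ring
  have h3 : (L.card : ℝ) + J.card + H.card = m + 2 := by
    rw [← hP.card, ← Finset.card_univ, ← hP.hu]
    have hd : Disjoint (L ∪ J) H := Finset.disjoint_union_left.mpr ⟨hP.d2, hP.d3⟩
    rw [Finset.card_union_of_disjoint hd, Finset.card_union_of_disjoint hP.d1]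
    push_cast
    ring
  rw [h2] at hJ'
  have h4 : (10 : ℝ) ^ 29 * (1 / kp q m) ≤ m / 100 := by
    have h5 : (10 : ℝ) ^ 29 * (1 / kp q m) ≤ 10 ^ 29 * (m / 10 ^ 100) := by
      gcongr
    have h6 : (10 : ℝ) ^ 29 * (m / 10 ^ 100) ≤ m / 100 := by
      rw [mul_div_assoc', div_le_div_iff₀ (by positivity) (by positivity)]
      nlinarith
    exact h5.trans h6
  have h7 : (10 : ℝ) ^ 29 * ((∑ i ∈ H, a i) / kp q m) ≤ 10 ^ 29 * (1 / kp q m) := by
    gcongr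
  linarith

end

end Pool.Agent.RieszTr
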