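import Pool.Agent.RieszTr.CJ
import Pool.Agent.RieszTr.HJ
import Pool.Agent.RieszTr.Light
import Pool.Agent.RieszTr.PartL

set_option autoImplicit false

open Real Finset

namespace Pool.Agent.RieszTr

open Pool.Agent.RieszSmall Pool.Agent.RieszLin

namespace AsmCAux

lemma book {k m hh n F P : ℝ} (hk : 0 < k) (hm : 0 < m) (hkm : 10 ^ 100 ≤ k * m) (hh0 : 0 ≤ hh)
    (hn0 : 0 ≤ n) (hnm : n + hh = m) (h1 : F ≤ P) (h2 : P ≤ F + 75 / (k * m ^ 2)) :
    -(5 * hh) ≤ ((n ^ 2 - n) - (m ^ 2 - m)) * P + (2 * hh * n + hh ^ 2 - hh) * F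
      + 4 * n - 4 * m := by
  have hdP : 0 ≤ P - F := by linarith
  have t1 : P - F ≤ 75 / (k * m ^ 2) := by linarith
  have t2 : 2 * hh * m * (P - F) ≤ 2 * hh * m * (75 / (k * m ^ 2)) :=
    mul_le_mul_of_nonneg_left t1 (by positivity)
  have t3 : 2 * hh * m * (75 / (k * m ^ 2)) = hh * (150 / (k * m)) := by
    field_simp
    ring
  have t4 : 150 / (k * m) ≤ 1 := by
    rw [div_le_one (by positivity)]
    exact le_trans (by norm_num) hkm
  have t5 : hh * (150 / (k * m)) ≤ hh * 1 := mul_le_mul_of_nonneg_left t4 hh0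
  have t6 : 2 * hh * n + hh ^ 2 - hh ≤ 2 * hh * m := by
    rw [← hnm]; nlinarith [sq_nonneg hh]
  have t7 : (2 * hh * n + hh ^ 2 - hh) * (P - F) ≤ 2 * hh * m * (P - F) :=
    mul_le_mul_of_nonneg_right t6 hdP
  have t8 : (n ^ 2 - n) - (m ^ 2 - m) = -(2 * hh * n + hh ^ 2 - hh) := by
    rw [← hnm]; ring
  rw [t8]
  have t9 : -(2 * hh * n + hh ^ 2 - hh) * P + (2 * hh * n + hh ^ 2 - hh) * F
      = -((2 * hh * n + hh ^ 2 - hh) * (P - F)) := by ring
  rw [t9]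
  linarith

lemma neg {k m hh p L : ℝ} (hk : 0 < k) (hm : 0 < m) (hp : 0 ≤ p) (hp1 : p ≤ 1) (hL : 1 ≤ L)
    (hu : L / k ≤ m / 10 ^ 100) (hh1 : hh ≤ 10 ^ 29 * (p / k)) :
    5 * hh + 400 * p ^ 2 / k + 2 * (10 ^ 62 * (L * (p / k))) ≤ 7 / 10 ^ 7 * m * p := by
  have t1 : p ^ 2 ≤ p := by nlinarith
  have t2 : 400 * p ^ 2 / k ≤ 400 * (p / k) := by
    rw [mul_div_assoc]
    exact mul_le_mul_of_nonneg_left (div_le_div_of_nonneg_right t1 hk.le) (by norm_num)
  have t3 : 0 ≤ p / k := by positivity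
  have t4 : p / k ≤ L * (p / k) := by nlinarith
  have t5 : L * (p / k) = p * (L / k) := by ring
  have t6 : p * (L / k) ≤ p * (m / 10 ^ 100) := mul_le_mul_of_nonneg_left hu hp
  have t7 : L * (p / k) ≤ m * p / 10 ^ 100 := by rw [t5]; refine t6.trans (le_of_eq ?_); ring
  have t8 : 0 ≤ m * p := by positivity
  calc 5 * hh + 400 * p ^ 2 / k + 2 * (10 ^ 62 * (L * (p / k)))
      ≤ (5 * 10 ^ 29 + 400 + 2 * 10 ^ 62) * (L * (p / k)) := by linarith
    _ ≤ (5 * 10 ^ 29 + 400 + 2 * 10 ^ 62) * (m * p / 10 ^ 100) :=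
        mul_le_mul_of_nonneg_left t7 (by norm_num)
    _ ≤ 7 / 10 ^ 7 * m * p := by
        have : (5 * 10 ^ 29 + 400 + 2 * 10 ^ 62) * (m * p / 10 ^ 100)
            = ((5 * 10 ^ 29 + 400 + 2 * 10 ^ 62) / 10 ^ 100) * (m * p) := by ring
        rw [this, mul_assoc]
        refine mul_le_mul_of_nonneg_right ?_ t8
        norm_num

/-- the final linear bookkeeping -/
lemma fin {q k m n hh F P2 P LL LJ HL JJ HJ SX So Sr p ε η L T4 t0 : ℝ}
    (hnm : n + hh = m) (ht0 : 0 ≤ t0)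
    (e1 : (n ^ 2 - n) * P - q * n * k + t0 + SX - 400 * p ^ 2 / k + 8 * So + 16 * Sr ≤ LL)
    (e2 : 4 * n - 8 * So - 16 * Sr - 66 * m * ε ^ 2 - η ^ 2 ≤ 2 * LJ)
    (e3 : 2 * P2 - 2 * q * T4 + 4 * q * ε * η ≤ JJ)
    (e4 : q * ε * η ≤ 4 * q * ε * η - η ^ 2 - 66 * m * ε ^ 2)
    (e5 : hh * (n * F) + 4 / 10 ^ 7 * m * p ≤ HL)
    (e6 : -(10 ^ 62 * (L * (p / k))) ≤ HJ)
    (hbook : -(5 * hh) ≤ ((n ^ 2 - n) - (m ^ 2 - m)) * P + (2 * hh * n + hh ^ 2 - hh) * F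
      + 4 * n - 4 * m)
    (hneg : 5 * hh + 400 * p ^ 2 / k + 2 * (10 ^ 62 * (L * (p / k))) ≤ 7 / 10 ^ 7 * m * p) :
    ((m ^ 2 - m) * P - q * m * k + 4 * m + 2 * P2 - 2 * q * T4) + SX + q * ε * η
      + 1 / 10 ^ 7 * m * p
      ≤ LL + 2 * LJ + 2 * HL + JJ + 2 * HJ + ((hh ^ 2 - hh) * F - q * hh * k) := by
  have h1 : q * n * k + q * hh * k = q * m * k := by rw [← hnm]; ring
  have h2 : hh * (n * F) = hh * n * F := by ring
  have h3 : ((n ^ 2 - n) - (m ^ 2 - m)) * P = (n ^ 2 - n) * P - (m ^ 2 - m) * P := by ring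
  have h4 : (2 * hh * n + hh ^ 2 - hh) * F = 2 * (hh * n * F) + (hh ^ 2 - hh) * F := by ring
  rw [h3, h4] at hbook
  rw [h2] at e5
  linarith

end AsmCAux

section

variable {ι : Type*} [Fintype ι] [DecidableEq ι]

/-- MODULE RT26. Case C: `J = {j1, j2}`, `1/2 ≤ r1 = -a j1 ≤ 3/4`. Use `asm` with `OP = 11/10 Ω`,
`Of z = Ω + om z`, `om z = clip (Ω/20) (q (a z - A/m))`, `zf j1 = ζ/(2 r2) + η`,
`zf j2 = ζ/(2 r1)`, `η = min (10^4) (q ε)`. Then, with `π = ∑_H a`, `A = 1 - π`, `n = m - h`: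
`light`, `c_light`, `c_pair`, `c_eta`, `hl`, `hj` give
`BB - TT ≥ ∑ (x z) (om z) + q ε η - 400 π²/κ + 8·10^(-7) m π - 2·10^62 Λ π/κ
   + ((n²-n) - (m²-m)) Φ₁ + (2 h n + h² - h) Φ(κ) + 4 n - 4 m`
(`2qm/(m-1) Ω A (1 - n/m) ≥ 0` dropped). `(m²-m) - (n²-n) = 2hn + h² - h ≤ 2 h m`,
`Φ₁ - Φ(κ) ≤ 75/(κ m²)`, so the last line is `≥ -5 h ≥ -5·10^29 π/κ`; with `1/κ, Λ/κ ≤ m/10^100`
all negative terms are at most `10^(-7) m π`. Hence
`BB - TT ≥ ∑ x om + q ε η + 10^(-7) m π ≥ 0`; if this is not positive then `π = 0`, so `H = ∅`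
(all `a i > 0` on `H`), `ε = 0` (`ε > 0` gives `ε η > 0`), and `x z * om z = 0`, so `x z = 0`
(`clip_zero`), `a z = A/m = 1/m` on `L`: `Blk` with `t = 1`. -/
theorem case_C {q m : ℝ} (h : Reg q m) {L J H : Finset ι} {a : ι → ℝ}
    (hP : Part q m L J H a) {j1 j2 : ι} (hne : j1 ≠ j2) (hJ : J = {j1, j2})
    (hJg : ∀ j ∈ J, kp q m / 10 ^ 29 ≤ -(a j))
    (h1 : 1 / 2 ≤ -(a j1)) (h2 : -(a j1) ≤ 3 / 4) :
    (∃ v w : ι → ℝ, TT q m < BB q a v w) ∨ Blk m a := by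
  obtain ⟨hΛ1, hκm, hm100, hq97, -⟩ := h.big
  have hm0 : 0 < m := by linarith [show (0:ℝ) < 10 ^ 100 by norm_num]
  have hq0 : 0 < q := by linarith [show (0:ℝ) < 10 ^ 97 by norm_num]
  have hκ : 0 < kp q m := kp_pos h.hm
  have hκ1 : kp q m ≤ 1 - 1 / 300 := h.kp_le
  obtain ⟨hO1, hO2⟩ := h.Om_bounds
  have hO0 : 0 < Om q m := by linarith
  obtain ⟨hz0, hz1⟩ := h.ze_bounds
  obtain ⟨hu1, hu2, hu3⟩ := h.use
  obtain ⟨hP1a, hP1b⟩ := h.P1_bounds
  -- abbreviations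
  set κ : ℝ := kp q m with hκdef
  set O : ℝ := Om q m with hOdef
  set ζ : ℝ := ze q m with hζdef
  set Λ : ℝ := La q m with hΛdef
  set r1 : ℝ := -(a j1) with hr1
  set r2 : ℝ := -(a j2) with hr2
  set A : ℝ := ∑ z ∈ L, a z with hA
  set p0 : ℝ := ∑ i ∈ H, a i with hp0
  set ε : ℝ := r1 - 1 / 2 with hε
  set η : ℝ := min (10 ^ 4) (q * ε) with hη
  have hε0 : 0 ≤ ε := by linarith
  have hε1 : ε ≤ 1 / 4 := by linarith
  have hη0 : 0 ≤ η := le_min (by norm_num) (by positivity)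
  have hη1 : η ≤ 10 ^ 4 := min_le_left _ _
  have hr : r1 + r2 = 1 := by
    have := hP.jsum
    rw [hJ, Finset.sum_pair hne] at this
    linarith
  have hr2a : 1 / 4 ≤ r2 := by linarith
  have hr2b : r2 ≤ 1 / 2 := by linarith
  have hHpos : ∀ i ∈ H, 0 < a i := fun i hi => lt_of_lt_of_le (by positivity) (hP.hge i hi)
  have hp00 : 0 ≤ p0 := Finset.sum_nonneg fun i hi => (hHpos i hi).le
  have hp01 : p0 ≤ 1 := hP.hsum
  have hAp : A = 1 - p0 := hP.asum
  have hA0 : 0 ≤ A := by linarith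
  have hA1 : A ≤ 1 := by linarith
  have hHle : ∀ i ∈ H, a i ≤ 1 := fun i hi =>
    le_trans (Finset.single_le_sum (f := a) (fun j hj => (hHpos j hj).le) hi) hp01
  -- cardinalities
  have hcard := card_three hP.hu hP.d1 hP.d2 hP.d3
  rw [hP.card, hJ, Finset.card_pair hne] at hcard
  push_cast at hcard
  have hn9 := hP.card_L h hJg
  have hHc := hP.card_H h
  set n : ℝ := (L.card : ℝ) with hn
  set hh : ℝ := (H.card : ℝ) with hhh
  have hh0 : 0 ≤ hh := Nat.cast_nonneg _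
  have hnm : n + hh = m := by linarith
  -- the functions
  let om : ι → ℝ := fun z => clip (O / 20) (q * (a z - A / m))
  let zf : ι → ℝ := fun j => if j = j1 then ζ / (2 * r2) + η else ζ / (2 * r1)
  have hom : ∀ z, |om z| ≤ O / 20 := fun z => clip_abs (by positivity)
  have hzf1 : zf j1 = ζ / (2 * r2) + η := by simp [zf]
  have hzf2 : zf j2 = ζ / (2 * r1) := by simp [zf, hne.symm]
  obtain ⟨v, w, hBB⟩ := asm (q := q) (k := κ) (OP := 11 / 10 * O) hκ (L := L) (J := J) (H := H)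
    (a := a) (fun z => O + om z) zf hP.hu hP.d1 hP.d2 hP.d3
  -- the parts
  have e1 := light h (L := L) (a := a) (om := om) (by rw [← hn]; linarith) hP.light hA0 hA1
    (fun z _ => rfl)
  have e2 := c_light h (L := L) (a := a) (om := om) (by rw [← hn]; linarith) hP.light hP.lsum
    (fun z _ => hom z) (r1 := r1) (r2 := r2) (η := η) hr h1 h2 hη0 hη1
  have e3 := c_pair h (r1 := r1) (r2 := r2) (η := η) hr h1 h2 hη0
  have e4 := c_eta h hε0 hε1
  rw [← hη] at e4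
  have e5 : ∀ i ∈ H, n * Phi q κ + 4 / 10 ^ 7 * m * a i
      ≤ ∑ z ∈ L, Phi q (κ + a i * (11 / 10 * O - (O + om z)) - a z * Bq κ (11 / 10 * O) (a i)) :=
    fun i hi => hl h hn9 hP.light hP.lsum (fun z _ => hom z) (hP.hge i hi) (hHle i hi)
  have hJz : ∀ j ∈ J, 0 ≤ zf j := by
    intro j hj
    simp only [zf]
    split_ifs
    · have : 0 ≤ ζ / (2 * r2) := div_nonneg hz0.le (by linarith)
      linarith
    · exact div_nonneg hz0.le (by linarith)
  have hJc : (J.card : ℝ) ≤ 10 ^ 29 / κ := hP.card_J h hJg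
  have hJzs : ∑ j ∈ J, zf j ≤ 10 ^ 15 := by
    rw [hJ, Finset.sum_pair hne, hzf1, hzf2]
    have t1 : ζ / (2 * r2) ≤ 2 := by
      rw [div_le_iff₀ (by linarith)]; nlinarith
    have t2 : ζ / (2 * r1) ≤ 1 := by
      rw [div_le_iff₀ (by linarith)]; nlinarith
    have : (10 : ℝ) ^ 4 + 3 ≤ 10 ^ 15 := by norm_num
    linarith
  have e6 : ∀ i ∈ H, -(10 ^ 62 * (Λ * (a i / κ)))
      ≤ ∑ j ∈ J, Phi q (κ + a i * (11 / 10 * O) + a i * zf j - a j * Bq κ (11 / 10 * O) (a i)) :=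
    fun i hi => hj h hP.jneg hP.jsum hJc hJz hJzs (hP.hge i hi) (hHle i hi)
  have e5s : hh * (n * Phi q κ) + 4 / 10 ^ 7 * m * p0 ≤ ∑ i ∈ H, ∑ z ∈ L,
      Phi q (κ + a i * (11 / 10 * O - (O + om z)) - a z * Bq κ (11 / 10 * O) (a i)) := by
    refine le_trans (le_of_eq ?_) (Finset.sum_le_sum e5)
    rw [Finset.sum_add_distrib, Finset.sum_const, nsmul_eq_mul, ← Finset.mul_sum]
  have e6s : -(10 ^ 62 * (Λ * (p0 / κ))) ≤ ∑ i ∈ H, ∑ j ∈ J,
      Phi q (κ + a i * (11 / 10 * O) + a i * zf j - a j * Bq κ (11 / 10 * O) (a i)) := by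
    refine le_trans (le_of_eq ?_) (Finset.sum_le_sum e6)
    rw [Finset.sum_neg_distrib, ← Finset.mul_sum, ← Finset.mul_sum, ← Finset.sum_div]
  -- rewrite the `J` parts of `asm`
  have j1s : ∑ z ∈ L, ∑ j ∈ J, Phi q (κ - a j * (O + om z) + a z * zf j)
      = ∑ z ∈ L, (Phi q (κ + r1 * (O + om z) + a z * (ζ / (2 * r2) + η))
          + Phi q (κ + r2 * (O + om z) + a z * (ζ / (2 * r1)))) := by
    refine Finset.sum_congr rfl (fun z _ => ?_)
    rw [hJ, Finset.sum_pair hne, hzf1, hzf2]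
    congr 2 <;> rw [hr1] <;> ring
  have j2s : offd J (fun j j' => Phi q (κ + a j * zf j' + a j' * zf j))
      = 2 * Phi q (κ - r1 * (ζ / (2 * r1)) - r2 * (ζ / (2 * r2) + η)) := by
    have : offd J (fun j j' => Phi q (κ + a j * zf j' + a j' * zf j))
        = Phi q (κ + a j1 * zf j2 + a j2 * zf j1) + Phi q (κ + a j2 * zf j1 + a j1 * zf j2) := by
      unfold offd
      rw [hJ, Finset.sum_pair hne, Finset.sum_pair hne, Finset.sum_pair hne]
      rw [if_pos rfl, if_neg hne, if_neg hne.symm, if_pos rfl]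
      ring
    rw [this, hzf1, hzf2]
    have t1 : κ + a j1 * (ζ / (2 * r1)) + a j2 * (ζ / (2 * r2) + η)
        = κ - r1 * (ζ / (2 * r1)) - r2 * (ζ / (2 * r2) + η) := by rw [hr1, hr2]; ring
    have t2 : κ + a j2 * (ζ / (2 * r2) + η) + a j1 * (ζ / (2 * r1))
        = κ - r1 * (ζ / (2 * r1)) - r2 * (ζ / (2 * r2) + η) := by rw [hr1, hr2]; ring
    rw [t1, t2]; ring
  have j3s : ∑ j ∈ J, (κ + 2 * a j * zf j)
      = (κ - 2 * r1 * (ζ / (2 * r2) + η)) + (κ - 2 * r2 * (ζ / (2 * r1))) := by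
    rw [hJ, Finset.sum_pair hne, hzf1, hzf2, hr1, hr2]
    ring
  rw [j1s, j2s, j3s] at hBB
  -- final estimate
  have hTT := TT_eq2 hq0 h.hm (q := q) (m := m)
  set SX : ℝ := ∑ z ∈ L, (q * (a z - A / m)) * om z with hSX
  have hSXt : ∀ z ∈ L, 0 ≤ (q * (a z - A / m)) * om z := fun z _ =>
    le_trans (by positivity) (clip_sq (c := O / 20) (x := q * (a z - A / m)) (by positivity))
  have hSX0 : 0 ≤ SX := Finset.sum_nonneg hSXt
  have hterm : 0 ≤ 2 * q * m / (m - 1) * (O * A * (1 - n / m)) := by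
    have t1 : 0 < m - 1 := by linarith [show (1:ℝ) < 10 ^ 100 by norm_num]
    have t2 : 0 ≤ 1 - n / m := by rw [sub_nonneg, div_le_one hm0]; linarith
    positivity
  have hbook := AsmCAux.book hκ hm0 hκm hh0 (Nat.cast_nonneg _ : (0:ℝ) ≤ n) hnm hP1a hP1b
  have hneg := AsmCAux.neg hκ hm0 hp00 hp01 hΛ1 hu1 hHc
  have hmain : TT q m + SX + q * ε * η + 1 / 10 ^ 7 * m * p0 ≤ BB q a v w := by
    rw [hBB, hTT]
    have hpA : 1 - A = p0 := by linarith
    rw [hpA] at e1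
    exact AsmCAux.fin hnm hterm e1 e2 e3 e4 e5s e6s hbook hneg
  by_cases hcase : 0 < SX + q * ε * η + 1 / 10 ^ 7 * m * p0
  · left
    exact ⟨v, w, by linarith⟩
  · right
    have hqe : 0 ≤ q * ε * η := by positivity
    have hmp : 0 ≤ 1 / 10 ^ 7 * m * p0 := by positivity
    have z1 : SX = 0 := by linarith
    have z2 : q * ε * η = 0 := by linarith
    have z3 : 1 / 10 ^ 7 * m * p0 = 0 := by linarith
    have hp0z : p0 = 0 := by
      rcases mul_eq_zero.1 z3 with h' | h'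
      · exact absurd h' (by positivity)
      · exact h'
    have hεz : ε = 0 := by
      by_contra hne'
      have hεp : 0 < ε := lt_of_le_of_ne hε0 (Ne.symm hne')
      have : 0 < η := lt_min (by norm_num) (by positivity)
      have : 0 < q * ε * η := by positivity
      linarith
    have hHe : H = ∅ := by
      by_contra hne'
      obtain ⟨i, hi⟩ := Finset.nonempty_iff_ne_empty.2 hne'
      have h1' := Finset.single_le_sum (f := a) (fun j hj => (hHpos j hj).le) hi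
      have h2' := hHpos i hi
      rw [← hp0] at h1'
      linarith
    have hA1' : A = 1 := by linarith
    have hz' : ∀ z ∈ L, a z = 1 / m := by
      intro z hz
      have h3 : (q * (a z - A / m)) * om z = 0 := by
        have := (Finset.sum_eq_zero_iff_of_nonneg hSXt).1 (hSX ▸ z1) z hz
        exact this
      have h4 := clip_zero (c := O / 20) (x := q * (a z - A / m)) (by positivity) h3.le
      rcases mul_eq_zero.1 h4 with h' | h'
      · linarith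
      · rw [hA1'] at h'; linarith
    refine ⟨j1, j2, hne, 1, one_ne_zero, by linarith, by linarith, ?_⟩
    intro z hz1' hz2'
    have hzL : z ∈ L := by
      have : z ∈ L ∪ J ∪ H := by rw [hP.hu]; exact Finset.mem_univ z
      rw [hHe, hJ] at this
      simp only [Finset.union_empty, Finset.mem_union, Finset.mem_insert,
        Finset.mem_singleton] at this
      rcases this with h' | h' | h'
      · exact h'
      · exact absurd h' hz1'
      · exact absurd h' hz2'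
    exact hz' z hzL

end

end Pool.Agent.RieszTr
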