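import Pool.Agent.RieszTr.TT

set_option autoImplicit false

open Real Finset

namespace Pool.Agent.RieszTr

open Pool.Agent.RieszSmall Pool.Agent.RieszLin

namespace BookAux

/-- the bookkeeping with abstract constants: `K = κ`, `L = Λ`, `P = Φ₁`, `F = Φ(κ)` -/
theorem main {m n y h K L P F : ℝ} (hK : 0 < K) (hL : 1 ≤ L) (hKm : 10 ^ 100 ≤ K * m)
    (hm : 10 ^ 100 ≤ m) (hF0 : 0 ≤ F) (hFP : F ≤ P) (hPF : P ≤ F + 75 / (K * m ^ 2))
    (hPL : P ≤ 5 * L * K) (hP2 : P ≤ 2) (hn : n + y + h = m + 2) (hn0 : 0 ≤ n)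
    (hy2 : y = 1 ∨ 2 ≤ y) (hh : 0 ≤ h) (hh' : h = 0 ∨ 1 ≤ h)
    (hyb : y ≤ 10 ^ 29 / K) (hhb : h ≤ 10 ^ 29 / K) :
    -(10 * h) - 10 - 10 ^ 31 * L * max (y - 2) 0
      ≤ ((n ^ 2 - n) - (m ^ 2 - m)) * P + (2 * h * n + h ^ 2 - h) * F
        + 2 * n * (y - 2) * F + 4 * n - 4 * m := by
  have hm0 : 0 < m := lt_of_lt_of_le (by norm_num) hm
  obtain ⟨D, hD⟩ : ∃ D, D = P - F := ⟨_, rfl⟩
  have hD0 : 0 ≤ D := by rw [hD]; linarith
  have hDm : D * m ≤ 1 / 10 ^ 90 := by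
    have h1 : D ≤ 75 / (K * m ^ 2) := by rw [hD]; linarith
    have h2 : D * (K * m ^ 2) ≤ 75 := (le_div_iff₀ (by positivity)).1 h1
    have h3 : D * m * 10 ^ 100 ≤ D * m * (K * m) :=
      mul_le_mul_of_nonneg_left hKm (mul_nonneg hD0 hm0.le)
    have h4 : D * m * (K * m) = D * (K * m ^ 2) := by ring
    rw [h4] at h3
    have h5 : D * m * 10 ^ 100 ≤ 75 := h3.trans h2
    rw [le_div_iff₀ (by norm_num)]
    have e5 : (10 : ℝ) ^ 100 = 10 ^ 10 * 10 ^ 90 := by norm_num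
    rw [e5, ← mul_assoc] at h5
    have h6 : 0 ≤ D * m * 10 ^ 90 := by positivity
    have h7 : D * m * 10 ^ 10 * 10 ^ 90 = 10 ^ 10 * (D * m * 10 ^ 90) := by ring
    rw [h7] at h5
    generalize D * m * 10 ^ 90 = A at *
    linarith
  have hhK : h * K ≤ 10 ^ 29 := (le_div_iff₀ hK).1 hhb
  have hyK : y * K ≤ 10 ^ 29 := (le_div_iff₀ hK).1 hyb
  have hhm : h ≤ m := by
    have h1 : h * K ≤ m * K := by
      have : (10 : ℝ) ^ 29 ≤ 10 ^ 100 := by norm_num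
      linarith [mul_comm K m]
    exact le_of_mul_le_mul_right h1 hK
  have hhD : h * D ≤ 1 := by
    have h1 : h * D ≤ m * D := mul_le_mul_of_nonneg_right hhm hD0
    have h2 : (1 : ℝ) / 10 ^ 90 ≤ 1 := by norm_num
    linarith [mul_comm m D]
  have hhh : 0 ≤ h ^ 2 - h := by
    rcases hh' with h1 | h1
    · rw [h1]; norm_num
    · have h2 : h * 1 ≤ h * h := mul_le_mul_of_nonneg_left h1 hh
      linarith [sq h]
  have hhhD : (h ^ 2 - h) * D ≤ h := by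
    have h1 := mul_nonneg hh hD0
    have h2 := mul_le_mul_of_nonneg_left hhD hh
    have e : (h ^ 2 - h) * D = h * (h * D) - h * D := by ring
    rw [e]
    linarith
  have hP0 : 0 ≤ P := hF0.trans hFP
  -- the term `2 n k D`
  have hk : ∀ k : ℝ, 0 ≤ k → n ≤ m → 2 * n * k * D ≤ k := by
    intro k hk hnm
    have h1 : n * D ≤ m * D := mul_le_mul_of_nonneg_right hnm hD0
    have h2 : n * D ≤ 1 / 2 := by
      have h3 : (1 : ℝ) / 10 ^ 90 ≤ 1 / 2 := by norm_num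
      linarith [mul_comm m D]
    have h3 := mul_le_mul_of_nonneg_left h2 hk
    have e : 2 * n * k * D = 2 * (k * (n * D)) := by ring
    rw [e]
    linarith
  have key : ((n ^ 2 - n) - (m ^ 2 - m)) * P + (2 * h * n + h ^ 2 - h) * F
        + 2 * n * (y - 2) * F + 4 * n - 4 * m =
      -(2 * n * (h + (y - 2)) * D) - (h ^ 2 - h) * D
        - (2 * h * (y - 2) + (y - 2) ^ 2 - (y - 2)) * P - 4 * (h + (y - 2)) := by
    have hm' : m = n + y + h - 2 := by linarith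
    rw [hD, hm']
    ring
  rw [key]
  rcases hy2 with hy1 | hy2
  · have e1 : max (y - 2) 0 = 0 := max_eq_right (by rw [hy1]; norm_num)
    rw [e1, mul_zero, hy1]
    rcases hh' with h0 | h1
    · rw [h0]
      have h2 : 0 ≤ n * D := mul_nonneg hn0 hD0
      clear hKm hm hyb hhb hhK hyK hDm
      linarith
    · have h2 := hk (h - 1) (by linarith) (by linarith)
      have h3 : 0 ≤ (2 * h - 2) * P := mul_nonneg (by linarith) hP0
      have e2 : 2 * n * (h + (1 - 2)) * D = 2 * n * (h - 1) * D := by ring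
      have e3 : (2 * h * (1 - 2) + (1 - 2) ^ 2 - (1 - 2)) * P = -((2 * h - 2) * P) := by ring
      rw [e2, e3]
      clear hKm hm hyb hhb hhK hyK hDm
      linarith
  · have e1 : max (y - 2) 0 = y - 2 := max_eq_left (by linarith)
    rw [e1]
    obtain ⟨z, hz⟩ : ∃ z, z = y - 2 := ⟨_, rfl⟩
    rw [← hz]
    have hz0 : 0 ≤ z := by rw [hz]; linarith
    have h2 := hk (h + z) (by linarith) (by linarith)
    have hzK : z * K ≤ 10 ^ 29 := by
      have : z * K ≤ y * K := mul_le_mul_of_nonneg_right (by rw [hz]; linarith) hK.le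
      linarith
    have h3 : (2 * h + z) * K ≤ 3 * 10 ^ 29 := by
      have e : (2 * h + z) * K = 2 * (h * K) + z * K := by ring
      rw [e]
      linarith
    have h4 : (2 * h + z) * P ≤ 15 * 10 ^ 29 * L := by
      have h5 : (2 * h + z) * P ≤ (2 * h + z) * (5 * L * K) :=
        mul_le_mul_of_nonneg_left hPL (by linarith)
      have h6 : (2 * h + z) * (5 * L * K) = 5 * L * ((2 * h + z) * K) := by ring
      have h7 : 5 * L * ((2 * h + z) * K) ≤ 5 * L * (3 * 10 ^ 29) :=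
        mul_le_mul_of_nonneg_left h3 (by linarith)
      linarith
    have h5 : z * ((2 * h + z) * P) ≤ z * (15 * 10 ^ 29 * L) := mul_le_mul_of_nonneg_left h4 hz0
    have h6 : 0 ≤ z * P := mul_nonneg hz0 hP0
    have h7 : 1 * z ≤ L * z := mul_le_mul_of_nonneg_right hL hz0
    have e2 : (2 * h * z + z ^ 2 - z) * P = z * ((2 * h + z) * P) - z * P := by ring
    have e3 : z * (15 * 10 ^ 29 * L) = 15 * 10 ^ 29 * (L * z) := by ring
    have e4 : (10 : ℝ) ^ 31 * L * z = 10 ^ 31 * (L * z) := by ring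
    rw [e2, e4]
    rw [e3] at h5
    have e5 : (10 : ℝ) ^ 31 = 100 * 10 ^ 29 := by norm_num
    have h9 : (0 : ℝ) ≤ 10 ^ 29 * (L * z) - L * z := by
      have : (1 : ℝ) ≤ 10 ^ 29 := by norm_num
      have h10 : 1 * (L * z) ≤ 10 ^ 29 * (L * z) :=
        mul_le_mul_of_nonneg_right this (by linarith)
      linarith
    rw [e5]
    generalize (10 : ℝ) ^ 29 = A at *
    linarith

end BookAux

/-- MODULE RT27. The bookkeeping inequality of case D. `y' = y - 2`, `k = h + y' = m - n`.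
`R = ((n²-n) - (m²-m)) Φ₁ + (2 h n + h² - h) Φ(κ) + 2 n y' Φ(κ) + 4 n - 4 m`
`= -(2 n k)(Φ₁ - Φ(κ)) - (k² - k) Φ₁ + (h² - h) Φ(κ) - 4 k`.
Here `0 ≤ Φ₁ - Φ(κ) ≤ 75/(κ m²)`, `n ≤ m + 1`, `h ≤ 10^29/κ`, `y ≤ 10^29/κ`, so
`2 n |k| (Φ₁-Φ(κ)) ≤ |k|`. For `y' ≥ 0`: `(k²-k) - (h²-h) ≤ 2 h y' + y'^2`,
`Φ₁ ≤ 5Λκ`: `(2 h y' + y'^2) Φ₁ ≤ 15·10^29 Λ y'`. For `y' = -1`: `(k²-k) - (h²-h) = -2h+2 ≤ 2`,
`Φ₁ ≤ 2`. -/
theorem d_book {q m n y h' : ℝ} (h : Reg q m) (hn : n + y + h' = m + 2) (hn0 : 0 ≤ n)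
    (hy : 1 ≤ y) (hy2 : y = 1 ∨ 2 ≤ y) (hh : 0 ≤ h') (hh' : h' = 0 ∨ 1 ≤ h')
    (hyb : y ≤ 10 ^ 29 / kp q m) (hhb : h' ≤ 10 ^ 29 / kp q m) :
    -(10 * h') - 10 - 10 ^ 31 * La q m * max (y - 2) 0
      ≤ ((n ^ 2 - n) - (m ^ 2 - m)) * P1 q m + (2 * h' * n + h' ^ 2 - h') * Phi q (kp q m)
        + 2 * n * (y - 2) * Phi q (kp q m) + 4 * n - 4 * m := by
  have _ := hy
  obtain ⟨hL, hKm, hm, -, -⟩ := h.big
  obtain ⟨hFP, hPF⟩ := h.P1_bounds
  obtain ⟨hF0, hPL, hP2⟩ := h.P1_small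
  exact BookAux.main (kp_pos h.hm) hL hKm hm hF0 hFP hPF hPL hP2 hn hn0 hy2 hh hh' hyb hhb

end Pool.Agent.RieszTr
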