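import Pool.Agent.RieszTr.DJ1
import Pool.Agent.RieszTr.Split

set_option autoImplicit false

open Real Finset

namespace Pool.Agent.RieszTr

open Pool.Agent.RieszSmall Pool.Agent.RieszLin

section

variable {ι : Type*} [DecidableEq ι]

/-- the multipliers on `J` in case D -/
noncomputable def zD (q m : ℝ) (r : ι → ℝ) (j1 : ι) (r2 : ℝ) (j : ι) : ℝ :=
  ze q m / (r j1 * max (2 * r2) (r j1)) * r j
    + if j = j1 then (if 1 / 2 < r j1 then 10 ^ 4 else 0) else 0

namespace DJ3Aux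

/-- positivity of the denominators -/
theorem pos_of {q m : ℝ} (h : Reg q m) {R t : ℝ} (h1 : 1 / 10 ^ 7 ≤ R) :
    0 < R ∧ 0 < max (2 * t) R ∧ 0 ≤ ze q m / (R * max (2 * t) R) ∧
      ze q m / (R * max (2 * t) R) * R ≤ 10 ^ 7 ∧
      ze q m / (R * max (2 * t) R) ≤ 10 ^ 14 ∧
      ze q m / (R * max (2 * t) R) * (R * max (2 * t) R) = ze q m := by
  obtain ⟨hz0, hz1⟩ := h.ze_bounds
  have hk := h.kp_le
  have hz2 : ze q m ≤ 1 := by linarith
  have hR : 0 < R := lt_of_lt_of_le (by positivity) h1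
  have hM : R ≤ max (2 * t) R := le_max_right _ _
  have hM0 : 0 < max (2 * t) R := lt_of_lt_of_le hR hM
  have hM7 : 1 / 10 ^ 7 ≤ max (2 * t) R := le_trans h1 hM
  have hne : R * max (2 * t) R ≠ 0 := (mul_pos hR hM0).ne'
  refine ⟨hR, hM0, div_nonneg hz0.le (mul_pos hR hM0).le, ?_, ?_, div_mul_cancel₀ _ hne⟩
  · have e : ze q m / (R * max (2 * t) R) * R = ze q m / max (2 * t) R := by
      field_simp
    rw [e, div_le_iff₀ hM0]
    have : (1 : ℝ) ≤ 10 ^ 7 * max (2 * t) R := by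
      have := mul_le_mul_of_nonneg_left hM7 (by positivity : (0 : ℝ) ≤ 10 ^ 7)
      calc (1 : ℝ) = 10 ^ 7 * (1 / 10 ^ 7) := by norm_num
        _ ≤ _ := this
    linarith
  · rw [div_le_iff₀ (mul_pos hR hM0)]
    have : (1 : ℝ) ≤ 10 ^ 14 * (R * max (2 * t) R) := by
      have h2 : (1 / 10 ^ 7 : ℝ) * (1 / 10 ^ 7) ≤ R * max (2 * t) R :=
        mul_le_mul h1 hM7 (by positivity) hR.le
      have := mul_le_mul_of_nonneg_left h2 (by positivity : (0 : ℝ) ≤ 10 ^ 14)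
      calc (1 : ℝ) = 10 ^ 14 * (1 / 10 ^ 7 * (1 / 10 ^ 7)) := by norm_num
        _ ≤ _ := this
    linarith

/-- the extra term -/
theorem eta_bounds (R : ℝ) : 0 ≤ (if 1 / 2 < R then (10 : ℝ) ^ 4 else 0) ∧
    (if 1 / 2 < R then (10 : ℝ) ^ 4 else 0) ≤ 10 ^ 4 ∧
    (if 1 / 2 < R then (10 : ℝ) ^ 4 else 0) * (R - 1 / 2) = 10 ^ 4 * max (R - 1 / 2) 0 := by
  split_ifs with h
  · refine ⟨by positivity, le_rfl, ?_⟩
    rw [max_eq_left (by linarith)]
  · refine ⟨le_rfl, by positivity, ?_⟩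
    rw [max_eq_right (by linarith)]
    ring

/-- product of two different weights -/
theorem prod_le {J : Finset ι} {r : ι → ℝ} {j1 : ι} {r2 : ℝ} (hT : Top J r j1 r2)
    {j j' : ι} (hj : j ∈ J) (hj' : j' ∈ J) (hne : j ≠ j') : r j * r j' ≤ r j1 * r2 := by
  have hR : 0 ≤ r j1 := hT.nonneg j1 hT.mem
  rcases hT.sec with ⟨j2, _, _, _, h5⟩ | ⟨hJ, _⟩
  · by_cases h : j' = j1
    · have h6 : j ≠ j1 := fun h' => hne (h'.trans h.symm)
      have := mul_le_mul (h5 j hj h6) (hT.max j' hj') (hT.nonneg j' hj')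
        (le_trans (hT.nonneg j hj) (h5 j hj h6))
      linarith [mul_comm (r j1) r2]
    · exact mul_le_mul (hT.max j hj) (h5 j' hj' h) (hT.nonneg j' hj') hR
  · rw [hJ, Finset.mem_singleton] at hj hj'
    exact absurd (hj.trans hj'.symm) hne

/-- sum of the squares -/
theorem sq_ge {J : Finset ι} {r : ι → ℝ} {j1 : ι} {r2 : ℝ} (hT : Top J r j1 r2) :
    r j1 * max (2 * r2) (r j1) ≤ ∑ j ∈ J, r j * r j := by
  have hR : 0 ≤ r j1 := hT.nonneg j1 hT.mem
  have h1 : r j1 * r j1 ≤ ∑ j ∈ J, r j * r j :=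
    Finset.single_le_sum (f := fun j => r j * r j) (fun j _ => mul_self_nonneg _) hT.mem
  rcases hT.sec with ⟨j2, h2, h3, h4, _⟩ | ⟨_, h0⟩
  · have h5 : r j1 * r j1 + r2 * r2 ≤ ∑ j ∈ J, r j * r j := by
      have hs : ({j1, j2} : Finset ι) ⊆ J := by
        intro x hx
        rcases Finset.mem_insert.1 hx with h | h
        · rw [h]; exact hT.mem
        · rw [Finset.mem_singleton.1 h]; exact h2
      have h6 := Finset.sum_le_sum_of_subset_of_nonneg (f := fun j => r j * r j) hs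
        (fun j _ _ => mul_self_nonneg (r j))
      rw [Finset.sum_pair (fun h => h3 h.symm), h4] at h6
      exact h6
    rcases max_cases (2 * r2) (r j1) with ⟨h7, _⟩ | ⟨h7, _⟩
    · rw [h7]
      nlinarith [sq_nonneg (r j1 - r2)]
    · rw [h7]; exact h1
  · rw [h0, mul_zero, max_eq_right hR]
    exact h1

end DJ3Aux

open DJ3Aux

/-- MODULE RT25. Sizes: with `r j1 ≥ 10^(-7)` and `ζ ≤ κ ≤ 1`. -/
theorem zD_bounds {q m : ℝ} (h : Reg q m) {J : Finset ι} {r : ι → ℝ} {j1 : ι} {r2 : ℝ}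
    (hT : Top J r j1 r2) (h1 : 1 / 10 ^ 7 ≤ r j1) :
    (∀ j ∈ J, 0 ≤ zD q m r j1 r2 j) ∧ (∀ j ∈ J, zD q m r j1 r2 j ≤ 10 ^ 8) ∧
      ∑ j ∈ J, zD q m r j1 r2 j ≤ 2 * 10 ^ 14 := by
  obtain ⟨p1, p2, p3, p4, p5, _⟩ := pos_of h (t := r2) h1
  obtain ⟨e1, e2, _⟩ := eta_bounds (r j1)
  have hi : ∀ j, (0 : ℝ) ≤ (if j = j1 then (if 1 / 2 < r j1 then (10 : ℝ) ^ 4 else 0) else 0) := by
    intro j
    split_ifs <;> positivity
  have hi' : ∀ j, (if j = j1 then (if 1 / 2 < r j1 then (10 : ℝ) ^ 4 else 0) else 0)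
      ≤ 10 ^ 4 := by
    intro j
    split_ifs <;> norm_num
  refine ⟨?_, ?_, ?_⟩
  · intro j hj
    unfold zD
    exact add_nonneg (mul_nonneg p3 (hT.nonneg j hj)) (hi j)
  · intro j hj
    unfold zD
    have a1 : ze q m / (r j1 * max (2 * r2) (r j1)) * r j ≤ 10 ^ 7 :=
      le_trans (mul_le_mul_of_nonneg_left (hT.max j hj) p3) p4
    have a2 := hi' j
    calc _ ≤ (10 : ℝ) ^ 7 + 10 ^ 4 := add_le_add a1 a2
      _ ≤ 10 ^ 8 := by norm_num
  · unfold zD
    rw [Finset.sum_add_distrib, ← Finset.mul_sum, hT.sum, mul_one, Finset.sum_ite_eq' J j1,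
      if_pos hT.mem]
    calc _ ≤ (10 : ℝ) ^ 14 + 10 ^ 4 := add_le_add p5 e2
      _ ≤ 2 * 10 ^ 14 := by norm_num

/-- Pairs inside `J`. Put `β = ζ/(r1 max(2 r2, r1))`, `η = 10^4` if `r1 > 1/2`, else `0`.
`∑ r zD ≥ ζ + r1 η`: `β ∑ r² ≥ ζ` as `∑ r² ≥ r1² + r2²` and `r1² + r2² ≥ 2 r1 r2`, `≥ r1²`.
For `j ≠ j'`: `K = κ - 2 β r j r j' - (η terms)`; `2 β r j r j' ≤ 2 β r1 r2 ≤ ζ`, so
`κ - 2β r j r j' ≥ 2^(-p)` (`id_ze`) and, `Φ` being monotone on `(-∞,1]`, `≥ 0`-valued there and of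
slope `≤ q`: `Φ(K) ≥ Φ(2^(-p)) - q η (r j' if j = j1, r j if j' = j1)`. Sum: the number of pairs
is `≥ 2` if `|J| ≥ 2` (`Φ(2^(-p)) ≥ 0`), and `Φ(2^(-p)) ≤ 1` handles `|J| = 1`:
`offd ≥ 2 Φ(2^(-p)) - 2 - 2 q η (1 - r1)`. Diagonal: `-q |J| κ + 2 q ∑ r zD`. Finally
`2 q (r1 - (1 - r1)) η = 4 q (r1 - 1/2) η = 4·10^4 q max(r1-1/2, 0)`. -/
theorem d_pairs {q m : ℝ} (h : Reg q m) {J : Finset ι} {r : ι → ℝ} {j1 : ι} {r2 : ℝ}
    (hT : Top J r j1 r2) (h1 : 1 / 10 ^ 7 ≤ r j1) :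
    2 * Phi q ((2 : ℝ) ^ (-(q + 1))) - 2 * q * (2 : ℝ) ^ (-(q + 1))
        - q * ((J.card : ℝ) - 2) * kp q m + 4 * 10 ^ 4 * q * max (r j1 - 1 / 2) 0 - 2
      ≤ offd J (fun j j' => Phi q (kp q m - r j * zD q m r j1 r2 j' - r j' * zD q m r j1 r2 j))
        - q * ∑ j ∈ J, (kp q m - 2 * r j * zD q m r j1 r2 j) := by
  obtain ⟨p1, p2, p3, p4, p5, p6⟩ := pos_of h (t := r2) h1
  obtain ⟨e1, e2, e3⟩ := eta_bounds (r j1)
  obtain ⟨hz0, hz1⟩ := h.ze_bounds
  have hk := h.kp_le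
  have hq : 0 < q := lt_of_lt_of_le (by positivity) h.big.2.2.2.1
  set β : ℝ := ze q m / (r j1 * max (2 * r2) (r j1)) with hβ
  set η : ℝ := if 1 / 2 < r j1 then (10 : ℝ) ^ 4 else 0 with hη
  set P0 : ℝ := (2 : ℝ) ^ (-(q + 1)) with hP0
  have hid : kp q m - ze q m = P0 := id_ze
  have hP0pos : 0 < P0 := Real.rpow_pos_of_pos (by norm_num) _
  have hP0le : P0 ≤ 1 := by linarith
  have hPhi0 : 0 < Phi q P0 := Phi_pos hq hP0pos hP0le
  have hPhi1 : Phi q P0 ≤ 1 := Phi_le_one hq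
  have hzD : ∀ j, zD q m r j1 r2 j = β * r j + if j = j1 then η else 0 := fun j => rfl
  -- the second largest weight
  have hr2 : 0 ≤ r2 := hT.mu_nonneg.2.1
  have hpr : ∀ j ∈ J, ∀ j' ∈ J, j ≠ j' → 2 * (β * (r j * r j')) ≤ ze q m := by
    intro j hj j' hj' hne
    have a1 := prod_le hT hj hj' hne
    have a2 : β * (r j * r j') ≤ β * (r j1 * r2) := mul_le_mul_of_nonneg_left a1 p3
    have a3 : r j1 * (2 * r2) ≤ r j1 * max (2 * r2) (r j1) :=
      mul_le_mul_of_nonneg_left (le_max_left _ _) p1.le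
    have a4 := mul_le_mul_of_nonneg_left a3 p3
    rw [p6] at a4
    nlinarith
  -- pairs
  have hpair : ∀ j ∈ J, ∀ j' ∈ J, j ≠ j' →
      Phi q P0 - q * η * ((if j' = j1 then r j else 0) + (if j = j1 then r j' else 0))
        ≤ Phi q (kp q m - r j * zD q m r j1 r2 j' - r j' * zD q m r j1 r2 j) := by
    intro j hj j' hj' hne
    have a1 := hpr j hj j' hj' hne
    have a2 : 0 ≤ β * (r j * r j') :=
      mul_nonneg p3 (mul_nonneg (hT.nonneg j hj) (hT.nonneg j' hj'))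
    have b0 : 0 ≤ (if j' = j1 then r j else 0) + (if j = j1 then r j' else 0) := by
      have c1 := hT.nonneg j hj
      have c2 := hT.nonneg j' hj'
      split_ifs <;> linarith
    have hK : kp q m - r j * zD q m r j1 r2 j' - r j' * zD q m r j1 r2 j =
        (kp q m - 2 * (β * (r j * r j'))) -
          η * ((if j' = j1 then r j else 0) + (if j = j1 then r j' else 0)) := by
      rw [hzD, hzD]
      by_cases c1 : j' = j1 <;> by_cases c2 : j = j1 <;> simp only [c1, c2, if_true, if_false] <;>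
        ring
    rw [hK]
    have a3 : Phi q P0 ≤ Phi q (kp q m - 2 * (β * (r j * r j'))) :=
      Phi_mono hq (by linarith) (by linarith)
    have a4 := Phi_slope (q := q) hq
      (sub_le_self (kp q m - 2 * (β * (r j * r j'))) (mul_nonneg e1 b0))
    have a5 : q * (kp q m - 2 * (β * (r j * r j')) - (kp q m - 2 * (β * (r j * r j')) -
          η * ((if j' = j1 then r j else 0) + (if j = j1 then r j' else 0)))) =
        q * η * ((if j' = j1 then r j else 0) + (if j = j1 then r j' else 0)) := by ring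
    linarith
  have hoff := offd_le hpair
  have hoffeq : offd J (fun j j' => Phi q P0 -
      q * η * ((if j' = j1 then r j else 0) + (if j = j1 then r j' else 0))) =
      ((J.card : ℝ) ^ 2 - J.card) * Phi q P0 - q * η * (2 - 2 * r j1) := by
    rw [offd_eq]
    have s1 : ∑ i ∈ J, ∑ j ∈ J, (Phi q P0 -
        q * η * ((if j = j1 then r i else 0) + (if i = j1 then r j else 0))) =
        (J.card : ℝ) ^ 2 * Phi q P0 - q * η * 2 := by
      have s2 : ∀ i ∈ J, ∑ j ∈ J, (Phi q P0 -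
          q * η * ((if j = j1 then r i else 0) + (if i = j1 then r j else 0))) =
          (J.card : ℝ) * Phi q P0 - q * η * (r i + if i = j1 then 1 else 0) := by
        intro i _
        rw [Finset.sum_sub_distrib, Finset.sum_const, nsmul_eq_mul, ← Finset.mul_sum,
          Finset.sum_add_distrib, Finset.sum_ite_eq' J j1, if_pos hT.mem]
        by_cases c : i = j1
        · simp only [c, if_true, hT.sum]
        · simp only [c, if_false, Finset.sum_const_zero]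
      rw [Finset.sum_congr rfl s2, Finset.sum_sub_distrib, Finset.sum_const, nsmul_eq_mul,
        ← Finset.mul_sum, Finset.sum_add_distrib, hT.sum, Finset.sum_ite_eq' J j1,
        if_pos hT.mem]
      ring
    have s3 : ∑ i ∈ J, (Phi q P0 -
        q * η * ((if i = j1 then r i else 0) + (if i = j1 then r i else 0))) =
        (J.card : ℝ) * Phi q P0 - q * η * (2 * r j1) := by
      rw [Finset.sum_sub_distrib, Finset.sum_const, nsmul_eq_mul, ← Finset.mul_sum,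
        Finset.sum_add_distrib, Finset.sum_ite_eq' J j1, if_pos hT.mem]
      ring
    rw [s1, s3]
    ring
  have hcard : 2 * Phi q P0 - 2 ≤ ((J.card : ℝ) ^ 2 - J.card) * Phi q P0 := by
    have hc : 1 ≤ J.card := Finset.card_pos.2 ⟨j1, hT.mem⟩
    rcases Nat.lt_or_ge J.card 2 with h2 | h2
    · have : J.card = 1 := by omega
      rw [this]
      push_cast
      linarith
    · have h3 : (2 : ℝ) ≤ J.card := by exact_mod_cast h2
      have h4 : (2 : ℝ) ≤ (J.card : ℝ) ^ 2 - J.card := by nlinarith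
      nlinarith
  -- the diagonal
  have hdiag : ∑ j ∈ J, (kp q m - 2 * r j * zD q m r j1 r2 j) =
      (J.card : ℝ) * kp q m - 2 * (β * ∑ j ∈ J, r j * r j) - 2 * (η * r j1) := by
    have s4 : ∀ j ∈ J, kp q m - 2 * r j * zD q m r j1 r2 j =
        kp q m - 2 * (β * (r j * r j)) - (if j = j1 then 2 * (η * r j) else 0) := by
      intro j _
      rw [hzD]
      by_cases c : j = j1
      · simp only [c, if_true]; ring
      · simp only [c, if_false]; ring
    rw [Finset.sum_congr rfl s4, Finset.sum_sub_distrib, Finset.sum_sub_distrib,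
      Finset.sum_const, nsmul_eq_mul, ← Finset.mul_sum, ← Finset.mul_sum,
      Finset.sum_ite_eq' J j1, if_pos hT.mem]
  have hsq : ze q m ≤ β * ∑ j ∈ J, r j * r j := by
    have := mul_le_mul_of_nonneg_left (sq_ge hT) p3
    rw [p6] at this
    exact this
  have hsq' := mul_le_mul_of_nonneg_left hsq hq.le
  rw [hdiag]
  have e4 : q * (η * (r j1 - 1 / 2)) = q * (10 ^ 4 * max (r j1 - 1 / 2) 0) := by rw [e3]
  have key : q * ze q m = q * (kp q m - P0) := by rw [← hid]; ring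
  nlinarith

end

end Pool.Agent.RieszTr
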