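import Pool.Agent.RieszTr.DJ2
import Pool.Agent.RieszTr.DJ3
import Pool.Agent.RieszTr.AsmC
import Pool.Agent.RieszTr.Book

set_option autoImplicit false

open Real Finset

namespace Pool.Agent.RieszTr

open Pool.Agent.RieszSmall Pool.Agent.RieszLin

namespace AsmDAux

lemma neg {k m hh p L : ℝ} (hk : 0 < k) (hm : 0 < m) (hp : 0 ≤ p) (hp1 : p ≤ 1) (hL : 1 ≤ L)
    (hu : L / k ≤ m / 10 ^ 100) (hh1 : hh ≤ 10 ^ 29 * (p / k)) :
    10 * hh + 400 * p ^ 2 / k + 2 * (10 ^ 62 * (L * (p / k))) ≤ 7 / 10 ^ 7 * m * p := by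
  have t1 : p ^ 2 ≤ p := by nlinarith
  have t2 : 400 * p ^ 2 / k ≤ 400 * (p / k) := by
    rw [mul_div_assoc]
    exact mul_le_mul_of_nonneg_left (div_le_div_of_nonneg_right t1 hk.le) (by norm_num)
  have t3 : 0 ≤ p / k := by positivity
  have t4 : p / k ≤ L * (p / k) := by nlinarith
  have t5 : L * (p / k) = p * (L / k) := by ring
  have t6 : p * (L / k) ≤ p * (m / 10 ^ 100) := mul_le_mul_of_nonneg_left hu hp
  have t7 : L * (p / k) ≤ m * p / 10 ^ 100 := by rw [t5]; refine t6.trans (le_of_eq ?_); ring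
  have t8 : 0 ≤ m * p := by positivity
  calc 10 * hh + 400 * p ^ 2 / k + 2 * (10 ^ 62 * (L * (p / k)))
      ≤ (10 * 10 ^ 29 + 400 + 2 * 10 ^ 62) * (L * (p / k)) := by linarith
    _ ≤ (10 * 10 ^ 29 + 400 + 2 * 10 ^ 62) * (m * p / 10 ^ 100) :=
        mul_le_mul_of_nonneg_left t7 (by norm_num)
    _ ≤ 7 / 10 ^ 7 * m * p := by
        have : (10 * 10 ^ 29 + 400 + 2 * 10 ^ 62) * (m * p / 10 ^ 100)
            = ((10 * 10 ^ 29 + 400 + 2 * 10 ^ 62) / 10 ^ 100) * (m * p) := by ring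
        rw [this, mul_assoc]
        refine mul_le_mul_of_nonneg_right ?_ t8
        norm_num

/-- the final linear bookkeeping -/
lemma fin {q k m n y hh F P2 P LL LJ HL JJ HJ SX So Sr p ε L T4 t0 G : ℝ}
    (hnm : n + y + hh = m + 2) (hSX : 0 ≤ SX) (hSo : 0 ≤ So) (hSr : 0 ≤ Sr)
    (e1 : (n ^ 2 - n) * P - q * n * k + t0 + SX - 400 * p ^ 2 / k + 8 * So + 16 * Sr ≤ LL)
    (e2 : n * (y * F + 2 * (1 - F) + G - 4 * ε) - So - 10 ^ 25 * L ≤ LJ)
    (e3 : 2 * P2 - 2 * q * T4 - q * (y - 2) * k + 4 * 10 ^ 4 * q * ε - 2 ≤ JJ)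
    (e5 : hh * (n * F) + 4 / 10 ^ 7 * m * p ≤ HL)
    (e6 : -(10 ^ 62 * (L * (p / k))) ≤ HJ)
    (hbook : -(10 * hh) - 10 - 10 ^ 31 * L * max (y - 2) 0
      ≤ ((n ^ 2 - n) - (m ^ 2 - m)) * P + (2 * hh * n + hh ^ 2 - hh) * F
        + 2 * n * (y - 2) * F + 4 * n - 4 * m)
    (hneg : 10 * hh + 400 * p ^ 2 / k + 2 * (10 ^ 62 * (L * (p / k))) ≤ 7 / 10 ^ 7 * m * p)
    (hmp : 0 ≤ m * p)
    (hgain : 2 * 10 ^ 25 * L + 12 + 10 ^ 31 * L * max (y - 2) 0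
      < 2 * n * G - 8 * n * ε + 4 * 10 ^ 4 * q * ε + t0) :
    ((m ^ 2 - m) * P - q * m * k + 4 * m + 2 * P2 - 2 * q * T4)
      < LL + 2 * LJ + 2 * HL + JJ + 2 * HJ + ((hh ^ 2 - hh) * F - q * hh * k) := by
  have h1 : q * n * k + q * (y - 2) * k + q * hh * k = q * m * k := by
    have : m = n + (y - 2) + hh := by linarith
    rw [this]; ring
  have h2 : hh * (n * F) = hh * n * F := by ring
  have h3 : ((n ^ 2 - n) - (m ^ 2 - m)) * P = (n ^ 2 - n) * P - (m ^ 2 - m) * P := by ring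
  have h4 : (2 * hh * n + hh ^ 2 - hh) * F = 2 * (hh * n * F) + (hh ^ 2 - hh) * F := by ring
  have h5 : n * (y * F + 2 * (1 - F) + G - 4 * ε) = n * (y - 2) * F + 2 * n + n * G - 4 * (n * ε) := by
    ring
  have h6 : 2 * n * (y - 2) * F = 2 * (n * (y - 2) * F) := by ring
  have h7 : 2 * n * G = 2 * (n * G) := by ring
  have h8 : 8 * n * ε = 8 * (n * ε) := by ring
  rw [h3, h4, h6] at hbook
  rw [h2] at e5
  rw [h5] at e2
  rw [h7, h8] at hgain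
  linarith

lemma gain3 {k m q n y μ ε L e : ℝ} (hk : 0 < k) (hm : 0 < m) (hkm : 10 ^ 100 * L ≤ k * m)
    (hL : 1 ≤ L) (hn : 9 / 10 * m ≤ n) (hn1 : n ≤ m + 1) (hq : m ≤ 250 * q) (hm1 : 10 ^ 100 ≤ m)
    (he : 1 / 300 ≤ e) (hy : 1 ≤ y - 2) (hμ : (y - 2) * (k / 10 ^ 29) ≤ μ) (hε : 0 ≤ ε) :
    2 * 10 ^ 25 * L + 12 + 10 ^ 31 * L * (y - 2)
      < 2 * n * (7 / 100 * e ^ 2 * μ) - 8 * n * ε + 4 * 10 ^ 4 * q * ε := by
  have a1 : (0:ℝ) < y - 2 := by linarith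
  have a2 : 8 * n * ε ≤ 4 * 10 ^ 4 * q * ε := by
    refine mul_le_mul_of_nonneg_right ?_ hε
    have : (10:ℝ) ^ 100 ≥ 10 := by norm_num
    linarith
  have a3 : (1 / 300) ^ 2 ≤ e ^ 2 := by
    exact pow_le_pow_left₀ (by norm_num) he 2
  have a4 : 7 / 100 * (1 / 300) ^ 2 * ((y - 2) * (k / 10 ^ 29)) ≤ 7 / 100 * e ^ 2 * μ := by
    refine mul_le_mul (by linarith) hμ (by positivity) (by positivity)
  have a5 : 2 * (9 / 10 * m) * (7 / 100 * (1 / 300) ^ 2 * ((y - 2) * (k / 10 ^ 29)))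
      ≤ 2 * n * (7 / 100 * e ^ 2 * μ) := by
    refine mul_le_mul (by linarith) a4 (by positivity) (by linarith)
  have a6 : 2 * (9 / 10 * m) * (7 / 100 * (1 / 300) ^ 2 * ((y - 2) * (k / 10 ^ 29)))
      = (2 * (9 / 10) * (7 / 100 * (1 / 300) ^ 2) / 10 ^ 29) * (y - 2) * (k * m) := by ring
  have a7 : (2 * (9 / 10) * (7 / 100 * (1 / 300) ^ 2) / 10 ^ 29) * (y - 2) * (10 ^ 100 * L)
      ≤ (2 * (9 / 10) * (7 / 100 * (1 / 300) ^ 2) / 10 ^ 29) * (y - 2) * (k * m) :=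
    mul_le_mul_of_nonneg_left hkm (by positivity)
  have a8 : (10:ℝ) ^ 60 * (L * (y - 2))
      ≤ (2 * (9 / 10) * (7 / 100 * (1 / 300) ^ 2) / 10 ^ 29) * (y - 2) * (10 ^ 100 * L) := by
    have : (2 * (9 / 10) * (7 / 100 * (1 / 300) ^ 2) / 10 ^ 29) * (y - 2) * (10 ^ 100 * L)
        = ((2 * (9 / 10) * (7 / 100 * (1 / 300) ^ 2) / 10 ^ 29) * 10 ^ 100) * (L * (y - 2)) := by
      ring
    rw [this]
    refine mul_le_mul_of_nonneg_right ?_ (by positivity)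
    norm_num
  have a9 : L ≤ L * (y - 2) := by nlinarith
  have a10 : 2 * 10 ^ 25 * L + 12 + 10 ^ 31 * L * (y - 2) < (10:ℝ) ^ 60 * (L * (y - 2)) := by
    have b1 : 2 * 10 ^ 25 * L ≤ 2 * 10 ^ 25 * (L * (y - 2)) :=
      mul_le_mul_of_nonneg_left a9 (by norm_num)
    have b2 : (1:ℝ) ≤ L * (y - 2) := by linarith
    have b3 : 10 ^ 31 * L * (y - 2) = 10 ^ 31 * (L * (y - 2)) := by ring
    rw [b3]
    have b4 : (2 * 10 ^ 25 + 12 + 10 ^ 31 : ℝ) < 10 ^ 60 := by norm_num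
    have b5 : (2 * 10 ^ 25 + 12 + 10 ^ 31) * (L * (y - 2)) < 10 ^ 60 * (L * (y - 2)) :=
      mul_lt_mul_of_pos_right b4 (by linarith)
    linarith
  linarith

lemma gain2 {m q n ε L G t0 : ℝ} (hm1 : 10 ^ 100 ≤ m)
    (hL : 1 ≤ L) (hn1 : n ≤ m + 1) (hq : m ≤ 250 * q) (hn0 : 0 ≤ n) (hG : 0 ≤ G)
    (hε : 1 / 4 < ε) (hqL : 10 ^ 97 * L ≤ q) (ht : -(30 * L) ≤ t0) :
    2 * 10 ^ 25 * L + 12 < 2 * n * G - 8 * n * ε + 4 * 10 ^ 4 * q * ε + t0 := by
  have a1 : 0 ≤ 2 * n * G := by positivity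
  have hq0 : 0 < q := by linarith [show (0:ℝ) < 10 ^ 97 by norm_num]
  have a2 : 8 * n ≤ 3000 * q := by
    have : (10:ℝ) ^ 100 ≥ 100 := by norm_num
    linarith
  have a3 : 8 * n * ε ≤ 3000 * q * ε := mul_le_mul_of_nonneg_right a2 (by linarith)
  have a4 : 37000 * q * (1 / 4) ≤ 37000 * q * ε :=
    mul_le_mul_of_nonneg_left hε.le (by positivity)
  have a5 : (2 * 10 ^ 25 + 12 + 30 : ℝ) < 10 ^ 97 := by norm_num
  have a6 : (2 * 10 ^ 25 + 12 + 30) * L < 10 ^ 97 * L := mul_lt_mul_of_pos_right a5 (by linarith)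
  linarith

end AsmDAux

section

variable {ι : Type*} [Fintype ι] [DecidableEq ι]

/-- MODULE RT27b. Case D: `Top J r j1 r2` with `r = -a`, `r j1 ≥ 10^(-7)`, and (`|J| ≥ 3` or
`r j1 > 3/4`; the latter includes `|J| = 1`). `asm` with `OP = 11/10 Ω`, `Of z = Ω + om z`,
`om z = clip …`, `zf = zD`. With `μ = 1 - r j1 - r2`, `ε = max (r j1 - 1/2) 0`, `e = 1-κ`,
`y = |J|`, `h = |H|`, `n = |L|`, `π = ∑_H a ≤ 1`:
`light`, `d_light`, `d_pairs`, `hl`, `hj`: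
`BB - TT ≥ R - 400 π²/κ + 8·10^(-7) m π - 2·10^62 Λ π/κ + 14/100 e² n μ - 8 n ε + 4·10^4 q ε
   - 2·10^25 Λ - 2 + 2qm/(m-1) Ω A (1 - n/m)` with `R` as in `d_book` (the terms `∑ x om ≥ 0`,
`8∑om² - 2∑om² ≥ 0`, `16 ∑ρ² ≥ 0` are dropped); the last term is `≥ -8 q/m ≥ -24 Λ` (it is
negative only if `n = m+1`). `10 h ≤ 10^30 π/κ ≤ 10^(-70) m π`. `8 n ≤ 2100 q`.
If `|J| ≥ 3`: `μ ≥ (y-2) κ/10^29` (`mu_ge`), `n ≥ 0.9 m`, so
`14/100 e² n μ ≥ 10^(-6) κ m (y-2)/10^29 ≥ 10^65 Λ (y-2)`, which beats `10^31 Λ (y-2)`,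
`3·10^25 Λ`; `4·10^4 q ε - 8 n ε ≥ 0`. If `|J| ≤ 2` then `r j1 > 3/4`, `ε > 1/4`,
`4·10^4 q ε - 8 n ε ≥ 3·10^4 q ε ≥ 7·10^3 q ≥ 10^100 Λ`. -/
theorem case_D {q m : ℝ} (h : Reg q m) {L J H : Finset ι} {a : ι → ℝ}
    (hP : Part q m L J H a) {j1 : ι} {r2 : ℝ} (hT : Top J (fun j => -(a j)) j1 r2)
    (hJg : ∀ j ∈ J, kp q m / 10 ^ 29 ≤ -(a j)) (h1 : 1 / 10 ^ 7 ≤ -(a j1))
    (hcase : 3 ≤ J.card ∨ 3 / 4 < -(a j1)) :
    ∃ v w : ι → ℝ, TT q m < BB q a v w := by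
  obtain ⟨hΛ1, hκm, hm100, hq97, hqΛ⟩ := h.big
  have hm0 : 0 < m := by linarith [show (0:ℝ) < 10 ^ 100 by norm_num]
  have hq0 : 0 < q := by linarith [show (0:ℝ) < 10 ^ 97 by norm_num]
  have hκ : 0 < kp q m := kp_pos h.hm
  have hκ1 : kp q m ≤ 1 - 1 / 300 := h.kp_le
  obtain ⟨hO1, hO2⟩ := h.Om_bounds
  have hO0 : 0 < Om q m := by linarith
  obtain ⟨hu1, hu2, hu3⟩ := h.use
  have hqm := h.q_le
  -- abbreviations
  set κ : ℝ := kp q m with hκdef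
  set O : ℝ := Om q m with hOdef
  set Λ : ℝ := La q m with hΛdef
  set r : ι → ℝ := fun j => -(a j) with hrdef
  set A : ℝ := ∑ z ∈ L, a z with hA
  set p0 : ℝ := ∑ i ∈ H, a i with hp0
  set ε : ℝ := max (r j1 - 1 / 2) 0 with hε
  have hε0 : 0 ≤ ε := le_max_right _ _
  have hHpos : ∀ i ∈ H, 0 < a i := fun i hi => lt_of_lt_of_le (by positivity) (hP.hge i hi)
  have hp00 : 0 ≤ p0 := Finset.sum_nonneg fun i hi => (hHpos i hi).le
  have hp01 : p0 ≤ 1 := hP.hsum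
  have hAp : A = 1 - p0 := hP.asum
  have hA0 : 0 ≤ A := by linarith
  have hA1 : A ≤ 1 := by linarith
  have hHle : ∀ i ∈ H, a i ≤ 1 := fun i hi =>
    le_trans (Finset.single_le_sum (f := a) (fun j hj => (hHpos j hj).le) hi) hp01
  -- cardinalities
  have hcard := card_three hP.hu hP.d1 hP.d2 hP.d3
  rw [hP.card] at hcard
  have hn9 := hP.card_L h hJg
  have hHc := hP.card_H h
  have hJc : (J.card : ℝ) ≤ 10 ^ 29 / κ := hP.card_J h hJg
  have hJ1 : 1 ≤ J.card := Finset.card_pos.2 ⟨j1, hT.mem⟩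
  have hy12 : (J.card : ℝ) = 1 ∨ (2 : ℝ) ≤ J.card := by
    rcases Nat.eq_or_lt_of_le hJ1 with h' | h'
    · left; rw [← h']; norm_num
    · right; exact_mod_cast h'
  have hh12 : (H.card : ℝ) = 0 ∨ (1 : ℝ) ≤ H.card := by
    rcases Nat.eq_zero_or_pos H.card with h' | h'
    · left; rw [h']; norm_num
    · right; exact_mod_cast h'
  have hy1 : (1 : ℝ) ≤ J.card := by exact_mod_cast hJ1
  set n : ℝ := (L.card : ℝ) with hn
  set hh : ℝ := (H.card : ℝ) with hhh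
  set y : ℝ := (J.card : ℝ) with hy
  have hh0 : 0 ≤ hh := Nat.cast_nonneg _
  have hn0 : 0 ≤ n := Nat.cast_nonneg _
  have hnm : n + y + hh = m + 2 := by linarith
  have hnm1 : n ≤ m + 1 := by linarith
  have hhb : hh ≤ 10 ^ 29 / κ := by
    refine hHc.trans ?_
    rw [← mul_div_assoc]
    exact div_le_div_of_nonneg_right (by nlinarith) hκ.le
  -- the functions
  let om : ι → ℝ := fun z => clip (O / 20) (q * (a z - A / m))
  have hom : ∀ z, |om z| ≤ O / 20 := fun z => clip_abs (by positivity)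
  obtain ⟨v, w, hBB⟩ := asm (q := q) (k := κ) (OP := 11 / 10 * O) hκ (L := L) (J := J) (H := H)
    (a := a) (fun z => O + om z) (zD q m r j1 r2) hP.hu hP.d1 hP.d2 hP.d3
  obtain ⟨hz1, hz2, hz3⟩ := zD_bounds h hT h1
  -- the parts
  have e1 := light h (L := L) (a := a) (om := om) (by rw [← hn]; linarith) hP.light hA0 hA1
    (fun z _ => rfl)
  have e2 := d_light h (L := L) (a := a) (om := om) (by rw [← hn]; linarith) hP.light hP.lsum
    (fun z _ => hom z) (zf := zD q m r j1 r2) hT hz1 hz2 hz3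
  have e3 := d_pairs h hT h1
  have e5 : ∀ i ∈ H, n * Phi q κ + 4 / 10 ^ 7 * m * a i
      ≤ ∑ z ∈ L, Phi q (κ + a i * (11 / 10 * O - (O + om z)) - a z * Bq κ (11 / 10 * O) (a i)) :=
    fun i hi => hl h hn9 hP.light hP.lsum (fun z _ => hom z) (hP.hge i hi) (hHle i hi)
  have hJzs : ∑ j ∈ J, zD q m r j1 r2 j ≤ 10 ^ 15 := hz3.trans (by norm_num)
  have e6 : ∀ i ∈ H, -(10 ^ 62 * (Λ * (a i / κ)))
      ≤ ∑ j ∈ J, Phi q (κ + a i * (11 / 10 * O) + a i * zD q m r j1 r2 j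
        - a j * Bq κ (11 / 10 * O) (a i)) :=
    fun i hi => hj h hP.jneg hP.jsum hJc hz1 hJzs (hP.hge i hi) (hHle i hi)
  have e5s : hh * (n * Phi q κ) + 4 / 10 ^ 7 * m * p0 ≤ ∑ i ∈ H, ∑ z ∈ L,
      Phi q (κ + a i * (11 / 10 * O - (O + om z)) - a z * Bq κ (11 / 10 * O) (a i)) := by
    refine le_trans (le_of_eq ?_) (Finset.sum_le_sum e5)
    rw [Finset.sum_add_distrib, Finset.sum_const, nsmul_eq_mul, ← Finset.mul_sum]
  have e6s : -(10 ^ 62 * (Λ * (p0 / κ))) ≤ ∑ i ∈ H, ∑ j ∈ J,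
      Phi q (κ + a i * (11 / 10 * O) + a i * zD q m r j1 r2 j
        - a j * Bq κ (11 / 10 * O) (a i)) := by
    refine le_trans (le_of_eq ?_) (Finset.sum_le_sum e6)
    rw [Finset.sum_neg_distrib, ← Finset.mul_sum, ← Finset.mul_sum, ← Finset.sum_div]
  -- rewrite the `J` parts of `asm`
  have j1s : ∑ z ∈ L, ∑ j ∈ J, Phi q (κ - a j * (O + om z) + a z * zD q m r j1 r2 j)
      = ∑ z ∈ L, ∑ j ∈ J, Phi q (κ + r j * (O + om z) + a z * zD q m r j1 r2 j) := by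
    refine Finset.sum_congr rfl (fun z _ => Finset.sum_congr rfl (fun j _ => ?_))
    congr 1
    rw [hrdef]; ring
  have j2s : offd J (fun j j' => Phi q (κ + a j * zD q m r j1 r2 j' + a j' * zD q m r j1 r2 j))
      = offd J (fun j j' => Phi q (κ - r j * zD q m r j1 r2 j' - r j' * zD q m r j1 r2 j)) := by
    refine offd_congr (fun j _ j' _ _ => ?_)
    congr 1
    simp only [hrdef]; ring
  have j3s : ∑ j ∈ J, (κ + 2 * a j * zD q m r j1 r2 j)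
      = ∑ j ∈ J, (κ - 2 * r j * zD q m r j1 r2 j) := by
    refine Finset.sum_congr rfl (fun j _ => ?_)
    simp only [hrdef]; ring
  rw [j1s, j2s, j3s] at hBB
  have hTT := TT_eq2 hq0 h.hm (q := q) (m := m)
  have hSX0 : 0 ≤ ∑ z ∈ L, (q * (a z - A / m)) * om z := Finset.sum_nonneg fun z _ =>
    le_trans (by positivity) (clip_sq (c := O / 20) (x := q * (a z - A / m)) (by positivity))
  have hSo0 : 0 ≤ ∑ z ∈ L, om z ^ 2 := Finset.sum_nonneg fun z _ => sq_nonneg _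
  have hSr0 : 0 ≤ ∑ z ∈ L, (a z - 1 / m) ^ 2 := Finset.sum_nonneg fun z _ => sq_nonneg _
  have hbook := d_book h hnm hn0 hy1 hy12 hh0 hh12 hJc hhb
  have hneg := AsmDAux.neg hκ hm0 hp00 hp01 hΛ1 hu1 hHc
  have hterm : -(30 * Λ) ≤ 2 * q * m / (m - 1) * (O * A * (1 - n / m)) ∧
      (y - 2 ≥ 0 → 0 ≤ 2 * q * m / (m - 1) * (O * A * (1 - n / m))) := by
    have t1 : 0 < m - 1 := by linarith [show (1:ℝ) < 10 ^ 100 by norm_num]
    constructor
    · have t2 : -(1 / m) ≤ 1 - n / m := by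
        have : n / m ≤ (m + 1) / m := div_le_div_of_nonneg_right hnm1 hm0.le
        have h' : (m + 1) / m = 1 + 1 / m := by field_simp
        linarith
      have t3 : -(2 / m) ≤ O * A * (1 - n / m) := by
        have u1 : 0 ≤ O * A := by positivity
        have u2 : O * A ≤ 2 := by nlinarith
        have u3 : O * A * (-(1 / m)) ≤ O * A * (1 - n / m) := mul_le_mul_of_nonneg_left t2 u1
        have u4 : O * A * (1 / m) ≤ 2 * (1 / m) := mul_le_mul_of_nonneg_right u2 (by positivity)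
        have u5 : 2 / m = 2 * (1 / m) := by ring
        linarith
      have t4 : 0 ≤ 2 * q * m / (m - 1) := by positivity
      have t5 : 2 * q * m / (m - 1) * (-(2 / m)) ≤ 2 * q * m / (m - 1) * (O * A * (1 - n / m)) :=
        mul_le_mul_of_nonneg_left t3 t4
      have t6 : 2 * q * m / (m - 1) * (2 / m) = 4 * q / (m - 1) := by field_simp; ring
      have t7 : 4 * q / (m - 1) ≤ 30 * Λ := by
        rw [div_le_iff₀ t1]
        have : (10:ℝ) ^ 100 ≥ 10 := by norm_num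
        nlinarith
      linarith
    · intro hy'
      have t2 : 0 ≤ 1 - n / m := by rw [sub_nonneg, div_le_one hm0]; linarith
      positivity
  have hgain : 2 * 10 ^ 25 * Λ + 12 + 10 ^ 31 * Λ * max (y - 2) 0
      < 2 * n * (7 / 100 * (1 - κ) ^ 2 * (1 - r j1 - r2)) - 8 * n * ε + 4 * 10 ^ 4 * q * ε
        + 2 * q * m / (m - 1) * (O * A * (1 - n / m)) := by
    by_cases h3 : 3 ≤ J.card
    · have h3' : (3 : ℝ) ≤ y := by rw [hy]; exact_mod_cast h3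
      have hmax : max (y - 2) 0 = y - 2 := max_eq_left (by linarith)
      rw [hmax]
      have hμ := hT.mu_ge (θ := κ / 10 ^ 29) (by positivity) hJg
      have g := AsmDAux.gain3 (k := κ) (m := m) (q := q) (n := n) (y := y)
        (μ := 1 - r j1 - r2) (ε := ε) (L := Λ) (e := 1 - κ) hκ hm0 h.hk hΛ1 hn9 hnm1 h.hq hm100
        (by linarith) (by linarith) hμ hε0
      have := hterm.2 (by linarith)
      linarith
    · have h4 : 3 / 4 < r j1 := by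
        rcases hcase with h' | h'
        · exact absurd h' h3
        · exact h'
      have hε4 : 1 / 4 < ε := lt_of_lt_of_le (by linarith) (le_max_left _ _)
      have hy2 : y ≤ 2 := by
        have : J.card ≤ 2 := by omega
        rw [hy]; exact_mod_cast this
      have hmax : max (y - 2) 0 = 0 := max_eq_right (by linarith)
      rw [hmax, mul_zero, add_zero]
      have hμ0 := (hT.mu_nonneg).1
      exact AsmDAux.gain2 hm100 hΛ1 hnm1 h.hq hn0 (by positivity) hε4 hqΛ hterm.1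
  have hpA : 1 - A = p0 := by linarith
  rw [hpA] at e1
  refine ⟨v, w, ?_⟩
  rw [hBB, hTT]
  exact AsmDAux.fin hnm hSX0 hSo0 hSr0 e1 e2 e3 e5s e6s hbook hneg (by positivity) hgain

end

end Pool.Agent.RieszTr
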