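import Pool.Agent.RieszTr.FF
import Pool.Agent.RieszTr.Split

set_option autoImplicit false

open Real Finset

namespace Pool.Agent.RieszTr

open Pool.Agent.RieszSmall Pool.Agent.RieszLin

section

variable {ι : Type*} [DecidableEq ι]

/-- a sum of squares of small numbers -/
lemma sum_sq_le {L : Finset ι} {a : ι → ℝ} {c S : ℝ} (hc : 0 ≤ c) (ha : ∀ z ∈ L, |a z| ≤ c)
    (hS : ∑ z ∈ L, |a z| ≤ S) : ∑ z ∈ L, a z ^ 2 ≤ c * S := by
  calc ∑ z ∈ L, a z ^ 2 ≤ ∑ z ∈ L, c * |a z| := by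
        refine Finset.sum_le_sum fun z hz => ?_
        rw [← sq_abs, sq]
        exact mul_le_mul_of_nonneg_right (ha z hz) (abs_nonneg _)
    _ = c * ∑ z ∈ L, |a z| := by rw [Finset.mul_sum]
    _ ≤ c * S := mul_le_mul_of_nonneg_left hS hc

/-- MODULE RT11. The light-light part in the pure case, `Ω = 10^4`.
`Phi_quad` at `K1 = κ` (all `K = κ - (a z + a z') 10^4 > 0`):
`offd Φ(K) ≥ (n²-n) Φ(κ) + sl q κ * offd (K - κ) - cv q κ * offd ((K-κ)²)`;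
`offd (K-κ) = - 2·10^4 (n-1) A`, `A = ∑_L a z ≥ 0`; the diagonal part is `-q n κ + 2 q 10^4 A`;
linear terms: `2·10^4 A (q - (n-1) sl q κ) ≥ 0` by `Reg.sl_kp_le`, `n ≤ m` (if `n ≥ 1`).
Quadratic part: `cv q κ ≤ 2/κ`, `offd ((K-κ)²) ≤ 10^8 ∑∑ (a z + a z')² ≤ 10^8 · 4 n ∑ a z²`,
`∑ a z² ≤ κ/10^20 · 2·10^9` (`sum_sq_le`), total `≤ 8·10^8·2·10^9/10^20 n ≤ 0.016 m`. -/
theorem pure_LL {q m : ℝ} (h : Reg q m) {L : Finset ι} {a : ι → ℝ} (hn : (L.card : ℝ) ≤ m)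
    (ha : ∀ z ∈ L, |a z| ≤ kp q m / 10 ^ 20) (hS : ∑ z ∈ L, |a z| ≤ 2 * 10 ^ 9)
    (hA : 0 ≤ ∑ z ∈ L, a z) :
    ((L.card : ℝ) ^ 2 - L.card) * Phi q (kp q m) - q * L.card * kp q m - m / 50
      ≤ offd L (fun z z' => Phi q (kp q m - a z * 10 ^ 4 - a z' * 10 ^ 4))
        - q * ∑ z ∈ L, (kp q m - 2 * a z * 10 ^ 4) := by
  obtain ⟨hLa, hkm, hmbig, hqbig, hqLa⟩ := h.big
  have hq : 0 < q := lt_of_lt_of_le (by norm_num) hqbig
  have hm0 : 0 < m := lt_of_lt_of_le (by norm_num) hmbig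
  have hk : 0 < kp q m := kp_pos h.hm
  have hk1 : kp q m ≤ 1 := (kp_lt_one hq h.hm).le
  have hp : (2 : ℝ) ^ (-(q + 1)) ≤ kp q m := h.K0_bounds.2.2.2.trans h.K0_bounds.1
  obtain ⟨hs0, -⟩ := h.sl_le le_rfl hk1
  have hs1 := h.sl_kp_le
  obtain ⟨hc0, hc1⟩ := h.cv_le le_rfl
  set κ := kp q m with hκ
  set s := sl q κ with hs
  set c := cv q κ with hc
  set n : ℝ := (L.card : ℝ) with hn'
  have hn0 : 0 ≤ n := Nat.cast_nonneg _
  set A := ∑ z ∈ L, a z with hAdef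
  set Q := ∑ z ∈ L, a z ^ 2 with hQdef
  have hQ : Q ≤ κ / 10 ^ 20 * (2 * 10 ^ 9) := sum_sq_le (by positivity) ha hS
  have hQ0 : 0 ≤ Q := Finset.sum_nonneg fun z _ => sq_nonneg _
  -- the pointwise bound
  have h1 : offd L (fun z z' => Phi q κ + ((-(s * 10 ^ 4)) * (a z + a z') +
      (-(c * 10 ^ 8)) * (a z + a z') ^ 2)) ≤
      offd L (fun z z' => Phi q (κ - a z * 10 ^ 4 - a z' * 10 ^ 4)) := by
    refine offd_le fun z hz z' hz' _ => ?_
    have e1 := abs_le.1 (ha z hz)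
    have e2 := abs_le.1 (ha z' hz')
    have hK : 0 < κ - a z * 10 ^ 4 - a z' * 10 ^ 4 := by
      have : κ / 10 ^ 20 * 10 ^ 4 + κ / 10 ^ 20 * 10 ^ 4 < κ := by
        rw [← mul_add, div_mul_eq_mul_div, div_lt_iff₀ (by positivity)]
        nlinarith
      nlinarith [e1.2, e2.2]
    have := Phi_quad hq hp hK
    rw [← hs, ← hc] at this
    nlinarith [this]
  have h2 : offd L (fun z z' => Phi q κ + ((-(s * 10 ^ 4)) * (a z + a z') +
      (-(c * 10 ^ 8)) * (a z + a z') ^ 2)) =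
      (n ^ 2 - n) * Phi q κ + ((-(s * 10 ^ 4)) * offd L (fun z z' => a z + a z') +
      (-(c * 10 ^ 8)) * offd L (fun z z' => (a z + a z') ^ 2)) := by
    rw [offd_add, offd_const, offd_add, offd_mul, offd_mul]
  have h3 : offd L (fun z z' => a z + a z') = 2 * (n - 1) * A := by
    rw [offd_eq]
    simp only [Finset.sum_add_distrib, Finset.sum_const, nsmul_eq_mul, ← Finset.mul_sum]
    rw [← hAdef, ← hn']
    ring
  have h4 : offd L (fun z z' => (a z + a z') ^ 2) ≤ 4 * n * Q := by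
    refine (offd_le_double (f := fun z z' => (a z + a z') ^ 2)
      fun z _ => sq_nonneg (a z + a z)).trans ?_
    calc ∑ z ∈ L, ∑ z' ∈ L, (a z + a z') ^ 2
        ≤ ∑ z ∈ L, ∑ z' ∈ L, (2 * a z ^ 2 + 2 * a z' ^ 2) := by
          refine Finset.sum_le_sum fun z _ => Finset.sum_le_sum fun z' _ => ?_
          nlinarith [sq_nonneg (a z - a z')]
      _ = 4 * n * Q := by
          simp only [Finset.sum_add_distrib, Finset.sum_const, nsmul_eq_mul, ← Finset.mul_sum]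
          rw [← hQdef, ← hn']
          ring
  have h5 : c * 10 ^ 8 * offd L (fun z z' => (a z + a z') ^ 2) ≤ m / 50 := by
    have e1 : c * 10 ^ 8 * offd L (fun z z' => (a z + a z') ^ 2) ≤
        c * 10 ^ 8 * (4 * n * Q) := mul_le_mul_of_nonneg_left h4 (by positivity)
    have e2 : c * 10 ^ 8 * (4 * n * Q) ≤
        2 / κ * 10 ^ 8 * (4 * m * (κ / 10 ^ 20 * (2 * 10 ^ 9))) := by
      have : 4 * n * Q ≤ 4 * m * (κ / 10 ^ 20 * (2 * 10 ^ 9)) :=
        mul_le_mul (by linarith) hQ hQ0 (by positivity)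
      exact mul_le_mul (mul_le_mul_of_nonneg_right hc1 (by positivity)) this (by positivity)
        (by positivity)
    have e3 : 2 / κ * 10 ^ 8 * (4 * m * (κ / 10 ^ 20 * (2 * 10 ^ 9))) = 16 / 1000 * m := by
      field_simp
      norm_num
    rw [e3] at e2
    linarith
  have h6 : ∑ z ∈ L, (κ - 2 * a z * 10 ^ 4) = n * κ - 2 * 10 ^ 4 * A := by
    rw [Finset.sum_sub_distrib, Finset.sum_const, nsmul_eq_mul, ← Finset.sum_mul,
      ← Finset.mul_sum, ← hAdef, ← hn']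
    ring
  have h7 : 0 ≤ A * (q - (n - 1) * s) := by
    refine mul_nonneg hA ?_
    have : (n - 1) * s ≤ (m - 1) * s := mul_le_mul_of_nonneg_right (by linarith) hs0
    linarith
  rw [h6]
  rw [h2, h3] at h1
  generalize offd L (fun z z' => Phi q (κ - a z * 10 ^ 4 - a z' * 10 ^ 4)) = X at h1 ⊢
  generalize offd L (fun z z' => (a z + a z') ^ 2) = Y at h1 h5
  generalize Phi q κ = P at h1 ⊢
  have h8 : (n ^ 2 - n) * P + (-(s * 10 ^ 4) * (2 * (n - 1) * A) + -(c * 10 ^ 8) * Y) +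
      2 * 10 ^ 4 * (A * (q - (n - 1) * s)) ≤ X + 2 * 10 ^ 4 * (A * (q - (n - 1) * s)) := by
    linarith
  have h9 : (n ^ 2 - n) * P + (-(s * 10 ^ 4) * (2 * (n - 1) * A) + -(c * 10 ^ 8) * Y) =
      (n ^ 2 - n) * P - 2 * 10 ^ 4 * ((n - 1) * s * A) - c * 10 ^ 8 * Y := by ring
  have h10 : 2 * 10 ^ 4 * (A * (q - (n - 1) * s)) =
      2 * 10 ^ 4 * (q * A) - 2 * 10 ^ 4 * ((n - 1) * s * A) := by ring
  have h11 : q * (n * κ - 2 * 10 ^ 4 * A) = q * n * κ - 2 * 10 ^ 4 * (q * A) := by ring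
  rw [h11]
  linarith

end

end Pool.Agent.RieszTr
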