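import Pool.Agent.RieszTr.FF
import Pool.Agent.RieszTr.PureLL

set_option autoImplicit false

open Real Finset

namespace Pool.Agent.RieszTr

open Pool.Agent.RieszSmall Pool.Agent.RieszLin

namespace CJAux

theorem four (x y z w : ℝ) : (x + y + z + w) ^ 2 ≤ 4 * (x ^ 2 + y ^ 2 + z ^ 2 + w ^ 2) := by
  nlinarith [sq_nonneg (x - y), sq_nonneg (x - z), sq_nonneg (x - w), sq_nonneg (y - z),
    sq_nonneg (y - w), sq_nonneg (z - w)]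

theorem d1_bd {ζ ε r2 η : ℝ} (hz0 : 0 ≤ ζ) (hz1 : ζ ≤ 1) (hε : 0 ≤ ε) (hr : 1 / 4 ≤ r2) :
    (ζ * ε / r2 + η) ^ 2 ≤ 32 * ε ^ 2 + 2 * η ^ 2 := by
  have h1 : ζ * ε / r2 ≤ 4 * ε := by
    rw [div_le_iff₀ (by linarith)]
    have a1 : ζ * ε ≤ 1 * ε := mul_le_mul_of_nonneg_right hz1 hε
    have a2 : ε * 1 ≤ ε * (4 * r2) := mul_le_mul_of_nonneg_left (by linarith) hε
    linarith
  have h0 : 0 ≤ ζ * ε / r2 := div_nonneg (mul_nonneg hz0 hε) (by linarith)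
  have h2 : (ζ * ε / r2) ^ 2 ≤ (4 * ε) ^ 2 := pow_le_pow_left₀ h0 h1 2
  have h3 : (ζ * ε / r2 + η) ^ 2 ≤ 2 * (ζ * ε / r2) ^ 2 + 2 * η ^ 2 := by
    generalize ζ * ε / r2 = x
    linarith [sq_nonneg (x - η), show (x + η) ^ 2 + (x - η) ^ 2 = 2 * x ^ 2 + 2 * η ^ 2 by ring]
  linarith [show (4 * ε) ^ 2 = 16 * ε ^ 2 by ring]

theorem d2_bd {ζ ε r1 : ℝ} (hz0 : 0 ≤ ζ) (hz1 : ζ ≤ 1) (hε : 0 ≤ ε) (hr : 1 / 2 ≤ r1) :
    (-(ζ * ε / r1)) ^ 2 ≤ 4 * ε ^ 2 := by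
  have h1 : ζ * ε / r1 ≤ 2 * ε := by
    rw [div_le_iff₀ (by linarith)]
    have a1 : ζ * ε ≤ 1 * ε := mul_le_mul_of_nonneg_right hz1 hε
    have a2 : ε * 1 ≤ ε * (2 * r1) := mul_le_mul_of_nonneg_left (by linarith) hε
    linarith
  have h0 : 0 ≤ ζ * ε / r1 := div_nonneg (mul_nonneg hz0 hε) (by linarith)
  have h2 : (ζ * ε / r1) ^ 2 ≤ (2 * ε) ^ 2 := pow_le_pow_left₀ h0 h1 2
  rw [neg_sq]
  linarith [show (2 * ε) ^ 2 = 4 * ε ^ 2 by ring]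

/-- the quadratic bound -/
theorem quad {Ω ζ r1 r2 η a om ρ : ℝ} (hΩ0 : 0 ≤ Ω) (hΩ2 : Ω ≤ 2) (hz0 : 0 ≤ ζ)
    (hz1 : ζ ≤ 1) (hr : r1 + r2 = 1) (hr1 : 1 / 2 ≤ r1) (hr2 : r1 ≤ 3 / 4) :
    ((r1 - 1 / 2) * Ω + r1 * om + ρ * ζ + a * (ζ * (r1 - 1 / 2) / r2 + η)) ^ 2 +
      ((r2 - 1 / 2) * Ω + r2 * om + ρ * ζ + a * (-(ζ * (r1 - 1 / 2) / r1))) ^ 2 ≤
      4 * (8 * (r1 - 1 / 2) ^ 2 + om ^ 2 + 2 * ρ ^ 2 +
        a ^ 2 * (36 * (r1 - 1 / 2) ^ 2 + 2 * η ^ 2)) := by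
  have hε0 : 0 ≤ r1 - 1 / 2 := by linarith
  have hr2ε : r2 - 1 / 2 = -(r1 - 1 / 2) := by linarith
  have d1 := d1_bd (η := η) hz0 hz1 hε0 (show 1 / 4 ≤ r2 by linarith)
  have d2 := d2_bd hz0 hz1 hε0 hr1
  rw [hr2ε]
  have g3 : (r1 * om) ^ 2 + (r2 * om) ^ 2 ≤ om ^ 2 := by
    have h1 : r1 ^ 2 + r2 ^ 2 ≤ 1 := by
      have : r2 = 1 - r1 := by linarith
      subst this
      nlinarith
    have h2 := mul_le_mul_of_nonneg_right h1 (sq_nonneg om)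
    linarith [show (r1 * om) ^ 2 + (r2 * om) ^ 2 = (r1 ^ 2 + r2 ^ 2) * om ^ 2 by ring]
  generalize r1 - 1 / 2 = ε at *
  generalize ζ * ε / r2 + η = D1 at *
  generalize -(ζ * ε / r1) = D2 at *
  have f1 := four (ε * Ω) (r1 * om) (ρ * ζ) (a * D1)
  have f2 := four (-ε * Ω) (r2 * om) (ρ * ζ) (a * D2)
  have g1 : (ε * Ω) ^ 2 ≤ 4 * ε ^ 2 := by
    have : Ω ^ 2 ≤ 2 ^ 2 := pow_le_pow_left₀ hΩ0 hΩ2 2
    have h2 := mul_le_mul_of_nonneg_left this (sq_nonneg ε)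
    linarith [show (ε * Ω) ^ 2 = ε ^ 2 * Ω ^ 2 by ring]
  have g2 : (-ε * Ω) ^ 2 ≤ 4 * ε ^ 2 := by
    linarith [show (-ε * Ω) ^ 2 = (ε * Ω) ^ 2 by ring]
  have g4 : (ρ * ζ) ^ 2 ≤ ρ ^ 2 := by
    have h1 : ζ ^ 2 ≤ 1 ^ 2 := pow_le_pow_left₀ hz0 hz1 2
    have h2 := mul_le_mul_of_nonneg_left h1 (sq_nonneg ρ)
    linarith [show (ρ * ζ) ^ 2 = ρ ^ 2 * ζ ^ 2 by ring]
  have g5 : (a * D1) ^ 2 ≤ a ^ 2 * (32 * ε ^ 2 + 2 * η ^ 2) := by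
    rw [mul_pow]
    exact mul_le_mul_of_nonneg_left d1 (sq_nonneg a)
  have g6 : (a * D2) ^ 2 ≤ a ^ 2 * (4 * ε ^ 2) := by
    rw [mul_pow]
    exact mul_le_mul_of_nonneg_left d2 (sq_nonneg a)
  have g7 : a ^ 2 * (36 * ε ^ 2 + 2 * η ^ 2) =
    a ^ 2 * (32 * ε ^ 2 + 2 * η ^ 2) + a ^ 2 * (4 * ε ^ 2) := by ring
  linarith

/-- the two arguments, in terms of the deviation from `1` -/
theorem dev {κ ζ Ω m r1 r2 η a om : ℝ} (hid : κ + ζ / m + Ω / 2 = 1)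
    (hr : r1 + r2 = 1) (hr1 : 1 / 2 ≤ r1) (hr2 : r1 ≤ 3 / 4) :
    κ + r1 * (Ω + om) + a * (ζ / (2 * r2) + η) - 1
      = (r1 - 1 / 2) * Ω + r1 * om + (a - 1 / m) * ζ + a * (ζ * (r1 - 1 / 2) / r2 + η) ∧
    κ + r2 * (Ω + om) + a * (ζ / (2 * r1)) - 1
      = (r2 - 1 / 2) * Ω + r2 * om + (a - 1 / m) * ζ + a * (-(ζ * (r1 - 1 / 2) / r1)) := by
  have hx : ζ / (2 * r2) = ζ + ζ * (r1 - 1 / 2) / r2 := by
    have : r2 ≠ 0 := by linarith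
    have hr1' : r1 = 1 - r2 := by linarith
    rw [hr1']
    field_simp
    ring
  have hy : ζ / (2 * r1) = ζ - ζ * (r1 - 1 / 2) / r1 := by
    have : r1 ≠ 0 := by linarith
    field_simp
    ring
  rw [hx, hy]
  have hζm : ζ / m = 1 / m * ζ := by ring
  rw [hζm] at hid
  constructor
  · linear_combination hid
  · linear_combination hid

/-- positivity -/
theorem pos {κ Ω s a d r : ℝ} (hk0 : 0 < κ) (ha : |a| ≤ κ / 10 ^ 20) (hs : 0 ≤ s) (hr : 0 ≤ r)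
    (h0 : 0 ≤ d) (h1 : d ≤ 2 + 10 ^ 4) : 0 < κ + r * s + a * d := by
  have h2 : |a * d| ≤ κ / 10 ^ 20 * (2 + 10 ^ 4) := by
    rw [abs_mul, abs_of_nonneg h0]
    exact mul_le_mul ha h1 h0 (by positivity)
  have h3 : κ / 10 ^ 20 * (2 + 10 ^ 4) ≤ κ / 2 := by
    have : κ / 10 ^ 20 * (2 + 10 ^ 4) = κ * ((2 + 10 ^ 4) / 10 ^ 20) := by ring
    rw [this]
    have h4 : ((2 + 10 ^ 4) / 10 ^ 20 : ℝ) ≤ 1 / 2 := by norm_num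
    have h5 := mul_le_mul_of_nonneg_left h4 hk0.le
    linarith
  have h4 := (abs_le.mp h2).1
  have h5 := mul_nonneg hr hs
  linarith

/-- one light point -/
theorem one_pt {q m : ℝ} (h : Reg q m) {a om : ℝ} (ha : |a| ≤ kp q m / 10 ^ 20)
    (ho : |om| ≤ Om q m / 20) {r1 r2 η : ℝ} (hr : r1 + r2 = 1) (hr1 : 1 / 2 ≤ r1)
    (hr2 : r1 ≤ 3 / 4) (hη : 0 ≤ η) (hη1 : η ≤ 10 ^ 4) :
    4 - 64 * (r1 - 1 / 2) ^ 2 - 8 * om ^ 2 - 16 * (a - 1 / m) ^ 2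
        - 8 * a ^ 2 * (36 * (r1 - 1 / 2) ^ 2 + 2 * η ^ 2)
      ≤ 2 * (Phi q (kp q m + r1 * (Om q m + om) + a * (ze q m / (2 * r2) + η))
          + Phi q (kp q m + r2 * (Om q m + om) + a * (ze q m / (2 * r1)))) := by
  obtain ⟨-, -, -, hq97, -⟩ := h.big
  have hq0 : 0 < q := lt_of_lt_of_le (by positivity) hq97
  have hk0 : 0 < kp q m := kp_pos h.hm
  have hk1 := h.kp_le
  obtain ⟨hz0, hzk⟩ := h.ze_bounds
  obtain ⟨hO1, hO2⟩ := h.Om_bounds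
  have hid := id_one (q := q) (m := m)
  generalize kp q m = κ at *
  generalize ze q m = ζ at *
  generalize Om q m = Ω at *
  have hΩ0 : 0 ≤ Ω := by linarith
  have hΩ2 : Ω ≤ 2 := by linarith
  have hζ1 : ζ ≤ 1 := by linarith
  have hs0 : 0 ≤ Ω + om := by linarith [(abs_le.mp ho).1]
  have hd2 : ζ / (2 * r2) ≤ 2 := by
    rw [div_le_iff₀ (by linarith)]
    linarith
  have hd20 : 0 ≤ ζ / (2 * r2) := div_nonneg hz0.le (by linarith)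
  have hd1 : ζ / (2 * r1) ≤ 2 := by
    rw [div_le_iff₀ (by linarith)]
    linarith
  have hd10 : 0 ≤ ζ / (2 * r1) := div_nonneg hz0.le (by linarith)
  have hK1 : 0 < κ + r1 * (Ω + om) + a * (ζ / (2 * r2) + η) :=
    pos (Ω := Ω) hk0 ha hs0 (by linarith) (by linarith) (by linarith)
  have hK2 : 0 < κ + r2 * (Ω + om) + a * (ζ / (2 * r1)) :=
    pos (Ω := Ω) hk0 ha hs0 (by linarith) hd10
      (le_trans hd1 (by norm_num))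
  have hP1 := Phi_ge_one hq0 hK1
  have hP2 := Phi_ge_one hq0 hK2
  obtain ⟨e1, e2⟩ := dev (a := a) (om := om) (η := η) hid hr hr1 hr2
  have hQ := quad (η := η) (a := a) (om := om) (ρ := a - 1 / m) hΩ0 hΩ2 hz0.le hζ1 hr hr1 hr2
  rw [e1] at hP1
  rw [e2] at hP2
  linarith

end CJAux

open CJAux

section

variable {ι : Type*} [DecidableEq ι]

/-- MODULE RT22. Two heavy points `r1 + r2 = 1`, `1/2 ≤ r1 ≤ 3/4`, `ε = r1 - 1/2`,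
`ζ1 = ζ/(2 r2) + η`, `ζ2 = ζ/(2 r1)`, `0 ≤ η ≤ 10^4`, against the light points.
`Phi_ge_one`: `Φ(K) ≥ 1 - (K-1)²`. By `id_one` (`1 = κ + ζ/m + Ω/2`), with `ρ = a z - 1/m`:
`K1 - 1 = ε Ω + r1 om + ρ ζ + a δ1`, `δ1 = ζ ε/r2 + η`, `K2 - 1 = -ε Ω + r2 om + ρ ζ + a δ2`,
`δ2 = -ζ ε/r1`. `(x+y+z+w)² ≤ 4(x²+y²+z²+w²)`, `Ω ≤ 2`, `ζ ≤ 1`, `r1²+r2² ≤ 1`, `r2 ≥ 1/4`:
sum of the two squares `≤ 4 (8 ε² + om² + 2 ρ² + a² (36 ε² + 2 η²))`;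
`∑ a² ≤ 2·10^(-11)` (`sum_sq_le`). Positivity of `K1, K2`: `|a| ζ1 ≤ (κ/10^20)(2+10^4) ≤ κ/2`. -/
theorem c_light {q m : ℝ} (h : Reg q m) {L : Finset ι} {a om : ι → ℝ}
    (hn : (L.card : ℝ) ≤ m + 1)
    (ha : ∀ z ∈ L, |a z| ≤ kp q m / 10 ^ 20) (hS : ∑ z ∈ L, |a z| ≤ 2 * 10 ^ 9)
    (ho : ∀ z ∈ L, |om z| ≤ Om q m / 20) {r1 r2 η : ℝ} (hr : r1 + r2 = 1) (hr1 : 1 / 2 ≤ r1)
    (hr2 : r1 ≤ 3 / 4) (hη : 0 ≤ η) (hη1 : η ≤ 10 ^ 4) :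
    4 * (L.card : ℝ) - 8 * ∑ z ∈ L, om z ^ 2 - 16 * ∑ z ∈ L, (a z - 1 / m) ^ 2
        - 66 * m * (r1 - 1 / 2) ^ 2 - η ^ 2
      ≤ 2 * ∑ z ∈ L, (Phi q (kp q m + r1 * (Om q m + om z) + a z * (ze q m / (2 * r2) + η))
          + Phi q (kp q m + r2 * (Om q m + om z) + a z * (ze q m / (2 * r1)))) := by
  obtain ⟨-, hkm, hm100, hq97, -⟩ := h.big
  have hk0 : 0 < kp q m := kp_pos h.hm
  have hk1 := h.kp_le
  have hsum := Finset.sum_le_sum (fun z hz => one_pt h (ha z hz) (ho z hz) hr hr1 hr2 hη hη1)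
  rw [← Finset.mul_sum] at hsum
  have hsq := sum_sq_le (by positivity : (0 : ℝ) ≤ kp q m / 10 ^ 20) ha hS
  have hsq' : ∑ z ∈ L, a z ^ 2 ≤ 2 / 10 ^ 11 := by
    refine hsq.trans ?_
    have h1 : kp q m / 10 ^ 20 ≤ 1 / 10 ^ 20 :=
      div_le_div_of_nonneg_right (by linarith) (by positivity)
    calc kp q m / 10 ^ 20 * (2 * 10 ^ 9) ≤ 1 / 10 ^ 20 * (2 * 10 ^ 9) :=
          mul_le_mul_of_nonneg_right h1 (by positivity)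
      _ = 2 / 10 ^ 11 := by norm_num
  have hlhs : ∑ z ∈ L, (4 - 64 * (r1 - 1 / 2) ^ 2 - 8 * om z ^ 2 - 16 * (a z - 1 / m) ^ 2
        - 8 * a z ^ 2 * (36 * (r1 - 1 / 2) ^ 2 + 2 * η ^ 2))
      = (L.card : ℝ) * (4 - 64 * (r1 - 1 / 2) ^ 2) - 8 * ∑ z ∈ L, om z ^ 2
        - 16 * ∑ z ∈ L, (a z - 1 / m) ^ 2
        - 8 * (∑ z ∈ L, a z ^ 2) * (36 * (r1 - 1 / 2) ^ 2 + 2 * η ^ 2) := by
    rw [Finset.sum_sub_distrib, Finset.sum_sub_distrib, Finset.sum_sub_distrib,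
      Finset.sum_const, nsmul_eq_mul, ← Finset.mul_sum, ← Finset.mul_sum, ← Finset.sum_mul,
      ← Finset.mul_sum]
  rw [hlhs] at hsum
  refine le_trans ?_ hsum
  have hs0 : 0 ≤ ∑ z ∈ L, a z ^ 2 := Finset.sum_nonneg (fun z _ => sq_nonneg _)
  set ε := r1 - 1 / 2 with hε
  set S := ∑ z ∈ L, a z ^ 2 with hSdef
  have h1 : (L.card : ℝ) * (64 * ε ^ 2) ≤ (m + 1) * (64 * ε ^ 2) :=
    mul_le_mul_of_nonneg_right hn (by positivity)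
  have h2 : 8 * S * (36 * ε ^ 2 + 2 * η ^ 2) ≤ 8 * (2 / 10 ^ 11) * (36 * ε ^ 2 + 2 * η ^ 2) :=
    mul_le_mul_of_nonneg_right (by linarith) (by positivity)
  have h3 : 100 * ε ^ 2 ≤ m * ε ^ 2 := by
    refine mul_le_mul_of_nonneg_right ?_ (sq_nonneg ε)
    linarith [show (100 : ℝ) ≤ 10 ^ 100 by norm_num]
  have h4 : 0 ≤ ε ^ 2 := sq_nonneg ε
  have h5 : 0 ≤ η ^ 2 := sq_nonneg η
  have h6 : 8 * (2 / 10 ^ 11 : ℝ) * (36 * ε ^ 2 + 2 * η ^ 2) ≤ ε ^ 2 + η ^ 2 := by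
    norm_num
    linarith
  nlinarith [h1, h2, h3, h6]

/-- The pair itself: `κ - r1 ζ2 - r2 ζ1 = 2^(-p) - r2 η` (`id_ze`), where `Φ` is linear with
slope `q` (`Phi_of_le'`), and `r1 ζ1 + r2 ζ2 = ζ (r1² + r2²)/(2 r1 r2) + r1 η ≥ ζ + r1 η`. -/
theorem c_pair {q m : ℝ} (h : Reg q m) {r1 r2 η : ℝ} (hr : r1 + r2 = 1) (hr1 : 1 / 2 ≤ r1)
    (hr2 : r1 ≤ 3 / 4) (hη : 0 ≤ η) :
    2 * Phi q ((2 : ℝ) ^ (-(q + 1))) - 2 * q * (2 : ℝ) ^ (-(q + 1)) + 4 * q * (r1 - 1 / 2) * η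
      ≤ 2 * Phi q (kp q m - r1 * (ze q m / (2 * r1)) - r2 * (ze q m / (2 * r2) + η))
        - q * ((kp q m - 2 * r1 * (ze q m / (2 * r2) + η))
          + (kp q m - 2 * r2 * (ze q m / (2 * r1)))) := by
  obtain ⟨-, hkm, hm100, hq97, -⟩ := h.big
  have hq0 : 0 < q := by linarith [show (0 : ℝ) < 10 ^ 97 by positivity]
  obtain ⟨hz0, hzk⟩ := h.ze_bounds
  have hid := id_ze (q := q) (m := m)
  have hr20 : 1 / 4 ≤ r2 := by linarith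
  have hr1' : r1 ≠ 0 := by linarith
  have hr2' : r2 ≠ 0 := by linarith
  have e1 : kp q m - r1 * (ze q m / (2 * r1)) - r2 * (ze q m / (2 * r2) + η)
      = (2 : ℝ) ^ (-(q + 1)) - r2 * η := by
    rw [← hid]
    field_simp
    ring
  have hle : (2 : ℝ) ^ (-(q + 1)) - r2 * η ≤ (2 : ℝ) ^ (-(q + 1)) := by
    have : 0 ≤ r2 * η := mul_nonneg (by linarith) hη
    linarith
  rw [e1, Phi_of_le' hq0 hle, Phi_of_le' hq0 (le_refl _)]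
  have e2 : r1 * (ze q m / (2 * r2)) + r2 * (ze q m / (2 * r1)) - ze q m
      = ze q m * (r1 - r2) ^ 2 / (2 * (r1 * r2)) := by
    field_simp
    ring
  have e3 : 0 ≤ ze q m * (r1 - r2) ^ 2 / (2 * (r1 * r2)) := by
    have : 0 < r1 * r2 := mul_pos (by linarith) (by linarith)
    positivity
  have e4 : 0 ≤ q * (r1 * (ze q m / (2 * r2)) + r2 * (ze q m / (2 * r1)) - ze q m) := by
    rw [e2]
    exact mul_nonneg hq0.le e3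
  have hk : kp q m = (2 : ℝ) ^ (-(q + 1)) + ze q m := by linarith
  rw [hk]
  have hr2'' : r2 = 1 - r1 := by linarith
  have e5 : 2 * (2 ^ (-q) + q * ((2 : ℝ) ^ (-(q + 1)) - r2 * η)) -
      q * ((2 : ℝ) ^ (-(q + 1)) + ze q m - 2 * r1 * (ze q m / (2 * r2) + η) +
        ((2 : ℝ) ^ (-(q + 1)) + ze q m - 2 * r2 * (ze q m / (2 * r1)))) =
      (2 * (2 ^ (-q) + q * (2 : ℝ) ^ (-(q + 1))) - 2 * q * (2 : ℝ) ^ (-(q + 1)) +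
        4 * q * (r1 - 1 / 2) * η) +
      2 * (q * (r1 * (ze q m / (2 * r2)) + r2 * (ze q m / (2 * r1)) - ze q m)) +
      2 * q * η * ((1 - r1) - r2) := by
    ring
  rw [e5, hr2'']
  rw [hr2''] at e4
  linarith

/-- Choice of `η`: `η = min (10^4) (q ε)`. Then `4 q ε η - η² - 66 m ε² ≥ q ε η`:
`η² ≤ q ε η`; if `η = q ε`: `2 q² ε² ≥ 66 m ε²`; if `η = 10^4`:
`2·10^4 q ε ≥ 66 m ε²` because `ε ≤ 1/4`, `m ≤ 250 q`. -/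
theorem c_eta {q m ε : ℝ} (h : Reg q m) (h0 : 0 ≤ ε) (h1 : ε ≤ 1 / 4) :
    q * ε * min (10 ^ 4) (q * ε) ≤ 4 * q * ε * min (10 ^ 4) (q * ε) - min (10 ^ 4) (q * ε) ^ 2
      - 66 * m * ε ^ 2 := by
  obtain ⟨-, hkm, hm100, hq97, -⟩ := h.big
  have hq0 : 0 < q := by linarith [show (0 : ℝ) < 10 ^ 97 by positivity]
  have hmq := h.hq
  set η := min ((10 : ℝ) ^ 4) (q * ε) with hη
  have hqe : 0 ≤ q * ε := mul_nonneg hq0.le h0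
  have hη0 : 0 ≤ η := le_min (by positivity) hqe
  have h2 : η ≤ q * ε := min_le_right _ _
  have h3 : η ^ 2 ≤ q * ε * η := by nlinarith
  have h4 : 66 * m * ε ^ 2 ≤ 2 * (q * ε * η) := by
    have hme : 66 * m * ε ^ 2 ≤ 16500 * q * ε ^ 2 := by
      refine mul_le_mul_of_nonneg_right ?_ (sq_nonneg ε)
      linarith
    refine hme.trans ?_
    rcases le_total ((10 : ℝ) ^ 4) (q * ε) with hc | hc
    · have h5 : η = 10 ^ 4 := min_eq_left hc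
      rw [h5]
      have h6 : q * ε * ε ≤ q * ε * (1 / 4) := mul_le_mul_of_nonneg_left h1 hqe
      nlinarith
    · have h5 : η = q * ε := min_eq_right hc
      rw [h5]
      have h6 : 16500 * q ≤ 2 * (q * q) := by
        have : (16500 : ℝ) ≤ q := by
          linarith [show (16500 : ℝ) ≤ 10 ^ 97 by norm_num]
        nlinarith
      have h7 : 16500 * q * ε ^ 2 ≤ 2 * (q * q) * ε ^ 2 :=
        mul_le_mul_of_nonneg_right h6 (sq_nonneg ε)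
      calc 16500 * q * ε ^ 2 ≤ 2 * (q * q) * ε ^ 2 := h7
        _ = 2 * (q * ε * (q * ε)) := by ring
  nlinarith

end

end Pool.Agent.RieszTr
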