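import Pool.Agent.RieszTr.Cases

set_option autoImplicit false

open Real Finset

namespace Pool.Agent.RieszTr

open Pool.Agent.RieszSmall Pool.Agent.RieszLin

section

variable {ι : Type*} [Fintype ι] [DecidableEq ι]

/-- MODULE RT28b. Case I: `θ = κ/10^29`, `∑_{i} |a i| = 2`, `∑ a = 0` (so positive and negative parts have sum
`1`), `R = ∑_{a i ≤ -θ} (-a i) ≥ 10^(-9)` and the positive heavy mass
`∑_{a i ≥ θ} a i ≤ R`. Divide by `R`: `J = {a ≤ -θ}`, `H = {a ≥ θ}`, `L` the rest. -/
theorem case_I {q m : ℝ} (h : Reg q m) (hc : (Fintype.card ι : ℝ) = m + 2) {a : ι → ℝ}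
    (h0 : ∑ i, a i = 0) (h2 : ∑ i, |a i| = 2)
    (hR : 1 / 10 ^ 9 ≤ ∑ i ∈ Finset.univ.filter (fun i => a i ≤ -(kp q m / 10 ^ 29)), (-(a i)))
    (hR2 : ∑ i ∈ Finset.univ.filter (fun i => kp q m / 10 ^ 29 ≤ a i), a i
      ≤ ∑ i ∈ Finset.univ.filter (fun i => a i ≤ -(kp q m / 10 ^ 29)), (-(a i))) :
    (∃ v w : ι → ℝ, TT q m < BB q a v w) ∨ Blk m a := by
  have hk : 0 < kp q m := kp_pos h.hm
  set θ : ℝ := kp q m / 10 ^ 29 with hθ
  have hθ0 : 0 < θ := by positivity
  set J := Finset.univ.filter (fun i => a i ≤ -θ) with hJ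
  set H := Finset.univ.filter (fun i => θ ≤ a i) with hH
  set L := Finset.univ.filter (fun i => -θ < a i ∧ a i < θ) with hL
  set R := ∑ i ∈ J, (-(a i)) with hRdef
  have hR0 : 0 < R := lt_of_lt_of_le (by norm_num) hR
  -- R ≤ 1
  have hR1 : R ≤ 1 := by
    have e1 : R ≤ ∑ i, (|a i| - a i) / 2 := by
      calc R ≤ ∑ i ∈ J, (|a i| - a i) / 2 := by
            refine Finset.sum_le_sum (fun i hi => ?_)
            have : a i ≤ -θ := (Finset.mem_filter.mp hi).2
            rw [abs_of_nonpos (by linarith)]; linarith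
        _ ≤ ∑ i, (|a i| - a i) / 2 := by
            refine Finset.sum_le_sum_of_subset_of_nonneg (Finset.subset_univ _) (fun i _ _ => ?_)
            have := le_abs_self (a i)
            linarith
    have e2 : ∑ i, (|a i| - a i) / 2 = 1 := by
      rw [← Finset.sum_div, Finset.sum_sub_distrib, h0, h2]; norm_num
    linarith
  have hinv : 1 ≤ 1 / R := by rw [le_div_iff₀ hR0]; linarith
  have hinv9 : 1 / R ≤ 10 ^ 9 := by
    rw [div_le_iff₀ hR0]
    have : (1 : ℝ) = 10 ^ 9 * (1 / 10 ^ 9) := by norm_num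
    calc (1 : ℝ) = 10 ^ 9 * (1 / 10 ^ 9) := this
      _ ≤ 10 ^ 9 * R := by gcongr
  have hinv0 : 0 < 1 / R := by positivity
  have d1 : Disjoint L J := by
    rw [Finset.disjoint_left]
    intro i hi hi'
    have h1 := (Finset.mem_filter.mp hi).2.1
    have h2 := (Finset.mem_filter.mp hi').2
    linarith
  have d2 : Disjoint L H := by
    rw [Finset.disjoint_left]
    intro i hi hi'
    have h1 := (Finset.mem_filter.mp hi).2.2
    have h2 := (Finset.mem_filter.mp hi').2
    linarith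
  have d3 : Disjoint J H := by
    rw [Finset.disjoint_left]
    intro i hi hi'
    have h1 := (Finset.mem_filter.mp hi).2
    have h2 := (Finset.mem_filter.mp hi').2
    linarith
  have hu : L ∪ J ∪ H = Finset.univ := by
    ext i
    simp only [Finset.mem_union, Finset.mem_univ, iff_true, hL, hJ, hH, Finset.mem_filter, true_and]
    by_cases h1 : a i ≤ -θ
    · exact Or.inl (Or.inr h1)
    · by_cases h2 : θ ≤ a i
      · exact Or.inr h2
      · exact Or.inl (Or.inl ⟨lt_of_not_ge h1, lt_of_not_ge h2⟩)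
  have hJsum : ∑ j ∈ J, a j = -R := by
    rw [hRdef, Finset.sum_neg_distrib, neg_neg]
  have hP : Part q m L J H (fun i => (1 / R) * a i) := by
    refine ⟨hc, hu, d1, d2, d3, ?_, ?_, ?_, ?_, ?_, ?_, ?_⟩
    · intro z hz
      have h1 := (Finset.mem_filter.mp hz).2
      have h3 : |a z| ≤ θ := abs_le.mpr ⟨h1.1.le, h1.2.le⟩
      rw [abs_mul, abs_of_pos hinv0]
      calc 1 / R * |a z| ≤ 10 ^ 9 * θ := mul_le_mul hinv9 h3 (abs_nonneg _) (by positivity)
        _ = kp q m / 10 ^ 20 := by rw [hθ]; ring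
    · calc ∑ z ∈ L, |1 / R * a z| = 1 / R * ∑ z ∈ L, |a z| := by
            rw [Finset.mul_sum]
            refine Finset.sum_congr rfl (fun z _ => ?_)
            rw [abs_mul, abs_of_pos hinv0]
        _ ≤ 10 ^ 9 * 2 := by
            refine mul_le_mul hinv9 ?_ (Finset.sum_nonneg (fun _ _ => abs_nonneg _)) (by positivity)
            rw [← h2]
            exact Finset.sum_le_sum_of_subset_of_nonneg (Finset.subset_univ _)
              (fun _ _ _ => abs_nonneg _)
        _ = 2 * 10 ^ 9 := by ring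
    · intro j hj
      have h1 : a j ≤ -θ := (Finset.mem_filter.mp hj).2
      have h3 : a j ≤ 0 := by linarith
      exact mul_nonpos_of_nonneg_of_nonpos hinv0.le h3
    · rw [← Finset.mul_sum, hJsum]
      field_simp
    · intro i hi
      have h1 : θ ≤ a i := (Finset.mem_filter.mp hi).2
      calc kp q m / 10 ^ 29 = 1 * θ := by rw [hθ, one_mul]
        _ ≤ 1 / R * a i := mul_le_mul hinv h1 hθ0.le hinv0.le
    · rw [← Finset.mul_sum]
      rw [one_div, inv_mul_le_iff₀ hR0]
      simpa using hR2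
    · have hs := sum_three (f := a) hu d1 d2 d3
      rw [h0, hJsum] at hs
      rw [← Finset.mul_sum, ← Finset.mul_sum]
      have h3 : ∑ z ∈ L, a z = R - ∑ i ∈ H, a i := by linarith
      rw [h3]
      field_simp
  have hJg : ∀ j ∈ J, kp q m / 10 ^ 29 ≤ -((fun i => (1 / R) * a i) j) := by
    intro j hj
    have h1 : a j ≤ -θ := (Finset.mem_filter.mp hj).2
    have h3 : θ ≤ -(a j) := by linarith
    have h4 : 1 * θ ≤ 1 / R * (-(a j)) := mul_le_mul hinv h3 hθ0.le hinv0.le
    calc kp q m / 10 ^ 29 = 1 * θ := by rw [hθ, one_mul]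
      _ ≤ 1 / R * (-(a j)) := h4
      _ = -((fun i => (1 / R) * a i) j) := by ring
  rcases big_part h hP hJg with ⟨v, w, hvw⟩ | hB
  · left
    rw [BB_scale] at hvw
    exact ⟨v, _, hvw⟩
  · right
    exact Blk_scale (t := 1 / R) hinv0.ne' hB

end

end Pool.Agent.RieszTr
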