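import Pool.Agent.RieszTr.PartL

set_option autoImplicit false

open Real Finset

namespace Pool.Agent.RieszTr

open Pool.Agent.RieszSmall Pool.Agent.RieszLin

section

variable {ι : Type*} [Fintype ι] [DecidableEq ι]

/-- MODULE RT28c. Case II: both heavy masses `< 10^(-9)` and at most half of the points are negative:
`J = {a < 0}`, `H = {a ≥ θ}`, `L = {0 ≤ a < θ}`, `pure_case`. `|H| ≤ 10^29·π/κ ≤ m/10^70`,
`n = N - |J| - |H| ≥ N/2 - m/10^70`, `n ≤ m` because `|J| ≥ 2` (`|J| = 1` would give a weight `1`,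
which is heavy); `{r > 10^(-7)}` is contained in the heavy part as `θ ≤ 10^(-29)`. -/
theorem case_II {q m : ℝ} (h : Reg q m) (hc : (Fintype.card ι : ℝ) = m + 2) {a : ι → ℝ}
    (h0 : ∑ i, a i = 0) (h2 : ∑ i, |a i| = 2)
    (hR : ∑ i ∈ Finset.univ.filter (fun i => a i ≤ -(kp q m / 10 ^ 29)), (-(a i)) < 1 / 10 ^ 9)
    (hR2 : ∑ i ∈ Finset.univ.filter (fun i => kp q m / 10 ^ 29 ≤ a i), a i < 1 / 10 ^ 9)
    (hcard : 2 * (Finset.univ.filter (fun i => a i < 0)).card ≤ Fintype.card ι) :
    ∃ v w : ι → ℝ, TT q m < BB q a v w := by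
  classical
  have hk0 : 0 < kp q m := kp_pos h.hm
  have hk1 : kp q m ≤ 1 := by
    have := h.kp_le
    linarith
  have hth : 0 < kp q m / 10 ^ 29 := by positivity
  have hth1 : kp q m / 10 ^ 29 ≤ 1 / 10 ^ 29 := by
    gcongr
  have hm0 : 0 < m := by
    have := h.hm
    linarith
  set J : Finset ι := Finset.univ.filter (fun i => a i < 0) with hJ
  set H : Finset ι := Finset.univ.filter (fun i => kp q m / 10 ^ 29 ≤ a i) with hH
  set L : Finset ι := Finset.univ.filter (fun i => 0 ≤ a i ∧ a i < kp q m / 10 ^ 29) with hL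
  have hu : L ∪ J ∪ H = Finset.univ := by
    ext i
    simp only [hJ, hH, hL, Finset.mem_union, Finset.mem_filter, Finset.mem_univ, true_and,
      iff_true]
    rcases lt_or_ge (a i) 0 with h1 | h1
    · exact Or.inl (Or.inr h1)
    · rcases lt_or_ge (a i) (kp q m / 10 ^ 29) with h3 | h3
      · exact Or.inl (Or.inl ⟨h1, h3⟩)
      · exact Or.inr h3
  have d1 : Disjoint L J := by
    rw [Finset.disjoint_left]
    intro i hi hi'
    simp only [hL, hJ, Finset.mem_filter, Finset.mem_univ, true_and] at hi hi'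
    linarith [hi.1]
  have d2 : Disjoint L H := by
    rw [Finset.disjoint_left]
    intro i hi hi'
    simp only [hL, hH, Finset.mem_filter, Finset.mem_univ, true_and] at hi hi'
    linarith [hi.2]
  have d3 : Disjoint J H := by
    rw [Finset.disjoint_left]
    intro i hi hi'
    simp only [hJ, hH, Finset.mem_filter, Finset.mem_univ, true_and] at hi hi'
    linarith
  have d12 : Disjoint (L ∪ J) H := Finset.disjoint_union_left.mpr ⟨d2, d3⟩
  have hsplit : ∀ f : ι → ℝ, ∑ i, f i = ∑ i ∈ L, f i + ∑ i ∈ J, f i + ∑ i ∈ H, f i := by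
    intro f
    rw [← hu, Finset.sum_union d12, Finset.sum_union d1]
  have hcardN : (L.card : ℝ) + J.card + H.card = m + 2 := by
    rw [← hc, ← Finset.card_univ, ← hu, Finset.card_union_of_disjoint d12,
      Finset.card_union_of_disjoint d1]
    push_cast
    ring
  have hjsum : ∑ j ∈ J, a j = -1 := by
    have e1 : ∑ i, (|a i| - a i) = 2 := by
      rw [Finset.sum_sub_distrib, h0, h2, sub_zero]
    have e2 : ∑ i, (|a i| - a i) = ∑ i ∈ J, (-2 * a i) := by
      rw [hJ, Finset.sum_filter]
      refine Finset.sum_congr rfl fun i _ => ?_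
      split_ifs with h1
      · rw [abs_of_neg h1]; ring
      · rw [abs_of_nonneg (not_lt.mp h1)]; ring
    rw [e2, ← Finset.mul_sum] at e1
    linarith
  have hHa : ∑ i ∈ H, a i < 1 / 10 ^ 9 := hR2
  have hHcard : (H.card : ℝ) ≤ m / 10 ^ 80 := by
    have e1 : (H.card : ℝ) * (kp q m / 10 ^ 29) ≤ ∑ i ∈ H, a i := by
      rw [← nsmul_eq_mul]
      refine Finset.card_nsmul_le_sum _ _ _ fun i hi => ?_
      simp only [hH, Finset.mem_filter, Finset.mem_univ, true_and] at hi
      exact hi
    have e2 : (H.card : ℝ) * (kp q m / 10 ^ 29) ≤ 1 / 10 ^ 9 := e1.trans hHa.le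
    have e3 : (1 : ℝ) / kp q m ≤ m / 10 ^ 100 := h.use.2.1
    have e4 : (H.card : ℝ) ≤ 10 ^ 20 * (1 / kp q m) := by
      rw [mul_one_div, le_div_iff₀ hk0]
      have : (H.card : ℝ) * kp q m = 10 ^ 29 * ((H.card : ℝ) * (kp q m / 10 ^ 29)) := by ring
      rw [this]
      calc (10 : ℝ) ^ 29 * ((H.card : ℝ) * (kp q m / 10 ^ 29)) ≤ 10 ^ 29 * (1 / 10 ^ 9) := by
            gcongr
        _ = 10 ^ 20 := by norm_num
    calc (H.card : ℝ) ≤ 10 ^ 20 * (1 / kp q m) := e4
      _ ≤ 10 ^ 20 * (m / 10 ^ 100) := by gcongr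
      _ = m / 10 ^ 80 := by ring
  have hJcard : 2 ≤ J.card := by
    by_contra hcon
    have h3 : J.card = 0 ∨ J.card = 1 := by omega
    rcases h3 with h4 | h4
    · rw [Finset.card_eq_zero.mp h4, Finset.sum_empty] at hjsum
      norm_num at hjsum
    · obtain ⟨j, hj⟩ := Finset.card_eq_one.mp h4
      rw [hj, Finset.sum_singleton] at hjsum
      have h5 : j ∈ Finset.univ.filter (fun i => a i ≤ -(kp q m / 10 ^ 29)) := by
        simp only [Finset.mem_filter, Finset.mem_univ, true_and]
        rw [hjsum]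
        have : (1 : ℝ) / 10 ^ 29 ≤ 1 := by norm_num
        linarith
      have h6 := Finset.single_le_sum (f := fun i => -(a i)) (s := Finset.univ.filter
        (fun i => a i ≤ -(kp q m / 10 ^ 29))) (fun i hi => by
          simp only [Finset.mem_filter, Finset.mem_univ, true_and] at hi
          linarith) h5
      rw [hjsum] at h6
      norm_num at h6
      norm_num at hR
      linarith
  have hJc2 : (2 : ℝ) ≤ J.card := by exact_mod_cast hJcard
  have hJc : 2 * (J.card : ℝ) ≤ m + 2 := by
    rw [← hc]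
    exact_mod_cast hcard
  have hH0 : (0 : ℝ) ≤ H.card := Nat.cast_nonneg _
  have hHa0 : 0 ≤ ∑ i ∈ H, a i := Finset.sum_nonneg fun i hi => by
    simp only [hH, Finset.mem_filter, Finset.mem_univ, true_and] at hi
    linarith
  have hP : Part q m L J H a := by
    refine ⟨hc, hu, d1, d2, d3, ?_, ?_, ?_, hjsum, ?_, ?_, ?_⟩
    · intro z hz
      simp only [hL, Finset.mem_filter, Finset.mem_univ, true_and] at hz
      rw [abs_of_nonneg hz.1]
      refine hz.2.le.trans ?_
      gcongr <;> norm_num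
    · have e1 : ∑ z ∈ L, |a z| ≤ ∑ z, |a z| :=
        Finset.sum_le_sum_of_subset_of_nonneg (Finset.subset_univ _) fun i _ _ => abs_nonneg _
      rw [h2] at e1
      refine e1.trans ?_
      norm_num
    · intro j hj
      simp only [hJ, Finset.mem_filter, Finset.mem_univ, true_and] at hj
      exact hj.le
    · intro i hi
      simp only [hH, Finset.mem_filter, Finset.mem_univ, true_and] at hi
      exact hi
    · refine hHa.le.trans ?_
      norm_num
    · have := hsplit a
      rw [h0, hjsum] at this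
      linarith
  refine pure_case h hP ?_ ?_ ?_ ?_
  · have e1 : m / 10 ^ 80 ≤ m / 100 := by
      gcongr
      norm_num
    linarith
  · linarith
  · have e1 : ∑ j ∈ J.filter (fun j => a j < -(1 / 10 ^ 7)), (-(a j)) ≤
        ∑ i ∈ Finset.univ.filter (fun i => a i ≤ -(kp q m / 10 ^ 29)), (-(a i)) := by
      refine Finset.sum_le_sum_of_subset_of_nonneg ?_ ?_
      · intro i hi
        simp only [Finset.mem_filter, Finset.mem_univ, true_and] at hi ⊢
        have : (1 : ℝ) / 10 ^ 29 ≤ 1 / 10 ^ 7 := by norm_num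
        linarith [hi.2]
      · intro i hi _
        simp only [Finset.mem_filter, Finset.mem_univ, true_and] at hi
        linarith
    exact e1.trans hR.le
  · calc (∑ i ∈ H, a i) * J.card ≤ (1 / 10 ^ 9) * (m + 2) := by
          refine mul_le_mul hHa.le ?_ (Nat.cast_nonneg _) (by norm_num)
          linarith
      _ = (m + 2) / 10 ^ 9 := by ring

end

end Pool.Agent.RieszTr
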