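import Pool.Agent.RieszTr.AsmD

set_option autoImplicit false

open Real Finset

namespace Pool.Agent.RieszTr

open Pool.Agent.RieszSmall Pool.Agent.RieszLin

section

variable {ι : Type*} [Fintype ι] [DecidableEq ι]

/-- MODULE RT28. Scaling and sign: `BB q (t a) v w = BB q a v (t w)`. -/
theorem BB_scale {q t : ℝ} {a v w : ι → ℝ} :
    BB q (fun i => t * a i) v w = BB q a v (fun i => t * w i) := by
  unfold BB
  have h1 : (fun i j => Phi q (v i * v j + t * a i * w j + t * a j * w i)) =
      (fun i j => Phi q (v i * v j + a i * (t * w j) + a j * (t * w i))) := by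
    funext i j
    congr 1
    ring
  have h2 : ∑ i, (v i ^ 2 + 2 * (t * a i) * w i) = ∑ i, (v i ^ 2 + 2 * a i * (t * w i)) :=
    Finset.sum_congr rfl fun i _ => by ring
  rw [h1, h2]

theorem Blk_scale {m t : ℝ} {a : ι → ℝ} (ht : t ≠ 0) (h : Blk m (fun i => t * a i)) :
    Blk m a := by
  obtain ⟨i1, i2, hne, s, hs, e1, e2, e3⟩ := h
  refine ⟨i1, i2, hne, s / t, div_ne_zero hs ht, ?_, ?_, fun z h1 h2 => ?_⟩
  · have : a i1 = (t * a i1) / t := by field_simp
    rw [this, show t * a i1 = -s / 2 from e1]; ring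
  · have : a i2 = (t * a i2) / t := by field_simp
    rw [this, show t * a i2 = -s / 2 from e2]; ring
  · have : a z = (t * a z) / t := by field_simp
    rw [this, show t * a z = s / m from e3 z h1 h2]; ring

namespace CasesAux

/-- the pure case -/
theorem pure_part {q m : ℝ} (h : Reg q m) {L J H : Finset ι} {a : ι → ℝ}
    (hP : Part q m L J H a) (hJg : ∀ j ∈ J, kp q m / 10 ^ 29 ≤ -(a j))
    (hs : ∀ j ∈ J, -(a j) ≤ 1 / 10 ^ 7) :
    ∃ v w : ι → ℝ, TT q m < BB q a v w := by
  have hm := h.hm
  have hk : 0 < kp q m := kp_pos hm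
  have hcard : (L.card : ℝ) + J.card + H.card = m + 2 := by
    have h1 : (L ∪ J ∪ H).card = L.card + J.card + H.card := by
      rw [Finset.card_union_of_disjoint (by
        rw [Finset.disjoint_union_left]; exact ⟨hP.d2, hP.d3⟩),
        Finset.card_union_of_disjoint hP.d1]
    rw [hP.hu, Finset.card_univ] at h1
    have h2 : ((L.card + J.card + H.card : ℕ) : ℝ) = m + 2 := by
      rw [← h1]; exact hP.card
    push_cast at h2
    exact h2
  have hJ2 : (10 : ℝ) ^ 7 ≤ J.card := by
    have h1 : (1 : ℝ) ≤ ∑ j ∈ J, (1 / 10 ^ 7 : ℝ) := by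
      have h2 : ∑ j ∈ J, -(a j) ≤ ∑ j ∈ J, (1 / 10 ^ 7 : ℝ) := Finset.sum_le_sum hs
      rw [Finset.sum_neg_distrib, hP.jsum] at h2
      linarith
    rw [Finset.sum_const, nsmul_eq_mul] at h1
    have h3 : (J.card : ℝ) * (1 / 10 ^ 7) * 10 ^ 7 = J.card := by
      field_simp
    have h4 : (1 : ℝ) * 10 ^ 7 ≤ (J.card : ℝ) * (1 / 10 ^ 7) * 10 ^ 7 :=
      mul_le_mul_of_nonneg_right h1 (by positivity)
    rw [h3, one_mul] at h4
    exact h4
  have hH0 : (0 : ℝ) ≤ H.card := Nat.cast_nonneg _
  have hHs : 0 ≤ ∑ i ∈ H, a i := Finset.sum_nonneg fun i hi =>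
    le_trans (by positivity) (hP.hge i hi)
  have hJc := hP.card_J h hJg
  have hu := h.use.2.1
  refine pure_case h hP ?_ ?_ ?_ ?_
  · have := hP.card_L h hJg
    linarith
  · have h10 : (2 : ℝ) ≤ 10 ^ 7 := by norm_num
    linarith
  · have : J.filter (fun j => a j < -(1 / 10 ^ 7)) = ∅ := by
      apply Finset.filter_false_of_mem
      intro j hj h1
      have := hs j hj
      linarith
    rw [this, Finset.sum_empty]
    positivity
  · have h1 : (J.card : ℝ) ≤ 10 ^ 29 * (m / 10 ^ 100) := by
      refine hJc.trans ?_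
      have : (10 : ℝ) ^ 29 / kp q m = 10 ^ 29 * (1 / kp q m) := by ring
      rw [this]
      exact mul_le_mul_of_nonneg_left hu (by positivity)
    have h2 : (∑ i ∈ H, a i) * J.card ≤ 1 * J.card :=
      mul_le_mul_of_nonneg_right hP.hsum (Nat.cast_nonneg _)
    have h3 : (10 : ℝ) ^ 29 * (m / 10 ^ 100) ≤ (m + 2) / 10 ^ 9 := by
      have h4 : (10 : ℝ) ^ 29 * (m / 10 ^ 100) = m / 10 ^ 71 := by
        rw [show (10 : ℝ) ^ 100 = 10 ^ 29 * 10 ^ 71 by rw [← pow_add]]
        field_simp
      rw [h4]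
      have h5 : m / 10 ^ 71 ≤ m / 10 ^ 9 := by
        apply div_le_div_of_nonneg_left (by linarith) (by positivity)
        norm_num
      have h6 : m / 10 ^ 9 ≤ (m + 2) / 10 ^ 9 := by
        apply div_le_div_of_nonneg_right (by linarith)
        positivity
      exact h5.trans h6
    linarith

end CasesAux

/-- The conclusion for a partition all of whose heavy points have weight at least `κ/10^29`:
if all `-a j ≤ 10^(-7)` on `J`: `pure_case` (the filter is empty; `|J| ≤ 10^29/κ ≤ m/10^70`;
`n ≤ m` because `|J| ≥ 10^7`); otherwise choose `j1` of largest weight and `j2` (second largest,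
if `|J| ≥ 2`) and use `case_C` (if `|J| = 2` and `-a j1 ≤ 3/4`; then `-a j1 ≥ 1/2`) or `case_D`. -/
theorem big_part {q m : ℝ} (h : Reg q m) {L J H : Finset ι} {a : ι → ℝ}
    (hP : Part q m L J H a) (hJg : ∀ j ∈ J, kp q m / 10 ^ 29 ≤ -(a j)) :
    (∃ v w : ι → ℝ, TT q m < BB q a v w) ∨ Blk m a := by
  by_cases hs : ∀ j ∈ J, -(a j) ≤ 1 / 10 ^ 7
  · exact Or.inl (CasesAux.pure_part h hP hJg hs)
  · push Not at hs
    obtain ⟨j0, hj0, hj0'⟩ := hs
    obtain ⟨j1, hj1, hmax⟩ := Finset.exists_max_image J (fun j => -(a j)) ⟨j0, hj0⟩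
    have h1 : 1 / 10 ^ 7 ≤ -(a j1) := by
      have : -(a j0) ≤ -(a j1) := hmax j0 hj0
      linarith
    have hnn : ∀ j ∈ J, 0 ≤ -(a j) := fun j hj => by
      have := hP.jneg j hj
      linarith
    have hsum : ∑ j ∈ J, -(a j) = 1 := by
      rw [Finset.sum_neg_distrib, hP.jsum]; norm_num
    by_cases hne : (J.erase j1).Nonempty
    · obtain ⟨j2, hj2, hmax2⟩ := Finset.exists_max_image (J.erase j1) (fun j => -(a j)) hne
      have hj2' := Finset.mem_erase.1 hj2
      have hT : Top J (fun j => -(a j)) j1 (-(a j2)) :=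
        { mem := hj1
          nonneg := hnn
          sum := hsum
          max := hmax
          sec := Or.inl ⟨j2, hj2'.2, hj2'.1, rfl, fun j hj hjne =>
            hmax2 j (Finset.mem_erase.2 ⟨hjne, hj⟩)⟩ }
      by_cases h3 : 3 ≤ J.card
      · exact Or.inl (case_D h hP hT hJg h1 (Or.inl h3))
      · have hsub : ({j1, j2} : Finset ι) ⊆ J := by
          intro z hz
          rw [Finset.mem_insert, Finset.mem_singleton] at hz
          rcases hz with rfl | rfl
          · exact hj1
          · exact hj2'.2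
        have hc2 : ({j1, j2} : Finset ι).card = 2 := Finset.card_pair hj2'.1.symm
        have hJe : ({j1, j2} : Finset ι) = J := Finset.eq_of_subset_of_card_le hsub (by omega)
        by_cases h4 : -(a j1) ≤ 3 / 4
        · refine case_C h hP hj2'.1.symm hJe.symm hJg ?_ h4
          rw [← hJe, Finset.sum_pair hj2'.1.symm] at hsum
          have : -(a j2) ≤ -(a j1) := hmax j2 hj2'.2
          linarith
        · push Not at h4
          exact Or.inl (case_D h hP hT hJg h1 (Or.inr h4))
    · have hJe : J = {j1} := by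
        rw [Finset.not_nonempty_iff_eq_empty] at hne
        rw [← Finset.insert_erase hj1, hne]
        rfl
      have hT : Top J (fun j => -(a j)) j1 0 :=
        { mem := hj1
          nonneg := hnn
          sum := hsum
          max := hmax
          sec := Or.inr ⟨hJe, rfl⟩ }
      refine Or.inl (case_D h hP hT hJg h1 (Or.inr ?_))
      rw [hJe, Finset.sum_singleton] at hsum
      rw [hsum]
      norm_num

end

end Pool.Agent.RieszTr
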