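import Pool.Agent.RieszTr.CaseI
import Pool.Agent.RieszTr.CaseII

set_option autoImplicit false

open Real Finset

namespace Pool.Agent.RieszTr

open Pool.Agent.RieszSmall Pool.Agent.RieszLin

section

variable {ι : Type*} [Fintype ι] [DecidableEq ι]

namespace CertAux

theorem card_neg (b : ι → ℝ)
    (h : ¬ 2 * (Finset.univ.filter (fun i => b i < 0)).card ≤ Fintype.card ι) :
    2 * (Finset.univ.filter (fun i => (-1) * b i < 0)).card ≤ Fintype.card ι := by
  have hd : Disjoint (Finset.univ.filter (fun i => b i < 0))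
      (Finset.univ.filter (fun i => (-1) * b i < 0)) := by
    rw [Finset.disjoint_left]
    intro i h1 h2
    simp only [Finset.mem_filter, Finset.mem_univ, true_and] at h1 h2
    linarith
  have h1 := Finset.card_union_of_disjoint hd
  have h2 := Finset.card_le_univ ((Finset.univ.filter (fun i => b i < 0)) ∪
      (Finset.univ.filter (fun i => (-1) * b i < 0)))
  omega

end CertAux

namespace CertAux

/-- back from a multiple -/
theorem back {q m s : ℝ} {a : ι → ℝ} (hs : s ≠ 0)
    (h : (∃ v w : ι → ℝ, TT q m < BB q (fun i => s * a i) v w) ∨ Blk m (fun i => s * a i)) :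
    (∃ v w : ι → ℝ, TT q m < BB q a v w) ∨ Blk m a := by
  rcases h with ⟨v, w, h⟩ | h
  · left
    rw [BB_scale] at h
    exact ⟨v, fun i => s * w i, h⟩
  · right
    exact Blk_scale hs h

/-- the normalised statement -/
theorem main {q m : ℝ} (h : Reg q m) (hc : (Fintype.card ι : ℝ) = m + 2) {b : ι → ℝ}
    (h0 : ∑ i, b i = 0) (h2 : ∑ i, |b i| = 2) :
    (∃ v w : ι → ℝ, TT q m < BB q b v w) ∨ Blk m b := by
  obtain ⟨θ, hθ⟩ : ∃ θ, θ = kp q m / 10 ^ 29 := ⟨_, rfl⟩
  have hI := fun (b : ι → ℝ) (h0 : ∑ i, b i = 0) (h2 : ∑ i, |b i| = 2) =>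
    case_I h hc (a := b) h0 h2
  have hII := fun (b : ι → ℝ) (h0 : ∑ i, b i = 0) (h2 : ∑ i, |b i| = 2) =>
    case_II h hc (a := b) h0 h2
  rw [← hθ] at hI hII
  have h0' : ∑ i, (-1) * b i = 0 := by rw [← Finset.mul_sum, h0, mul_zero]
  have h2' : ∑ i, |(-1) * b i| = 2 := by
    rw [← h2]
    exact Finset.sum_congr rfl fun i _ => by rw [neg_one_mul, abs_neg]
  -- the heavy masses of `-b`
  have eN : ∑ i ∈ Finset.univ.filter (fun i => (-1) * b i ≤ -θ), (-((-1) * b i)) =
      ∑ i ∈ Finset.univ.filter (fun i => θ ≤ b i), b i := by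
    have e : (Finset.univ.filter (fun i => (-1) * b i ≤ -θ)) =
        Finset.univ.filter (fun i => θ ≤ b i) := by
      ext i
      simp only [Finset.mem_filter, Finset.mem_univ, true_and]
      constructor <;> intro hh <;> linarith
    rw [e]
    exact Finset.sum_congr rfl fun i _ => by ring
  have eP : ∑ i ∈ Finset.univ.filter (fun i => θ ≤ (-1) * b i), ((-1) * b i) =
      ∑ i ∈ Finset.univ.filter (fun i => b i ≤ -θ), (-(b i)) := by
    have e : (Finset.univ.filter (fun i => θ ≤ (-1) * b i)) =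
        Finset.univ.filter (fun i => b i ≤ -θ) := by
      ext i
      simp only [Finset.mem_filter, Finset.mem_univ, true_and]
      constructor <;> intro hh <;> linarith
    rw [e]
    exact Finset.sum_congr rfl fun i _ => by ring
  have hI1 := hI b h0 h2
  have hI2 := hI (fun i => (-1) * b i) h0' h2'
  have hII1 := hII b h0 h2
  have hII2 := hII (fun i => (-1) * b i) h0' h2'
  rw [eN, eP] at hI2 hII2
  rcases le_or_gt (∑ i ∈ Finset.univ.filter (fun i => θ ≤ b i), b i)
    (∑ i ∈ Finset.univ.filter (fun i => b i ≤ -θ), (-(b i))) with hle | hlt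
  · by_cases hb : 1 / 10 ^ 9 ≤ ∑ i ∈ Finset.univ.filter (fun i => b i ≤ -θ), (-(b i))
    · exact hI1 hb hle
    · push Not at hb
      have hb2 := lt_of_le_of_lt hle hb
      by_cases hcard : 2 * (Finset.univ.filter (fun i => b i < 0)).card ≤ Fintype.card ι
      · exact Or.inl (hII1 hb hb2 hcard)
      · exact back (s := -1) (by norm_num) (Or.inl (hII2 hb2 hb (card_neg b hcard)))
  · by_cases hb : 1 / 10 ^ 9 ≤ ∑ i ∈ Finset.univ.filter (fun i => θ ≤ b i), b i
    · exact back (s := -1) (by norm_num) (hI2 hb hlt.le)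
    · push Not at hb
      have hb2 := lt_trans hlt hb
      by_cases hcard : 2 * (Finset.univ.filter (fun i => b i < 0)).card ≤ Fintype.card ι
      · exact Or.inl (hII1 hb2 hb hcard)
      · exact back (s := -1) (by norm_num) (Or.inl (hII2 hb hb2 (card_neg b hcard)))

end CertAux

/-- MODULE RT28d. All dependencies. Scale to `∑ |a| = 2`; replace `a` by `-a` if necessary. -/
theorem cert {q m : ℝ} (h : Reg q m) (hc : (Fintype.card ι : ℝ) = m + 2) {a : ι → ℝ}
    (h0 : ∑ i, a i = 0) (hne : ∃ i, a i ≠ 0) :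
    (∃ v w : ι → ℝ, TT q m < BB q a v w) ∨ Blk m a := by
  have hS : 0 < ∑ i, |a i| := by
    obtain ⟨i, hi⟩ := hne
    have h1 : |a i| ≤ ∑ i, |a i| :=
      Finset.single_le_sum (f := fun i => |a i|) (fun j _ => abs_nonneg (a j)) (Finset.mem_univ i)
    have h2 := abs_pos.mpr hi
    linarith
  obtain ⟨t, ht⟩ : ∃ t, t = 2 / ∑ i, |a i| := ⟨_, rfl⟩
  have ht0 : 0 < t := by rw [ht]; positivity
  refine CertAux.back (s := t) ht0.ne' (CertAux.main h hc ?_ ?_)
  · rw [← Finset.mul_sum, h0, mul_zero]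
  · have e : ∑ i, |t * a i| = t * ∑ i, |a i| := by
      rw [Finset.mul_sum]
      exact Finset.sum_congr rfl fun i _ => by rw [abs_mul, abs_of_pos ht0]
    rw [e, ht, div_mul_cancel₀ _ hS.ne']

end

end Pool.Agent.RieszTr
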