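import Pool.Agent.RieszTr.Const2

set_option autoImplicit false

open Real Finset

namespace Pool.Agent.RieszTr

open Pool.Agent.RieszSmall Pool.Agent.RieszLin

/-- `clip(x/16, ±c)` -/
noncomputable def clip (c x : ℝ) : ℝ := max (-c) (min c (x / 16))

namespace ClipAux

theorem cases {c x : ℝ} (hc : 0 ≤ c) : (c ≤ x / 16 ∧ clip c x = c) ∨
    (-c ≤ x / 16 ∧ x / 16 ≤ c ∧ clip c x = x / 16) ∨ (x / 16 ≤ -c ∧ clip c x = -c) := by
  unfold clip
  rcases le_total c (x / 16) with h | h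
  · left
    exact ⟨h, by rw [min_eq_left h, max_eq_right (by linarith)]⟩
  · right
    rcases le_total (-c) (x / 16) with h' | h'
    · left
      exact ⟨h', h, by rw [min_eq_right h, max_eq_right h']⟩
    · right
      exact ⟨h', by rw [min_eq_right h, max_eq_left h']⟩

end ClipAux

/-- MODULE RT20. Pointwise facts about the clipped variable. -/
theorem clip_abs {c x : ℝ} (hc : 0 ≤ c) : |clip c x| ≤ c := by
  unfold clip
  rw [abs_le]
  exact ⟨le_max_left _ _, max_le (by linarith) (min_le_left _ _)⟩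

theorem clip_sq {c x : ℝ} (hc : 0 ≤ c) : 16 * clip c x ^ 2 ≤ x * clip c x := by
  rcases ClipAux.cases (x := x) hc with ⟨h, e⟩ | ⟨h, h', e⟩ | ⟨h, e⟩
  · rw [e]
    have : 0 ≤ c * (x - 16 * c) := mul_nonneg hc (by linarith)
    nlinarith
  · rw [e]
    nlinarith
  · rw [e]
    have : 0 ≤ c * (-x - 16 * c) := mul_nonneg hc (by linarith)
    nlinarith

theorem clip_zero {c x : ℝ} (hc : 0 < c) (h : x * clip c x ≤ 0) : x = 0 := by
  have h1 := clip_sq (x := x) hc.le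
  have h2 : clip c x = 0 := by
    have : clip c x ^ 2 ≤ 0 := by linarith
    exact pow_eq_zero_iff (two_ne_zero) |>.mp (le_antisymm this (sq_nonneg _))
  rcases ClipAux.cases (x := x) hc.le with ⟨h, e⟩ | ⟨h, h', e⟩ | ⟨h, e⟩
  · rw [h2] at e; linarith
  · rw [h2] at e; linarith
  · rw [h2] at e; linarith

/-- With `c = Ω/20 ≥ 1/3100` and `|x| ≤ 2 q κ/10^20`: if `|x| ≤ 16 c` then
`x clip = x²/16` and `κ q² ≥ κ m²/62500 ≥ 10^90 m`; otherwise `x clip = |x| c` and
`10^4 m |x| ≤ 10^4 m·2 q κ/10^20 ≤ κ q² c` since `q ≥ m/250`. -/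
theorem Reg.clip_big {q m x : ℝ} (h : Reg q m) (hx : |x| ≤ 2 * q * kp q m / 10 ^ 20) :
    10 ^ 4 * m * x ^ 2 ≤ kp q m * q ^ 2 * (x * clip (Om q m / 20) x) := by
  obtain ⟨-, hkm, hm, -, -⟩ := h.big
  have hκ : 0 < kp q m := kp_pos h.hm
  have hκ1 := h.kp_le
  have hq : m ≤ 250 * q := h.hq
  have hm0 : 0 < m := lt_of_lt_of_le (by positivity) hm
  have hq0 : 0 < q := by linarith
  have hΩ := h.Om_bounds.1
  obtain ⟨c, hcdef⟩ : ∃ c, c = Om q m / 20 := ⟨_, rfl⟩
  rw [← hcdef]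
  have hc : 1 / 3100 ≤ c := by rw [hcdef]; linarith
  have hc0 : 0 < c := by linarith
  generalize kp q m = κ at *
  -- the big case
  have big : ∀ y : ℝ, 0 ≤ y → y ≤ 2 * q * κ / 10 ^ 20 → 10 ^ 4 * m * y ≤ κ * q ^ 2 * c := by
    intro y hy hyb
    have h1 : 10 ^ 4 * m * y ≤ 10 ^ 4 * m * (2 * q * κ / 10 ^ 20) :=
      mul_le_mul_of_nonneg_left hyb (by positivity)
    have h2 : 10 ^ 4 * m * (2 * q * κ / 10 ^ 20) ≤ q * κ * (q * c) := by
      have e : 10 ^ 4 * m * (2 * q * κ / 10 ^ 20) = q * κ * (2 * m / 10 ^ 16) := by ring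
      rw [e]
      apply mul_le_mul_of_nonneg_left _ (by positivity)
      have h3 : q * (1 / 3100) ≤ q * c := mul_le_mul_of_nonneg_left hc hq0.le
      have h4 : 2 * m / 10 ^ 16 ≤ q * (1 / 3100) := by
        rw [div_le_iff₀ (by positivity)]
        norm_num
        linarith
      linarith
    calc 10 ^ 4 * m * y ≤ q * κ * (q * c) := le_trans h1 h2
      _ = κ * q ^ 2 * c := by ring
  rcases ClipAux.cases (x := x) hc0.le with ⟨hx1, e⟩ | ⟨hx1, hx2, e⟩ | ⟨hx1, e⟩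
  · rw [e]
    have hx0 : 0 ≤ x := by linarith
    rw [abs_of_nonneg hx0] at hx
    have := mul_le_mul_of_nonneg_right (big x hx0 hx) hx0
    calc 10 ^ 4 * m * x ^ 2 = 10 ^ 4 * m * x * x := by ring
      _ ≤ κ * q ^ 2 * c * x := this
      _ = κ * q ^ 2 * (x * c) := by ring
  · rw [e]
    have h1 : 10 ^ 4 * m ≤ κ * q ^ 2 / 16 := by
      have h2 : (m / 250) ^ 2 ≤ q ^ 2 := by
        apply pow_le_pow_left₀ (by positivity)
        linarith
      have h3 : κ * (m / 250) ^ 2 ≤ κ * q ^ 2 := mul_le_mul_of_nonneg_left h2 hκ.le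
      have h4 : 10 ^ 100 * m ≤ κ * m * m := mul_le_mul_of_nonneg_right hkm hm0.le
      have h5 : κ * (m / 250) ^ 2 = κ * m * m / 62500 := by ring
      rw [h5] at h3
      have h6 : (10 : ℝ) ^ 100 * m / 62500 ≤ κ * m * m / 62500 :=
        div_le_div_of_nonneg_right h4 (by norm_num)
      have h7 : 16 * (10 ^ 4 * m) ≤ (10 : ℝ) ^ 100 * m / 62500 := by
        have e7 : (10 : ℝ) ^ 100 * m / 62500 = (10 ^ 100 / 62500) * m := by ring
        rw [e7, ← mul_assoc]
        apply mul_le_mul_of_nonneg_right _ hm0.le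
        norm_num
      linarith
    have := mul_le_mul_of_nonneg_right h1 (sq_nonneg x)
    calc 10 ^ 4 * m * x ^ 2 ≤ κ * q ^ 2 / 16 * x ^ 2 := this
      _ = κ * q ^ 2 * (x * (x / 16)) := by ring
  · rw [e]
    have hx0 : 0 ≤ -x := by linarith
    rw [abs_of_nonpos (by linarith)] at hx
    have := mul_le_mul_of_nonneg_right (big (-x) hx0 hx) hx0
    calc 10 ^ 4 * m * x ^ 2 = 10 ^ 4 * m * (-x) * (-x) := by ring
      _ ≤ κ * q ^ 2 * c * (-x) := this
      _ = κ * q ^ 2 * (x * (-c)) := by ring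

end Pool.Agent.RieszTr
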