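import Pool.Agent.Riesz.Main

set_option autoImplicit false

open Real Finset

namespace Pool.Agent.RieszTr

namespace Comp2Aux

open Pool.Agent.Riesz

lemma negq_log_le {q x : ℝ} (hq : 0 ≤ q) (hx : x < 1) :
    -q * Real.log (1 - x) ≤ q * x / (1 - x) := by
  have h : 0 < 1 - x := by linarith
  have h1 := Real.one_sub_inv_le_log_of_pos h
  have h2 : 1 - (1 - x)⁻¹ = -(x / (1 - x)) := by
    field_simp
    ring
  rw [h2] at h1
  have h3 : q * x / (1 - x) = q * (x / (1 - x)) := by ring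
  rw [h3]
  nlinarith

lemma log_small {L : ℝ} (hL : 10 ^ 4 ≤ L) : Real.log L ≤ 2 / 100 * L := by
  have hL0 : 0 < L := by linarith
  have h1 : Real.log L = 2 * Real.log (Real.sqrt L) := by
    rw [Real.log_sqrt hL0.le]; ring
  have hs : 0 < Real.sqrt L := Real.sqrt_pos.2 hL0
  have h2 := Real.log_le_sub_one_of_pos hs
  have h3 : (100 : ℝ) ≤ Real.sqrt L := by
    apply Real.le_sqrt_of_sq_le
    linarith
  have h4 : Real.sqrt L * Real.sqrt L = L := Real.mul_self_sqrt hL0.le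
  nlinarith

lemma exp1995 : Real.exp (-(1995 / 1000)) ≤ 1375 / 10000 := by
  have h1 := Real.exp_one_gt_d9
  have h2 := Real.add_one_le_exp (-(5 / 1000) : ℝ)
  have h3 : Real.exp (1995 / 1000) = Real.exp 1 * Real.exp 1 * Real.exp (-(5 / 1000)) := by
    rw [← Real.exp_add, ← Real.exp_add]; norm_num
  have h5 : (73 : ℝ) / 10 ≤ Real.exp 1 * Real.exp 1 * Real.exp (-(5 / 1000)) := by
    have h6 : (7389 : ℝ) / 1000 ≤ Real.exp 1 * Real.exp 1 := by nlinarith
    nlinarith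
  rw [Real.exp_neg, inv_le_comm₀ (Real.exp_pos _) (by norm_num), h3]
  refine le_trans ?_ h5
  norm_num

lemma exp0999 : Real.exp (-(999 / 1000)) ≤ 3684 / 10000 := by
  have h1 := Real.exp_one_gt_d9
  have h2 := Real.add_one_le_exp (-(1 / 1000) : ℝ)
  have h3 : Real.exp (999 / 1000) = Real.exp 1 * Real.exp (-(1 / 1000)) := by
    rw [← Real.exp_add]; norm_num
  rw [Real.exp_neg, inv_le_comm₀ (Real.exp_pos _) (by norm_num), h3]
  have h5 : (27155 : ℝ) / 10000 ≤ Real.exp 1 * Real.exp (-(1 / 1000)) := by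
    nlinarith
  refine le_trans ?_ h5
  norm_num

/-- `G` at `-α`, `α = 2 / q`. -/
lemma G_neg_alpha {q : ℝ} (hq : 1000 ≤ q) : G q (-(2 / q)) ≤ 1375 / 10000 := by
  refine le_trans ?_ exp1995
  unfold G LL
  rw [Real.exp_le_exp]
  have hq0 : 0 < q := by linarith
  have hp : 0 < 1 - -(2 / q) := by
    have : 0 < 2 / q := by positivity
    linarith
  have h1 := Real.one_sub_inv_le_log_of_pos hp
  have h2 : 1 - (1 - -(2 / q))⁻¹ = 2 / (q + 2) := by
    have e : 1 - -(2 / q) = (q + 2) / q := by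
      field_simp
      ring
    have hq2 : q + 2 ≠ 0 := by linarith
    rw [e, inv_div, eq_div_iff hq2, sub_mul, div_mul_cancel₀ _ hq2]
    ring
  rw [h2] at h1
  have h3 : 1995 / 1000 ≤ q * (2 / (q + 2)) := by
    rw [← mul_div_assoc, le_div_iff₀ (by linarith)]
    linarith
  nlinarith

lemma G_big_neg {q w : ℝ} (hq : 0 ≤ q) (hw : w ≤ 1 / 2) : G q (2 * w - 1) ≤ 1 := by
  unfold G LL
  rw [Real.exp_le_one_iff]
  have h1 : 0 ≤ Real.log (1 - (2 * w - 1)) := Real.log_nonneg (by linarith)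
  nlinarith

/-- `G` at `ω`. -/
lemma G_omega {q L : ℝ} (hL : 10 ^ 4 ≤ L) (hq : 1000 * L ≤ q) :
    G q (8 / 10 * L / q) ≤ Real.exp (81 / 100 * L) := by
  have hL0 : 0 < L := by linarith
  have hq0 : 0 < q := by nlinarith
  have hw : 8 / 10 * L / q ≤ 1 / 1000 := by
    rw [div_le_iff₀ hq0]; linarith
  unfold G LL
  rw [Real.exp_le_exp]
  refine le_trans (negq_log_le hq0.le (by linarith)) ?_
  have h1 : q * (8 / 10 * L / q) = 8 / 10 * L := by field_simp
  rw [h1, div_le_iff₀ (by linarith)]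
  nlinarith

lemma exp_le_K {K y : ℝ} (hK0 : 0 ≤ K) (hK : K ≤ 1 / 1000) (hy : y ≤ 1003 / 1000 * K) :
    Real.exp y ≤ 1 + 11 / 10 * K := by
  have h1 : Real.exp y ≤ Real.exp (1003 / 1000 * K) := Real.exp_le_exp.2 hy
  refine h1.trans ?_
  have h2 := Real.add_one_le_exp (-(1003 / 1000 * K))
  have h3 : Real.exp (-(1003 / 1000 * K)) * Real.exp (1003 / 1000 * K) = 1 := by
    rw [← Real.exp_add]; simp
  have h4 : 0 < Real.exp (1003 / 1000 * K) := Real.exp_pos _
  have h5 : (1 - 1003 / 1000 * K) * Real.exp (1003 / 1000 * K) ≤ 1 := by nlinarith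
  have h6 : 1 ≤ (1 + 11 / 10 * K) * (1 - 1003 / 1000 * K) := by nlinarith
  have h7 : 0 < 1 - 1003 / 1000 * K := by linarith
  by_contra hcon
  push Not at hcon
  nlinarith

/-- comparison of `G` at `-γ`. -/
lemma G_neg_gamma {n q K : ℝ} (hn : 10 ^ 4 ≤ n) (hq : n ≤ q) (hK0 : 0 < K) (hK : K ≤ 1 / 1000) :
    G q (-((1 - K * n / q) / (n - 1)))
      ≤ (1 - 1 / (n + 2)) ^ q * (1 + 11 / 10 * K) := by
  have hq0 : 0 < q := by linarith
  have hn1 : 0 < n - 1 := by linarith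
  set δ := K * n / q with hδ
  have hδ0 : 0 < δ := by rw [hδ]; positivity
  have hδK : δ ≤ K := by
    rw [hδ, div_le_iff₀ hq0]; nlinarith
  set x := δ / (n - 1) with hx
  have hx0 : 0 < x := by rw [hx]; positivity
  have hx1 : x ≤ 1 / 10000 := by
    rw [hx, div_le_iff₀ hn1]; nlinarith
  have hbase : 0 < 1 - 1 / (n + 2) := by
    have : 1 / (n + 2) < 1 := by rw [div_lt_one (by linarith)]; linarith
    linarith
  have hexp : Real.exp (q * x / (1 - x)) ≤ 1 + 11 / 10 * K := by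
    apply exp_le_K hK0.le hK
    have h1 : q * x = K * (n / (n - 1)) := by
      rw [hx, hδ]; field_simp
    have h2 : n / (n - 1) ≤ 1001 / 1000 := by
      rw [div_le_iff₀ hn1]; linarith
    rw [div_le_iff₀ (by linarith), h1]
    nlinarith
  have hmain : G q (-((1 - δ) / (n - 1))) ≤ (1 - 1 / (n + 2)) ^ q * Real.exp (q * x / (1 - x)) := by
    rw [Real.rpow_def_of_pos hbase, ← Real.exp_add]
    unfold G LL
    rw [Real.exp_le_exp]
    have h1 : (1 - 1 / (n + 2))⁻¹ * (1 - x) ≤ 1 - -((1 - δ) / (n - 1)) := by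
      have h2 : (1 - 1 / (n + 2))⁻¹ = (n + 2) / (n + 1) := by
        have h3 : 1 - 1 / (n + 2) = (n + 1) / (n + 2) := by
          field_simp
          ring
        rw [h3, inv_div]
      rw [h2]
      have h4 : (n + 2) / (n + 1) ≤ n / (n - 1) := by
        rw [div_le_div_iff₀ (by linarith) hn1]; nlinarith
      have h5 : 1 ≤ (n + 2) / (n + 1) := by
        rw [le_div_iff₀ (by linarith)]; linarith
      have h6 : 1 - -((1 - δ) / (n - 1)) = n / (n - 1) - x := by
        rw [hx]; field_simp; ring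
      rw [h6]
      nlinarith
    have h7 := Real.log_le_log (by
      have : 0 < (1 - 1 / (n + 2))⁻¹ := inv_pos.2 hbase
      have h8 : 0 < 1 - x := by linarith
      positivity) h1
    rw [Real.log_mul (inv_pos.2 hbase).ne' (by linarith), Real.log_inv] at h7
    have h9 := negq_log_le hq0.le (show x < 1 by linarith)
    nlinarith
  refine hmain.trans ?_
  exact mul_le_mul_of_nonneg_left hexp (Real.rpow_nonneg hbase.le _)

lemma sq_rpow_le {n q L : ℝ} (hL : 10 ^ 4 ≤ L) (hn : n + 1 = Real.exp L)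
    (hq : (n + 1) * (L - Real.log L + 1) ≤ q) :
    (n + 2) ^ 2 * (1 - 1 / (n + 2)) ^ q ≤ (n + 2) * L * (3688 / 10000) := by
  have hL0 : 0 < L := by linarith
  have hP : L ^ 2 / 2 ≤ n + 1 := by
    rw [hn]
    have := Real.quadratic_le_exp_of_nonneg hL0.le
    linarith
  have hP' : 5000 * L ≤ n + 1 := by nlinarith
  have hlog : Real.log L ≤ 2 / 100 * L := log_small hL
  have hlog0 : 0 ≤ Real.log L := Real.log_nonneg (by linarith)
  have hbase : 0 < 1 - 1 / (n + 2) := by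
    have : 1 / (n + 2) < 1 := by rw [div_lt_one (by linarith)]; linarith
    linarith
  have hq0 : 0 < q := by
    have : 0 < (n + 1) * (L - Real.log L + 1) := by
      apply mul_pos <;> linarith
    linarith
  have h1 : (1 - 1 / (n + 2)) ^ q ≤ Real.exp (-(L - Real.log L + 1) + 1 / 1000) := by
    rw [Real.rpow_def_of_pos hbase, Real.exp_le_exp]
    have h2 := Real.log_le_sub_one_of_pos hbase
    have h3 : Real.log (1 - 1 / (n + 2)) * q ≤ -(q / (n + 2)) := by
      have : -(q / (n + 2)) = (-(1 / (n + 2))) * q := by ring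
      rw [this]
      apply mul_le_mul_of_nonneg_right _ hq0.le
      linarith
    refine h3.trans ?_
    have h4 : (L - Real.log L + 1) - 1 / 1000 ≤ q / (n + 2) := by
      rw [le_div_iff₀ (by linarith)]
      nlinarith
    linarith
  have h5 : Real.exp (-(L - Real.log L + 1) + 1 / 1000)
      = L / (n + 1) * Real.exp (-(999 / 1000)) := by
    have : -(L - Real.log L + 1) + 1 / 1000 = (Real.log L - L) + -(999 / 1000) := by ring
    rw [this, Real.exp_add, Real.exp_sub, Real.exp_log hL0, hn]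
  rw [h5] at h1
  have h6 := exp0999
  have hn1 : 0 < n + 1 := by linarith
  have h7 : (1 - 1 / (n + 2)) ^ q ≤ L / (n + 1) * (3684 / 10000) :=
    h1.trans (mul_le_mul_of_nonneg_left h6 (by positivity))
  have h8 : (n + 2) ^ 2 * (1 - 1 / (n + 2)) ^ q
      ≤ (n + 2) ^ 2 * (L / (n + 1) * (3684 / 10000)) :=
    mul_le_mul_of_nonneg_left h7 (by positivity)
  refine h8.trans ?_
  have h9 : (n + 2) ^ 2 * (L / (n + 1) * (3684 / 10000))
      = (n + 2) * L * (((n + 2) / (n + 1)) * (3684 / 10000)) := by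
    field_simp
  rw [h9]
  have h10 : (n + 2) / (n + 1) ≤ 10001 / 10000 := by
    rw [div_le_iff₀ hn1]; linarith
  apply mul_le_mul_of_nonneg_left _ (by
    apply mul_nonneg <;> linarith)
  linarith

theorem core {n q L : ℝ} (hL : 10 ^ 4 ≤ L) (hn : n + 1 = Real.exp L)
    (hq : (n + 1) * (L - Real.log L + 1) ≤ q) :
    ∃ α γ : ℝ, InDom n α γ ∧
      2 * Phi n q α γ ≤ (n + 2) ^ 2 * (1 - 1 / (n + 2)) ^ q + 34 / 10 * (n + 2) := by
  have hL0 : 0 < L := by linarith
  have hP : L ^ 2 / 2 ≤ n + 1 := by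
    rw [hn]
    have := Real.quadratic_le_exp_of_nonneg hL0.le
    linarith
  have hP' : 5000 * L ≤ n + 1 := by nlinarith
  have hlog : Real.log L ≤ 2 / 100 * L := log_small hL
  have hn0 : 10 ^ 4 ≤ n := by linarith
  have hq2 : (n + 1) * (98 / 100 * L) ≤ q := by
    refine le_trans ?_ hq
    apply mul_le_mul_of_nonneg_left _ (by linarith)
    linarith
  have hqL : 1000 * L ≤ q := by nlinarith
  have hqn : n ≤ q := by nlinarith
  have hq1000 : 1000 ≤ q := by linarith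
  have hq0 : 0 < q := by linarith
  set K := 5 / L with hK
  have hK0 : 0 < K := by rw [hK]; positivity
  have hK1 : K ≤ 1 / 1000 := by
    rw [hK, div_le_div_iff₀ hL0 (by norm_num)]; linarith
  have hn1 : 0 < n - 1 := by linarith
  set δ := K * n / q with hδ
  have hδ0 : 0 < δ := by
    rw [hδ]
    have : 0 < n := by linarith
    positivity
  have hδK : δ ≤ K := by
    rw [hδ, div_le_iff₀ hq0]; nlinarith
  have hγ : (n - 1) * ((1 - δ) / (n - 1)) = 1 - δ := by
    field_simp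
  have hom : om n (2 / q) ((1 - δ) / (n - 1)) = 8 / 10 * L / q := by
    unfold om
    rw [hγ]
    have h1 : 1 - (1 - δ) = δ := by ring
    rw [h1, hδ, hK]
    have hnn : n ≠ 0 := by linarith
    field_simp
    norm_num
  have hw : 8 / 10 * L / q ≤ 1 / 1000 := by
    rw [div_le_iff₀ hq0]; linarith
  refine ⟨2 / q, (1 - δ) / (n - 1), ⟨by positivity, ?_, ?_, ?_⟩, ?_⟩
  · apply div_nonneg <;> linarith
  · rw [hγ]; linarith
  · rw [hom]; linarith
  · unfold Phi
    rw [hom]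
    have h1 := G_neg_alpha hq1000
    have h2 := G_omega hL hqL
    have h3 := G_big_neg (w := 8 / 10 * L / q) hq0.le (by linarith)
    have h4 := G_neg_gamma hn0 hqn hK0 hK1
    rw [← hδ] at h4
    have h5 := sq_rpow_le hL hn hq
    set Y := (1 - 1 / (n + 2)) ^ q with hY
    have hY0 : 0 ≤ Y := by
      rw [hY]
      apply Real.rpow_nonneg
      have : 1 / (n + 2) ≤ 1 := by rw [div_le_one (by linarith)]; linarith
      linarith
    -- first term
    have t1 : 8 * n * G q (-(2 / q)) ≤ 11 / 10 * n := by nlinarith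
    -- second term
    have t2 : n * (n - 1) * G q (-((1 - δ) / (n - 1)))
        ≤ (n + 2) ^ 2 * Y + 205 / 100 * (n + 2) := by
      have s1 : n * (n - 1) * G q (-((1 - δ) / (n - 1)))
          ≤ (n + 2) ^ 2 * (Y * (1 + 11 / 10 * K)) := by
        apply mul_le_mul _ h4 (G_pos _ _).le (by positivity)
        nlinarith
      refine s1.trans ?_
      have s2 : (n + 2) ^ 2 * (Y * (1 + 11 / 10 * K))
          = (n + 2) ^ 2 * Y + 11 / 10 * K * ((n + 2) ^ 2 * Y) := by ring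
      rw [s2]
      have s3 : 11 / 10 * K * ((n + 2) ^ 2 * Y)
          ≤ 11 / 10 * K * ((n + 2) * L * (3688 / 10000)) :=
        mul_le_mul_of_nonneg_left h5 (by positivity)
      have s4 : 11 / 10 * K * ((n + 2) * L * (3688 / 10000))
          = 55 / 10 * (3688 / 10000) * (n + 2) := by
        rw [hK]; field_simp; norm_num
      rw [s4] at s3
      linarith
    -- third term
    have t3 : 8 * Real.exp (81 / 100 * L) + 4 ≤ 2 / 10 * (n + 1) := by
      have s1 : Real.exp L = Real.exp (81 / 100 * L) * Real.exp (19 / 100 * L) := by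
        rw [← Real.exp_add]; congr 1; ring
      have s2 := Real.add_one_le_exp (19 / 100 * L)
      have s3 := Real.add_one_le_exp (81 / 100 * L)
      rw [hn, s1]
      nlinarith
    have t4 : 8 * G q (8 / 10 * L / q) ≤ 8 * Real.exp (81 / 100 * L) := by linarith
    nlinarith

end Comp2Aux

/-- MODULE RT32. The competitor beyond the transition. `n = d - 1`, `m = n + 2`. Write
`L = log (n+1)`, `q ≥ (n+1)(L - log L + 1)`. Parameters: `K = 5/L`, `δ = K n/q`,
`γ = (1-δ)/(n-1)` (so `1 - (n-1)γ = δ`), `α = 2/q`; `ω = om n α γ = n α²/δ = 4/(q K)`.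
`2 Phi = 8 n G(-α) + n(n-1) G(-γ) + 8 G(ω) + 4 G(2ω-1)`, `G q g = (1-g)^(-q)` (`G_eq`):
* `(1+α)^(-q) ≤ exp (-2 + 4/q)`, so `8 n G(-α) ≤ 1.1 n`;
* `q ω/(1-ω) ≤ 0.81 L`, so `8 G(ω) ≤ 8 (n+1)^0.81 ≤ n/100`; `G(2ω-1) ≤ 1`;
* `(1+γ)^(-q)`: `1/(m-1) - γ ≤ δ/(n-1)`, and
  `(1+γ) ≥ (1 + 1/(m-1)) (1 - δ/(n-1))`, so `(1+γ)^(-q) ≤ (1+1/(m-1))^(-q) exp (1.01 q δ/(n-1))
  = (1-1/m)^q exp (1.01 K n/(n-1)) ≤ (1-1/m)^q (1 + 1.1 K)`.
* `m² (1-1/m)^q ≤ m² exp (-q/m) ≤ 1.01 m L/e`, so the extra term `1.1 K m² (1-1/m)^q ≤ 5.56 m/e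
  ≤ 2.05 m`. Total `≤ m² (1-1/m)^q + 3.3 m` for large `n`. (All for `n` large enough.) -/
theorem comp_small : ∃ n0 : ℕ, ∀ n : ℕ, n0 ≤ n → ∀ q : ℝ,
    ((n : ℝ) + 1) * (Real.log ((n : ℝ) + 1) - Real.log (Real.log ((n : ℝ) + 1)) + 1) ≤ q →
    ∃ α γ : ℝ, Pool.Agent.Riesz.InDom n α γ ∧
      2 * Pool.Agent.Riesz.Phi n q α γ
        ≤ ((n : ℝ) + 2) ^ 2 * (1 - 1 / ((n : ℝ) + 2)) ^ q + 34 / 10 * ((n : ℝ) + 2) := by
  refine ⟨⌈Real.exp (10 ^ 4)⌉₊, fun n hn q hq => ?_⟩
  have h1 : Real.exp (10 ^ 4) ≤ (n : ℝ) + 1 := by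
    have := Nat.ceil_le.1 hn
    linarith
  have hpos : (0 : ℝ) < (n : ℝ) + 1 := by positivity
  have hL : (10 : ℝ) ^ 4 ≤ Real.log ((n : ℝ) + 1) := (Real.le_log_iff_exp_le hpos).2 h1
  exact Comp2Aux.core hL (Real.exp_log hpos).symm hq

end Pool.Agent.RieszTr
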