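import Pool.Agent.RieszSmall.Lower

set_option autoImplicit false

open Real Finset

namespace Pool.Agent.RieszTr

open Pool.Agent.RieszSmall

namespace Comp3Aux

lemma one_sub_mem {M : ℝ} (hM : 2 ≤ M) : 0 < 1 - 1 / M ∧ 1 - 1 / M ≤ 1 := by
  have h0 : 0 < M := by linarith
  have h1 : 1 / M ≤ 1 / 2 := one_div_le_one_div_of_le (by norm_num) hM
  have h2 : 0 < 1 / M := by positivity
  constructor <;> linarith

/-- `Y ≤ M l` -/
lemma Y_le {M q : ℝ} (hM : 16 ≤ M) (hl : 2 * (Real.log M + 1) ≤ M)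
    (hq : (M - 1) * (Real.log (M - 1) - Real.log (Real.log (M - 1)) + 1) ≤ q) :
    M ^ 2 * (1 - 1 / M) ^ q ≤ M * Real.log M ∧ 0 ≤ q := by
  have hM0 : 0 < M := by linarith
  have hM1 : 0 < M - 1 := by linarith
  have hexp : Real.exp 1 ≤ M - 1 := by
    have := Real.exp_one_lt_d9
    linarith
  have hL1 : 1 ≤ Real.log (M - 1) := by
    rw [Real.le_log_iff_exp_le hM1]; exact hexp
  have hL0 : 0 < Real.log (M - 1) := by linarith
  have hLM : Real.log (M - 1) ≤ Real.log M := Real.log_le_log hM1 (by linarith)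
  have hLL0 : 0 ≤ Real.log (Real.log (M - 1)) := Real.log_nonneg hL1
  have hLL : Real.log (Real.log (M - 1)) ≤ Real.log (M - 1) := by
    have := Real.log_le_sub_one_of_pos hL0
    linarith
  set L := Real.log (M - 1) with hLdef
  have hq0 : 0 ≤ (M - 1) * (L - Real.log L + 1) := by
    apply mul_nonneg hM1.le; linarith
  have hq1 : 0 ≤ q := le_trans hq0 hq
  refine ⟨?_, hq1⟩
  obtain ⟨hb0, hb1⟩ := one_sub_mem (M := M) (by linarith)
  -- (1-1/M)^q ≤ exp (-q/M)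
  have h1 : (1 - 1 / M) ^ q ≤ Real.exp (-(q / M)) := by
    have h2 : 1 - 1 / M ≤ Real.exp (-(1 / M)) := by
      have := Real.add_one_le_exp (-(1 / M))
      linarith
    calc (1 - 1 / M) ^ q ≤ (Real.exp (-(1 / M))) ^ q := Real.rpow_le_rpow hb0.le h2 hq1
      _ = Real.exp (-(q / M)) := by
        rw [← Real.exp_mul]; congr 1; ring
  have h3 : L - Real.log L + 1 - (Real.log M + 1) / M ≤ q / M := by
    rw [le_div_iff₀ hM0]
    have h4 : (L - Real.log L + 1 - (Real.log M + 1) / M) * M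
        = M * (L - Real.log L + 1) - (Real.log M + 1) := by
      field_simp
    rw [h4]
    have h5 : (M - 1) * (L - Real.log L + 1) = M * (L - Real.log L + 1) - (L - Real.log L + 1) := by
      ring
    linarith
  have h6 : Real.exp (-(q / M)) ≤ Real.exp (-(L - Real.log L + 1 - (Real.log M + 1) / M)) := by
    apply Real.exp_le_exp.2; linarith
  set s := (Real.log M + 1) / M with hs
  have hs1 : s ≤ 1 / 2 := by
    rw [hs, div_le_iff₀ hM0]; linarith
  have hs0 : 0 ≤ s := by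
    rw [hs]; apply div_nonneg _ hM0.le; linarith
  have h7 : Real.exp (-(L - Real.log L + 1 - s)) = L / (M - 1) * Real.exp (-(1 - s)) := by
    have : -(L - Real.log L + 1 - s) = Real.log L - L + (-(1 - s)) := by ring
    rw [this, Real.exp_add, Real.exp_sub, Real.exp_log hL0, hLdef, Real.exp_log hM1]
  have h8 : Real.exp (-(1 - s)) ≤ 1 / (2 - s) := by
    rw [Real.exp_neg, ← one_div]
    apply one_div_le_one_div_of_le (by linarith)
    have := Real.add_one_le_exp (1 - s)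
    linarith
  have h9 : (1 - 1 / M) ^ q ≤ L / (M - 1) * (1 / (2 - s)) := by
    refine le_trans h1 (le_trans h6 ?_)
    rw [h7]
    exact mul_le_mul_of_nonneg_left h8 (by positivity)
  have h10 : L / (M - 1) * (1 / (2 - s)) ≤ L / M := by
    rw [div_mul_div_comm, mul_one, div_le_div_iff₀ (by apply mul_pos hM1; linarith) hM0]
    apply mul_le_mul_of_nonneg_left _ hL0.le
    nlinarith
  calc M ^ 2 * (1 - 1 / M) ^ q ≤ M ^ 2 * (L / M) :=
        mul_le_mul_of_nonneg_left (le_trans h9 h10) (by positivity)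
    _ = M * L := by field_simp
    _ ≤ M * Real.log M := mul_le_mul_of_nonneg_left hLM hM0.le

lemma q_le {M q : ℝ} (hM : 16 ≤ M) (hY : 2 * M < M ^ 2 * (1 - 1 / M) ^ q) :
    q ≤ M * Real.log M := by
  have hM0 : 0 < M := by linarith
  obtain ⟨hb0, hb1⟩ := one_sub_mem (M := M) (by linarith)
  by_contra hcon
  push Not at hcon
  have hlog : 0 < Real.log M := Real.log_pos (by linarith)
  have hq0 : 0 ≤ q := le_trans (by positivity) hcon.le
  have h2 : 1 - 1 / M ≤ Real.exp (-(1 / M)) := by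
    have := Real.add_one_le_exp (-(1 / M))
    linarith
  have h3 : (1 - 1 / M) ^ q ≤ Real.exp (-(q / M)) := by
    calc (1 - 1 / M) ^ q ≤ (Real.exp (-(1 / M))) ^ q := Real.rpow_le_rpow hb0.le h2 hq0
      _ = Real.exp (-(q / M)) := by
        rw [← Real.exp_mul]; congr 1; ring
  have h4 : Real.exp (-(q / M)) ≤ Real.exp (-Real.log M) := by
    apply Real.exp_le_exp.2
    have : Real.log M ≤ q / M := by
      rw [le_div_iff₀ hM0]; linarith
    linarith
  have h5 : Real.exp (-Real.log M) = 1 / M := by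
    rw [Real.exp_neg, Real.exp_log hM0, one_div]
  have h6 : M ^ 2 * (1 - 1 / M) ^ q ≤ M ^ 2 * (1 / M) :=
    mul_le_mul_of_nonneg_left (le_trans h3 (le_trans h4 h5.le)) (by positivity)
  have h7 : M ^ 2 * (1 / M) = M := by field_simp
  linarith

lemma l_le {M l : ℝ} (hl2 : 2 ≤ l) (hl : 21 * l ^ 3 ≤ M) : 84 * l ≤ M := by
  have h1 : 4 ≤ l ^ 2 := by nlinarith
  have h2 : l * 4 ≤ l * l ^ 2 := mul_le_mul_of_nonneg_left h1 (by linarith)
  have h3 : l * l ^ 2 = l ^ 3 := by ring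
  linarith

lemma lin_est {x y u : ℝ} (hx : 0 ≤ x) (hy : 0 ≤ y) (hu : 0 ≤ u) (hx1 : 0 ≤ 1 - x)
    (hy1 : 0 ≤ 1 - y) : 1 - (x + y + u) ≤ (1 - x) * (1 - y) * (1 - u) := by
  have h1 : 0 ≤ x * y := mul_nonneg hx hy
  have h2 : (1 - x) * (1 - y) ≤ 1 := by nlinarith
  have h3 : 1 - x - y ≤ (1 - x) * (1 - y) := by nlinarith
  have h4 : (1 - x) * (1 - y) * (1 - u) = (1 - x) * (1 - y) - (1 - x) * (1 - y) * u := by ring
  have h5 : (1 - x) * (1 - y) * u ≤ 1 * u := mul_le_mul_of_nonneg_right h2 hu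
  linarith

lemma loss_est {M l Y u : ℝ} (hM0 : 0 < M) (hl2 : 2 ≤ l) (hY : Y ≤ M * l) (hu0 : 0 ≤ u)
    (hu1 : u ≤ 16 * l ^ 2 / M) : Y * (1 / M + 4 * l / M + u) ≤ 21 * l ^ 3 := by
  have hl0 : 0 < l := by linarith
  have h5 : 1 / M + 4 * l / M + u ≤ (1 + 4 * l + 16 * l ^ 2) / M := by
    have : (1 + 4 * l + 16 * l ^ 2) / M = 1 / M + 4 * l / M + 16 * l ^ 2 / M := by
      rw [add_div, add_div]
    linarith
  have h6 : 0 ≤ 1 / M + 4 * l / M + u := by positivity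
  have h7 : l * l ≤ l ^ 3 := by nlinarith [mul_pos hl0 hl0]
  have h8 : l ≤ l ^ 3 := by nlinarith
  calc Y * (1 / M + 4 * l / M + u) ≤ (M * l) * ((1 + 4 * l + 16 * l ^ 2) / M) :=
        mul_le_mul hY h5 h6 (by positivity)
    _ = l * (1 + 4 * l + 16 * l ^ 2) := by field_simp
    _ = l + 4 * (l * l) + 16 * l ^ 3 := by ring
    _ ≤ 21 * l ^ 3 := by linarith

lemma tail_est {M l q B : ℝ} (hM : 16 ≤ M) (hl2 : 2 ≤ l) (hl84 : 84 * l ≤ M)
    (hY : M ^ 2 * (1 - 1 / M) ^ q ≤ M * l) (hq : 0 ≤ q) (hqM : q ≤ M * l)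
    (hBle : (M + 2) / 2 ≤ B) (hj0 : 0 ≤ M - B) (hj1 : M - B ≤ 2 * l) :
    M ^ 2 * (1 - 1 / M) ^ q - 21 * l ^ 3 ≤ B ^ 2 * (1 - 1 / B) ^ (q + 1) := by
  have hM0 : 0 < M := by linarith
  have hM1 : 0 < M - 1 := by linarith
  have hl0 : 0 < l := by linarith
  obtain ⟨hb0, hb1⟩ := one_sub_mem (M := M) (by linarith)
  obtain ⟨hB0, -⟩ := one_sub_mem (M := B) (by linarith)
  set Y := M ^ 2 * (1 - 1 / M) ^ q with hYdef
  -- the main estimate
  have hBpos : 0 < B := by linarith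
  have hden : M ^ 2 / 4 ≤ (M - 1) * B := by nlinarith
  have hden0 : 0 < (M - 1) * B := by positivity
  have hr : 1 - 1 / B = (1 - 1 / M) * (1 + (-((M - B) / ((M - 1) * B)))) := by
    field_simp
    ring
  have hfrac : (M - B) / ((M - 1) * B) ≤ 8 * l / M ^ 2 := by
    rw [div_le_div_iff₀ hden0 (by positivity)]
    calc (M - B) * M ^ 2 ≤ (2 * l) * M ^ 2 :=
          mul_le_mul_of_nonneg_right hj1 (by positivity)
      _ = 8 * l * (M ^ 2 / 4) := by ring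
      _ ≤ 8 * l * ((M - 1) * B) := mul_le_mul_of_nonneg_left hden (by positivity)
  have hfrac0 : 0 ≤ (M - B) / ((M - 1) * B) := by positivity
  have hfrac1 : 8 * l / M ^ 2 ≤ 1 := by
    rw [div_le_one (by positivity)]
    nlinarith [hl84]
  have hbern : 1 + (q + 1) * (-((M - B) / ((M - 1) * B)))
      ≤ (1 + (-((M - B) / ((M - 1) * B)))) ^ (q + 1) := by
    apply one_add_mul_self_le_rpow_one_add
    · linarith
    · linarith
  have hpow : (1 - 1 / B) ^ (q + 1)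
      = (1 - 1 / M) ^ (q + 1) * (1 + (-((M - B) / ((M - 1) * B)))) ^ (q + 1) := by
    rw [hr, Real.mul_rpow hb0.le (by linarith)]
  have hb1' : (1 - 1 / M) ^ (q + 1) = (1 - 1 / M) ^ q * (1 - 1 / M) := by
    rw [Real.rpow_add hb0, Real.rpow_one]
  have hYpos : 0 ≤ Y := by positivity
  -- lower bound of the third term
  set u := (q + 1) * ((M - B) / ((M - 1) * B)) with hu
  have hu0 : 0 ≤ u := by positivity
  have hu1 : u ≤ 16 * l ^ 2 / M := by
    have hq1 : q + 1 ≤ 2 * (M * l) := by nlinarith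
    calc u ≤ (2 * (M * l)) * (8 * l / M ^ 2) :=
          mul_le_mul hq1 hfrac hfrac0 (by positivity)
      _ = 16 * l ^ 2 / M := by field_simp; ring
  have hBM : M ^ 2 * (1 - 4 * l / M) ≤ B ^ 2 := by
    have : M ^ 2 * (1 - 4 * l / M) = M ^ 2 - 4 * l * M := by field_simp
    rw [this]
    nlinarith
  have hux : 0 ≤ 1 - 4 * l / M := by
    have : 4 * l / M ≤ 1 := by
      rw [div_le_one hM0]; linarith
    linarith
  have hterm : Y * ((1 - 1 / M) * (1 - 4 * l / M) * (1 - u))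
      ≤ B ^ 2 * (1 - 1 / B) ^ (q + 1) := by
    have hX : 1 - u ≤ (1 + (-((M - B) / ((M - 1) * B)))) ^ (q + 1) := by
      have : 1 + (q + 1) * (-((M - B) / ((M - 1) * B))) = 1 - u := by rw [hu]; ring
      linarith
    have hX0 : 0 ≤ (1 + (-((M - B) / ((M - 1) * B)))) ^ (q + 1) :=
      Real.rpow_nonneg (by linarith) _
    set X := (1 + (-((M - B) / ((M - 1) * B)))) ^ (q + 1) with hXdef
    have e1 : Y * ((1 - 1 / M) * (1 - 4 * l / M) * (1 - u))
        ≤ Y * ((1 - 1 / M) * (1 - 4 * l / M) * X) := by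
      apply mul_le_mul_of_nonneg_left _ hYpos
      apply mul_le_mul_of_nonneg_left hX
      exact mul_nonneg hb0.le hux
    have e2 : Y * ((1 - 1 / M) * (1 - 4 * l / M) * X)
        = (M ^ 2 * (1 - 4 * l / M)) * ((1 - 1 / M) ^ q * (1 - 1 / M) * X) := by
      rw [hYdef]; ring
    have e3 : (M ^ 2 * (1 - 4 * l / M)) * ((1 - 1 / M) ^ q * (1 - 1 / M) * X)
        ≤ B ^ 2 * ((1 - 1 / M) ^ q * (1 - 1 / M) * X) := by
      apply mul_le_mul_of_nonneg_right hBM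
      have : 0 ≤ (1 - 1 / M) ^ q := by positivity
      positivity
    rw [hpow, hb1']
    linarith
  have hlin : 1 - (1 / M + 4 * l / M + u) ≤ (1 - 1 / M) * (1 - 4 * l / M) * (1 - u) :=
    lin_est (by positivity) (by positivity) hu0 (by linarith) (by linarith)
  have hloss : Y * (1 / M + 4 * l / M + u) ≤ 21 * l ^ 3 :=
    loss_est hM0 hl2 hY hu0 hu1
  have hfin : Y - 21 * l ^ 3 ≤ B ^ 2 * (1 - 1 / B) ^ (q + 1) := by
    have := mul_le_mul_of_nonneg_left hlin hYpos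
    have e : Y * (1 - (1 / M + 4 * l / M + u)) = Y - Y * (1 / M + 4 * l / M + u) := by ring
    linarith
  exact hfin

lemma core {M q A B : ℝ} (hM : 16 ≤ M) (hl2 : 2 ≤ Real.log M) (hl : 21 * Real.log M ^ 3 ≤ M)
    (hY : M ^ 2 * (1 - 1 / M) ^ q ≤ M * Real.log M) (hq : 0 ≤ q)
    (hAB : A + B = M + 2) (hle : A ≤ B) (hA : 3 ≤ A) :
    M ^ 2 * (1 - 1 / M) ^ q + 34 / 10 * M < Est q A B := by
  have hM0 : 0 < M := by linarith
  have hM1 : 0 < M - 1 := by linarith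
  obtain ⟨hb0, hb1⟩ := one_sub_mem (M := M) (by linarith)
  obtain ⟨hA0, -⟩ := one_sub_mem (M := A) (by linarith)
  obtain ⟨hB0, -⟩ := one_sub_mem (M := B) (by linarith)
  have hAp : 0 ≤ A ^ 2 * (1 - 1 / A) ^ (q + 1) := by positivity
  have hBp : 0 ≤ B ^ 2 * (1 - 1 / B) ^ (q + 1) := by positivity
  have hl0 : 0 < Real.log M := by linarith
  set l := Real.log M with hldef
  have hl84 : 84 * l ≤ M := l_le hl2 hl
  unfold Est
  by_cases h1 : l + 35 / 10 ≤ A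
  · have hB' : (M + 2) / 2 ≤ B := by linarith
    have h2 : (l + 35 / 10) * ((M + 2) / 2) ≤ A * B := by
      apply mul_le_mul h1 hB' (by linarith) (by linarith)
    nlinarith
  · push Not at h1
    have hAB2 : 3 * M - 3 ≤ A * B := by nlinarith
    by_cases h2 : M ^ 2 * (1 - 1 / M) ^ q ≤ 2 * M
    · nlinarith
    · push Not at h2
      have hqM := q_le hM h2
      rw [← hldef] at hqM
      set Y := M ^ 2 * (1 - 1 / M) ^ q with hYdef
      have hfin : Y - 21 * l ^ 3 ≤ B ^ 2 * (1 - 1 / B) ^ (q + 1) :=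
        tail_est hM hl2 hl84 hY hq hqM (by linarith) (by linarith) (by linarith)
      nlinarith

lemma est_comm (q a b : ℝ) : Est q a b = Est q b a := by
  unfold Est; ring

end Comp3Aux

open Comp3Aux in
/-- MODULE RT33. The two-simplex energies are larger. `Est q a b = 2ab + a²(1-1/a)^(q+1) +
b²(1-1/b)^(q+1)`, `a + b = m + 2 = N`, WLOG `2 ≤ a ≤ b`. Write `Y = m² (1-1/m)^q`,
`L = log (m-1)`, `q ≥ (m-1)(L - log L + 1)`, so `Y ≤ 1.01 m L/e ≤ 0.38 m L`.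
* `a = 2`: `Est ≥ 4 m + m² (1-1/m)^(q+1) = 4m + Y - Y/m`.
* `a ≥ 3`, `2ab ≥ Y + 3.5 m`: done. This holds if `a ≥ 0.4 L + 4` (`b ≥ N/2`).
* `3 ≤ a < 0.4 L + 4`, `Y ≤ 2m`: `2ab ≥ 6 (m-1) > Y + 3.5 m`.
* `3 ≤ a < 0.4 L + 4`, `Y > 2 m`: then `exp (-q/m) ≥ 2/m`, `q ≤ m log m`; with `j = a - 2`,
  `b = m - j`, `(1-1/b)/(1-1/m) = 1 - j/((m-1)(m-j))`, Bernoulli (`one_add_mul_self_le_rpow_one_add`)
  gives `(1-1/b)^(q+1) ≥ (1-1/m)^(q+1) (1 - (q+1) j/((m-1)(m-j)))`, `b² ≥ m² (1 - 2j/m)`, so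
  `b² (1-1/b)^(q+1) ≥ Y - Y·O(L²/m) ≥ Y - m/10`, and `2ab ≥ 6(m-1)`. -/
theorem est_big : ∃ m0 : ℕ, ∀ m : ℕ, m0 ≤ m → ∀ q : ℝ,
    ((m : ℝ) - 1) * (Real.log ((m : ℝ) - 1) - Real.log (Real.log ((m : ℝ) - 1)) + 1) ≤ q →
    ∀ a b : ℕ, 2 ≤ a → 2 ≤ b → a + b = m + 2 →
      (m : ℝ) ^ 2 * (1 - 1 / (m : ℝ)) ^ q + 34 / 10 * m < Est q a b := by
  have h1 : ∀ᶠ x : ℝ in Filter.atTop, 21 * Real.log x ^ 3 ≤ x := by
    have h := (isLittleO_pow_log_id_atTop (n := 3)).bound (show (0 : ℝ) < 1 / 21 by norm_num)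
    filter_upwards [h, Filter.eventually_ge_atTop (1 : ℝ)] with x hx hx1
    rw [Real.norm_of_nonneg (pow_nonneg (Real.log_nonneg hx1) 3), id,
      Real.norm_of_nonneg (by linarith)] at hx
    linarith
  have h2 : ∀ᶠ x : ℝ in Filter.atTop, 2 ≤ Real.log x :=
    Real.tendsto_log_atTop.eventually_ge_atTop 2
  have h3 : ∀ᶠ m : ℕ in Filter.atTop, 21 * Real.log (m : ℝ) ^ 3 ≤ (m : ℝ) ∧
      2 ≤ Real.log (m : ℝ) ∧ (16 : ℝ) ≤ (m : ℝ) := by
    have h4 := tendsto_natCast_atTop_atTop (R := ℝ)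
    exact (h4.eventually h1).and ((h4.eventually h2).and (h4.eventually_ge_atTop 16))
  obtain ⟨m0, hm0⟩ := Filter.eventually_atTop.1 h3
  refine ⟨m0, fun m hm q hq a b ha hb hab => ?_⟩
  obtain ⟨hl, hl2, hM⟩ := hm0 m hm
  have hlM : 2 * (Real.log (m : ℝ) + 1) ≤ (m : ℝ) := by
    have := l_le hl2 hl
    linarith
  obtain ⟨hY, hq0⟩ := Y_le hM hlM hq
  have haR : (2 : ℝ) ≤ (a : ℝ) := by exact_mod_cast ha
  have hbR : (2 : ℝ) ≤ (b : ℝ) := by exact_mod_cast hb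
  have habR : (a : ℝ) + (b : ℝ) = (m : ℝ) + 2 := by exact_mod_cast hab
  -- symmetric reduction
  have key : ∀ a b : ℕ, 2 ≤ a → a ≤ b → (a : ℝ) + (b : ℝ) = (m : ℝ) + 2 →
      (m : ℝ) ^ 2 * (1 - 1 / (m : ℝ)) ^ q + 34 / 10 * m < Est q a b := by
    intro a b ha hle hab
    have hleR : (a : ℝ) ≤ (b : ℝ) := by exact_mod_cast hle
    rcases Nat.eq_or_lt_of_le ha with h | h
    · -- a = 2
      have ha2 : (a : ℝ) = 2 := by rw [← h]; norm_num
      have hb2 : (b : ℝ) = (m : ℝ) := by linarith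
      have hM0 : (0 : ℝ) < (m : ℝ) := by linarith
      obtain ⟨hb0, hb1⟩ := one_sub_mem (M := (m : ℝ)) (by linarith)
      rw [ha2, hb2]
      unfold Est
      have hb1' : (1 - 1 / (m : ℝ)) ^ (q + 1) = (1 - 1 / (m : ℝ)) ^ q * (1 - 1 / (m : ℝ)) := by
        rw [Real.rpow_add hb0, Real.rpow_one]
      have hp : 0 ≤ (2 : ℝ) ^ 2 * (1 - 1 / 2) ^ (q + 1) := by
        have : (0 : ℝ) ≤ (1 - 1 / 2) ^ (q + 1) := Real.rpow_nonneg (by norm_num) _
        positivity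
      have he : (m : ℝ) ^ 2 * (1 - 1 / (m : ℝ)) ^ (q + 1)
          = (m : ℝ) ^ 2 * (1 - 1 / (m : ℝ)) ^ q
            - (m : ℝ) ^ 2 * (1 - 1 / (m : ℝ)) ^ q / (m : ℝ) := by
        rw [hb1']; field_simp
      have hsm : (m : ℝ) ^ 2 * (1 - 1 / (m : ℝ)) ^ q / (m : ℝ) ≤ Real.log (m : ℝ) := by
        rw [div_le_iff₀ hM0]; linarith
      nlinarith
    · have ha3 : (3 : ℝ) ≤ (a : ℝ) := by exact_mod_cast h
      exact core hM hl2 hl hY hq0 hab hleR ha3
  rcases le_total a b with h | h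
  · exact key a b ha h habR
  · rw [est_comm]
    exact key b a hb h (by linarith)

end Pool.Agent.RieszTr
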