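import Pool.Agent.RieszTr.Defs

set_option autoImplicit false

open Real Finset

namespace Pool.Agent.RieszTr

open Pool.Agent.RieszSmall Pool.Agent.RieszLin

namespace ConstAux

theorem q_pos {q m : ℝ} (h : Reg q m) : 0 < q := by
  have h1 := h.hm
  have h2 := h.hq
  linarith

theorem base_bounds {m : ℝ} (hm : 2 ≤ m) : 1 / 2 ≤ 1 - 1 / m ∧ 1 - 1 / m < 1 := by
  have hm0 : 0 < m := by linarith
  have h1 : 1 / m ≤ 1 / 2 := one_div_le_one_div_of_le (by norm_num) hm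
  have h2 : 0 < 1 / m := by positivity
  constructor <;> linarith

theorem K0_nonneg {q m : ℝ} (hm : 2 ≤ m) : 0 ≤ K0 q m := by
  unfold K0
  have h1 := (base_bounds hm).1
  apply Real.rpow_nonneg
  linarith

theorem K0_lt_one {q m : ℝ} (hq : 0 < q) (hm : 2 ≤ m) : K0 q m < 1 := by
  unfold K0
  have h1 := base_bounds hm
  exact Real.rpow_lt_one (by linarith) h1.2 (by linarith)

theorem t_le_one {q : ℝ} (hq : 0 < q) : (2 : ℝ) ^ (-(q + 1)) ≤ 1 := by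
  apply Real.rpow_le_one_of_one_le_of_nonpos (by norm_num)
  linarith

theorem t_eq (q : ℝ) : (2 : ℝ) ^ (-(q + 1)) = (1 / 2 : ℝ) ^ (q + 1) := by
  rw [Real.rpow_neg (by norm_num), one_div, Real.inv_rpow (by norm_num)]

theorem t_le_K0 {q m : ℝ} (hm : 2 ≤ m) (hq : 0 < q) : (2 : ℝ) ^ (-(q + 1)) ≤ K0 q m := by
  rw [t_eq]
  unfold K0
  exact Real.rpow_le_rpow (by norm_num) (base_bounds hm).1 (by linarith)

theorem t_lt_K0 {q m : ℝ} (hm : 2 < m) (hq : 0 < q) : (2 : ℝ) ^ (-(q + 1)) < K0 q m := by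
  rw [t_eq]
  unfold K0
  refine Real.rpow_lt_rpow (by norm_num) ?_ (by linarith)
  have h1 : 1 / m < 1 / 2 := one_div_lt_one_div_of_lt (by norm_num) hm
  linarith

theorem K0_le {q m : ℝ} (h : Reg q m) : K0 q m ≤ 1 - 1 / 251 := by
  have hm0 : 0 < m := by linarith [h.hm]
  have hq0 := q_pos h
  have h1 : 1 - 1 / m ≤ Real.exp (-(1 / m)) := by
    have := Real.add_one_le_exp (-(1 / m))
    linarith
  have h2 : K0 q m ≤ Real.exp (-(1 / m)) ^ (q + 1) := by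
    unfold K0
    refine Real.rpow_le_rpow ?_ h1 (by linarith)
    linarith [(base_bounds h.hm).1]
  rw [← Real.exp_mul] at h2
  have h3 : -(1 / m) * (q + 1) ≤ -(1 / 250) := by
    have h4 : 1 / 250 ≤ 1 / m * (q + 1) := by
      rw [one_div_mul_eq_div, le_div_iff₀ hm0]
      have := h.hq
      linarith
    linarith
  have h4 : Real.exp (-(1 / m) * (q + 1)) ≤ Real.exp (-(1 / 250)) := Real.exp_le_exp.2 h3
  have h5 : Real.exp (-(1 / 250)) ≤ 1 - 1 / 251 := by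
    rw [Real.exp_neg]
    have h6 : (1 / 250 : ℝ) + 1 ≤ Real.exp (1 / 250) := Real.add_one_le_exp _
    have h7 : (Real.exp (1 / 250))⁻¹ ≤ (1 / 250 + 1 : ℝ)⁻¹ := inv_anti₀ (by norm_num) h6
    refine h7.trans ?_
    norm_num
  exact (h2.trans h4).trans h5

end ConstAux

/-- MODULE RT5. Identities and first consequences of the regime. -/
theorem id_K0 {q m : ℝ} (hm : 2 ≤ m) : kp q m - 2 * Om q m / m = K0 q m := by
  have hm0 : m ≠ 0 := by positivity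
  have h1 : (1 + 2 / m) ≠ 0 := by positivity
  have h2 : kp q m * (1 + 2 / m) ^ 2 = K0 q m + 4 / m + 4 * (2 : ℝ) ^ (-(q + 1)) / m ^ 2 := by
    unfold kp
    rw [div_mul_cancel₀]
    exact pow_ne_zero 2 h1
  have h3 : kp q m - 2 * Om q m / m
      = kp q m * (1 + 2 / m) ^ 2 - 4 / m - 4 * (2 : ℝ) ^ (-(q + 1)) / m ^ 2 := by
    unfold Om ze
    field_simp
    ring
  rw [h3, h2]
  ring

theorem id_one {q m : ℝ} : kp q m + ze q m / m + Om q m / 2 = 1 := by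
  unfold Om
  ring

theorem id_ze {q m : ℝ} : kp q m - ze q m = (2 : ℝ) ^ (-(q + 1)) := by
  unfold ze
  ring

/-- `0 < κ < 1`: `K₀ < 1` and `(1 + 2/m)² = 1 + 4/m + 4/m²`. -/
theorem kp_pos {q m : ℝ} (hm : 2 ≤ m) : 0 < kp q m := by
  have hm0 : 0 < m := by linarith
  unfold kp
  have h1 := ConstAux.K0_nonneg (q := q) hm
  positivity

theorem kp_lt_one {q m : ℝ} (hq : 0 < q) (hm : 2 ≤ m) : kp q m < 1 := by
  have hm0 : 0 < m := by linarith
  have h1 := ConstAux.K0_lt_one hq hm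
  have h2 := ConstAux.t_le_one hq
  unfold kp
  rw [div_lt_one (by positivity)]
  have h3 : 4 * (2 : ℝ) ^ (-(q + 1)) / m ^ 2 ≤ 4 / m ^ 2 := by
    apply div_le_div_of_nonneg_right _ (by positivity)
    linarith
  have h4 : (1 + 2 / m) ^ 2 = 1 + 4 / m + 4 / m ^ 2 := by
    field_simp
    ring
  rw [h4]
  linarith

/-- `Λ ≥ 1`, hence `κ m ≥ 10^100`, `m ≥ 10^100`, `q ≥ m/250 ≥ 10^97`. -/
theorem Reg.big {q m : ℝ} (h : Reg q m) :
    1 ≤ La q m ∧ 10 ^ 100 ≤ kp q m * m ∧ 10 ^ 100 ≤ m ∧ 10 ^ 97 ≤ q ∧ 10 ^ 97 * La q m ≤ q := by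
  have hm := h.hm
  have hm0 : 0 < m := by linarith
  have hq0 : 0 < q := ConstAux.q_pos h
  have hk1 := kp_lt_one hq0 hm
  have hk0 := kp_pos (q := q) hm
  have hLa : 1 ≤ La q m := by
    unfold La
    have h1 : 1 ≤ 1 / kp q m := by
      rw [le_div_iff₀ hk0]
      linarith
    have := Real.log_nonneg h1
    linarith
  have h1 : 10 ^ 100 ≤ kp q m * m := by
    refine le_trans ?_ h.hk
    nlinarith
  have h2 : kp q m * m ≤ m := by nlinarith
  have h3 := h.hk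
  have h4 := h.hq
  refine ⟨hLa, h1, h1.trans h2, ?_, ?_⟩
  · have h5 : (10 : ℝ) ^ 100 ≤ 250 * q := (h1.trans h2).trans h4
    have h6 : (10 : ℝ) ^ 100 = 10 ^ 3 * 10 ^ 97 := by norm_num
    rw [h6] at h5
    have h7 : (0 : ℝ) ≤ 10 ^ 97 := by positivity
    nlinarith
  · have h5 : 10 ^ 100 * La q m ≤ 250 * q := (h3.trans h2).trans h4
    have h6 : (10 : ℝ) ^ 100 = 10 ^ 3 * 10 ^ 97 := by norm_num
    rw [h6] at h5
    have h7 : (0 : ℝ) ≤ 10 ^ 97 * La q m := by positivity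
    nlinarith

/-- `K₀ ≤ exp (-(q+1)/m) ≤ exp (-1/250) ≤ 1 - 1/251`, `κ ≤ K₀ + 4/m + 4/m² ≤ 1 - 1/300`. -/
theorem Reg.kp_le {q m : ℝ} (h : Reg q m) : kp q m ≤ 1 - 1 / 300 := by
  obtain ⟨-, -, hm, -, -⟩ := h.big
  have hm0 : 0 < m := lt_of_lt_of_le (by positivity) hm
  have hq0 : 0 < q := ConstAux.q_pos h
  have h1 := ConstAux.K0_le h
  have h2 := ConstAux.t_le_one hq0
  have hK := ConstAux.K0_nonneg (q := q) h.hm
  have h3 : kp q m ≤ K0 q m + 4 / m + 4 * (2 : ℝ) ^ (-(q + 1)) / m ^ 2 := by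
    unfold kp
    apply div_le_self (by positivity)
    have : 0 < 2 / m := by positivity
    nlinarith
  have hm2 : (10 : ℝ) ^ 10 ≤ m := le_trans (by norm_num) hm
  have h4 : 4 / m ≤ 4 / 10 ^ 10 := div_le_div_of_nonneg_left (by norm_num) (by positivity) hm2
  have h5 : 4 * (2 : ℝ) ^ (-(q + 1)) / m ^ 2 ≤ 4 / 10 ^ 10 := by
    have h6 : 4 * (2 : ℝ) ^ (-(q + 1)) / m ^ 2 ≤ 4 / m ^ 2 := by
      apply div_le_div_of_nonneg_right _ (by positivity)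
      linarith
    have h7 : 4 / m ^ 2 ≤ 4 / 10 ^ 10 := by
      apply div_le_div_of_nonneg_left (by norm_num) (by positivity)
      nlinarith
    linarith
  have h6 : (4 : ℝ) / 10 ^ 10 + 4 / 10 ^ 10 ≤ 1 / 251 - 1 / 300 := by norm_num
  linarith

/-- `K₀ ≤ κ ≤ K₀ + 5/m`, `κ/2 ≤ K₀`, `2^(-p) ≤ K₀`. Proof. `κ (1+2/m)² = K₀ + 4/m + 4·2^(-p)/m²`;
`κ ≥ K₀` iff `4/m + 4·2^(-p)/m² ≥ K₀ (4/m + 4/m²)`, true if `K₀ (1 + 1/m) ≤ 1`
(`K₀ ≤ 1 - 1/251`, or: `(1-1/m)^(q+1) (1+1/m) ≤ (1-1/m)(1+1/m) ≤ 1`). Upper bound: drop the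
denominator. `κ/2 ≤ K₀`: `K₀ ≥ κ - 5/m ≥ κ/2` because `κ m ≥ 10^100`. `2^(-p) ≤ (1-1/m)^p` since
`1 - 1/m ≥ 1/2`. -/
theorem Reg.K0_bounds {q m : ℝ} (h : Reg q m) :
    K0 q m ≤ kp q m ∧ kp q m ≤ K0 q m + 5 / m ∧ kp q m / 2 ≤ K0 q m ∧
      (2 : ℝ) ^ (-(q + 1)) ≤ K0 q m := by
  obtain ⟨-, hkm, hm, -, -⟩ := h.big
  have hm0 : 0 < m := lt_of_lt_of_le (by positivity) hm
  have hq0 : 0 < q := ConstAux.q_pos h
  have hk1 := h.kp_le
  have hk0 := kp_pos (q := q) h.hm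
  have hid := id_K0 (q := q) h.hm
  have ht1 := ConstAux.t_le_one hq0
  have ht0 : 0 ≤ (2 : ℝ) ^ (-(q + 1)) := by positivity
  have hm2 : (10 : ℝ) ^ 10 ≤ m := le_trans (by norm_num) hm
  have hinv : 1 / m ≤ 1 / 10 ^ 10 := one_div_le_one_div_of_le (by positivity) hm2
  have hinv0 : 0 < 1 / m := by positivity
  have hze : ze q m / m ≤ 1 / 10 ^ 10 := by
    have h1 : ze q m ≤ 1 := by
      unfold ze
      linarith
    have h2 : ze q m / m ≤ 1 / m := div_le_div_of_nonneg_right h1 hm0.le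
    linarith
  have hze' : -(1 / 10 ^ 10) ≤ ze q m / m := by
    have h1 : -1 ≤ ze q m := by
      unfold ze
      linarith
    have h2 : -1 / m ≤ ze q m / m := div_le_div_of_nonneg_right h1 hm0.le
    have h3 : -1 / m = -(1 / m) := by ring
    linarith
  have hOm0 : 0 ≤ Om q m := by
    unfold Om
    have : (1 : ℝ) / 10 ^ 10 ≤ 1 / 300 := by norm_num
    linarith
  have hOm1 : Om q m ≤ 5 / 2 := by
    unfold Om
    have : (1 : ℝ) / 10 ^ 10 ≤ 1 / 300 := by norm_num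
    linarith
  have h1 : 0 ≤ 2 * Om q m / m := by positivity
  have h2 : 2 * Om q m / m ≤ 5 / m := div_le_div_of_nonneg_right (by linarith) hm0.le
  have h3 : kp q m ≤ K0 q m + 5 / m := by linarith
  refine ⟨by linarith, h3, ?_, ConstAux.t_le_K0 h.hm hq0⟩
  have h4 : 5 / m ≤ kp q m / 2 := by
    rw [div_le_iff₀ hm0]
    have h5 : (10 : ℝ) ≤ 10 ^ 100 := by norm_num
    linarith
  linarith

/-- `0 < ζ ≤ κ`: `2^(-p) ≤ K₀ ≤ κ`; strict because `2 * 2^(-p) ≤ K₀`: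
`K₀ = (1-1/m)^p ≥ (3/4)^p`... or simply `2 * 2^(-p) = 2^(-q) ≤ (1-1/m)^q (1-1/m)`; any argument
is fine (for instance `2^(-p) < K₀` is enough: `1/2 < 1 - 1/m`). -/
theorem Reg.ze_bounds {q m : ℝ} (h : Reg q m) : 0 < ze q m ∧ ze q m ≤ kp q m := by
  obtain ⟨-, -, hm, -, -⟩ := h.big
  have hq0 : 0 < q := ConstAux.q_pos h
  have h1 := h.K0_bounds.1
  have h2 : (2 : ℝ) ^ (-(q + 1)) < K0 q m := by
    refine ConstAux.t_lt_K0 ?_ hq0
    refine lt_of_lt_of_le ?_ hm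
    norm_num
  have h3 : 0 ≤ (2 : ℝ) ^ (-(q + 1)) := by positivity
  unfold ze
  constructor <;> linarith

/-- with `e = 1 - κ`: `1.99 e ≤ Ω ≤ 2 e`, since `ζ/m ≤ 1/m ≤ 10^(-100)` and `e ≥ 1/300`. -/
theorem Reg.Om_bounds {q m : ℝ} (h : Reg q m) :
    199 / 100 * (1 - kp q m) ≤ Om q m ∧ Om q m ≤ 2 * (1 - kp q m) := by
  obtain ⟨-, -, hm, -, -⟩ := h.big
  have hm0 : 0 < m := lt_of_lt_of_le (by positivity) hm
  obtain ⟨h1, h2⟩ := h.ze_bounds
  have hk1 := h.kp_le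
  have hm2 : (10 : ℝ) ^ 10 ≤ m := le_trans (by norm_num) hm
  have h3 : 0 < ze q m / m := by positivity
  have h4 : ze q m / m ≤ 1 / 10 ^ 10 := by
    have h5 : ze q m / m ≤ 1 / m := div_le_div_of_nonneg_right (by linarith) hm0.le
    have h6 : 1 / m ≤ 1 / 10 ^ 10 := one_div_le_one_div_of_le (by positivity) hm2
    linarith
  have h5 : (2 : ℝ) * (1 / 10 ^ 10) ≤ 1 / 100 * (1 / 300) := by norm_num
  unfold Om
  constructor <;> linarith

/-- `Λ ≤ 10^(-100) m`; `a / κ ≤ 10^(-100) a m / Λ`: the form in which the regime is used. -/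
theorem Reg.use {q m : ℝ} (h : Reg q m) : La q m / kp q m ≤ m / 10 ^ 100 ∧
    1 / kp q m ≤ m / 10 ^ 100 ∧ La q m ≤ m / 10 ^ 100 := by
  obtain ⟨hLa, hkm, hm, -, -⟩ := h.big
  have hm0 : 0 < m := lt_of_lt_of_le (by positivity) hm
  have hk0 := kp_pos (q := q) h.hm
  have hk1 := h.kp_le
  have h1 : La q m / kp q m ≤ m / 10 ^ 100 := by
    rw [div_le_div_iff₀ hk0 (by positivity)]
    have := h.hk
    linarith
  have h2 : 1 / kp q m ≤ La q m / kp q m := div_le_div_of_nonneg_right hLa hk0.le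
  have h3 : La q m ≤ La q m / kp q m := by
    rw [le_div_iff₀ hk0]
    nlinarith
  exact ⟨h1, h2.trans h1, h3.trans h1⟩

end Pool.Agent.RieszTr
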