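import Pool.Agent.RieszTr.FF

set_option autoImplicit false

open Real Finset

namespace Pool.Agent.RieszTr

open Pool.Agent.RieszSmall Pool.Agent.RieszLin

section

variable {ι : Type*} [DecidableEq ι]

/-- The order data of `J`: `j1` carries the largest weight `r j1`, `r2` is the second largest
weight (`0` if `J = {j1}`). -/
structure Top (J : Finset ι) (r : ι → ℝ) (j1 : ι) (r2 : ℝ) : Prop where
  mem : j1 ∈ J
  nonneg : ∀ j ∈ J, 0 ≤ r j
  sum : ∑ j ∈ J, r j = 1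
  max : ∀ j ∈ J, r j ≤ r j1
  sec : (∃ j2 ∈ J, j2 ≠ j1 ∧ r j2 = r2 ∧ ∀ j ∈ J, j ≠ j1 → r j ≤ r2) ∨ (J = {j1} ∧ r2 = 0)

namespace DJ1Aux

/-- splitting off the two largest weights -/
theorem split {J : Finset ι} (f : ι → ℝ) {j1 j2 : ι} (h1 : j1 ∈ J) (h2 : j2 ∈ J) (h : j2 ≠ j1) :
    ∑ j ∈ J, f j = f j1 + (f j2 + ∑ j ∈ (J.erase j1).erase j2, f j) := by
  rw [← Finset.add_sum_erase J f h1, ← Finset.add_sum_erase (J.erase j1) f
    (Finset.mem_erase.2 ⟨h, h2⟩)]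

theorem card_split {J : Finset ι} {j1 j2 : ι} (h1 : j1 ∈ J) (h2 : j2 ∈ J) (h : j2 ≠ j1) :
    (((J.erase j1).erase j2).card : ℝ) = (J.card : ℝ) - 2 := by
  have a := Finset.card_erase_add_one h1
  have b := Finset.card_erase_add_one (Finset.mem_erase.2 ⟨h, h2⟩)
  have c : ((J.erase j1).erase j2).card + 1 + 1 = J.card := by rw [b, a]
  rw [← c]
  push_cast
  ring

end DJ1Aux

/-- MODULE RT23. One light point with parameter `O = Ω z` against `J`, without the `ζ` terms.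
`F x = Φ(κ+x) - Φ(κ)`, `ε = max (r j1 - 1/2) 0`, `μ = 1 - r j1 - r2`.
Concavity (`Phi_ray`): `F(r O) ≥ 2 r F(O/2)` for `r ≤ 1/2` and `F(r O) ≥ 3 r F(O/3)` for
`r ≤ 1/3`. All weights except `j1, j2` are `≤ 1/3`, `r2 ≤ 1/2`. If `r j1 ≤ 1/2`:
`∑ F ≥ 2 (r j1 + r2) F(O/2) + 3 μ F(O/3) = 2 F(O/2) + μ (3 F(O/3) - 2 F(O/2))`. If `r j1 > 1/2`:
`F(r j1 O) ≥ F(O/2) - 2 ε` (`F_big`), `2 r2 = 1 - 2 ε - 2 μ`, `F(O/2) ≤ 1`, total
`≥ 2 F(O/2) + μ (3 F(O/3) - 2 F(O/2)) - 4 ε`. Then `F_third`, and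
`2 F(O/2) ≥ 2 (1 - Φ(κ)) - 2 (e - O/2)²` (`F_half`). Here `μ ≥ 0`. -/
theorem d_point {q m O : ℝ} (h : Reg q m) (h1 : 95 / 100 * Om q m ≤ O)
    (h2 : O ≤ 105 / 100 * Om q m) {J : Finset ι} {r : ι → ℝ} {j1 : ι} {r2 : ℝ}
    (hT : Top J r j1 r2) :
    (J.card : ℝ) * Phi q (kp q m) + 2 * (1 - Phi q (kp q m)) - 2 * (1 - kp q m - O / 2) ^ 2
        + 7 / 100 * (1 - kp q m) ^ 2 * (1 - r j1 - r2) - 4 * max (r j1 - 1 / 2) 0
      ≤ ∑ j ∈ J, Phi q (kp q m + r j * O) := by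
  have hq : 0 < q := lt_of_lt_of_le (by positivity) h.big.2.2.2.1
  have hk0 : 0 < kp q m := kp_pos h.hm
  have hk1 : kp q m ≤ 1 := (kp_lt_one hq h.hm).le
  have hO : 0 ≤ O := by
    have := h.Om_bounds.1
    nlinarith
  have hhalf := h.F_half hO
  have hthird := h.F_third h1 h2
  have hone : Phi q (kp q m + O / 2) ≤ 1 := Phi_le_one hq
  have hpos : 0 < Phi q (kp q m) := Phi_pos hq hk0 hk1
  have hbig : ∀ t : ℝ, 1 / 2 ≤ t → t ≤ 1 →
      Phi q (kp q m + O / 2) - 2 * (t - 1 / 2) ≤ Phi q (kp q m + t * O) :=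
    fun t ht ht1 => h.F_big hO h2 ht ht1
  have hray2 : ∀ t : ℝ, 0 ≤ t → t ≤ 1 / 2 →
      Phi q (kp q m) + 2 * t * (Phi q (kp q m + O / 2) - Phi q (kp q m))
        ≤ Phi q (kp q m + t * O) := by
    intro t ht ht1
    have := Phi_ray (k := kp q m) (x := O / 2) (t := 2 * t) hq (by linarith) (by linarith)
    rwa [show kp q m + 2 * t * (O / 2) = kp q m + t * O by ring] at this
  have hray3 : ∀ t : ℝ, 0 ≤ t → t ≤ 1 / 3 →
      Phi q (kp q m) + 3 * t * (Phi q (kp q m + O / 3) - Phi q (kp q m))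
        ≤ Phi q (kp q m + t * O) := by
    intro t ht ht1
    have := Phi_ray (k := kp q m) (x := O / 3) (t := 3 * t) hq (by linarith) (by linarith)
    rwa [show kp q m + 3 * t * (O / 3) = kp q m + t * O by ring] at this
  rcases hT.sec with ⟨j2, hj2, hne, hr2, hle⟩ | ⟨hJ, hr2⟩
  · have hr1 := hT.nonneg j1 hT.mem
    have hr2' : 0 ≤ r2 := hr2 ▸ hT.nonneg j2 hj2
    have hle1 : r2 ≤ r j1 := hr2 ▸ hT.max j2 hj2
    have hsum := hT.sum
    rw [DJ1Aux.split r hT.mem hj2 hne, hr2] at hsum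
    have hmu : ∑ j ∈ (J.erase j1).erase j2, r j = 1 - r j1 - r2 := by linarith
    have hrest : ∀ j ∈ (J.erase j1).erase j2, 0 ≤ r j ∧ r j ≤ 1 / 3 := by
      intro j hj
      have hj' := hj
      rw [Finset.mem_erase, Finset.mem_erase] at hj
      have h0 := hT.nonneg j hj.2.2
      have h3 := hle j hj.2.2 hj.2.1
      have h4 : r j ≤ ∑ j ∈ (J.erase j1).erase j2, r j :=
        Finset.single_le_sum (f := r) (fun i hi => by
          rw [Finset.mem_erase, Finset.mem_erase] at hi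
          exact hT.nonneg i hi.2.2) hj'
      refine ⟨h0, ?_⟩
      linarith
    have hmu0 : 0 ≤ 1 - r j1 - r2 := by
      rw [← hmu]
      exact Finset.sum_nonneg fun j hj => (hrest j hj).1
    have hS : ((J.card : ℝ) - 2) * Phi q (kp q m) +
        3 * (1 - r j1 - r2) * (Phi q (kp q m + O / 3) - Phi q (kp q m)) ≤
        ∑ j ∈ (J.erase j1).erase j2, Phi q (kp q m + r j * O) := by
      rw [← DJ1Aux.card_split hT.mem hj2 hne, ← hmu]
      calc (((J.erase j1).erase j2).card : ℝ) * Phi q (kp q m) +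
            3 * (∑ j ∈ (J.erase j1).erase j2, r j) * (Phi q (kp q m + O / 3) - Phi q (kp q m))
          = ∑ j ∈ (J.erase j1).erase j2, (Phi q (kp q m) +
              3 * r j * (Phi q (kp q m + O / 3) - Phi q (kp q m))) := by
            rw [Finset.sum_add_distrib, Finset.sum_const, nsmul_eq_mul, Finset.mul_sum,
              Finset.sum_mul]
        _ ≤ _ := Finset.sum_le_sum fun j hj => hray3 (r j) (hrest j hj).1 (hrest j hj).2
    rw [DJ1Aux.split (fun j => Phi q (kp q m + r j * O)) hT.mem hj2 hne, hr2]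
    have h5 := hray2 r2 hr2' (by linarith)
    set A := Phi q (kp q m) with hA
    set B := Phi q (kp q m + O / 2) with hB
    set C := Phi q (kp q m + O / 3) with hC
    set S := ∑ j ∈ (J.erase j1).erase j2, Phi q (kp q m + r j * O) with hSdef
    have h7 := mul_le_mul_of_nonneg_left hthird hmu0
    rcases le_total (r j1) (1 / 2) with hc | hc
    · rw [max_eq_right (by linarith)]
      have h6 := hray2 (r j1) hr1 hc
      linarith
    · rw [max_eq_left (by linarith)]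
      have h6 := hbig (r j1) hc (by linarith)
      have h8 : (r j1 - 1 / 2) * (B - A) ≤ (r j1 - 1 / 2) * 1 :=
        mul_le_mul_of_nonneg_left (by linarith) (by linarith)
      linarith
  · have hr1 : r j1 = 1 := by
      have := hT.sum
      rw [hJ, Finset.sum_singleton] at this
      exact this
    have h6 := hbig 1 (by norm_num) le_rfl
    rw [hJ, Finset.sum_singleton, Finset.card_singleton, hr1, hr2,
      max_eq_left (by norm_num : (0 : ℝ) ≤ 1 - 1 / 2)]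
    push_cast
    nlinarith

lemma Top.mu_nonneg {J : Finset ι} {r : ι → ℝ} {j1 : ι} {r2 : ℝ} (hT : Top J r j1 r2) :
    0 ≤ 1 - r j1 - r2 ∧ 0 ≤ r2 ∧ r2 ≤ r j1 ∧ r j1 ≤ 1 := by
  rcases hT.sec with ⟨j2, hj2, hne, hr2, hle⟩ | ⟨hJ, hr2⟩
  · have hr2' : 0 ≤ r2 := hr2 ▸ hT.nonneg j2 hj2
    have hle1 : r2 ≤ r j1 := hr2 ▸ hT.max j2 hj2
    have hsum := hT.sum
    rw [DJ1Aux.split r hT.mem hj2 hne, hr2] at hsum
    have hmu0 : 0 ≤ ∑ j ∈ (J.erase j1).erase j2, r j := Finset.sum_nonneg fun j hj => by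
      rw [Finset.mem_erase, Finset.mem_erase] at hj
      exact hT.nonneg j hj.2.2
    refine ⟨by linarith, hr2', hle1, by linarith⟩
  · have hr1 : r j1 = 1 := by
      have := hT.sum
      rw [hJ, Finset.sum_singleton] at this
      exact this
    rw [hr1, hr2]
    norm_num

/-- if all weights are `≥ θ` then `μ ≥ (|J| - 2) θ`. -/
lemma Top.mu_ge {J : Finset ι} {r : ι → ℝ} {j1 : ι} {r2 θ : ℝ} (hT : Top J r j1 r2)
    (hθ : 0 ≤ θ) (h : ∀ j ∈ J, θ ≤ r j) : ((J.card : ℝ) - 2) * θ ≤ 1 - r j1 - r2 := by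
  rcases hT.sec with ⟨j2, hj2, hne, hr2, hle⟩ | ⟨hJ, hr2⟩
  · have hsum := hT.sum
    rw [DJ1Aux.split r hT.mem hj2 hne, hr2] at hsum
    have h3 : (((J.erase j1).erase j2).card : ℝ) * θ ≤ ∑ j ∈ (J.erase j1).erase j2, r j := by
      rw [← nsmul_eq_mul]
      apply Finset.card_nsmul_le_sum
      intro j hj
      rw [Finset.mem_erase, Finset.mem_erase] at hj
      exact h j hj.2.2
    rw [DJ1Aux.card_split hT.mem hj2 hne] at h3
    linarith
  · have hr1 : r j1 = 1 := by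
      have := hT.sum
      rw [hJ, Finset.sum_singleton] at this
      exact this
    rw [hJ, Finset.card_singleton, hr1, hr2]
    push_cast
    linarith

end

end Pool.Agent.RieszTr
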