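import Pool.Agent.RieszTr.DJ1
import Pool.Agent.RieszTr.PureLL

set_option autoImplicit false

open Real Finset

namespace Pool.Agent.RieszTr

open Pool.Agent.RieszSmall Pool.Agent.RieszLin

namespace DJ2Aux

/-- one pair -/
theorem pair {q m : ℝ} (h : Reg q m) {K1 x : ℝ} (hK : kp q m ≤ K1) (hK4 : K1 ≤ 4)
    (hx : |x| < kp q m) :
    Phi q K1 - 2 * La q m * |x| - 2 / kp q m * x ^ 2 ≤ Phi q (K1 + x) := by
  obtain ⟨hL, -, hm, hq, -⟩ := h.big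
  have hq0 : 0 < q := lt_of_lt_of_le (by positivity) hq
  have hkp : 0 < kp q m := kp_pos h.hm
  obtain ⟨hb1, -, -, hb4⟩ := h.K0_bounds
  have hx' := abs_lt.1 hx
  have h1 := Phi_quad (K1 := K1) (K := K1 + x) hq0 (by linarith) (by linarith)
  have h2 := abs_le.1 (h.sl_abs hK hK4)
  have h3 : -(2 * La q m * |x|) ≤ sl q K1 * x := by
    have h4 : |sl q K1 * x| ≤ 2 * La q m * |x| := by
      rw [abs_mul]
      exact mul_le_mul_of_nonneg_right (abs_le.2 h2) (abs_nonneg x)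
    exact (abs_le.1 h4).1
  have h5 : cv q K1 ≤ 2 / kp q m := by
    refine (h.cv_le hK).2.trans ?_
    exact div_le_div_of_nonneg_left (by norm_num) hkp hK
  have h6 : cv q K1 * x ^ 2 ≤ 2 / kp q m * x ^ 2 := mul_le_mul_of_nonneg_right h5 (sq_nonneg x)
  have h7 : K1 + x - K1 = x := by ring
  rw [h7] at h1
  linarith

variable {ι : Type*} [DecidableEq ι]

/-- the range of the first argument -/
theorem range {q m : ℝ} (h : Reg q m) {s w : ℝ} (hs0 : 0 ≤ s) (hs1 : s ≤ 1)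
    (hw : |w| ≤ Om q m / 20) :
    kp q m ≤ kp q m + s * (Om q m + w) ∧ kp q m + s * (Om q m + w) ≤ 4 := by
  have hkp : 0 < kp q m := kp_pos h.hm
  have hk1 := h.kp_le
  obtain ⟨ho1, ho2⟩ := h.Om_bounds
  obtain ⟨hw1, hw2⟩ := abs_le.1 hw
  have h1 : 0 ≤ Om q m + w := by linarith
  have h2 : Om q m + w ≤ 21 / 10 := by linarith
  constructor
  · nlinarith [mul_nonneg hs0 h1]
  · nlinarith [mul_nonneg (sub_nonneg.2 hs1) h1]

/-- one light point -/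
theorem row {q m : ℝ} (h : Reg q m) {J : Finset ι} {r zf : ι → ℝ} {j1 : ι} {r2 b w : ℝ}
    (hT : Top J r j1 r2) (hz : ∀ j ∈ J, 0 ≤ zf j) (hz1 : ∀ j ∈ J, zf j ≤ 10 ^ 8)
    (hzs : ∑ j ∈ J, zf j ≤ 2 * 10 ^ 14) (hb : |b| ≤ kp q m / 10 ^ 20)
    (hw : |w| ≤ Om q m / 20) :
    (J.card * Phi q (kp q m) + 2 * (1 - Phi q (kp q m))
        + 7 / 100 * (1 - kp q m) ^ 2 * (1 - r j1 - r2) - 4 * max (r j1 - 1 / 2) 0)
        - w ^ 2 - 4 / m ^ 2 - 2 * La q m * (|b| * (2 * 10 ^ 14))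
        - 2 / kp q m * (b ^ 2 * (2 * 10 ^ 14) ^ 2)
      ≤ ∑ j ∈ J, Phi q (kp q m + r j * (Om q m + w) + b * zf j) := by
  have hkp : 0 < kp q m := kp_pos h.hm
  have hm0 : 0 < m := by linarith [h.hm]
  have hLa := h.big.1
  have hr1 : ∀ j ∈ J, r j ≤ 1 := fun j hj => (hT.max j hj).trans hT.mu_nonneg.2.2.2
  obtain ⟨ho1, ho2⟩ := h.Om_bounds
  obtain ⟨hw1, hw2⟩ := abs_le.1 hw
  have hzs0 : 0 ≤ ∑ j ∈ J, zf j := sum_nonneg hz
  -- the sum over the pairs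
  have h1 : ∑ j ∈ J, (Phi q (kp q m + r j * (Om q m + w)) - 2 * La q m * (|b| * zf j)
      - 2 / kp q m * (b ^ 2 * zf j ^ 2))
      ≤ ∑ j ∈ J, Phi q (kp q m + r j * (Om q m + w) + b * zf j) := by
    refine sum_le_sum fun j hj => ?_
    obtain ⟨hA, hB⟩ := range h (hT.nonneg j hj) (hr1 j hj) hw
    have hx : |b * zf j| < kp q m := by
      rw [abs_mul, abs_of_nonneg (hz j hj)]
      have h2 : |b| * zf j ≤ kp q m / 10 ^ 20 * 10 ^ 8 :=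
        mul_le_mul hb (hz1 j hj) (hz j hj) (by positivity)
      have h3 : kp q m / 10 ^ 20 * 10 ^ 8 < kp q m := by
        rw [div_mul_eq_mul_div, div_lt_iff₀ (by positivity)]
        have : (10 : ℝ) ^ 8 < 10 ^ 20 := by norm_num
        nlinarith
      linarith
    have h2 := pair h hA hB hx
    rw [abs_mul, abs_of_nonneg (hz j hj), mul_pow] at h2
    exact h2
  have h2 : ∑ j ∈ J, zf j ^ 2 ≤ (2 * 10 ^ 14) ^ 2 := by
    have h3 : ∑ j ∈ J, zf j ^ 2 ≤ (∑ j ∈ J, zf j) ^ 2 := by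
      rw [sq (∑ j ∈ J, zf j), sum_mul]
      refine sum_le_sum fun j hj => ?_
      rw [sq]
      exact mul_le_mul_of_nonneg_left (single_le_sum hz hj) (hz j hj)
    exact h3.trans (pow_le_pow_left₀ hzs0 hzs 2)
  rw [sum_sub_distrib, sum_sub_distrib, ← mul_sum, ← mul_sum, ← mul_sum, ← mul_sum] at h1
  have h3 : 2 * La q m * (|b| * ∑ j ∈ J, zf j) ≤ 2 * La q m * (|b| * (2 * 10 ^ 14)) :=
    mul_le_mul_of_nonneg_left (mul_le_mul_of_nonneg_left hzs (abs_nonneg b)) (by linarith)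
  have h4 : 2 / kp q m * (b ^ 2 * ∑ j ∈ J, zf j ^ 2)
      ≤ 2 / kp q m * (b ^ 2 * (2 * 10 ^ 14) ^ 2) :=
    mul_le_mul_of_nonneg_left (mul_le_mul_of_nonneg_left h2 (sq_nonneg b)) (by positivity)
  -- the main term
  have h5 := d_point (O := Om q m + w) h (by linarith) (by linarith) hT
  have h6 : 1 - kp q m - (Om q m + w) / 2 = ze q m / m - w / 2 := by
    have := id_one (q := q) (m := m)
    linarith
  have h7 : 2 * (1 - kp q m - (Om q m + w) / 2) ^ 2 ≤ w ^ 2 + 4 / m ^ 2 := by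
    rw [h6]
    obtain ⟨hz0, hzk⟩ := h.ze_bounds
    have hk1 := h.kp_le
    have h8 : (ze q m / m) ^ 2 ≤ 1 / m ^ 2 := by
      rw [div_pow]
      refine div_le_div_of_nonneg_right ?_ (by positivity)
      nlinarith
    have h9 : 4 / m ^ 2 = 4 * (1 / m ^ 2) := by ring
    rw [h9]
    nlinarith [sq_nonneg (ze q m / m + w / 2)]
  linarith

end DJ2Aux

section

variable {ι : Type*} [DecidableEq ι]

/-- MODULE RT24. All light points against `J`. `zf j ≥ 0`, `zf j ≤ 10^8`, `∑ zf ≤ 2·10^14`.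
For each pair `Phi_quad` at `K1 = κ + r j (Ω + om z)` (positivity `|a z| zf j ≤ κ/10^12`):
`Φ(K1 + a z zf j) ≥ Φ(K1) - 2Λ |a z| zf j - (2/κ) (a z)² (zf j)²` (`K1 ≤ κ + 1.05·2 (1-κ) ≤ 4`,
`sl_abs`, `cv_le`). Then `d_point` with `O = Ω + om z`, `1 - κ - O/2 = ζ/m - om z/2` (`id_one`), so
`2 (…)² ≤ om² + 4/m²`. Sum over `z`: `∑|a| ≤ 2·10^9`, `∑ a² ≤ 2·10^(-11) κ`,
`∑ zf² ≤ (∑ zf)²`: losses `4·10^9·2·10^14 Λ + 4·10^(-11)·4·10^28`, `4 n/m² ≤ 1`. -/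
theorem d_light {q m : ℝ} (h : Reg q m) {L : Finset ι} {a om : ι → ℝ}
    (hn : (L.card : ℝ) ≤ m + 1)
    (ha : ∀ z ∈ L, |a z| ≤ kp q m / 10 ^ 20) (hS : ∑ z ∈ L, |a z| ≤ 2 * 10 ^ 9)
    (ho : ∀ z ∈ L, |om z| ≤ Om q m / 20) {J : Finset ι} {r zf : ι → ℝ} {j1 : ι} {r2 : ℝ}
    (hT : Top J r j1 r2) (hz : ∀ j ∈ J, 0 ≤ zf j) (hz1 : ∀ j ∈ J, zf j ≤ 10 ^ 8)
    (hzs : ∑ j ∈ J, zf j ≤ 2 * 10 ^ 14) :
    (L.card : ℝ) * (J.card * Phi q (kp q m) + 2 * (1 - Phi q (kp q m))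
        + 7 / 100 * (1 - kp q m) ^ 2 * (1 - r j1 - r2) - 4 * max (r j1 - 1 / 2) 0)
        - ∑ z ∈ L, om z ^ 2 - 10 ^ 25 * La q m
      ≤ ∑ z ∈ L, ∑ j ∈ J, Phi q (kp q m + r j * (Om q m + om z) + a z * zf j) := by
  have hkp : 0 < kp q m := kp_pos h.hm
  have hLa := h.big.1
  have hm := h.big.2.2.1
  have h1 := sum_le_sum fun z hz' => DJ2Aux.row h hT hz hz1 hzs (ha z hz') (ho z hz')
  refine le_trans ?_ h1
  have h2 : ∑ z ∈ L, a z ^ 2 ≤ kp q m / 10 ^ 20 * (2 * 10 ^ 9) := sum_sq_le (by positivity) ha hS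
  rw [sum_sub_distrib, sum_sub_distrib, sum_sub_distrib, sum_sub_distrib, sum_const, sum_const,
    nsmul_eq_mul, nsmul_eq_mul, ← mul_sum, ← mul_sum, ← sum_mul, ← sum_mul]
  have h3 : 2 * La q m * ((∑ z ∈ L, |a z|) * (2 * 10 ^ 14))
      ≤ 2 * La q m * ((2 * 10 ^ 9) * (2 * 10 ^ 14)) :=
    mul_le_mul_of_nonneg_left (mul_le_mul_of_nonneg_right hS (by positivity)) (by linarith)
  have h4 : 2 / kp q m * ((∑ z ∈ L, a z ^ 2) * (2 * 10 ^ 14) ^ 2)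
      ≤ 2 / kp q m * ((kp q m / 10 ^ 20 * (2 * 10 ^ 9)) * (2 * 10 ^ 14) ^ 2) :=
    mul_le_mul_of_nonneg_left (mul_le_mul_of_nonneg_right h2 (by positivity)) (by positivity)
  have h5 : 2 / kp q m * ((kp q m / 10 ^ 20 * (2 * 10 ^ 9)) * (2 * 10 ^ 14) ^ 2)
      = 2 / 10 ^ 20 * (2 * 10 ^ 9) * (2 * 10 ^ 14) ^ 2 := by
    field_simp
  rw [h5] at h4
  have hm2 : (10 : ℝ) ≤ m := le_trans (by norm_num) hm
  have h6 : (L.card : ℝ) * (4 / m ^ 2) ≤ 1 := by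
    have hm0 : 0 < m := by linarith
    calc (L.card : ℝ) * (4 / m ^ 2) ≤ (m + 1) * (4 / m ^ 2) :=
          mul_le_mul_of_nonneg_right hn (by positivity)
      _ = (m + 1) * 4 / m ^ 2 := by ring
      _ ≤ 1 := by
          rw [div_le_one (by positivity)]
          nlinarith
  have h7 : (2 : ℝ) / 10 ^ 20 * (2 * 10 ^ 9) * (2 * 10 ^ 14) ^ 2 ≤ 10 ^ 19 := by norm_num
  have h8 : 2 * La q m * ((2 * 10 ^ 9) * (2 * 10 ^ 14)) = 8 * 10 ^ 23 * La q m := by ring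
  rw [h8] at h3
  have h9 : (10 : ℝ) ^ 25 * La q m ≥ 8 * 10 ^ 23 * La q m + 10 ^ 19 + 1 := by
    have : (10 : ℝ) ^ 25 = 8 * 10 ^ 23 + (10 ^ 25 - 8 * 10 ^ 23) := by ring
    rw [this]
    have h10 : (10 : ℝ) ^ 19 + 1 ≤ (10 ^ 25 - 8 * 10 ^ 23) := by norm_num
    nlinarith
  linarith

end

end Pool.Agent.RieszTr
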