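import Pool.Agent.RieszLin.Defs

set_option autoImplicit false

open Real Finset

namespace Pool.Agent.RieszTr

open Pool.Agent.RieszSmall Pool.Agent.RieszLin

/-- `Φ`: with `p = q + 1`, `Φ(K) = p K^(q/p) - q K` for `K ≥ 2^(-p)`, and the tangent line
`2^(-q) + q K` of that function at `2^(-p)` for smaller `K` (also for `K ≤ 0`). -/
noncomputable def Phi (q K : ℝ) : ℝ :=
  if (2 : ℝ) ^ (-(q + 1)) ≤ K then (q + 1) * K ^ (q / (q + 1)) - q * K else 2 ^ (-q) + q * K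

/-- the slope of `Φ` at `K ≥ 2^(-p)` -/
noncomputable def sl (q K : ℝ) : ℝ := q * (K ^ (-(1 / (q + 1))) - 1)

/-- curvature bound of `Φ` at `K` -/
noncomputable def cv (q K : ℝ) : ℝ := K ^ (-(1 / (q + 1))) / K

/-- `K₀ = (1 - 1/m)^p` -/
noncomputable def K0 (q m : ℝ) : ℝ := (1 - 1 / m) ^ (q + 1)

/-- `κ` -/
noncomputable def kp (q m : ℝ) : ℝ :=
  (K0 q m + 4 / m + 4 * (2 : ℝ) ^ (-(q + 1)) / m ^ 2) / (1 + 2 / m) ^ 2

/-- `ζ = κ - 2^(-p)` -/
noncomputable def ze (q m : ℝ) : ℝ := kp q m - (2 : ℝ) ^ (-(q + 1))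

/-- `Ω = 2 (1 - κ - ζ/m)` -/
noncomputable def Om (q m : ℝ) : ℝ := 2 * (1 - kp q m - ze q m / m)

/-- `Λ = 1 + log (1/κ)` -/
noncomputable def La (q m : ℝ) : ℝ := 1 + Real.log (1 / kp q m)

/-- the regime: `m ≤ 250 q` and `10^100 (1 + log (1/κ)) ≤ κ m`. -/
structure Reg (q m : ℝ) : Prop where
  hm : 2 ≤ m
  hq : m ≤ 250 * q
  hk : 10 ^ 100 * La q m ≤ kp q m * m

section

variable {ι : Type*} [DecidableEq ι]

/-- sum over ordered pairs of different elements of `S`. -/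
def offd (S : Finset ι) (f : ι → ι → ℝ) : ℝ := ∑ i ∈ S, ∑ j ∈ S, if i = j then 0 else f i j

variable [Fintype ι]

/-- the dual functional: `Σ_{i≠j} Φ(K i j) - q Σ K i i`, with
`K i j = v i v j + a i w j + a j w i`. -/
noncomputable def BB (q : ℝ) (a v w : ι → ℝ) : ℝ :=
  offsum (fun i j => Phi q (v i * v j + a i * w j + a j * w i))
    - q * ∑ i, (v i ^ 2 + 2 * a i * w i)

end

end Pool.Agent.RieszTr
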