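import Pool.Agent.RieszTr.Phi3
import Pool.Agent.RieszTr.Const2

set_option autoImplicit false

open Real Finset

namespace Pool.Agent.RieszTr

open Pool.Agent.RieszSmall Pool.Agent.RieszLin

namespace FFAux

theorem basic {q m : ℝ} (h : Reg q m) : 50 ≤ q ∧ 0 < q ∧ 0 < kp q m ∧ 1 / 300 ≤ 1 - kp q m ∧
    kp q m ≤ 1 ∧ (2 : ℝ) ^ (-(q + 1)) ≤ kp q m := by
  obtain ⟨_, _, _, hq, _⟩ := h.big
  have hq50 : (50 : ℝ) ≤ q := le_trans (by norm_num) hq
  have hk := h.kp_le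
  obtain ⟨h1, _, _, h4⟩ := h.K0_bounds
  exact ⟨hq50, by linarith, kp_pos h.hm, by linarith, by linarith, h4.trans h1⟩

end FFAux

open FFAux

/-- MODULE RT8. Values of `Φ` near and above `κ`; `e = 1 - κ ≥ 1/300`. -/
theorem Reg.F_e {q m : ℝ} (h : Reg q m) :
    Phi q (kp q m) ≤ 1 - 49 / 100 * (1 - kp q m) ^ 2 := by
  obtain ⟨hq50, _, _, _, hk1, h2⟩ := basic h
  exact Phi_second hq50 h2 hk1

/-- linear lower bound on `[κ, 1]`: `Phi_ray` with `k = κ`, `x = e`, `t = x/e`. -/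
theorem Reg.F_lin {q m x : ℝ} (h : Reg q m) (hx : 0 ≤ x) (hx1 : x ≤ 1 - kp q m) :
    Phi q (kp q m) + 49 / 100 * (1 - kp q m) * x ≤ Phi q (kp q m + x) := by
  obtain ⟨_, hq, _, he, _, _⟩ := basic h
  have hepos : 0 < 1 - kp q m := by linarith
  have h1 := Phi_ray (k := kp q m) (x := 1 - kp q m) (t := x / (1 - kp q m)) hq
    (div_nonneg hx hepos.le) ((div_le_one hepos).2 hx1)
  have h2 : kp q m + x / (1 - kp q m) * (1 - kp q m) = kp q m + x := by
    rw [div_mul_cancel₀ _ hepos.ne']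
  have h3 : kp q m + (1 - kp q m) = 1 := by ring
  rw [h2, h3, Phi_one hq] at h1
  have h4 := h.F_e
  have h5 : x / (1 - kp q m) * (49 / 100 * (1 - kp q m) ^ 2) ≤
      x / (1 - kp q m) * (1 - Phi q (kp q m)) :=
    mul_le_mul_of_nonneg_left (by linarith) (div_nonneg hx hepos.le)
  have h6 : x / (1 - kp q m) * (49 / 100 * (1 - kp q m) ^ 2) =
      49 / 100 * (1 - kp q m) * x := by
    field_simp
  linarith

/-- lower bound for large arguments. If `κ + x ≤ 1`: monotonicity. Otherwise `K = κ + x ≥ 1`,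
`Φ(K) ≥ K - K log K`, `Φ(κ) ≤ 1 ≤ K`, `x ≥ e ≥ 1/300`, so `K ≤ 1 + x ≤ 301 x`. -/
theorem Reg.F_neg {q m x : ℝ} (h : Reg q m) (hx : 0 ≤ x) :
    Phi q (kp q m) - 301 * (x * Real.log (1 + x)) ≤ Phi q (kp q m + x) := by
  obtain ⟨_, hq, hk0, he, hk1, _⟩ := basic h
  have hlog : 0 ≤ Real.log (1 + x) := Real.log_nonneg (by linarith)
  have hxl : 0 ≤ x * Real.log (1 + x) := mul_nonneg hx hlog
  by_cases hK : kp q m + x ≤ 1
  · have h1 := Phi_mono (K := kp q m) (K' := kp q m + x) hq (by linarith) hK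
    linarith
  · push Not at hK
    have h1 := Phi_lower (K := kp q m + x) hq (by linarith)
    have h2 := Phi_le_one (K := kp q m) hq
    have hlK : 0 ≤ Real.log (kp q m + x) := Real.log_nonneg hK.le
    have h3 : Real.log (kp q m + x) ≤ Real.log (1 + x) :=
      Real.log_le_log (by linarith) (by linarith)
    have h4 : (kp q m + x) * Real.log (kp q m + x) ≤ (301 * x) * Real.log (1 + x) :=
      mul_le_mul (by linarith) h3 hlK (by linarith)
    linarith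

/-- `Φ(κ + Ω/2) ≥ 1 - (e - Ω/2)²`. -/
theorem Reg.F_half {q m O : ℝ} (h : Reg q m) (hO : 0 ≤ O) :
    1 - (1 - kp q m - O / 2) ^ 2 ≤ Phi q (kp q m + O / 2) := by
  obtain ⟨_, hq, hk0, _, _, _⟩ := basic h
  have h1 := Phi_ge_one (K := kp q m + O / 2) hq (by linarith)
  have h2 : (1 - kp q m - O / 2) ^ 2 = (kp q m + O / 2 - 1) ^ 2 := by ring
  rw [h2]
  exact h1

/-- the strict gain for a third heavy weight: `Φ(κ+Ω/3) ≥ 1 - (e - Ω/3)²`,
`Ω/3 ∈ [0.63 e, 0.7 e]`, `Φ(κ+Ω/2) ≤ 1`, `Φ(κ) ≤ 1 - 0.49 e²`. -/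
theorem Reg.F_third {q m O : ℝ} (h : Reg q m) (h1 : 95 / 100 * Om q m ≤ O)
    (h2 : O ≤ 105 / 100 * Om q m) :
    7 / 100 * (1 - kp q m) ^ 2
      ≤ 3 * Phi q (kp q m + O / 3) - 2 * Phi q (kp q m + O / 2) - Phi q (kp q m) := by
  obtain ⟨_, hq, hk0, he, hk1, _⟩ := basic h
  obtain ⟨ho1, ho2⟩ := h.Om_bounds
  have hO0 : 0 ≤ O := by linarith
  have a1 := Phi_ge_one (K := kp q m + O / 3) hq (by linarith)
  have a2 := Phi_le_one (K := kp q m + O / 2) hq
  have a3 := h.F_e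
  have a4 : (kp q m + O / 3 - 1) ^ 2 ≤ (37 / 100 * (1 - kp q m)) ^ 2 := by
    apply sq_le_sq'
    · linarith
    · linarith
  have a5 : 0 ≤ (1 - kp q m) ^ 2 := sq_nonneg _
  nlinarith

/-- beyond the maximum: `Phi_le_tangent` at `K2 = κ + r Ω ≤ 2.1` gives
`Φ(κ+Ω/2) ≤ Φ(K2) - sl q K2 (r-1/2) Ω`, and `sl q K2 ≥ -log 2.1 ≥ -0.75` (if `K2 ≤ 1` even
`sl q K2 ≥ 0`), `Ω ≤ 2.1`. -/
theorem Reg.F_big {q m O r : ℝ} (h : Reg q m) (hO : 0 ≤ O) (h2 : O ≤ 105 / 100 * Om q m)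
    (hr : 1 / 2 ≤ r) (hr1 : r ≤ 1) :
    Phi q (kp q m + O / 2) - 2 * (r - 1 / 2) ≤ Phi q (kp q m + r * O) := by
  obtain ⟨_, hq, hk0, he, hk1, h2p⟩ := basic h
  obtain ⟨ho1, ho2⟩ := h.Om_bounds
  have hrO : 0 ≤ r * O := mul_nonneg (by linarith) hO
  have hrO' : r * O ≤ O := mul_le_of_le_one_left hO hr1
  have hO2 : O ≤ 21 / 10 * (1 - kp q m) := by linarith
  have hK2 : kp q m + r * O ≤ 21 / 10 := by linarith
  have h1 := Phi_le_tangent (K1 := kp q m + r * O) (K := kp q m + O / 2) hq (by linarith)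
  have h3 : kp q m + O / 2 - (kp q m + r * O) = -((r - 1 / 2) * O) := by ring
  rw [h3] at h1
  have h4 : -(sl q (kp q m + r * O)) * O ≤ 2 := by
    by_cases hc : kp q m + r * O ≤ 1
    · have h5 := (h.sl_le (K := kp q m + r * O) (by linarith) hc).1
      nlinarith
    · push Not at hc
      have h5 := (sl_ge (K := kp q m + r * O) hq hc.le).1
      have h6 : Real.log (kp q m + r * O) ≤ 3 / 4 := by
        have h7 : Real.log (kp q m + r * O) ≤ Real.log (2 * (21 / 20)) :=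
          Real.log_le_log (by linarith) (by linarith)
        rw [Real.log_mul (by norm_num) (by norm_num)] at h7
        have h8 := Real.log_two_lt_d9
        have h9 := Real.log_le_sub_one_of_pos (x := 21 / 20) (by norm_num)
        linarith
      have h10 : -(sl q (kp q m + r * O)) * O ≤ 3 / 4 * O :=
        mul_le_mul_of_nonneg_right (by linarith) hO
      linarith
  have h11 : (r - 1 / 2) * (-(sl q (kp q m + r * O)) * O) ≤ (r - 1 / 2) * 2 :=
    mul_le_mul_of_nonneg_left h4 (by linarith)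
  nlinarith

end Pool.Agent.RieszTr
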