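import Pool.Agent.RieszTr.FF
import Pool.Agent.RieszTr.PureLL
import Pool.Agent.RieszTr.Asm

set_option autoImplicit false

open Real Finset

namespace Pool.Agent.RieszTr

open Pool.Agent.RieszSmall Pool.Agent.RieszLin

namespace HLAux

lemma bq_le {k OP p : ℝ} (hk : 0 < k) (hp : 0 < p) (h0 : 0 ≤ OP) (h1 : OP ≤ 3) :
    0 ≤ Bq k OP p ∧ Bq k OP p ≤ 3 + 9 / 2 * (p / k) := by
  have h3 : OP ^ 2 ≤ 9 := by nlinarith
  have h5 : 0 < p / k := div_pos hp hk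
  have h4 : OP ^ 2 * p / (2 * k) ≤ 9 / 2 * (p / k) := by
    have : OP ^ 2 * p / (2 * k) = OP ^ 2 / 2 * (p / k) := by field_simp
    rw [this]
    apply mul_le_mul_of_nonneg_right _ h5.le
    linarith
  unfold Bq
  constructor
  · positivity
  · linarith

lemma quad_le {C p O B a : ℝ} (hp : 0 < p) (hO : 0 < O) (hC : C ≤ 2 / (p * (O / 20))) :
    C * (a * B) ^ 2 ≤ 40 / (p * O) * B ^ 2 * a ^ 2 := by
  have h4 : 40 / (p * O) = 2 / (p * (O / 20)) := by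
    field_simp
    norm_num
  have h5 : C * (a * B) ^ 2 ≤ 2 / (p * (O / 20)) * (a * B) ^ 2 :=
    mul_le_mul_of_nonneg_right hC (sq_nonneg _)
  have h6 : 2 / (p * (O / 20)) * (a * B) ^ 2 = 40 / (p * O) * B ^ 2 * a ^ 2 := by
    rw [h4]; ring
  rw [h6] at h5
  exact h5

lemma gain_le {e p O x : ℝ} (hp : 0 < p) (he : 1 / 300 ≤ e) (hO : 199 / 100 * e ≤ O)
    (hx : p * (O / 20) ≤ x) : 54 / 10 ^ 8 * p ≤ 49 / 100 * e * x := by
  have h1 : 199 / 2000 * e ≤ O / 20 := by linarith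
  have h2 : p * (199 / 2000 * e) ≤ x := le_trans (mul_le_mul_of_nonneg_left h1 hp.le) hx
  have h3 : 49 / 100 * e * (p * (199 / 2000 * e)) ≤ 49 / 100 * e * x :=
    mul_le_mul_of_nonneg_left h2 (by linarith)
  have h4 : (1 / 300 : ℝ) ^ 2 ≤ e ^ 2 := pow_le_pow_left₀ (by norm_num) he 2
  have h5 : p * (1 / 300 : ℝ) ^ 2 ≤ p * e ^ 2 := mul_le_mul_of_nonneg_left h4 hp.le
  have h6 : 49 / 100 * e * (p * (199 / 2000 * e)) = 9751 / 200000 * (p * e ^ 2) := by ring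
  rw [h6] at h3
  have h7 : 54 / 10 ^ 8 * p ≤ 9751 / 200000 * (p * (1 / 300 : ℝ) ^ 2) := by
    have : 9751 / 200000 * (p * (1 / 300 : ℝ) ^ 2) = 9751 / 18000000000 * p := by ring
    rw [this]
    apply mul_le_mul_of_nonneg_right _ hp.le
    norm_num
  linarith

lemma ab_le {a B k p O x : ℝ} (hk : 0 < k) (hp : 0 < p) (ha : |a| ≤ k / 10 ^ 20) (hB0 : 0 ≤ B)
    (hB : B ≤ 3 + 9 / 2 * (p / k)) (hO : 1 / 160 ≤ O) (hx : p * (O / 20) ≤ x) :
    |a| * B ≤ (k + x) / 2 := by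
  have h1 : |a| * B ≤ k / 10 ^ 20 * (3 + 9 / 2 * (p / k)) :=
    mul_le_mul ha hB hB0 (by positivity)
  have h2 : k / 10 ^ 20 * (3 + 9 / 2 * (p / k)) = 3 / 10 ^ 20 * k + 9 / 2 / 10 ^ 20 * p := by
    field_simp
  rw [h2] at h1
  have h3 : p * (1 / 3200) ≤ p * (O / 20) := by
    apply mul_le_mul_of_nonneg_left _ hp.le
    linarith
  have h4 : 9 / 2 / 10 ^ 20 * p ≤ 1 / 6400 * p := by
    apply mul_le_mul_of_nonneg_right _ hp.le
    norm_num
  have h5 : 3 / 10 ^ 20 * k ≤ 1 / 2 * k := by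
    apply mul_le_mul_of_nonneg_right _ hk.le
    norm_num
  linarith

lemma loss1 {La' B p k m S : ℝ} (hL : 0 < La') (hp : 0 < p) (hk : 0 < k)
    (hB : B ≤ 10 ^ 30 * (p / k)) (hS0 : 0 ≤ S) (hS : S ≤ 2 * 10 ^ 9)
    (hu : La' / k ≤ m / 10 ^ 100) : 2 * La' * B * S ≤ 4 / 10 ^ 61 * (m * p) := by
  have h1 : 2 * La' * B * S ≤ 2 * La' * (10 ^ 30 * (p / k)) * (2 * 10 ^ 9) := by
    apply mul_le_mul _ hS hS0 (by positivity)
    exact mul_le_mul_of_nonneg_left hB (by positivity)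
  have h2 : 2 * La' * (10 ^ 30 * (p / k)) * (2 * 10 ^ 9) = 4 * 10 ^ 39 * (p * (La' / k)) := by
    ring
  have h3 : p * (La' / k) ≤ p * (m / 10 ^ 100) := mul_le_mul_of_nonneg_left hu hp.le
  have h5 : 4 * 10 ^ 39 * (p * (La' / k)) ≤ 4 * 10 ^ 39 * (p * (m / 10 ^ 100)) :=
    mul_le_mul_of_nonneg_left h3 (by norm_num)
  have h4 : 4 * 10 ^ 39 * (p * (m / 10 ^ 100)) = 4 / 10 ^ 61 * (m * p) := by ring
  rw [h2] at h1
  rw [h4] at h5
  exact h1.trans h5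

lemma loss2 {B p k m S O : ℝ} (hp : 0 < p) (hk : 0 < k) (hB0 : 0 ≤ B)
    (hB : B ≤ 10 ^ 30 * (p / k)) (hS0 : 0 ≤ S) (hS : S ≤ k / 10 ^ 20 * (2 * 10 ^ 9))
    (hu : 1 / k ≤ m / 10 ^ 100) (hO : 1 / 160 ≤ O) :
    40 / (p * O) * B ^ 2 * S ≤ 128 / 10 ^ 47 * (m * p) := by
  have hO0 : 0 < O := by linarith
  have hB2 : B ^ 2 ≤ (10 ^ 30 * (p / k)) ^ 2 := pow_le_pow_left₀ hB0 hB 2
  have h1 : 40 / (p * O) * B ^ 2 * S ≤
      40 / (p * O) * (10 ^ 30 * (p / k)) ^ 2 * (k / 10 ^ 20 * (2 * 10 ^ 9)) := by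
    apply mul_le_mul _ hS hS0 (by positivity)
    exact mul_le_mul_of_nonneg_left hB2 (by positivity)
  have h2 : 40 / (p * O) * (10 ^ 30 * (p / k)) ^ 2 * (k / 10 ^ 20 * (2 * 10 ^ 9)) =
      80 * 10 ^ 49 * (1 / O) * (p * (1 / k)) := by
    have hp' := hp.ne'
    have hk' := hk.ne'
    have hO' := hO0.ne'
    field_simp
    ring
  have h3 : 1 / O ≤ 160 := by
    rw [div_le_iff₀ hO0]
    linarith
  have h4 : p * (1 / k) ≤ p * (m / 10 ^ 100) := mul_le_mul_of_nonneg_left hu hp.le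
  have h5 : 80 * 10 ^ 49 * (1 / O) * (p * (1 / k)) ≤
      80 * 10 ^ 49 * 160 * (p * (m / 10 ^ 100)) := by
    apply mul_le_mul _ h4 (by positivity) (by norm_num)
    exact mul_le_mul_of_nonneg_left h3 (by norm_num)
  have h6 : 80 * 10 ^ 49 * 160 * (p * (m / 10 ^ 100)) = 128 / 10 ^ 49 * (m * p) := by ring
  have hmp : 0 ≤ m * p := by
    have : 0 < m / 10 ^ 100 := lt_of_lt_of_le (by positivity) hu
    have hm : 0 < m := by
      rwa [lt_div_iff₀ (by norm_num), zero_mul] at this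
    positivity
  have h7 : 128 / 10 ^ 49 * (m * p) ≤ 128 / 10 ^ 47 * (m * p) := by
    apply mul_le_mul_of_nonneg_right _ hmp
    norm_num
  rw [h2] at h1
  rw [h6] at h5
  exact h1.trans (h5.trans h7)

end HLAux

section

variable {ι : Type*} [DecidableEq ι]

/-- `0 ≤ B ≤ 10^30 p/κ` for `0 ≤ Ω_P ≤ 3`, `p ≥ κ/10^29`. -/
lemma Bq_le3 {q m OP p : ℝ} (h : Reg q m) (h0 : 0 ≤ OP) (h1 : OP ≤ 3)
    (hp : kp q m / 10 ^ 29 ≤ p) :
    0 ≤ Bq (kp q m) OP p ∧ Bq (kp q m) OP p ≤ 10 ^ 30 * (p / kp q m) := by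
  have hk : 0 < kp q m := kp_pos h.hm
  have hp0 : 0 < p := lt_of_lt_of_le (by positivity) hp
  obtain ⟨h2, h3⟩ := HLAux.bq_le hk hp0 h0 h1
  refine ⟨h2, h3.trans ?_⟩
  have h6 : 1 ≤ 10 ^ 29 * (p / kp q m) := by
    rw [div_le_iff₀ (by norm_num)] at hp
    rw [mul_div_assoc', le_div_iff₀ hk]
    linarith
  linarith

/-- MODULE RT18. Heavy point of weight `p` against the light points. `O = Ω`, `ϖ = O/20`,
`Ω_P = O + 2ϖ = 11/10 O`, `λ z = Ω_P - (O + om z) ∈ [ϖ, 3ϖ]`, `x z = p λ z ∈ [0, 3ϖ] ⊂ [0, e]`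
(`3ϖ ≤ 0.3 e`), `e = 1 - κ`. `Phi_quad` at `K1 = κ + x z ∈ [κ, 1]`:
`Φ(κ + x z - a z B) ≥ Φ(κ + x z) - sl q K1 a z B - cv q K1 (a z B)²
  ≥ Φ(κ) + 0.49 e p ϖ - 2Λ |a z| B - (2/(pϖ)) (a z)² B²`;
positivity: `|a z| B ≤ (κ/10^20)(3 + 9p/(2κ)) ≤ κ/2 + p ϖ/2`. Sum over `z`, with `∑|a| ≤ 2·10^9`,
`∑ a² ≤ 2·10^(-11) κ`, `B ≤ 10^30 p/κ`, `ϖ = O/20 ≥ 0.099 e ≥ 1/3100`, `n ≥ 0.9 m`: gain
`0.9 m·0.49 e·0.099 e·p ≥ 4.8·10^(-7) m p`, losses `4·10^39 Λ p/κ + 10^54 p/κ ≤ 10^(-45) m p`. -/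
theorem hl {q m : ℝ} (h : Reg q m) {L : Finset ι} {a om : ι → ℝ} (hn : 9 / 10 * m ≤ L.card)
    (ha : ∀ z ∈ L, |a z| ≤ kp q m / 10 ^ 20) (hS : ∑ z ∈ L, |a z| ≤ 2 * 10 ^ 9)
    (ho : ∀ z ∈ L, |om z| ≤ Om q m / 20) {p : ℝ} (hp : kp q m / 10 ^ 29 ≤ p) (hp1 : p ≤ 1) :
    (L.card : ℝ) * Phi q (kp q m) + 4 / 10 ^ 7 * m * p
      ≤ ∑ z ∈ L, Phi q (kp q m + p * (11 / 10 * Om q m - (Om q m + om z))
          - a z * Bq (kp q m) (11 / 10 * Om q m) p) := by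
  have hk : 0 < kp q m := kp_pos h.hm
  obtain ⟨hLa, _, hm100, hq97, _⟩ := h.big
  have hq : 0 < q := lt_of_lt_of_le (by norm_num) hq97
  have hm0 : 0 < m := lt_of_lt_of_le (by norm_num) hm100
  have he : 1 / 300 ≤ 1 - kp q m := by linarith [h.kp_le]
  obtain ⟨hO1, hO2⟩ := h.Om_bounds
  obtain ⟨hu1, hu2, _⟩ := h.use
  have hp0 : 0 < p := lt_of_lt_of_le (by positivity) hp
  have hOpos : 1 / 160 ≤ Om q m := by linarith
  have hO3 : 11 / 10 * Om q m ≤ 3 := by linarith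
  obtain ⟨hB0, hB1⟩ := Bq_le3 (OP := 11 / 10 * Om q m) h (by linarith) hO3 hp
  have hBs := (HLAux.bq_le (OP := 11 / 10 * Om q m) hk hp0 (by linarith) hO3).2
  have h2k : (2 : ℝ) ^ (-(q + 1)) ≤ kp q m := by
    obtain ⟨h1, _, _, h4⟩ := h.K0_bounds
    exact h4.trans h1
  have hLa0 : 0 < La q m := by linarith
  -- the bound for one point
  have hpt : ∀ z ∈ L, Phi q (kp q m) + 54 / 10 ^ 8 * p
      - 2 * La q m * Bq (kp q m) (11 / 10 * Om q m) p * |a z|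
      - 40 / (p * Om q m) * Bq (kp q m) (11 / 10 * Om q m) p ^ 2 * a z ^ 2 ≤
        Phi q (kp q m + p * (11 / 10 * Om q m - (Om q m + om z))
          - a z * Bq (kp q m) (11 / 10 * Om q m) p) := by
    intro z hz
    have haz := ha z hz
    have hoz := ho z hz
    rw [abs_le] at hoz
    generalize hB : Bq (kp q m) (11 / 10 * Om q m) p = B at *
    generalize hx : p * (11 / 10 * Om q m - (Om q m + om z)) = x
    have hl1 : Om q m / 20 ≤ 11 / 10 * Om q m - (Om q m + om z) := by linarith [hoz.2]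
    have hl2 : 11 / 10 * Om q m - (Om q m + om z) ≤ 3 * Om q m / 20 := by linarith [hoz.1]
    have hx1 : p * (Om q m / 20) ≤ x := by
      rw [← hx]; exact mul_le_mul_of_nonneg_left hl1 hp0.le
    have hxpos : 0 < p * (Om q m / 20) := by
      apply mul_pos hp0
      linarith
    have hx0 : 0 ≤ x := hxpos.le.trans hx1
    have hx2 : x ≤ 1 - kp q m := by
      have h1 : x ≤ 1 * (3 * Om q m / 20) := by
        rw [← hx]
        apply mul_le_mul hp1 hl2 _ zero_le_one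
        linarith
      linarith
    have hab := HLAux.ab_le hk hp0 haz hB0 hBs hOpos hx1
    have hK : 0 < kp q m + x - a z * B := by
      have h1 : a z * B ≤ |a z| * B := mul_le_mul_of_nonneg_right (le_abs_self _) hB0
      linarith
    have hquad := Phi_quad (q := q) (K1 := kp q m + x) (K := kp q m + x - a z * B) hq
      (by linarith) hK
    have hd : kp q m + x - a z * B - (kp q m + x) = -(a z * B) := by ring
    rw [hd, neg_sq] at hquad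
    have hsl := h.sl_le (K := kp q m + x) (by linarith) (by linarith)
    have hcv := h.cv_le (K := kp q m + x) (by linarith)
    have hlin := h.F_lin (x := x) hx0 hx2
    have h1 : sl q (kp q m + x) * (a z * B) ≤ 2 * La q m * B * |a z| := by
      have h2 : sl q (kp q m + x) * (a z * B) ≤ sl q (kp q m + x) * (|a z| * B) := by
        apply mul_le_mul_of_nonneg_left _ hsl.1
        exact mul_le_mul_of_nonneg_right (le_abs_self _) hB0
      have h3 : sl q (kp q m + x) * (|a z| * B) ≤ 2 * La q m * (|a z| * B) :=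
        mul_le_mul_of_nonneg_right hsl.2 (by positivity)
      linarith
    have h2 : cv q (kp q m + x) * (a z * B) ^ 2 ≤ 40 / (p * Om q m) * B ^ 2 * a z ^ 2 := by
      apply HLAux.quad_le hp0 (by linarith)
      refine hcv.2.trans ?_
      apply div_le_div_of_nonneg_left (by norm_num) hxpos
      linarith
    have h3 : 54 / 10 ^ 8 * p ≤ 49 / 100 * (1 - kp q m) * x := HLAux.gain_le hp0 he hO1 hx1
    have h4 : sl q (kp q m + x) * -(a z * B) = -(sl q (kp q m + x) * (a z * B)) := by ring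
    rw [h4] at hquad
    linarith
  have hsum := Finset.sum_le_sum hpt
  have hloss1 := HLAux.loss1 (S := ∑ z ∈ L, |a z|) hLa0 hp0 hk hB1
    (Finset.sum_nonneg fun z _ => abs_nonneg _) hS hu1
  have hloss2 := HLAux.loss2 (S := ∑ z ∈ L, a z ^ 2) hp0 hk hB0 hB1
    (Finset.sum_nonneg fun z _ => sq_nonneg _) (sum_sq_le (by positivity) ha hS) hu2 hOpos
  generalize hB : Bq (kp q m) (11 / 10 * Om q m) p = B at *
  have hL : ∑ z ∈ L, (Phi q (kp q m) + 54 / 10 ^ 8 * p - 2 * La q m * B * |a z|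
      - 40 / (p * Om q m) * B ^ 2 * a z ^ 2) =
        (L.card : ℝ) * Phi q (kp q m) + (L.card : ℝ) * (54 / 10 ^ 8 * p)
        - 2 * La q m * B * ∑ z ∈ L, |a z| - 40 / (p * Om q m) * B ^ 2 * ∑ z ∈ L, a z ^ 2 := by
    simp only [Finset.sum_sub_distrib, Finset.sum_add_distrib, Finset.sum_const, nsmul_eq_mul,
      Finset.mul_sum]
  rw [hL] at hsum
  refine le_trans ?_ hsum
  have hgain : 486 / 10 ^ 9 * (m * p) ≤ (L.card : ℝ) * (54 / 10 ^ 8 * p) := by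
    have h1 : 9 / 10 * m * (54 / 10 ^ 8 * p) ≤ (L.card : ℝ) * (54 / 10 ^ 8 * p) :=
      mul_le_mul_of_nonneg_right hn (by positivity)
    have h2 : 9 / 10 * m * (54 / 10 ^ 8 * p) = 486 / 10 ^ 9 * (m * p) := by ring
    linarith
  have hmp : 0 < m * p := mul_pos hm0 hp0
  have e1 : 4 / 10 ^ 61 * (m * p) ≤ 1 / 10 ^ 8 * (m * p) := by
    apply mul_le_mul_of_nonneg_right _ hmp.le
    norm_num
  have e2 : 128 / 10 ^ 47 * (m * p) ≤ 1 / 10 ^ 8 * (m * p) := by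
    apply mul_le_mul_of_nonneg_right _ hmp.le
    norm_num
  have e3 : 4 / 10 ^ 7 * m * p = 4 / 10 ^ 7 * (m * p) := by ring
  rw [e3]
  linarith

end

end Pool.Agent.RieszTr
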