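import Pool.Agent.RieszTr.Defs

set_option autoImplicit false

open Real Finset

namespace Pool.Agent.RieszTr

open Pool.Agent.RieszSmall Pool.Agent.RieszLin

namespace Phi1Aux

lemma two_mul_half (q : ℝ) : (2 : ℝ) * 2 ^ (-(q + 1)) = 2 ^ (-q) := by
  have h : (2 : ℝ) ^ (-q) = 2 ^ (-(q + 1) + 1) := by congr 1; ring
  rw [h, Real.rpow_add_one (by norm_num : (2 : ℝ) ≠ 0)]
  ring

lemma half_pow (q : ℝ) : (1 / 2 : ℝ) ^ q = 2 ^ (-q) := by
  rw [one_div, Real.inv_rpow (by norm_num), Real.rpow_neg (by norm_num)]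

lemma root_pow {q K : ℝ} (hq : 0 < q) (hK : 0 < K) :
    (K ^ (1 / (q + 1))) ^ q = K ^ (q / (q + 1)) ∧ (K ^ (1 / (q + 1))) ^ (q + 1) = K := by
  have hq1 : (q + 1 : ℝ) ≠ 0 := by positivity
  constructor
  · rw [← Real.rpow_mul hK.le]; congr 1; field_simp
  · rw [← Real.rpow_mul hK.le, one_div, inv_mul_cancel₀ hq1, Real.rpow_one]

end Phi1Aux

open Phi1Aux

/-- MODULE RT1. -/
theorem Phi_of_le {q K : ℝ} (h : (2 : ℝ) ^ (-(q + 1)) ≤ K) :
    Phi q K = (q + 1) * K ^ (q / (q + 1)) - q * K := by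
  unfold Phi
  rw [if_pos h]

theorem Phi_of_lt {q K : ℝ} (h : K < (2 : ℝ) ^ (-(q + 1))) :
    Phi q K = 2 ^ (-q) + q * K := by
  unfold Phi
  rw [if_neg (not_le.2 h)]

/-- The two formulas agree at `2^(-p)`: `(2^(-p))^(q/p) = 2^(-q)`, `2^(-q) = 2 * 2^(-p)`; so the
second formula also holds for `K ≤ 2^(-p)`. -/
theorem Phi_of_le' {q K : ℝ} (hq : 0 < q) (h : K ≤ (2 : ℝ) ^ (-(q + 1))) :
    Phi q K = 2 ^ (-q) + q * K := by
  rcases h.lt_or_eq with h | h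
  · exact Phi_of_lt h
  · rw [Phi_of_le h.ge, h, ← Real.rpow_mul (by norm_num : (0 : ℝ) ≤ 2)]
    have h1 : -(q + 1) * (q / (q + 1)) = -q := by
      have : (q + 1 : ℝ) ≠ 0 := by positivity
      field_simp
    rw [h1, ← two_mul_half q]
    ring

/-- Tangent inequality. If `2^(-p) ≤ K`: `tangent_ineq` (RieszSmall/Energy.lean) with
`t = K^(1/p)`, `y = D` (as in RieszLin/Dual.lean: `t^q = K^(q/p)`, `t^(q+1) = K`). If
`K < 2^(-p)`: `tangent_ineq` with `t = 1/2`, `y = D` gives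
`D^(-q) ≥ (1+q) 2^(-q) - q 2^(-(q+1)) D = 2^(-q) + q 2^(-(q+1)) (2 - D)`, and
`2^(-q) + q K + q K (1 - D) = 2^(-q) + q K (2 - D) ≤ 2^(-q) + q 2^(-(q+1)) (2 - D)`. -/
theorem Phi_tangent {q K D : ℝ} (hq : 0 < q) (hD : 0 < D) (hD2 : D ≤ 2) :
    Phi q K + q * K * (1 - D) ≤ D ^ (-q) := by
  have h2 : (0 : ℝ) < 2 ^ (-(q + 1)) := Real.rpow_pos_of_pos (by norm_num) _
  by_cases h : (2 : ℝ) ^ (-(q + 1)) ≤ K
  · have hK : 0 < K := lt_of_lt_of_le h2 h
    have ht := tangent_ineq hq (Real.rpow_pos_of_pos hK (1 / (q + 1))) hD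
    rw [(root_pow hq hK).1, (root_pow hq hK).2] at ht
    rw [Phi_of_le h]
    linarith
  · push Not at h
    have ht := tangent_ineq (t := 1 / 2) hq (by norm_num) hD
    rw [half_pow, half_pow] at ht
    rw [Phi_of_lt h]
    have h3 := two_mul_half q
    have h4 : q * K * (2 - D) ≤ q * 2 ^ (-(q + 1)) * (2 - D) := by
      apply mul_le_mul_of_nonneg_right _ (by linarith)
      exact mul_le_mul_of_nonneg_left h.le hq.le
    nlinarith [h3, h4, ht]

/-- Equality case, from `tangent_eq` (RieszSmall/Energy.lean): `t * D = 1`, so `D^(-p) = t^p = K`.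
Compare the end of `dual_bound` in RieszLin/Dual.lean. -/
theorem Phi_tangent_eq {q K D : ℝ} (hq : 0 < q) (hD : 0 < D) (hK : (2 : ℝ) ^ (-(q + 1)) ≤ K)
    (h : Phi q K + q * K * (1 - D) = D ^ (-q)) : D ^ (-(q + 1)) = K := by
  have h2 : (0 : ℝ) < 2 ^ (-(q + 1)) := Real.rpow_pos_of_pos (by norm_num) _
  have hK0 : 0 < K := lt_of_lt_of_le h2 hK
  have ht0 := Real.rpow_pos_of_pos hK0 (1 / (q + 1))
  have ht := tangent_eq hq ht0 hD (by
    rw [(root_pow hq hK0).1, (root_pow hq hK0).2]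
    rw [Phi_of_le hK] at h
    linarith)
  have hD' : D = (K ^ (1 / (q + 1)))⁻¹ := by
    field_simp
    linarith
  rw [hD', Real.inv_rpow ht0.le, Real.rpow_neg ht0.le, inv_inv, (root_pow hq hK0).2]

end Pool.Agent.RieszTr
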