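import Pool.Agent.RieszTr.Phi1

set_option autoImplicit false

open Real Finset

namespace Pool.Agent.RieszTr

open Pool.Agent.RieszSmall Pool.Agent.RieszLin

namespace Phi2Aux

theorem pow_split {q u : ℝ} (hq : 0 < q) (hu : 0 < u) :
    u ^ (q / (q + 1)) = u * u ^ (-(1 / (q + 1))) := by
  rw [← Real.rpow_one_add' hu.le]
  · congr 1
    field_simp
    ring
  · have : 0 < q / (q + 1) := by positivity
    have h : 1 + -(1 / (q + 1)) = q / (q + 1) := by field_simp; ring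
    rw [h]
    exact this.ne'

theorem pow_div {q K K1 : ℝ} (hK : 0 ≤ K) (hK1 : 0 < K1) :
    K ^ (q / (q + 1)) = K1 ^ (q / (q + 1)) * (K / K1) ^ (q / (q + 1)) := by
  rw [← Real.mul_rpow hK1.le (by positivity), mul_div_cancel₀ _ hK1.ne']

theorem c_pos (q : ℝ) : 0 < (2 : ℝ) ^ (-(q + 1)) := Real.rpow_pos_of_pos two_pos _

theorem c_inv {q : ℝ} (hq : 0 < q) : ((2 : ℝ) ^ (-(q + 1))) ^ (-(1 / (q + 1))) = 2 := by
  rw [← Real.rpow_mul two_pos.le]
  have : -(q + 1) * -(1 / (q + 1)) = 1 := by field_simp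
  rw [this, Real.rpow_one]

theorem c_two (q : ℝ) : (2 : ℝ) ^ (-q) = 2 * (2 : ℝ) ^ (-(q + 1)) := by
  have : -q = 1 + -(q + 1) := by ring
  rw [this, Real.rpow_add two_pos, Real.rpow_one]

theorem c_pow {q : ℝ} (hq : 0 < q) : ((2 : ℝ) ^ (-(q + 1))) ^ (q / (q + 1)) = 2 ^ (-q) := by
  rw [pow_split hq (c_pos q), c_inv hq, c_two q]
  ring

end Phi2Aux

open Phi2Aux

/-- MODULE RT2. For `u > 0`: `p u^(q/p) ≥ p + q (u-1) - (u-1)²`. Proof:
`u^(q/p) = u * u^(-1/p)`, `u^(-1/p) = exp (-(log u)/p) ≥ 1 - (log u)/p ≥ 1 - (u-1)/p`. -/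
theorem rpow_quad {q u : ℝ} (hq : 0 < q) (hu : 0 < u) :
    (q + 1) + q * (u - 1) - (u - 1) ^ 2 ≤ (q + 1) * u ^ (q / (q + 1)) := by
  rw [pow_split hq hu]
  have h1 : 1 - (u - 1) / (q + 1) ≤ u ^ (-(1 / (q + 1))) := by
    rw [Real.rpow_def_of_pos hu]
    have h4 := Real.add_one_le_exp (Real.log u * -(1 / (q + 1)))
    have h5 := Real.log_le_sub_one_of_pos hu
    have h6 : Real.log u * (1 / (q + 1)) ≤ (u - 1) * (1 / (q + 1)) :=
      mul_le_mul_of_nonneg_right h5 (by positivity)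
    have h7 : (u - 1) / (q + 1) = (u - 1) * (1 / (q + 1)) := by ring
    rw [h7]
    linarith
  have h2 : (q + 1) * (u * (1 - (u - 1) / (q + 1))) ≤ (q + 1) * (u * u ^ (-(1 / (q + 1)))) := by
    gcongr
  refine le_trans (le_of_eq ?_) h2
  field_simp
  ring

/-- For `u ≥ 0`: `p u^(q/p) ≤ p + q (u-1)` (Bernoulli `Real.rpow_one_add_le_one_add_mul_self`). -/
theorem rpow_tan {q u : ℝ} (hq : 0 < q) (hu : 0 ≤ u) :
    (q + 1) * u ^ (q / (q + 1)) ≤ (q + 1) + q * (u - 1) := by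
  have h := _root_.rpow_one_add_le_one_add_mul_self (s := u - 1) (by linarith)
    (p := q / (q + 1)) (by positivity) (by rw [div_le_one (by positivity)]; linarith)
  rw [add_sub_cancel] at h
  calc (q + 1) * u ^ (q / (q + 1)) ≤ (q + 1) * (1 + q / (q + 1) * (u - 1)) := by gcongr
    _ = (q + 1) + q * (u - 1) := by field_simp

namespace Phi2Aux

theorem tangent_ge {q K1 K : ℝ} (hq : 0 < q) (h1 : (2 : ℝ) ^ (-(q + 1)) ≤ K1)
    (h2 : (2 : ℝ) ^ (-(q + 1)) ≤ K) : Phi q K ≤ Phi q K1 + sl q K1 * (K - K1) := by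
  have hK1 : 0 < K1 := lt_of_lt_of_le (c_pos q) h1
  have hK : 0 < K := lt_of_lt_of_le (c_pos q) h2
  rw [Phi_of_le h1, Phi_of_le h2, pow_div hK.le hK1, sl, pow_split hq hK1]
  set r := K1 ^ (-(1 / (q + 1))) with hr
  have hr0 : 0 < r := Real.rpow_pos_of_pos hK1 _
  have h := rpow_tan hq (div_nonneg hK.le hK1.le)
  have h3 : K1 * r * ((q + 1) * (K / K1) ^ (q / (q + 1))) ≤ K1 * r * ((q + 1) + q * (K / K1 - 1)) := by
    gcongr
  have h4 : K1 * r * ((q + 1) + q * (K / K1 - 1)) = (q + 1) * (K1 * r) + q * r * (K - K1) := by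
    field_simp
  rw [h4] at h3
  nlinarith [h3]

theorem sl_c {q : ℝ} (hq : 0 < q) : sl q ((2 : ℝ) ^ (-(q + 1))) = q := by
  rw [sl, c_inv hq]; ring

theorem sl_le {q K1 : ℝ} (hq : 0 < q) (h1 : (2 : ℝ) ^ (-(q + 1)) ≤ K1) : sl q K1 ≤ q := by
  have h : K1 ^ (-(1 / (q + 1))) ≤ ((2 : ℝ) ^ (-(q + 1))) ^ (-(1 / (q + 1))) :=
    Real.rpow_le_rpow_of_nonpos (c_pos q) h1 (by
      have : 0 < 1 / (q + 1) := by positivity
      linarith)
  rw [c_inv hq] at h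
  rw [sl]
  nlinarith

end Phi2Aux

/-- Tangent lines lie above: at a point `K1 ≥ 2^(-p)`. For `K ≥ 2^(-p)`: `rpow_tan` with
`u = K/K1`, multiplied by `K1^(q/p) = K1 * K1^(-1/p)`. For `K < 2^(-p)`: use the previous case at
`2^(-p)`, `Phi q K = Phi q (2^(-p)) + q (K - 2^(-p))` and `sl q K1 ≤ sl q (2^(-p)) = q`. -/
theorem Phi_le_tangent {q K1 K : ℝ} (hq : 0 < q) (h1 : (2 : ℝ) ^ (-(q + 1)) ≤ K1) :
    Phi q K ≤ Phi q K1 + sl q K1 * (K - K1) := by
  rcases le_total ((2 : ℝ) ^ (-(q + 1))) K with h2 | h2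
  · exact tangent_ge hq h1 h2
  · have h3 := tangent_ge hq h1 le_rfl (K := (2 : ℝ) ^ (-(q + 1)))
    rw [Phi_of_le' hq le_rfl] at h3
    rw [Phi_of_le' hq h2]
    have h4 := sl_le hq h1
    nlinarith

/-- Tangent line at a point `K1 ≤ 2^(-p)`: slope `q` (for `K ≤ 2^(-p)` equality; for larger `K`
`Phi_le_tangent` at `2^(-p)`, whose slope is `q`). -/
theorem Phi_le_line {q K1 K : ℝ} (hq : 0 < q) (h1 : K1 ≤ (2 : ℝ) ^ (-(q + 1))) :
    Phi q K ≤ Phi q K1 + q * (K - K1) := by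
  have h2 := Phi_le_tangent hq le_rfl (K := K)
  rw [Phi_of_le' hq le_rfl, sl_c hq] at h2
  rw [Phi_of_le' hq h1]
  linarith

/-- The basic quadratic lower bound. For `K ≥ 2^(-p)`: `rpow_quad` with `u = K/K1`, multiplied by
`K1^(q/p) = K1 * K1^(-1/p)`. For `0 < K < 2^(-p)`: the same lower bound holds for
`p K^(q/p) - q K`, and `p K^(q/p) - q K ≤ 2^(-q) + q K = Phi q K` (`rpow_tan` with
`u = K / 2^(-p)`). -/
theorem Phi_quad {q K1 K : ℝ} (hq : 0 < q) (h1 : (2 : ℝ) ^ (-(q + 1)) ≤ K1) (hK : 0 < K) :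
    Phi q K1 + sl q K1 * (K - K1) - cv q K1 * (K - K1) ^ 2 ≤ Phi q K := by
  have hK1 : 0 < K1 := lt_of_lt_of_le (c_pos q) h1
  have key : Phi q K1 + sl q K1 * (K - K1) - cv q K1 * (K - K1) ^ 2 ≤
      (q + 1) * K ^ (q / (q + 1)) - q * K := by
    rw [Phi_of_le h1, pow_div hK.le hK1, sl, cv, pow_split hq hK1]
    set r := K1 ^ (-(1 / (q + 1))) with hr
    have hr0 : 0 < r := Real.rpow_pos_of_pos hK1 _
    have h := rpow_quad hq (div_pos hK hK1)
    have h3 : K1 * r * ((q + 1) + q * (K / K1 - 1) - (K / K1 - 1) ^ 2) ≤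
        K1 * r * ((q + 1) * (K / K1) ^ (q / (q + 1))) := by
      gcongr
    have h4 : K1 * r * ((q + 1) + q * (K / K1 - 1) - (K / K1 - 1) ^ 2) =
        (q + 1) * (K1 * r) + q * r * (K - K1) - r / K1 * (K - K1) ^ 2 := by
      field_simp
    rw [h4] at h3
    nlinarith [h3]
  rcases le_or_gt ((2 : ℝ) ^ (-(q + 1))) K with h2 | h2
  · rw [Phi_of_le h2]
    exact key
  · refine key.trans ?_
    rw [Phi_of_lt h2, pow_div hK.le (c_pos q), c_pow hq]
    set c := (2 : ℝ) ^ (-(q + 1)) with hc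
    have hc0 : 0 < c := c_pos q
    have h := rpow_tan hq (div_nonneg hK.le hc0.le)
    have h3 : (2 : ℝ) ^ (-q) * ((q + 1) * (K / c) ^ (q / (q + 1))) ≤
        (2 : ℝ) ^ (-q) * ((q + 1) + q * (K / c - 1)) :=
      mul_le_mul_of_nonneg_left h (Real.rpow_nonneg two_pos.le _)
    have h4 : (2 : ℝ) ^ (-q) * ((q + 1) + q * (K / c - 1)) = 2 ^ (-q) + 2 * q * K := by
      rw [c_two q, ← hc]
      field_simp
      ring
    rw [h4] at h3
    nlinarith [h3]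

end Pool.Agent.RieszTr
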