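import Pool.Agent.RieszTr.Phi2

set_option autoImplicit false

open Real Finset

namespace Pool.Agent.RieszTr

open Pool.Agent.RieszSmall Pool.Agent.RieszLin

namespace Phi3Aux

theorem T0_pos (q : ℝ) : (0 : ℝ) < 2 ^ (-(q + 1)) := Real.rpow_pos_of_pos (by norm_num) _

theorem T0_le_one {q : ℝ} (hq : 0 < q) : (2 : ℝ) ^ (-(q + 1)) ≤ 1 :=
  Real.rpow_le_one_of_one_le_of_nonpos (by norm_num) (by linarith)

theorem sl_nonneg {q K : ℝ} (hq : 0 < q) (hK : 0 < K) (hK1 : K ≤ 1) : 0 ≤ sl q K := by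
  unfold sl
  apply mul_nonneg hq.le
  have h : 1 ≤ K ^ (-(1 / (q + 1))) := by
    apply Real.one_le_rpow_of_pos_of_le_one_of_nonpos hK hK1
    have : 0 < 1 / (q + 1) := by positivity
    linarith
  linarith

theorem sl_le {q K : ℝ} (hq : 0 < q) (hK : (2 : ℝ) ^ (-(q + 1)) ≤ K) : sl q K ≤ q := by
  unfold sl
  have h1 : K ^ (-(1 / (q + 1))) ≤ 2 := by
    have h2 : K ^ (-(1 / (q + 1))) ≤ ((2 : ℝ) ^ (-(q + 1))) ^ (-(1 / (q + 1))) := by
      apply Real.rpow_le_rpow_of_nonpos (T0_pos q) hK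
      have : 0 < 1 / (q + 1) := by positivity
      linarith
    have h3 : ((2 : ℝ) ^ (-(q + 1))) ^ (-(1 / (q + 1))) = 2 := by
      rw [← Real.rpow_mul (by norm_num)]
      have : -(q + 1) * -(1 / (q + 1)) = 1 := by
        field_simp
      rw [this, Real.rpow_one]
    linarith
  nlinarith

/-- a supporting line at every point -/
theorem support {q : ℝ} (hq : 0 < q) (m : ℝ) : ∃ s : ℝ, ∀ x, Phi q x ≤ Phi q m + s * (x - m) := by
  rcases le_total ((2 : ℝ) ^ (-(q + 1))) m with h | h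
  · exact ⟨sl q m, fun x => Phi_le_tangent hq h⟩
  · exact ⟨q, fun x => Phi_le_line hq h⟩

theorem rpow_split {q K : ℝ} (hq : 0 < q) (hK : 0 < K) :
    K ^ (q / (q + 1)) = K * K ^ (-(1 / (q + 1))) := by
  have h : q / (q + 1) = 1 + -(1 / (q + 1)) := by
    field_simp
    ring
  rw [h, Real.rpow_add hK, Real.rpow_one]

theorem rpow_low {q K : ℝ} (hq : 0 < q) (hK : 0 < K) :
    1 - Real.log K / (q + 1) ≤ K ^ (-(1 / (q + 1))) := by
  rw [Real.rpow_def_of_pos hK]
  have h := Real.add_one_le_exp (Real.log K * (-(1 / (q + 1))))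
  have : Real.log K * (-(1 / (q + 1))) = -(Real.log K / (q + 1)) := by ring
  rw [this] at h ⊢
  linarith

theorem lower_aux {q K : ℝ} (hq : 0 < q) (hK : 0 < K) :
    K - K * Real.log K ≤ (q + 1) * K ^ (q / (q + 1)) - q * K := by
  rw [rpow_split hq hK]
  have h := rpow_low hq hK
  have h2 : K * (1 - Real.log K / (q + 1)) ≤ K * K ^ (-(1 / (q + 1))) :=
    mul_le_mul_of_nonneg_left h hK.le
  have h3 : (q + 1) * (K * (1 - Real.log K / (q + 1))) ≤ (q + 1) * (K * K ^ (-(1 / (q + 1)))) :=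
    mul_le_mul_of_nonneg_left h2 (by linarith)
  have h4 : (q + 1) * (K * (1 - Real.log K / (q + 1))) = K * (q + 1) - K * Real.log K := by
    field_simp
  linarith

theorem upper_aux {q K : ℝ} (hq : 0 < q) (hK : 0 < K) :
    (q + 1) * K ^ (q / (q + 1)) - q * K ≤ 2 ^ (-q) + q * K := by
  have hT := T0_pos q
  have h := rpow_tan hq (u := K / (2 : ℝ) ^ (-(q + 1))) (by positivity)
  have e1 : (2 : ℝ) ^ (-q) = 2 * (2 : ℝ) ^ (-(q + 1)) := by
    rw [show -q = 1 + -(q + 1) by ring, Real.rpow_add (by norm_num), Real.rpow_one]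
  have e2 : ((2 : ℝ) ^ (-(q + 1))) ^ (q / (q + 1)) = 2 ^ (-q) := by
    rw [← Real.rpow_mul (by norm_num)]
    congr 1
    field_simp
  rw [Real.div_rpow hK.le hT.le, e2] at h
  have hpos : (0 : ℝ) < 2 ^ (-q) := Real.rpow_pos_of_pos (by norm_num) _
  have h2 : (q + 1) * (K ^ (q / (q + 1)) / 2 ^ (-q)) * 2 ^ (-q) ≤
      ((q + 1) + q * (K / (2 : ℝ) ^ (-(q + 1)) - 1)) * 2 ^ (-q) :=
    mul_le_mul_of_nonneg_right h hpos.le
  have h3 : (q + 1) * (K ^ (q / (q + 1)) / 2 ^ (-q)) * 2 ^ (-q) = (q + 1) * K ^ (q / (q + 1)) := by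
    field_simp
  have h4 : ((q + 1) + q * (K / (2 : ℝ) ^ (-(q + 1)) - 1)) * 2 ^ (-q) = 2 ^ (-q) + 2 * q * K := by
    rw [e1]
    field_simp
    ring
  rw [h3, h4] at h2
  linarith

end Phi3Aux

open Phi3Aux

/-- MODULE RT3. -/
theorem Phi_one {q : ℝ} (hq : 0 < q) : Phi q 1 = 1 := by
  rw [Phi_of_le (T0_le_one hq), Real.one_rpow]
  ring

theorem sl_one {q : ℝ} : sl q 1 = 0 := by
  unfold sl
  rw [Real.one_rpow]
  ring

theorem cv_one {q : ℝ} : cv q 1 = 1 := by
  unfold cv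
  rw [Real.one_rpow]
  norm_num

/-- tangent at `1` -/
theorem Phi_le_one {q K : ℝ} (hq : 0 < q) : Phi q K ≤ 1 := by
  have h := Phi_le_tangent hq (K := K) (T0_le_one hq)
  rw [Phi_one hq, sl_one] at h
  linarith

/-- `Phi_quad` at `1` -/
theorem Phi_ge_one {q K : ℝ} (hq : 0 < q) (hK : 0 < K) : 1 - (K - 1) ^ 2 ≤ Phi q K := by
  have h := Phi_quad hq (T0_le_one hq) hK
  rw [Phi_one hq, sl_one, cv_one] at h
  linarith

/-- `Φ` is nondecreasing on `(-∞, 1]`: for `K ≤ K' ≤ 1`: tangent at `K'` (slope `≥ 0`). -/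
theorem Phi_mono {q K K' : ℝ} (hq : 0 < q) (h : K ≤ K') (h' : K' ≤ 1) :
    Phi q K ≤ Phi q K' := by
  rcases le_total ((2 : ℝ) ^ (-(q + 1))) K' with h1 | h1
  · have h2 := Phi_le_tangent hq (K := K) h1
    have h3 := sl_nonneg hq (lt_of_lt_of_le (T0_pos q) h1) h'
    have h4 : sl q K' * (K - K') ≤ 0 := mul_nonpos_of_nonneg_of_nonpos h3 (by linarith)
    linarith
  · have h2 := Phi_le_line hq (K := K) h1
    have h4 : q * (K - K') ≤ 0 := mul_nonpos_of_nonneg_of_nonpos hq.le (by linarith)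
    linarith

/-- slope at most `q`: tangent at `K`. -/
theorem Phi_slope {q K K' : ℝ} (hq : 0 < q) (h : K ≤ K') :
    Phi q K' - q * (K' - K) ≤ Phi q K := by
  rcases le_total ((2 : ℝ) ^ (-(q + 1))) K with h1 | h1
  · have h2 := Phi_le_tangent hq (K := K') h1
    have h4 : sl q K * (K' - K) ≤ q * (K' - K) :=
      mul_le_mul_of_nonneg_right (sl_le hq h1) (by linarith)
    linarith
  · have h2 := Phi_le_line hq (K := K') h1
    linarith

/-- concavity: supporting lines at `(1-t) K + t K'`. -/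
theorem Phi_concave {q K K' t : ℝ} (hq : 0 < q) (h0 : 0 ≤ t) (h1 : t ≤ 1) :
    (1 - t) * Phi q K + t * Phi q K' ≤ Phi q ((1 - t) * K + t * K') := by
  obtain ⟨s, hs⟩ := support hq ((1 - t) * K + t * K')
  have h2 := mul_le_mul_of_nonneg_left (hs K) (by linarith : 0 ≤ 1 - t)
  have h3 := mul_le_mul_of_nonneg_left (hs K') h0
  nlinarith

/-- concavity along a ray from `k`. -/
theorem Phi_ray {q k x t : ℝ} (hq : 0 < q) (h0 : 0 ≤ t) (h1 : t ≤ 1) :
    Phi q k + t * (Phi q (k + x) - Phi q k) ≤ Phi q (k + t * x) := by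
  have h := Phi_concave hq (K := k) (K' := k + x) h0 h1
  have e : (1 - t) * k + t * (k + x) = k + t * x := by ring
  rw [e] at h
  linarith

/-- `K - K log K ≤ Φ(K)` for `K > 0`: for `K ≥ 2^(-p)`, `p K^(q/p) = p K K^(-1/p) ≥ K (p - log K)`;
for `K < 2^(-p)` the same bound holds for `p K^(q/p) - q K`, which is at most `Φ(K)`
(`Phi_le_tangent`-type inequality at `2^(-p)`, see the proof of `Phi_quad`). -/
theorem Phi_lower {q K : ℝ} (hq : 0 < q) (hK : 0 < K) : K - K * Real.log K ≤ Phi q K := by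
  rcases le_or_gt ((2 : ℝ) ^ (-(q + 1))) K with h | h
  · rw [Phi_of_le h]
    exact lower_aux hq hK
  · rw [Phi_of_lt h]
    exact (lower_aux hq hK).trans (upper_aux hq hK)

/-- `0 < Φ(K)` for `0 < K ≤ 1` -/
theorem Phi_pos {q K : ℝ} (hq : 0 < q) (hK : 0 < K) (hK1 : K ≤ 1) : 0 < Phi q K := by
  have h := Phi_lower hq hK
  have h2 : Real.log K ≤ 0 := Real.log_nonpos hK.le hK1
  nlinarith

/-- Second order upper bound at `1`: `p u^(q/p) - q u ≤ 1 - (q/(2p)) (1-u)²` for `0 < u ≤ 1`.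
Proof: `g u = 1 + q u - (q/(2p)) (1-u)² - p u^(q/p)` has `g 1 = 0` and
`g' u = q + (q/p)(1-u) - q u^(-1/p) ≤ 0` because `u^(-1/p) = exp (-(log u)/p) ≥ 1 - (log u)/p ≥
1 + (1-u)/p`; so `g` is antitone on `(0,1]` (`antitoneOn_of_deriv_nonpos` on `Set.Icc u 1`). -/
theorem rpow_second {q u : ℝ} (hq : 0 < q) (hu : 0 < u) (hu1 : u ≤ 1) :
    (q + 1) * u ^ (q / (q + 1)) - q * u ≤ 1 - q / (2 * (q + 1)) * (1 - u) ^ 2 := by
  set g : ℝ → ℝ := fun x => 1 + q * x - q / (2 * (q + 1)) * (1 - x) ^ 2 -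
    (q + 1) * x ^ (q / (q + 1)) with hg
  have hder : ∀ x, 0 < x → HasDerivAt g
      (q + q / (q + 1) * (1 - x) - q * x ^ (-(1 / (q + 1)))) x := by
    intro x hx
    have h1 : HasDerivAt (fun x : ℝ => 1 + q * x) q x := by
      simpa using ((hasDerivAt_id x).const_mul q).const_add 1
    have h2 : HasDerivAt (fun x : ℝ => q / (2 * (q + 1)) * (1 - x) ^ 2)
        (q / (2 * (q + 1)) * (2 * (1 - x) * (-1))) x := by
      have h3 : HasDerivAt (fun x : ℝ => 1 - x) (-1) x := by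
        simpa using (hasDerivAt_id x).const_sub 1
      have h4 := (h3.pow 2).const_mul (q / (2 * (q + 1)))
      simpa using h4
    have h5 : HasDerivAt (fun x : ℝ => (q + 1) * x ^ (q / (q + 1)))
        ((q + 1) * (q / (q + 1) * x ^ (q / (q + 1) - 1))) x :=
      (Real.hasDerivAt_rpow_const (Or.inl hx.ne')).const_mul (q + 1)
    have h6 := (h1.sub h2).sub h5
    have e : q - q / (2 * (q + 1)) * (2 * (1 - x) * (-1)) -
        (q + 1) * (q / (q + 1) * x ^ (q / (q + 1) - 1)) =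
        q + q / (q + 1) * (1 - x) - q * x ^ (-(1 / (q + 1))) := by
      have e1 : q / (q + 1) - 1 = -(1 / (q + 1)) := by
        field_simp
        ring
      rw [e1]
      field_simp
      ring
    rw [← e]
    exact h6
  have hanti : AntitoneOn g (Set.Icc u 1) := by
    apply antitoneOn_of_deriv_nonpos (convex_Icc u 1)
    · intro x hx
      exact (hder x (lt_of_lt_of_le hu hx.1)).continuousAt.continuousWithinAt
    · intro x hx
      rw [interior_Icc] at hx
      exact (hder x (lt_trans hu hx.1)).differentiableAt.differentiableWithinAt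
    · intro x hx
      rw [interior_Icc] at hx
      have hx0 : 0 < x := lt_trans hu hx.1
      rw [(hder x hx0).deriv]
      have h1 := rpow_low hq hx0
      have h2 := Real.log_le_sub_one_of_pos hx0
      have h3 : Real.log x / (q + 1) ≤ (x - 1) / (q + 1) :=
        div_le_div_of_nonneg_right h2 (by linarith)
      have h4 : q * (1 + (1 - x) / (q + 1)) ≤ q * x ^ (-(1 / (q + 1))) := by
        apply mul_le_mul_of_nonneg_left _ hq.le
        have : (x - 1) / (q + 1) = -((1 - x) / (q + 1)) := by ring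
        linarith
      have h5 : q * (1 + (1 - x) / (q + 1)) = q + q / (q + 1) * (1 - x) := by ring
      linarith
  have h := hanti (Set.left_mem_Icc.mpr hu1) (Set.right_mem_Icc.mpr hu1) hu1
  simp only [hg] at h
  rw [Real.one_rpow] at h
  linarith

/-- `F_e`: for `q ≥ 50` and `2^(-p) ≤ k ≤ 1`. -/
theorem Phi_second {q k : ℝ} (hq : 50 ≤ q) (hk : (2 : ℝ) ^ (-(q + 1)) ≤ k) (hk1 : k ≤ 1) :
    Phi q k ≤ 1 - 49 / 100 * (1 - k) ^ 2 := by
  have hq0 : 0 < q := by linarith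
  rw [Phi_of_le hk]
  have h := rpow_second hq0 (lt_of_lt_of_le (T0_pos q) hk) hk1
  have h2 : 49 / 100 ≤ q / (2 * (q + 1)) := by
    rw [div_le_div_iff₀ (by norm_num) (by positivity)]
    linarith
  have h3 : 49 / 100 * (1 - k) ^ 2 ≤ q / (2 * (q + 1)) * (1 - k) ^ 2 :=
    mul_le_mul_of_nonneg_right h2 (sq_nonneg _)
  linarith

end Pool.Agent.RieszTr
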