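import Pool.Agent.RieszTr.FF
import Pool.Agent.RieszTr.Split

set_option autoImplicit false

open Real Finset

namespace Pool.Agent.RieszTr

open Pool.Agent.RieszSmall Pool.Agent.RieszLin

section

variable {ι : Type*} [DecidableEq ι]

/-- MODULE RT12. Pure case, one light point against `J`. Put `r = -a j ≥ 0`. If `r ≤ 10^(-7)` then
`r 10^4 ≤ 1/1000 ≤ 1 - κ` and `F_lin` gives `Φ(κ + r 10^4) ≥ Φ(κ) + 0.49 e r 10^4`. If `r > 10^(-7)`:
`F_neg` with `x = r 10^4 ≤ 10^4` (`r ≤ 1`): `≥ Φ(κ) - 301 r 10^4 log (1+10^4)`, `log (1+10^4) ≤ 10`.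
Sum: `∑ ≥ |J| Φ(κ) + 0.49 e 10^4 (1 - 10^(-9)) - 301·10^5·10^(-9)`, `e ≥ 1/300`:
`≥ |J| Φ(κ) + 16.3 - 0.04`. -/
theorem pure_LJ {q m : ℝ} (h : Reg q m) {J : Finset ι} {a : ι → ℝ} (ha : ∀ j ∈ J, a j ≤ 0)
    (hs : ∑ j ∈ J, a j = -1)
    (hb : ∑ j ∈ J.filter (fun j => a j < -(1 / 10 ^ 7)), (-(a j)) ≤ 1 / 10 ^ 9) :
    (J.card : ℝ) * Phi q (kp q m) + 16 ≤ ∑ j ∈ J, Phi q (kp q m - a j * 10 ^ 4) := by
  have he := h.kp_le
  have hsmall : ∀ j ∈ J, -(a j) ≤ 1 / 10 ^ 7 := by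
    intro j hj
    by_contra hlt
    push Not at hlt
    have hmem : j ∈ J.filter (fun j => a j < -(1 / 10 ^ 7)) := by
      rw [Finset.mem_filter]
      exact ⟨hj, by linarith⟩
    have h1 : -(a j) ≤ ∑ j ∈ J.filter (fun j => a j < -(1 / 10 ^ 7)), (-(a j)) := by
      refine Finset.single_le_sum (f := fun j => -(a j)) (fun i hi => ?_) hmem
      have := ha i (Finset.mem_of_mem_filter i hi)
      show 0 ≤ -(a i)
      linarith
    have h2 := h1.trans hb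
    have h3 := hlt.trans_le h2
    norm_num at h3
  have hterm : ∀ j ∈ J, Phi q (kp q m) + 49 / 100 * (1 / 300) * (-(a j) * 10 ^ 4) ≤
      Phi q (kp q m - a j * 10 ^ 4) := by
    intro j hj
    have h0 := ha j hj
    have hs1 := hsmall j hj
    have hx : (0 : ℝ) ≤ -(a j) * 10 ^ 4 := by
      apply mul_nonneg
      · linarith
      · positivity
    have hx1 : -(a j) * 10 ^ 4 ≤ 1 - kp q m := by
      have : -(a j) * 10 ^ 4 ≤ 1 / 10 ^ 7 * 10 ^ 4 := by gcongr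
      have h2 : (1 : ℝ) / 10 ^ 7 * 10 ^ 4 ≤ 1 / 300 := by norm_num
      linarith
    have h4 := h.F_lin hx hx1
    have h5 : kp q m + -(a j) * 10 ^ 4 = kp q m - a j * 10 ^ 4 := by ring
    rw [h5] at h4
    have h6 : 49 / 100 * (1 / 300) * (-(a j) * 10 ^ 4) ≤
        49 / 100 * (1 - kp q m) * (-(a j) * 10 ^ 4) := by
      apply mul_le_mul_of_nonneg_right _ hx
      linarith
    linarith
  have hsum := Finset.sum_le_sum hterm
  rw [Finset.sum_add_distrib, Finset.sum_const, nsmul_eq_mul, ← Finset.mul_sum,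
    ← Finset.sum_mul, Finset.sum_neg_distrib, hs] at hsum
  norm_num at hsum ⊢
  linarith

end

end Pool.Agent.RieszTr
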