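import Pool.Agent.RieszTr.PureHJ
import Pool.Agent.RieszTr.PureLJ
import Pool.Agent.RieszTr.TT

set_option autoImplicit false

open Real Finset

namespace Pool.Agent.RieszTr

open Pool.Agent.RieszSmall Pool.Agent.RieszLin

section

variable {ι : Type*} [Fintype ι] [DecidableEq ι]

/-- The standing assumptions on the three classes: `L` light, `J` negative, `H` positive heavy. -/
structure Part (q m : ℝ) (L J H : Finset ι) (a : ι → ℝ) : Prop where
  card : (Fintype.card ι : ℝ) = m + 2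
  hu : L ∪ J ∪ H = Finset.univ
  d1 : Disjoint L J
  d2 : Disjoint L H
  d3 : Disjoint J H
  light : ∀ z ∈ L, |a z| ≤ kp q m / 10 ^ 20
  lsum : ∑ z ∈ L, |a z| ≤ 2 * 10 ^ 9
  jneg : ∀ j ∈ J, a j ≤ 0
  jsum : ∑ j ∈ J, a j = -1
  hge : ∀ i ∈ H, kp q m / 10 ^ 29 ≤ a i
  hsum : ∑ i ∈ H, a i ≤ 1
  asum : ∑ z ∈ L, a z = 1 - ∑ i ∈ H, a i

/-- MODULE RT15. Assembly of the pure case: `asm` with `OP = 10^4 + e/2`, `Of = 10^4`, `zf = 0`.
`offd J (Φ(κ)) = (y²-y) Φ(κ)`, diagonal part of `J`: `-q y κ`; `pure_LL`, `pure_LJ` (for each of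
the `n` light points), `pure_HL`, `pure_HJ` (for each `i ∈ H`, note `a i ≤ 1` by `hsum` and
positivity). With `N = n + y + h = m + 2`, `π = ∑_H a i ∈ [0,1]`:
`BB ≥ (N² - N) Φ(κ) - q N κ - m/50 + 32 n - 6·10^7 π y - 2·10^41 π Λ/κ`, `32 n ≥ 15.6 m`,
`6·10^7 π y ≤ 0.06 (m+2)`, `2·10^41 Λ/κ ≤ 10^(-50) m`, and `Reg.TT_le`. -/
theorem pure_case {q m : ℝ} (h : Reg q m) {L J H : Finset ι} {a : ι → ℝ}
    (hP : Part q m L J H a) (hn : 49 / 100 * m ≤ L.card) (hn2 : (L.card : ℝ) ≤ m)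
    (hb : ∑ j ∈ J.filter (fun j => a j < -(1 / 10 ^ 7)), (-(a j)) ≤ 1 / 10 ^ 9)
    (hpy : (∑ i ∈ H, a i) * J.card ≤ (m + 2) / 10 ^ 9) :
    ∃ v w : ι → ℝ, TT q m < BB q a v w := by
  obtain ⟨hLa, hkm, hmbig, -, -⟩ := h.big
  have hk : 0 < kp q m := kp_pos h.hm
  have hcard := card_three hP.hu hP.d1 hP.d2 hP.d3
  rw [hP.card] at hcard
  obtain ⟨v, w, hvw⟩ := asm (q := q) (k := kp q m) (OP := 10 ^ 4 + (1 - kp q m) / 2) hk (a := a)
    (fun _ => 10 ^ 4) (fun _ => 0) hP.hu hP.d1 hP.d2 hP.d3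
  refine ⟨v, w, ?_⟩
  rw [hvw]
  have hpos : ∀ i ∈ H, 0 ≤ a i := fun i hi =>
    le_trans (div_nonneg hk.le (by positivity)) (hP.hge i hi)
  have hle1 : ∀ i ∈ H, a i ≤ 1 := fun i hi =>
    (Finset.single_le_sum hpos hi).trans hP.hsum
  have hpi0 : 0 ≤ ∑ i ∈ H, a i := Finset.sum_nonneg hpos
  have hpi1 := hP.hsum
  -- light-light
  have t1 := pure_LL h hn2 hP.light hP.lsum (by rw [hP.asum]; linarith)
  -- light-negative
  have t2 : (L.card : ℝ) * ((J.card : ℝ) * Phi q (kp q m) + 16) ≤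
      ∑ z ∈ L, ∑ j ∈ J, Phi q (kp q m - a j * 10 ^ 4 + a z * 0) := by
    rw [← nsmul_eq_mul, ← Finset.sum_const]
    refine Finset.sum_le_sum fun z _ => ?_
    have := pure_LJ h hP.jneg hP.jsum hb
    simpa only [mul_zero, add_zero] using this
  -- heavy-light
  have t3 : (H.card : ℝ) * ((L.card : ℝ) * Phi q (kp q m)) ≤
      ∑ i ∈ H, ∑ z ∈ L, Phi q (kp q m + a i * ((10 ^ 4 + (1 - kp q m) / 2) - 10 ^ 4)
          - a z * Bq (kp q m) (10 ^ 4 + (1 - kp q m) / 2) (a i)) := by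
    rw [← nsmul_eq_mul, ← Finset.sum_const]
    refine Finset.sum_le_sum fun i hi => ?_
    exact pure_HL h hn hP.light hP.lsum (by rw [hP.asum]; linarith)
      (by rw [hP.asum]; linarith) (hP.hge i hi) (hle1 i hi)
  -- negative-negative
  have t4 : offd J (fun j j' => Phi q (kp q m + a j * 0 + a j' * 0)) =
      ((J.card : ℝ) ^ 2 - J.card) * Phi q (kp q m) := by
    simp only [mul_zero, add_zero]
    exact offd_const J _
  have t4' : ∑ j ∈ J, (kp q m + 2 * a j * 0) = (J.card : ℝ) * kp q m := by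
    simp only [mul_zero, add_zero, Finset.sum_const, nsmul_eq_mul]
  -- heavy-negative
  have t5 : (H.card : ℝ) * ((J.card : ℝ) * Phi q (kp q m))
        - 3 * 10 ^ 7 * ((∑ i ∈ H, a i) * J.card)
        - 10 ^ 41 * (La q m / kp q m * ∑ i ∈ H, a i) ≤
      ∑ i ∈ H, ∑ j ∈ J, Phi q (kp q m + a i * (10 ^ 4 + (1 - kp q m) / 2) + a i * 0
          - a j * Bq (kp q m) (10 ^ 4 + (1 - kp q m) / 2) (a i)) := by
    have e : (H.card : ℝ) * ((J.card : ℝ) * Phi q (kp q m))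
        - 3 * 10 ^ 7 * ((∑ i ∈ H, a i) * J.card)
        - 10 ^ 41 * (La q m / kp q m * ∑ i ∈ H, a i) =
        ∑ i ∈ H, ((J.card : ℝ) * Phi q (kp q m) - 3 * 10 ^ 7 * a i * J.card
          - 10 ^ 41 * (La q m * (a i / kp q m))) := by
      rw [Finset.sum_sub_distrib, Finset.sum_sub_distrib, Finset.sum_const, nsmul_eq_mul,
        ← Finset.sum_mul, ← Finset.mul_sum, ← Finset.mul_sum, ← Finset.mul_sum, ← Finset.sum_div]
      ring
    rw [e]
    exact Finset.sum_le_sum fun i hi => pure_HJ h hP.jneg hP.jsum (hP.hge i hi) (hle1 i hi)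
  have tT := h.TT_le
  obtain ⟨hu1, -, -⟩ := h.use
  have hLk : 0 ≤ La q m / kp q m := div_nonneg (by linarith) hk.le
  have t6 : La q m / kp q m * ∑ i ∈ H, a i ≤ m / 10 ^ 100 :=
    (mul_le_of_le_one_right hLk hpi1).trans hu1
  rw [t4, t4']
  -- abstract the numbers
  generalize hn' : (L.card : ℝ) = n at *
  generalize hy' : (J.card : ℝ) = y at *
  generalize hh' : (H.card : ℝ) = hh at *
  generalize hF : Phi q (kp q m) = F at *
  generalize hK : kp q m = k at *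
  generalize (∑ i ∈ H, a i) * y = py at *
  generalize La q m / k * ∑ i ∈ H, a i = lp at *
  have t6' : 2 * (10 ^ 41 * lp) ≤ m / 10 ^ 50 := by
    have h1 : 10 ^ 41 * lp ≤ 10 ^ 41 * (m / 10 ^ 100) :=
      mul_le_mul_of_nonneg_left t6 (by positivity)
    have h2 : 2 * (10 ^ 41 * (m / 10 ^ 100)) ≤ m / 10 ^ 50 := by
      have h3 : 0 < m := by linarith
      rw [div_eq_mul_inv, div_eq_mul_inv]
      have h4 : 2 * (10 ^ 41 * (m * ((10 : ℝ) ^ 100)⁻¹)) = m * (2 * (10 ^ 41 * ((10 : ℝ) ^ 100)⁻¹)) := by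
        ring
      rw [h4]
      refine mul_le_mul_of_nonneg_left ?_ h3.le
      norm_num
    linarith
  have hm0 : (10 : ℝ) ^ 3 ≤ m := le_trans (by norm_num) hmbig
  have t6'' : m / 10 ^ 50 ≤ m / 100 :=
    div_le_div_of_nonneg_left (by linarith) (by norm_num) (by norm_num)
  have hid : ((m + 2) ^ 2 - (m + 2)) * F - q * (m + 2) * k =
      (n ^ 2 - n) * F - q * n * k + 2 * (n * (y * F)) + 2 * (hh * (n * F))
        + ((y ^ 2 - y) * F - q * (y * k)) + 2 * (hh * (y * F)) + ((hh ^ 2 - hh) * F - q * hh * k) := by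
    rw [hcard]; ring
  have hpy' : 6 * 10 ^ 7 * py ≤ 6 / 100 * (m + 2) := by
    have := mul_le_mul_of_nonneg_left hpy (show (0 : ℝ) ≤ 6 * 10 ^ 7 by norm_num)
    refine this.trans (le_of_eq ?_)
    ring
  have hfin : 7 * m < 32 * n - m / 50 - 6 / 100 * (m + 2) - m / 100 := by
    linarith
  have t7 : 2 * (10 ^ 41 * lp) ≤ m / 100 := t6'.trans t6''
  generalize (10 : ℝ) ^ 41 * lp = l2 at *
  have key : ∀ S1 S2 S3 S5 : ℝ, (n ^ 2 - n) * F - q * n * k - m / 50 ≤ S1 →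
      n * (y * F + 16) ≤ S2 → hh * (n * F) ≤ S3 →
      hh * (y * F) - 3 * 10 ^ 7 * py - l2 ≤ S5 →
      TT q m < S1 + 2 * S2 + 2 * S3 + ((y ^ 2 - y) * F - q * (y * k)) + 2 * S5
        + ((hh ^ 2 - hh) * F - q * hh * k) := by
    intro S1 S2 S3 S5 h1 h2 h3 h5
    rw [hid] at tT
    clear hid t1 t2 t3 t4 t4' t5 t6 t6' t6'' hvw hpy
    have h2' : n * (y * F) + 16 * n ≤ S2 := by
      refine le_trans (le_of_eq ?_) h2
      ring
    linarith
  exact key _ _ _ _ t1 t2 t3 t5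

end

end Pool.Agent.RieszTr
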