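import Pool.Agent.RieszTr.PureHL

set_option autoImplicit false

open Real Finset

namespace Pool.Agent.RieszTr

open Pool.Agent.RieszSmall Pool.Agent.RieszLin

section

variable {ι : Type*} [DecidableEq ι]

namespace PureHJAux

lemma log10002 {y : ℝ} (h0 : 1 ≤ y) (h : y ≤ 10002) : Real.log y ≤ 93 / 10 := by
  have h1 : Real.log y ≤ Real.log 10002 := Real.log_le_log (by linarith) h
  have h2 : Real.log ((10002 : ℝ) ^ 3) ≤ Real.log ((2 : ℝ) ^ 40) :=
    Real.log_le_log (by norm_num) (by norm_num)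
  rw [Real.log_pow, Real.log_pow] at h2
  have h3 := Real.log_two_lt_d9
  push_cast at h2
  linarith

lemma log80 : Real.log (2 * 10 ^ 34 : ℝ) ≤ 80 := by
  have h2 : Real.log (2 * 10 ^ 34 : ℝ) ≤ Real.log ((2 : ℝ) ^ 115) :=
    Real.log_le_log (by norm_num) (by norm_num)
  rw [Real.log_pow] at h2
  have h3 := Real.log_two_lt_d9
  push_cast at h2
  linarith

/-- `log (1+B) ≤ 80 + log (1/κ)` -/
lemma logB {k B p : ℝ} (hk : 0 < k) (hk1 : k ≤ 1) (hp1 : p ≤ 1) (hB0 : 0 ≤ B)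
    (hB : B ≤ 10 ^ 34 * (p / k)) : Real.log (1 + B) ≤ 80 + Real.log (1 / k) := by
  have h1 : 1 ≤ 1 / k := by rw [le_div_iff₀ hk]; linarith
  have h2 : p / k ≤ 1 / k := by gcongr
  have h3 : 1 + B ≤ (2 * 10 ^ 34) * (1 / k) := by nlinarith
  have h4 : Real.log (1 + B) ≤ Real.log ((2 * 10 ^ 34) * (1 / k)) :=
    Real.log_le_log (by linarith) h3
  rw [Real.log_mul (by norm_num) (by positivity)] at h4
  exact h4.trans (add_le_add_left log80 _)

/-- one summand: `x log (1+x)` with `x = u + r B`. -/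
lemma term {u r B lB : ℝ} (hu0 : 0 ≤ u) (hu : u ≤ 10001) (hr0 : 0 ≤ r) (hr1 : r ≤ 1)
    (hB0 : 0 ≤ B) (hlB : Real.log (1 + B) = lB) :
    (u + r * B) * Real.log (1 + (u + r * B))
      ≤ u * (93 / 10 + r * B) + r * B * (93 / 10 + lB) := by
  have hrB : 0 ≤ r * B := mul_nonneg hr0 hB0
  have h1 : Real.log (1 + (u + r * B)) ≤ Real.log (1 + u) + Real.log (1 + r * B) := by
    rw [← Real.log_mul (by positivity) (by positivity)]
    apply Real.log_le_log (by positivity)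
    nlinarith [mul_nonneg hu0 hrB]
  have h2 : Real.log (1 + u) ≤ 93 / 10 := log10002 (by linarith) (by linarith)
  have h3 : Real.log (1 + r * B) ≤ r * B := by
    have := Real.log_le_sub_one_of_pos (show 0 < 1 + r * B by positivity)
    linarith
  have h4 : Real.log (1 + r * B) ≤ lB := by
    rw [← hlB]
    apply Real.log_le_log (by positivity)
    nlinarith
  have h5 : u * Real.log (1 + (u + r * B)) ≤ u * (93 / 10 + r * B) :=
    mul_le_mul_of_nonneg_left (by linarith) hu0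
  have h6 : r * B * Real.log (1 + (u + r * B)) ≤ r * B * (93 / 10 + lB) :=
    mul_le_mul_of_nonneg_left (by linarith) hrB
  linarith

end PureHJAux

/-- MODULE RT14. Pure case, a heavy point of weight `p` against `J`. With `r = -a j ∈ [0,1]`,
`Ω_P = 10^4 + e/2 ≤ 10^4 + 1`, `x = p Ω_P + r B ≥ 0`; `F_neg`: `Φ(κ+x) ≥ Φ(κ) - 301 x log (1+x)`;
`log (1+x) ≤ log (1 + p Ω_P) + log (1 + r B)`, `log (1+pΩ_P) ≤ log (10^4+2) ≤ 9.3`, so
`x log (1+x) ≤ p Ω_P (9.3 + r B) + r B (9.3 + log (1+B))`. Sum over `j` (`∑ r = 1`):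
`≤ 9.3 Ω_P p |J| + Ω_P p B + B (9.3 + log (1+B))`; `301·9.3·(10^4+1) ≤ 3·10^7`;
`B ≤ 10^34 p/κ`, `log (1+B) ≤ log (2·10^34/κ) ≤ 80 + log(1/κ) ≤ 80 Λ`. -/
theorem pure_HJ {q m : ℝ} (h : Reg q m) {J : Finset ι} {a : ι → ℝ} (ha : ∀ j ∈ J, a j ≤ 0)
    (hs : ∑ j ∈ J, a j = -1) {p : ℝ} (hp : kp q m / 10 ^ 29 ≤ p) (hp1 : p ≤ 1) :
    (J.card : ℝ) * Phi q (kp q m) - 3 * 10 ^ 7 * p * J.card
        - 10 ^ 41 * (La q m * (p / kp q m))
      ≤ ∑ j ∈ J, Phi q (kp q m + p * (10 ^ 4 + (1 - kp q m) / 2) + p * 0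
          - a j * Bq (kp q m) (10 ^ 4 + (1 - kp q m) / 2) p) := by
  have hk := kp_pos (q := q) h.hm
  have hk1 := h.kp_le
  obtain ⟨hLa1, -⟩ := h.big
  have hLa : La q m = 1 + Real.log (1 / kp q m) := rfl
  set k := kp q m with hkd
  set OP : ℝ := 10 ^ 4 + (1 - k) / 2 with hOP
  have hOP0 : 0 ≤ OP := by rw [hOP]; linarith
  have hOP1 : OP ≤ 10 ^ 4 + 1 := by rw [hOP]; linarith
  obtain ⟨hB0, hB⟩ := Bq_le h hOP0 hOP1 hp
  rw [← hkd] at hB0 hB
  set B := Bq k OP p with hBd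
  have hp0 : 0 ≤ p := le_trans (by positivity) hp
  have hu0 : 0 ≤ p * OP := mul_nonneg hp0 hOP0
  have hu1 : p * OP ≤ 10001 := by nlinarith
  have hlog := PureHJAux.logB hk (by linarith) hp1 hB0 hB
  set lB := Real.log (1 + B) with hlBd
  have hr1 : ∀ j ∈ J, -a j ≤ 1 := by
    intro j hj
    have h1 : ∑ i ∈ J, -a i = 1 := by rw [Finset.sum_neg_distrib, hs]; norm_num
    have h2 : -a j ≤ ∑ i ∈ J, -a i :=
      Finset.single_le_sum (f := fun i => -a i) (fun i hi => by linarith [ha i hi]) hj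
    linarith
  have key : ∀ j ∈ J, Phi q k - 301 * (p * OP * (93 / 10 + (-a j) * B)
      + (-a j) * B * (93 / 10 + lB)) ≤ Phi q (k + p * OP + p * 0 - a j * B) := by
    intro j hj
    have h0 : 0 ≤ -a j := by linarith [ha j hj]
    have hx : 0 ≤ p * OP + (-a j) * B := by positivity
    have h1 := h.F_neg hx
    rw [← hkd] at h1
    have h2 := PureHJAux.term hu0 hu1 h0 (hr1 j hj) hB0 hlBd.symm
    have h3 : k + p * OP + p * 0 - a j * B = k + (p * OP + (-a j) * B) := by ring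
    rw [h3]
    linarith
  have hsum := Finset.sum_le_sum key
  refine le_trans ?_ hsum
  have h1 : ∑ i ∈ J, -a i = 1 := by rw [Finset.sum_neg_distrib, hs]; norm_num
  have hexp : ∑ j ∈ J, (Phi q k - 301 * (p * OP * (93 / 10 + (-a j) * B)
      + (-a j) * B * (93 / 10 + lB)))
      = (J.card : ℝ) * (Phi q k - 301 * (p * OP * (93 / 10)))
        - 301 * (p * OP * B + B * (93 / 10 + lB)) * ∑ j ∈ J, -a j := by
    rw [Finset.mul_sum, ← nsmul_eq_mul, ← Finset.sum_const, ← Finset.sum_sub_distrib]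
    apply Finset.sum_congr rfl
    intro j _
    ring
  rw [hexp, h1, mul_one]
  have hJ : (0 : ℝ) ≤ J.card := by positivity
  have hA : (J.card : ℝ) * (301 * (p * OP * (93 / 10))) ≤ 3 * 10 ^ 7 * p * J.card := by
    have : 301 * (p * OP * (93 / 10)) ≤ 3 * 10 ^ 7 * p := by nlinarith
    calc (J.card : ℝ) * (301 * (p * OP * (93 / 10))) ≤ (J.card : ℝ) * (3 * 10 ^ 7 * p) :=
          mul_le_mul_of_nonneg_left this hJ
      _ = _ := by ring
  have hC : 301 * (p * OP * B + B * (93 / 10 + lB)) ≤ 10 ^ 41 * (La q m * (p / k)) := by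
    have hlB : lB ≤ 80 * La q m := by
      rw [hLa]
      have : 0 ≤ Real.log (1 / k) := by linarith
      linarith
    have e1 : p * OP * B + B * (93 / 10 + lB) ≤ B * (10100 * La q m) := by
      have : p * OP + (93 / 10 + lB) ≤ 10100 * La q m := by linarith
      calc p * OP * B + B * (93 / 10 + lB) = B * (p * OP + (93 / 10 + lB)) := by ring
        _ ≤ _ := mul_le_mul_of_nonneg_left this hB0
    have e2 : B * (10100 * La q m) ≤ 10 ^ 34 * (p / k) * (10100 * La q m) :=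
      mul_le_mul_of_nonneg_right hB (by linarith)
    have e3 : 0 ≤ La q m * (p / k) := by positivity
    nlinarith
  linarith

end

end Pool.Agent.RieszTr
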