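import Pool.Agent.RieszTr.PureLL
import Pool.Agent.RieszTr.Asm

set_option autoImplicit false

open Real Finset

namespace Pool.Agent.RieszTr

open Pool.Agent.RieszSmall Pool.Agent.RieszLin

section

variable {ι : Type*} [DecidableEq ι]

/-- `B ≤ 10^34 p/κ` if `p ≥ κ/10^29` and `0 ≤ Ω_P ≤ 10^4 + 1`; also `0 ≤ B`. -/
lemma Bq_le {q m OP p : ℝ} (h : Reg q m) (h0 : 0 ≤ OP) (h1 : OP ≤ 10 ^ 4 + 1)
    (hp : kp q m / 10 ^ 29 ≤ p) :
    0 ≤ Bq (kp q m) OP p ∧ Bq (kp q m) OP p ≤ 10 ^ 34 * (p / kp q m) := by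
  have hk0 : 0 < kp q m := kp_pos h.hm
  have hp0 : 0 < p := lt_of_lt_of_le (by positivity) hp
  unfold Bq
  refine ⟨by positivity, ?_⟩
  have hr : 1 ≤ 10 ^ 29 * (p / kp q m) := by
    rw [div_le_iff₀ (by norm_num)] at hp
    rw [← mul_div_assoc, le_div_iff₀ hk0]
    linarith
  have hr0 : 0 < p / kp q m := by positivity
  have h2 : OP ^ 2 * p / (2 * kp q m) = OP ^ 2 / 2 * (p / kp q m) := by
    field_simp
  rw [h2]
  have h3 : OP ^ 2 ≤ (10 ^ 4 + 1) ^ 2 := pow_le_pow_left₀ h0 h1 2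
  have h4 : OP ^ 2 / 2 * (p / kp q m) ≤ (10 ^ 4 + 1) ^ 2 / 2 * (p / kp q m) := by
    apply mul_le_mul_of_nonneg_right _ hr0.le
    linarith
  have h5 : OP ≤ (10 ^ 4 + 1) * (10 ^ 29 * (p / kp q m)) := by
    nlinarith
  have h6 : ((10 ^ 4 + 1) * 10 ^ 29 + (10 ^ 4 + 1) ^ 2 / 2) * (p / kp q m) ≤
      10 ^ 34 * (p / kp q m) := by
    apply mul_le_mul_of_nonneg_right _ hr0.le
    norm_num
  nlinarith

/-- MODULE RT13. Pure case, a heavy point of weight `p` on the side of the light ones, against all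
the light points. `Ω_P = 10^4 + e/2`, `e = 1 - κ`, so `p (Ω_P - 10^4) = p e/2 =: x ∈ [0, e]`.
`Phi_quad` at `K1 = κ + x` (note `0 < K`: `|a z| B ≤ (κ/10^20)(10^4+1+(10^4+1)² p/(2κ)) ≤
κ/2 + x/2`): `Φ(κ + x - a z B) ≥ Φ(κ+x) - sl q K1 a z B - cv q K1 (a z B)²`. Sum over `z`:
`Φ(κ+x) ≥ Φ(κ) + 0.49 e x` (`F_lin`), `0 ≤ sl q K1 ≤ 2Λ`, `0 ≤ ∑ a z ≤ 1`,
`cv q K1 ≤ 2/K1 ≤ 2/x = 4/(p e)`, `∑ a z² ≤ κ/10^20·2·10^9` (`sum_sq_le`), `B ≤ 10^34 p/κ`.
Gain `n·0.49·e²/2·p ≥ 10^(-6) m p`; losses `2Λ B ≤ 2·10^34 Λ p/κ ≤ 10^(-60) m p` and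
`4/(p e) B² κ 2·10^(-11) ≤ 4·300·10^68·2·10^(-11) p/κ ≤ 10^62 p/κ ≤ 10^(-38) m p` (`Reg.use`). -/
theorem pure_HL {q m : ℝ} (h : Reg q m) {L : Finset ι} {a : ι → ℝ}
    (hn : 49 / 100 * m ≤ L.card)
    (ha : ∀ z ∈ L, |a z| ≤ kp q m / 10 ^ 20) (hS : ∑ z ∈ L, |a z| ≤ 2 * 10 ^ 9)
    (hA : 0 ≤ ∑ z ∈ L, a z) (hA1 : ∑ z ∈ L, a z ≤ 1) {p : ℝ} (hp : kp q m / 10 ^ 29 ≤ p)
    (hp1 : p ≤ 1) :
    (L.card : ℝ) * Phi q (kp q m)
      ≤ ∑ z ∈ L, Phi q (kp q m + p * ((10 ^ 4 + (1 - kp q m) / 2) - 10 ^ 4)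
          - a z * Bq (kp q m) (10 ^ 4 + (1 - kp q m) / 2) p) := by
  have hk0 : 0 < kp q m := kp_pos h.hm
  have hkle : kp q m ≤ 1 - 1 / 300 := h.kp_le
  obtain ⟨hLa1, hkm, hm100, hq97, hqLa⟩ := h.big
  obtain ⟨hu1, hu2, hu3⟩ := h.use
  have hq0 : 0 < q := lt_of_lt_of_le (by norm_num) hq97
  have hm0 : 0 < m := lt_of_lt_of_le (by norm_num) hm100
  have hp0 : 0 < p := lt_of_lt_of_le (by positivity) hp
  have he0 : 1 / 300 ≤ 1 - kp q m := by linarith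
  have he1 : 1 - kp q m ≤ 1 := by linarith
  obtain ⟨hB0, hB1⟩ := Bq_le h (OP := 10 ^ 4 + (1 - kp q m) / 2) (by linarith) (by linarith) hp
  have hx : p * ((10 ^ 4 + (1 - kp q m) / 2) - 10 ^ 4) = p * (1 - kp q m) / 2 := by ring
  rw [hx]
  have hBdef : Bq (kp q m) (10 ^ 4 + (1 - kp q m) / 2) p =
      (10 ^ 4 + (1 - kp q m) / 2) + (10 ^ 4 + (1 - kp q m) / 2) ^ 2 * p / (2 * kp q m) := rfl
  generalize hBe : Bq (kp q m) (10 ^ 4 + (1 - kp q m) / 2) p = B at hB0 hB1 hBdef ⊢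
  generalize hxe : p * (1 - kp q m) / 2 = x
  have hx1 : p / 600 ≤ x := by
    rw [← hxe]
    nlinarith
  have hx0 : 0 < x := lt_of_lt_of_le (by positivity) hx1
  have hx2 : x ≤ 1 - kp q m := by
    rw [← hxe]
    nlinarith
  have hK1 : (2 : ℝ) ^ (-(q + 1)) ≤ kp q m + x := by
    have h1 := id_ze (q := q) (m := m)
    have h2 := h.ze_bounds.1
    linarith
  have hLa := h.sl_le (K := kp q m + x) (by linarith) (by linarith)
  have hcv := h.cv_le (K := kp q m + x) (by linarith)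
  -- size of `a z B`
  have haB : ∀ z ∈ L, |a z| * B ≤ kp q m / 2 + x / 2 := by
    intro z hz
    have h1 := ha z hz
    have h2 : |a z| * B ≤ kp q m / 10 ^ 20 * B := mul_le_mul_of_nonneg_right h1 hB0
    have h3 : kp q m / 10 ^ 20 * B = kp q m * (10 ^ 4 + (1 - kp q m) / 2) / 10 ^ 20 +
        (10 ^ 4 + (1 - kp q m) / 2) ^ 2 * p / (2 * 10 ^ 20) := by
      rw [hBdef]
      field_simp
    have h4 : kp q m * (10 ^ 4 + (1 - kp q m) / 2) ≤ kp q m * (10 ^ 4 + 1) :=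
      mul_le_mul_of_nonneg_left (by linarith) hk0.le
    have h5 : (10 ^ 4 + (1 - kp q m) / 2) ^ 2 * p ≤ (10 ^ 4 + 1) ^ 2 * p := by
      apply mul_le_mul_of_nonneg_right _ hp0.le
      exact pow_le_pow_left₀ (by linarith) (by linarith) 2
    have h6 : kp q m * (10 ^ 4 + (1 - kp q m) / 2) / 10 ^ 20 ≤ kp q m / 2 := by
      rw [div_le_iff₀ (by norm_num)]
      nlinarith
    have h7 : (10 ^ 4 + (1 - kp q m) / 2) ^ 2 * p / (2 * 10 ^ 20) ≤ x / 2 := by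
      rw [div_le_iff₀ (by norm_num)]
      nlinarith
    linarith
  have hpt : ∀ z ∈ L, Phi q (kp q m + x) + sl q (kp q m + x) * (-(a z * B)) -
      cv q (kp q m + x) * (a z * B) ^ 2 ≤ Phi q (kp q m + x - a z * B) := by
    intro z hz
    have h1 := haB z hz
    have h2 : a z * B ≤ |a z| * B := mul_le_mul_of_nonneg_right (le_abs_self _) hB0
    have h3 := Phi_quad hq0 hK1 (K := kp q m + x - a z * B) (by linarith)
    have h4 : kp q m + x - a z * B - (kp q m + x) = -(a z * B) := by ring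
    rw [h4, neg_sq] at h3
    exact h3
  have hsum := Finset.sum_le_sum hpt
  have hsq : ∑ z ∈ L, a z ^ 2 ≤ kp q m / 10 ^ 20 * (2 * 10 ^ 9) :=
    sum_sq_le (by positivity) ha hS
  have heq : ∑ z ∈ L, (Phi q (kp q m + x) + sl q (kp q m + x) * (-(a z * B)) -
      cv q (kp q m + x) * (a z * B) ^ 2) =
      (L.card : ℝ) * Phi q (kp q m + x) - sl q (kp q m + x) * (B * ∑ z ∈ L, a z) -
        cv q (kp q m + x) * (B ^ 2 * ∑ z ∈ L, a z ^ 2) := by
    rw [Finset.sum_sub_distrib, Finset.sum_add_distrib, Finset.sum_const, nsmul_eq_mul,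
      Finset.mul_sum, Finset.mul_sum, Finset.mul_sum, Finset.mul_sum, sub_eq_add_neg
        ((L.card : ℝ) * Phi q (kp q m + x)), ← Finset.sum_neg_distrib]
    congr 1
    · congr 1
      apply Finset.sum_congr rfl
      intro z _
      ring
    · apply Finset.sum_congr rfl
      intro z _
      ring
  rw [heq] at hsum
  -- main term
  have hF := h.F_lin hx0.le hx2
  have hmain : (L.card : ℝ) * (Phi q (kp q m) + 49 / 100 * (1 - kp q m) * x) ≤
      (L.card : ℝ) * Phi q (kp q m + x) := mul_le_mul_of_nonneg_left hF (Nat.cast_nonneg _)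
  have hgain : 1 / 10 ^ 6 * (m * p) ≤ (L.card : ℝ) * (49 / 100 * (1 - kp q m) * x) := by
    have h1 : 1 / 300 * (p / 600) ≤ (1 - kp q m) * x :=
      mul_le_mul he0 hx1 (by positivity) (by linarith)
    have h1' : (1 / 90000) * p ≤ 2 * ((1 - kp q m) * x) := by linarith
    have h2 : 49 / 100 * m * (49 / 100 * (1 / 180000 * p)) ≤
        (L.card : ℝ) * (49 / 100 * (1 - kp q m) * x) := by
      apply mul_le_mul hn _ (by positivity) (Nat.cast_nonneg _)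
      nlinarith
    have hmp : 0 < m * p := by positivity
    nlinarith
  -- first loss
  have hB2 : B ≤ 10 ^ 34 * (p / kp q m) := hB1
  have hloss1 : sl q (kp q m + x) * (B * ∑ z ∈ L, a z) ≤ 2 / 10 ^ 66 * (m * p) := by
    have h1 : B * ∑ z ∈ L, a z ≤ B * 1 := mul_le_mul_of_nonneg_left hA1 hB0
    have h2 : sl q (kp q m + x) * (B * ∑ z ∈ L, a z) ≤ (2 * La q m) * B := by
      apply mul_le_mul hLa.2 (by linarith) (mul_nonneg hB0 hA) (by linarith)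
    have h3 : (2 * La q m) * B ≤ (2 * La q m) * (10 ^ 34 * (p / kp q m)) :=
      mul_le_mul_of_nonneg_left hB2 (by linarith)
    have h4 : (2 * La q m) * (10 ^ 34 * (p / kp q m)) = 2 * 10 ^ 34 * p * (La q m / kp q m) := by
      field_simp
    have h5 : 2 * 10 ^ 34 * p * (La q m / kp q m) ≤ 2 * 10 ^ 34 * p * (m / 10 ^ 100) :=
      mul_le_mul_of_nonneg_left hu1 (by positivity)
    have h6 : 2 * 10 ^ 34 * p * (m / 10 ^ 100) = 2 / 10 ^ 66 * (m * p) := by ring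
    linarith
  -- second loss
  have hloss2 : cv q (kp q m + x) * (B ^ 2 * ∑ z ∈ L, a z ^ 2) ≤ 24 / 10 ^ 41 * (m * p) := by
    have h1 : cv q (kp q m + x) ≤ 1200 / p := by
      refine hcv.2.trans ?_
      have h2 : 2 / (kp q m + x) ≤ 2 / (p / 600) :=
        div_le_div_of_nonneg_left (by norm_num) (by positivity) (by linarith)
      have h3 : 2 / (p / 600) = 1200 / p := by
        field_simp
        norm_num
      linarith
    have h2 : B ^ 2 ≤ (10 ^ 34 * (p / kp q m)) ^ 2 := pow_le_pow_left₀ hB0 hB2 2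
    have h3 : B ^ 2 * ∑ z ∈ L, a z ^ 2 ≤
        (10 ^ 34 * (p / kp q m)) ^ 2 * (kp q m / 10 ^ 20 * (2 * 10 ^ 9)) :=
      mul_le_mul h2 hsq (Finset.sum_nonneg fun z _ => sq_nonneg _) (by positivity)
    have h4 : cv q (kp q m + x) * (B ^ 2 * ∑ z ∈ L, a z ^ 2) ≤
        1200 / p * ((10 ^ 34 * (p / kp q m)) ^ 2 * (kp q m / 10 ^ 20 * (2 * 10 ^ 9))) := by
      apply mul_le_mul h1 h3 _ (by positivity)
      exact mul_nonneg (sq_nonneg _) (Finset.sum_nonneg fun z _ => sq_nonneg _)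
    have h5 : 1200 / p * ((10 ^ 34 * (p / kp q m)) ^ 2 * (kp q m / 10 ^ 20 * (2 * 10 ^ 9))) =
        24 * 10 ^ 59 * p * (1 / kp q m) := by
      field_simp
      norm_num
    have h6 : 24 * 10 ^ 59 * p * (1 / kp q m) ≤ 24 * 10 ^ 59 * p * (m / 10 ^ 100) :=
      mul_le_mul_of_nonneg_left hu2 (by positivity)
    have h7 : 24 * 10 ^ 59 * p * (m / 10 ^ 100) = 24 / 10 ^ 41 * (m * p) := by ring
    linarith
  have hmp : 0 < m * p := by positivity
  have hexp : (L.card : ℝ) * (Phi q (kp q m) + 49 / 100 * (1 - kp q m) * x) =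
      (L.card : ℝ) * Phi q (kp q m) + (L.card : ℝ) * (49 / 100 * (1 - kp q m) * x) := by ring
  have hfin : 2 / 10 ^ 66 * (m * p) + 24 / 10 ^ 41 * (m * p) ≤ 1 / 10 ^ 6 * (m * p) := by
    nlinarith
  linarith

end

end Pool.Agent.RieszTr
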